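import Pool.Agent.H26.Stat

open Set Cardinal

namespace Pool.Agent.H26.BTree
open Pool.Agent.H26.Stat

def Lab : Type := {L : Set (ℝ × Bool) // L.Countable ∧ ∀ x, (x, true) ∈ L → (x, false) ∉ L}

instance : Nonempty Lab := ⟨⟨∅, countable_empty, fun _ h => h.elim⟩⟩

theorem mk_cnt {α : Type} (s : Set α) (hs : #s ≤ 𝔠) : #{t : Set α // t ⊆ s ∧ #t ≤ ℵ₀} ≤ 𝔠 :=
  (mk_bounded_subset_le s ℵ₀).trans ((power_le_power_right
    (max_le hs aleph0_le_continuum)).trans continuum_power_aleph0.le)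

theorem mk_Lab : #Lab ≤ 𝔠 := by
  refine le_trans ?_ (mk_cnt (univ : Set (ℝ × Bool)) (by simp [mk_real]))
  exact mk_le_of_injective (f := fun L : Lab =>
    (⟨L.1, subset_univ _, le_aleph0_iff_set_countable.2 L.2.1⟩ :
      {t : Set (ℝ × Bool) // t ⊆ univ ∧ #t ≤ ℵ₀}))
    fun L L' h => Subtype.ext (Subtype.mk.inj h)

/-- two labels that have no common extension -/
def Clash (L L' : Lab) : Prop := ∃ x, (x, true) ∈ L.1 ∧ (x, false) ∈ L'.1

theorem exists_clash (L L' : Lab) : ∃ M M' : Lab, L.1 ⊆ M.1 ∧ L'.1 ⊆ M'.1 ∧ Clash M M' := by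
  have : ¬ (univ : Set ℝ) ⊆ Prod.fst '' (L.1 ∪ L'.1) := fun h =>
    not_countable_univ (((L.2.1.union L'.2.1).image _).mono h)
  obtain ⟨x, -, hx⟩ := not_subset.1 this
  refine ⟨⟨insert (x, true) L.1, L.2.1.insert _, ?_⟩, ⟨insert (x, false) L'.1, L'.2.1.insert _, ?_⟩,
    subset_insert _ _, subset_insert _ _, x, mem_insert _ _, mem_insert _ _⟩
  · rintro y (h | h) (h' | h')
    · simp at h'
    · exact hx ⟨_, Or.inl h', (Prod.ext_iff.1 h).1⟩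
    · simp at h'
    · exact L.2.2 y h h'
  · rintro y (h | h) (h' | h')
    · simp at h
    · simp at h
    · exact hx ⟨_, Or.inr h, (Prod.ext_iff.1 h').1⟩
    · exact L'.2.2 y h h'

variable {K : Type} [LinearOrder K]

structure Cond (a : K → Lab) where
  s : Set K
  m : K
  cnt : s.Countable
  mem : m ∈ s
  le : ∀ x ∈ s, x ≤ m
  cl : ∀ (x : ℕ → K) δ, (∀ n, x n ∈ s) → StrictMono x → IsLUB (range x) δ → δ ∈ s
  mono : ∀ ξ ∈ s, ∀ η ∈ s, ξ ≤ η → (a ξ).1 ⊆ (a η).1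

variable {a : K → Lab}

theorem Cond.eq_of_s {p q : Cond a} (h : p.s = q.s) : p = q := by
  have hm : p.m = q.m := le_antisymm (q.le _ (h ▸ p.mem)) (p.le _ (h ▸ q.mem))
  cases p; cases q; simp only at h hm; subst h; subst hm; rfl

def Ext (p q : Cond a) : Prop := p.s ⊆ q.s ∧ ∀ x ∈ q.s, x ≤ p.m → x ∈ p.s

theorem Ext.refl (p : Cond a) : Ext p p := ⟨subset_rfl, fun _ h _ => h⟩

theorem Ext.m_le {p q : Cond a} (h : Ext p q) : p.m ≤ q.m := q.le _ (h.1 p.mem)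

theorem Ext.trans {p q r : Cond a} (h : Ext p q) (h' : Ext q r) : Ext p r :=
  ⟨h.1.trans h'.1, fun x hx hm => h.2 x (h'.2 x hx (hm.trans h.m_le)) hm⟩

theorem ext_of_le {p q r : Cond a} (h : Ext p r) (h' : Ext q r) (hm : p.m ≤ q.m) : Ext p q :=
  ⟨fun x hx => h'.2 x (h.1 hx) ((p.le x hx).trans hm), fun x hx => h.2 x (h'.1 hx)⟩

theorem eq_of_m {p q r : Cond a} (h : Ext p r) (h' : Ext q r) (hm : p.m = q.m) : p = q :=
  Cond.eq_of_s ((ext_of_le h h' hm.le).1.antisymm (ext_of_le h' h hm.ge).1)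

theorem Ext.lab {p q : Cond a} (h : Ext p q) : (a p.m).1 ⊆ (a q.m).1 :=
  q.mono _ (h.1 p.mem) _ q.mem h.m_le

theorem snoc (p : Cond a) (γ : K) (h : p.m < γ) (hl : (a p.m).1 ⊆ (a γ).1) :
    ∃ q : Cond a, Ext p q ∧ q.m = γ ∧ q.s = insert γ p.s := by
  refine ⟨⟨insert γ p.s, γ, p.cnt.insert _, mem_insert _ _, ?_, ?_, ?_⟩, ⟨subset_insert _ _, ?_⟩,
    rfl, rfl⟩
  · rintro x (rfl | hx)
    · exact le_rfl
    · exact (p.le x hx).trans h.le
  · intro x δ hx hm hδ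
    refine Or.inr (p.cl x δ (fun n => (hx n).resolve_left fun h1 => ?_) hm hδ)
    have h2 := hm (Nat.lt_succ_self n)
    rcases hx (n + 1) with h3 | h3
    · exact lt_irrefl _ (h1 ▸ h3 ▸ h2)
    · exact lt_asymm h (h1 ▸ h2.trans_le (p.le _ h3))
  · rintro ξ (rfl | hξ) η (rfl | hη) hle
    · exact subset_rfl
    · exact (h.not_ge (hle.trans (p.le _ hη))).elim
    · exact (p.mono _ hξ _ p.mem (p.le _ hξ)).trans hl
    · exact p.mono _ hξ _ hη hle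
  · rintro x (rfl | hx) hm
    · exact (h.not_ge hm).elim
    · exact hx

theorem chain {p : ℕ → Cond a} (h : ∀ n, Ext (p n) (p (n + 1))) {m n : ℕ} (hmn : m ≤ n) :
    Ext (p m) (p n) := by
  induction hmn with
  | refl => exact Ext.refl _
  | step _ ih => exact ih.trans (h _)

theorem limit {p : ℕ → Cond a} (h : ∀ n, Ext (p n) (p (n + 1))) (hm : StrictMono fun n => (p n).m)
    {δ : K} (hδ : IsLUB (range fun n => (p n).m) δ) (hl : ∀ n, (a (p n).m).1 ⊆ (a δ).1) :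
    ∃ q : Cond a, ∀ n, Ext (p n) q := by
  have hlt : ∀ n, ∀ x ∈ (p n).s, x < δ := fun n x hx =>
    ((p n).le x hx).trans_lt (lt_of_lub hm hδ n)
  have key : ∀ n k, ∀ x ∈ (p k).s, x ≤ (p n).m → x ∈ (p n).s := fun n k x hx hxm => by
    rcases le_total k n with h' | h'
    · exact (chain h h').1 hx
    · exact (chain h h').2 x hx hxm
  refine ⟨⟨insert δ (⋃ n, (p n).s), δ, (countable_iUnion fun n => (p n).cnt).insert _,
    mem_insert _ _, ?_, ?_, ?_⟩, fun n => ⟨(subset_iUnion (fun n => (p n).s) n).trans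
      (subset_insert _ _), ?_⟩⟩
  · rintro x (rfl | hx)
    · exact le_rfl
    · obtain ⟨n, hn⟩ := mem_iUnion.1 hx
      exact (hlt n x hn).le
  · intro x ε hx hxm hε
    have hle : ∀ n, x n ≤ δ := fun n => by
      rcases hx n with h1 | h1
      · exact h1.le
      · obtain ⟨k, hk⟩ := mem_iUnion.1 h1
        exact (hlt k _ hk).le
    rcases (hε.2 (by rintro _ ⟨n, rfl⟩; exact hle n)).eq_or_lt with h1 | h1
    · exact Or.inl h1
    · obtain ⟨N, hN⟩ := exists_of_lt_lub hδ h1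
      refine Or.inr (mem_iUnion.2 ⟨N, (p N).cl x ε (fun n => ?_) hxm hε⟩)
      have h2 : x n ≤ ε := hε.1 (mem_range_self n)
      rcases hx n with h3 | h3
      · exact ((h3 ▸ h2).not_gt h1).elim
      · obtain ⟨k, hk⟩ := mem_iUnion.1 h3
        exact key N k _ hk (h2.trans hN.le)
  · rintro ξ (rfl | hξ) η (rfl | hη) hle
    · exact subset_rfl
    · obtain ⟨k, hk⟩ := mem_iUnion.1 hη
      exact ((hlt k _ hk).not_ge hle).elim
    · obtain ⟨k, hk⟩ := mem_iUnion.1 hξ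
      exact ((p k).mono _ hk _ (p k).mem ((p k).le _ hk)).trans (hl k)
    · obtain ⟨k, hk⟩ := mem_iUnion.1 hξ
      obtain ⟨j, hj⟩ := mem_iUnion.1 hη
      exact (p j).mono _ (key j k _ hk (hle.trans ((p j).le _ hj))) _ hj hle
  · rintro x (rfl | hx) hxm
    · exact ((lt_of_lub hm hδ n).not_ge hxm).elim
    · obtain ⟨k, hk⟩ := mem_iUnion.1 hx
      exact key n k x hk hxm

variable [Big K]

theorem rank (ξ : K) : #{p : Cond a | p.m ≤ ξ} ≤ 𝔠 := by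
  refine le_trans ?_ (mk_cnt (Iic ξ) (Big.small ξ))
  exact mk_le_of_injective (f := fun p : {p : Cond a | p.m ≤ ξ} =>
    (⟨p.1.s, fun x hx => (p.1.le x hx).trans p.2, le_aleph0_iff_set_countable.2 p.1.cnt⟩ :
      {t : Set K // t ⊆ Iic ξ ∧ #t ≤ ℵ₀}))
    fun p q h => Subtype.ext (Cond.eq_of_s (congrArg Subtype.val h))

theorem rank' (ξ : K) : #{j : ℕ × Cond a | j.2.m ≤ ξ} ≤ 𝔠 := by
  have : {j : ℕ × Cond a | j.2.m ≤ ξ} = (univ : Set ℕ) ×ˢ {p : Cond a | p.m ≤ ξ} := by ext; simp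
  rw [this, mk_setProd]
  exact (mul_le_mul' (countable_le countable_univ) (rank ξ)).trans continuum_mul_self.le

variable (ha : ∀ l, Pos {δ | a δ = l})
include ha

omit [Big K] in
theorem exists_snoc (p : Cond a) (l : Lab) (hl : (a p.m).1 ⊆ l.1) (γ : K) :
    ∃ q : Cond a, Ext p q ∧ γ < q.m ∧ p.m < q.m ∧ a q.m = l ∧ q.s = insert q.m p.s := by
  obtain ⟨δ, hδ, ⟨x, hx, hxl⟩, h⟩ := ha l fun _ => max γ p.m
  have := h _ (lt_of_lub hx hxl 0)
  obtain ⟨q, h1, h2, h3⟩ := snoc p δ ((le_max_right _ _).trans_lt this) (by rw [hδ]; exact hl)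
  subst h2
  exact ⟨q, h1, (le_max_left _ _).trans_lt this, (le_max_right _ _).trans_lt this, hδ, h3⟩

omit [Big K] in
theorem nonempty : Nonempty (Cond a) := by
  obtain ⟨δ, -⟩ := ha (Classical.arbitrary _) id
  refine ⟨⟨{δ}, δ, countable_singleton _, rfl, fun x hx => hx.le, fun x ε hx hm _ => ?_, ?_⟩⟩
  · have := hm Nat.zero_lt_one
    rw [hx 0, hx 1] at this
    exact (lt_irrefl _ this).elim
  · rintro _ rfl _ rfl -; exact subset_rfl

omit ha in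
/-- run a strategy along a cofinal sequence below a closure point -/
theorem run (θ : ℕ → Cond a → K → Cond a) : ∃ g : K → K, ∀ δ, Cof δ → (∀ ξ < δ, g ξ < δ) →
    ∀ p0 : Cond a, p0.m < δ → ∀ I : Cond a → Prop, I p0 →
      (∀ n p γ, I p → I (θ n p γ) ∧ γ < (θ n p γ).m ∧ p.m < (θ n p γ).m) →
      ∃ p : ℕ → Cond a, p 0 = p0 ∧ (∀ n, I (p n) ∧ ∃ γ, p (n + 1) = θ n (p n) γ) ∧
        StrictMono (fun n => (p n).m) ∧ IsLUB (range fun n => (p n).m) δ := by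
  obtain ⟨g, hg⟩ := bound (fun j : (ℕ × Cond a) × K => max j.1.2.m j.2)
    (fun j => (θ j.1.1 j.1.2 j.2).m) (rank_prod (fun j : ℕ × Cond a => j.2.m) rank')
  refine ⟨g, fun δ ⟨x, hx, hl⟩ hcl p0 h0 I hI hθ => ?_⟩
  obtain ⟨p, hp0, hp⟩ : ∃ p : ℕ → Cond a, p 0 = p0 ∧ ∀ n, p (n + 1) = θ n (p n) (x n) :=
    ⟨fun n => Nat.rec p0 (fun n q => θ n q (x n)) n, rfl, fun _ => rfl⟩
  have h1 : ∀ n, I (p n) ∧ (p n).m < δ := by
    intro n
    induction n with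
    | zero => rw [hp0]; exact ⟨hI, h0⟩
    | succ n ih =>
      rw [hp]
      exact ⟨(hθ _ _ _ ih.1).1, (hg ((n, p n), x n) _ le_rfl).trans
        (hcl _ (max_lt ih.2 (lt_of_lub hx hl n)))⟩
  refine ⟨p, hp0, fun n => ⟨(h1 n).1, x n, hp n⟩, strictMono_nat_of_lt_succ fun n => ?_, ?_, ?_⟩
  · simp only [hp]; exact (hθ _ _ _ (h1 n).1).2.2
  · rintro _ ⟨n, rfl⟩; exact (h1 n).2.le
  · intro b hb
    refine hl.2 ?_
    rintro _ ⟨n, rfl⟩
    have := hb (mem_range_self (n + 1))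
    simp only [hp] at this
    exact (hθ _ _ _ (h1 n).1).2.1.le.trans this

theorem baire (D : ℕ → Set (Cond a)) (hd : ∀ n p, ∃ q ∈ D n, Ext p q)
    (ho : ∀ n, ∀ q ∈ D n, ∀ r, Ext q r → r ∈ D n) (p0 : Cond a) :
    ∃ q, Ext p0 q ∧ ∀ n, q ∈ D n := by
  let S : Lab → Cond a → Set K := fun l p0 => {δ | ∃ p : ℕ → Cond a, p 0 = p0 ∧
    (∀ n, Ext (p n) (p (n + 1)) ∧ p (n + 1) ∈ D n ∧ (a (p n).m).1 ⊆ l.1) ∧
      StrictMono (fun n => (p n).m) ∧ IsLUB (range fun n => (p n).m) δ}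
  have h1 : ∃ l, Pos (S l p0) := by
    have : ∀ (n : ℕ) (p : Cond a) (γ : K), ∃ q, Ext p q ∧ q ∈ D n ∧ γ < q.m ∧ p.m < q.m := by
      intro n p γ
      obtain ⟨q, hq, h1, h2, -⟩ := exists_snoc ha p _ subset_rfl γ
      obtain ⟨r, hr, hqr⟩ := hd n q
      exact ⟨r, hq.trans hqr, hr, h1.trans_le hqr.m_le, h2.trans_le hqr.m_le⟩
    choose θ hθ using this
    obtain ⟨g, hg⟩ := run θ
    refine pos_iUnion mk_Lab _ (S := {δ | p0.m < δ ∧ ∀ ξ < δ, g ξ < δ}) (fun g' => ?_) ?_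
    · obtain ⟨δ, h1, h2, h3⟩ := pos_Ioi p0.m fun ξ => max (g ξ) (g' ξ)
      exact ⟨δ, ⟨h1, fun ξ hξ => (le_max_left _ _).trans_lt (h3 ξ hξ)⟩, h2,
        fun ξ hξ => (le_max_right _ _).trans_lt (h3 ξ hξ)⟩
    · rintro δ ⟨h1, h2⟩ hc
      obtain ⟨p, hp0, hp, hm, hl⟩ := hg δ hc h2 p0 h1 (fun _ => True) trivial
        fun n p γ _ => ⟨trivial, (hθ n p γ).2.2⟩
      have he : ∀ n, Ext (p n) (p (n + 1)) ∧ p (n + 1) ∈ D n := fun n => by
        obtain ⟨γ, h⟩ := (hp n).2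
        rw [h]; exact ⟨(hθ _ _ _).1, (hθ _ _ _).2.1⟩
      refine ⟨⟨⋃ n, (a (p n).m).1, countable_iUnion fun n => (a _).2.1, fun x h h' => ?_⟩,
        p, hp0, fun n => ⟨(he n).1, (he n).2, subset_iUnion (fun n => (a (p n).m).1) n⟩, hm, hl⟩
      obtain ⟨i, hi⟩ := mem_iUnion.1 h
      obtain ⟨j, hj⟩ := mem_iUnion.1 h'
      exact (a (p (max i j)).m).2.2 x ((chain (fun n => (he n).1) (le_max_left i j)).lab hi)
        ((chain (fun n => (he n).1) (le_max_right i j)).lab hj)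
  obtain ⟨l, hl⟩ := h1
  have h2 : ∀ (n : ℕ) (p : Cond a) (γ : K), ∃ q, Pos (S l p) →
      Pos (S l q) ∧ Ext p q ∧ q ∈ D n ∧ γ < q.m ∧ p.m < q.m := by
    intro n p γ
    by_cases hp : Pos (S l p)
    swap
    · exact ⟨p, fun h => (hp h).elim⟩
    have hp' : Pos (S l p ∩ Ioi γ) := fun g => by
      obtain ⟨δ, h1, ⟨x, hx, hxl⟩, h3⟩ := hp fun ξ => max (g ξ) γ
      exact ⟨δ, ⟨h1, (le_max_right _ _).trans_lt (h3 _ (lt_of_lub hx hxl 0))⟩, ⟨x, hx, hxl⟩,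
        fun ξ hξ => (le_max_left _ _).trans_lt (h3 ξ hξ)⟩
    obtain ⟨q, hq⟩ := fodor (fun q : Cond a => q.m) rank
      (fun q => {δ | δ ∈ S l q ∧ Ext p q ∧ q ∈ D n ∧ γ < q.m ∧ p.m < q.m}) hp' (by
        rintro δ ⟨⟨r, hr0, hr, hm, hlub⟩, hγ⟩ -
        have hch := fun {i j} => chain (fun n => (hr n).1) (m := i) (n := j)
        obtain ⟨k, hk⟩ := exists_of_lt_lub hlub hγ
        refine ⟨r (k + n + 1), lt_of_lub hm hlub _, ⟨fun i => r (k + n + 1 + i), rfl,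
          fun i => ⟨(hr _).1, ho _ _ (hr i).2.1 _ (hch (by omega)), (hr _).2.2⟩,
          fun i j hij => hm (by omega), ?_, ?_⟩, hr0 ▸ hch (by omega),
          ho _ _ (hr n).2.1 _ (hch (by omega)), hk.trans (hm (by omega)), hr0 ▸ hm (by omega)⟩
        · rintro _ ⟨i, rfl⟩; exact hlub.1 (mem_range_self _)
        · intro b hb
          refine hlub.2 ?_
          rintro _ ⟨i, rfl⟩
          exact (hm.monotone (by omega : i ≤ k + n + 1 + i)).trans (hb (mem_range_self i)))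
    obtain ⟨δ, hδ, -⟩ := hq id
    exact ⟨q, fun _ => ⟨fun g => by
      obtain ⟨δ, h1, h2⟩ := hq g
      exact ⟨δ, h1.1, h2⟩, hδ.2⟩⟩
  choose θ hθ using h2
  obtain ⟨g, hg⟩ := run θ
  obtain ⟨δ, hδ, ⟨x, hx, hxl⟩, hcl⟩ := ha l fun ξ => max (g ξ) p0.m
  obtain ⟨p, hp0, hp, hm, hlub⟩ := hg δ ⟨x, hx, hxl⟩
    (fun ξ hξ => (le_max_left _ _).trans_lt (hcl ξ hξ)) p0
    ((le_max_right _ _).trans_lt (hcl _ (lt_of_lub hx hxl 0))) (fun q => Pos (S l q)) hl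
    fun n p γ h => ⟨(hθ n p γ h).1, (hθ n p γ h).2.2.2⟩
  have he : ∀ n, Ext (p n) (p (n + 1)) ∧ p (n + 1) ∈ D n := fun n => by
    obtain ⟨γ, h⟩ := (hp n).2
    rw [h]; exact ⟨(hθ _ _ _ (hp n).1).2.1, (hθ _ _ _ (hp n).1).2.2.1⟩
  obtain ⟨q, hq⟩ := limit (fun n => (he n).1) hm hlub fun n => by
    obtain ⟨_, ⟨r, hr0, hr, -⟩, -⟩ := (hp n).1 id
    rw [hδ, ← hr0]; exact (hr 0).2.2
  exact ⟨q, hp0 ▸ hq 0, fun n => ho _ _ (he n).2 _ (hq (n + 1))⟩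

end Pool.Agent.H26.BTree
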