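import Mathlib

/-! A `ℚ`-linear functional on `ℝ` killing `1` and not vanishing on any of continuum many
sets of size continuum. -/

namespace Pool.Agent.H26.Bern

open Set Cardinal Submodule

lemma li_of {ι : Type*} [LinearOrder ι] (w : ι → ℝ) (h : ∀ i, w i ∉ span ℚ (w '' Iio i)) :
    LinearIndependent ℚ w := by
  classical
  rw [linearIndependent_iff']
  intro s
  induction s using Finset.induction_on_max with
  | empty => simp
  | insert a s ha ih =>
    intro g hg
    have hna : a ∉ s := fun h' => lt_irrefl _ (ha a h')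
    rw [Finset.sum_insert hna] at hg
    have hga : g a = 0 := by
      by_contra hne
      apply h a
      have h1 : ∑ i ∈ s, g i • w i ∈ span ℚ (w '' Iio a) :=
        sum_mem (fun i hi => smul_mem _ _ (subset_span ⟨i, ha i hi, rfl⟩))
      have h2 : w a = (-(g a)⁻¹) • ∑ i ∈ s, g i • w i := by
        rw [← neg_eq_of_add_eq_zero_right hg, smul_neg, neg_smul, neg_neg, smul_smul,
          inv_mul_cancel₀ hne, one_smul]
      rw [h2]
      exact smul_mem _ _ h1
    rw [hga, zero_smul, zero_add] at hg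
    intro i hi
    rcases Finset.mem_insert.1 hi with rfl | hi
    · exact hga
    · exact ih g hg i hi

lemma card_span (s : Set ℝ) (hne : s.Nonempty) (hs : #s < 𝔠) : #(span ℚ s) < 𝔠 := by
  haveI := hne.to_subtype
  have h1 : #(span ℚ s) ≤ #(s →₀ ℚ) := by
    rw [Finsupp.span_eq_range_linearCombination]
    exact mk_range_le
  rw [mk_finsupp_of_infinite'] at h1
  refine lt_of_le_of_lt h1 (max_lt hs ?_)
  rw [Cardinal.mkRat]
  exact aleph0_lt_continuum

theorem exists_phi {κ : Type} (hκ : #κ ≤ 𝔠) (P : κ → Set ℝ) (hP : ∀ i, 𝔠 ≤ #(P i)) :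
    ∃ φ : ℝ →ₗ[ℚ] ℚ, φ 1 = 0 ∧ ∀ i, ∃ y ∈ P i, φ y = 1 := by
  classical
  obtain ⟨_, _, hord⟩ := exists_ord_eq_type_lt κ
  have hex : ∀ (i : κ) (u : Iio i → ℝ), ∃ y ∈ P i, y ∉ span ℚ (insert 1 (range u)) := by
    intro i u
    by_contra hc
    simp only [not_exists, not_and, not_not] at hc
    have h1 : #(P i) ≤ #(span ℚ (insert 1 (range u))) := mk_le_mk_of_subset hc
    have h2 : #(insert (1 : ℝ) (range u) : Set ℝ) < 𝔠 := by
      refine lt_of_le_of_lt mk_insert_le (add_lt_of_lt aleph0_le_continuum ?_ ?_)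
      · exact lt_of_le_of_lt mk_range_le ((mk_Iio_lt i hord).trans_le hκ)
      · exact one_lt_aleph0.trans aleph0_lt_continuum
    exact absurd ((hP i).trans h1) (not_le.2 (card_span _ (insert_nonempty _ _) h2))
  choose f hf1 hf2 using hex
  let v : κ → ℝ := (wellFounded_lt (α := κ)).fix (fun i w => f i (fun j => w j.1 j.2))
  have hv : ∀ i, v i = f i (fun j => v j.1) := fun i => WellFounded.fix_eq _ _ i
  let w : WithBot κ → ℝ := fun o => WithBot.recBotCoe 1 v o
  have hw : LinearIndependent ℚ w := by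
    refine li_of w ?_
    intro o
    induction o using WithBot.recBotCoe with
    | bot => simp [w]
    | coe i =>
      intro h
      apply hf2 i (fun j => v j.1)
      rw [← hv]
      refine span_mono ?_ h
      rintro _ ⟨o, ho, rfl⟩
      induction o using WithBot.recBotCoe with
      | bot => exact mem_insert _ _
      | coe j => exact mem_insert_of_mem _ ⟨⟨j, WithBot.coe_lt_coe.1 ho⟩, rfl⟩
  obtain ⟨φ, hφ⟩ := LinearMap.exists_extend ((Module.Basis.span hw).constr ℚ
    (fun o => (WithBot.recBotCoe 0 (fun _ => 1) o : ℚ)))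
  have key : ∀ o, φ (w o) = (WithBot.recBotCoe 0 (fun _ => 1) o : ℚ) := by
    intro o
    have := congrArg (fun g => g (Module.Basis.span hw o)) hφ
    simp only [LinearMap.coe_comp, Function.comp_apply, Module.Basis.constr_basis] at this
    rw [← this, Module.Basis.span_apply]
    rfl
  refine ⟨φ, key ⊥, fun i => ⟨v i, ?_, key i⟩⟩
  rw [hv]; exact hf1 _ _

/-- the kernel of a nonzero functional meets every countable intersection of dense open sets -/
theorem baire (φ : ℝ →ₗ[ℚ] ℚ) {ι : Type} [Countable ι] (G : ι → Set ℝ)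
    (ho : ∀ i, IsOpen (G i)) (hd : ∀ i, Dense (G i)) : ∃ z, φ z = 0 ∧ ∀ i, z ∈ G i := by
  classical
  have : ∀ q : ℚ, ∃ t : ℝ, (∃ s, φ s = q) → φ t = q := by
    intro q
    by_cases h : ∃ s, φ s = q
    · obtain ⟨s, hs⟩ := h
      exact ⟨s, fun _ => hs⟩
    · exact ⟨0, fun h' => absurd h' h⟩
  choose t ht using this
  obtain ⟨w, hw⟩ := (dense_iInter_of_isOpen (f := fun p : ℚ × ι => (fun x => x - t p.1) ⁻¹' G p.2)
    (fun p => (ho p.2).preimage (by fun_prop))
    (fun p => (hd p.2).preimage (Homeomorph.subRight (t p.1)).isOpenMap)).nonempty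
  refine ⟨w - t (φ w), by rw [map_sub, ht _ ⟨w, rfl⟩, sub_self], fun i => ?_⟩
  exact mem_iInter.1 hw (φ w, i)

end Pool.Agent.H26.Bern
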