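import Mathlib

set_option autoImplicit false

namespace Pool.Agent.H26.Boom

open FreeGroup hiding norm

abbrev G := FreeGroup Bool

abbrev nm (y : G) : ℕ := FreeGroup.norm y

def lt (t : Bool × Bool) : G := mk [t]

theorem nm_mul (x y : G) : nm (x * y) ≤ nm x + nm y := norm_mul_le x y

theorem norm_lt (t : Bool × Bool) : nm (lt t) ≤ 1 := norm_mk_le

theorem W (t : Bool × Bool) (y : G) :
    (lt t * y).toWord = t :: y.toWord ∨ y.toWord = (t.1, !t.2) :: (lt t * y).toWord := by
  have : (lt t * y).toWord = reduce (t :: y.toWord) := by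
    rw [toWord_mul]; rfl
  rw [this, reduce.cons, reduce_toWord]
  rcases y.toWord with _ | ⟨a, L⟩
  · exact Or.inl rfl
  · dsimp only
    split_ifs with h
    · right
      rw [h.1, h.2, Bool.not_not]
    · exact Or.inl rfl

def ch (d : G → Bool × Bool) (y : G) : Finset (Bool × Bool) :=
  Finset.univ.filter fun t => d (lt t * y) = t

def P (d : G → Bool × Bool) : Prop :=
  (∀ y, 2 ≤ (ch d y).card) ∧ ∃ N, ∀ y, N ≤ nm y → 3 ≤ (ch d y).card

theorem card_le {A B : Finset (Bool × Bool)} (s : Bool × Bool) (h : ∀ t ∈ A, t ≠ s → t ∈ B) :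
    A.card ≤ B.card + 1 :=
  (Finset.card_le_card (fun t ht => by
    by_cases e : t = s
    · simp [e]
    · exact Finset.mem_insert_of_mem (h t ht e))).trans (Finset.card_insert_le s B)

theorem start : ∃ d, P d := by
  have : ∀ y, 3 ≤ (ch (fun y => y.toWord.headI) y).card := by
    intro y
    have := card_le (A := Finset.univ) (B := ch (fun y => y.toWord.headI) y)
      (y.toWord.headI.1, !y.toWord.headI.2) fun t _ ht => by
        rcases W t y with h | h
        · simp [ch, h]
        · simp [h] at ht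
    simp at this
    omega
  exact ⟨_, fun y => (this y).trans' (by norm_num), 0, fun y _ => this y⟩

theorem cross1 {p : List (Bool × Bool)} {t : Bool × Bool} {y : G} (h1 : p <:+ y.toWord)
    (h2 : ¬ p <:+ (lt t * y).toWord) : nm y = p.length ∧ t = (p.headI.1, !p.headI.2) := by
  rcases W t y with h | h
  · exact absurd (h ▸ h1.trans (List.suffix_cons _ _)) h2
  · rw [h, List.suffix_cons_iff] at h1
    have e := h1.resolve_right h2
    exact ⟨by rw [nm, FreeGroup.norm, h, e], by simp [e]⟩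

theorem cross2 {p : List (Bool × Bool)} {t : Bool × Bool} {y : G} (h1 : ¬ p <:+ y.toWord)
    (h2 : p <:+ (lt t * y).toWord) : nm y + 1 = p.length ∧ t = p.headI := by
  rcases W t y with h | h
  · rw [h, List.suffix_cons_iff] at h2
    have e := h2.resolve_right h1
    exact ⟨by simp [nm, FreeGroup.norm, e], by simp [e]⟩
  · exact absurd (h ▸ h2.trans (List.suffix_cons _ _)) h1

theorem big (γ : G) (h : γ ≠ 1) (K m : ℕ) : ∃ n, m ≤ n ∧ K ≤ nm (γ ^ n) := by
  by_contra hn
  push Not at hn
  have hf : {y : G | nm y < K}.Finite :=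
    (List.finite_length_lt (Bool × Bool) K).preimage toWord_injective.injOn
  refine hf.not_infinite (Set.infinite_of_injective_forall_mem (f := fun n => γ ^ (n + m)) ?_
    fun n => hn _ (by omega))
  intro a b e
  have := injective_pow_iff_not_isOfFinOrder.mpr (not_isOfFinOrder_of_isMulTorsionFree h) e
  omega

theorem tri (y h : G) : nm h ≤ nm (y * h⁻¹) + nm y ∧ nm y ≤ nm (y * h⁻¹) + nm h ∧
    nm h ≤ nm y + nm (y * h) := by
  have h1 := norm_mul_le (y * h⁻¹)⁻¹ y
  have h2 := norm_mul_le (y * h⁻¹) h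
  have h3 := norm_mul_le y⁻¹ (y * h)
  rw [norm_inv_eq] at h1 h3
  simp only [mul_inv_rev, inv_inv, inv_mul_cancel_right, inv_mul_cancel_left] at h1 h2 h3
  exact ⟨h1, h2, h3⟩

theorem step (d : G → Bool × Bool) (hd : P d) (γ : G) (R : ℕ) : ∃ d' n, P d' ∧ R ≤ n ∧
    (∀ y, nm y ≤ R → d' y = d y) ∧ ∀ g, nm g ≤ R → d' (g * γ ^ n) = d' g := by
  by_cases hγ : γ = 1
  · exact ⟨d, R, hd, le_rfl, fun _ _ => rfl, fun g _ => by simp [hγ]⟩
  obtain ⟨h2, N, h3⟩ := hd
  obtain ⟨n, hn, hK⟩ := big γ hγ (2 * (N + R + 1)) R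
  generalize e : γ ^ n = h at hK
  obtain ⟨p, hp, hl⟩ : ∃ p, p <:+ h.toWord ∧ p.length = N + R + 1 :=
    ⟨h.toWord.drop (nm h - (N + R + 1)), List.drop_suffix _ _, by
      rw [List.length_drop]; change nm h - _ = _; omega⟩
  have small : ∀ y : G, nm y ≤ R → ¬ p <:+ y.toWord := fun y hy h => by
    have : p.length ≤ nm y := h.length_le
    omega
  have near : ∀ L : List (Bool × Bool), L.length ≤ R → p <:+ (mk L * h).toWord := by
    intro L
    induction L with
    | nil => intro _; rwa [← one_eq_mk, one_mul]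
    | cons t L ih =>
      intro hL
      rw [List.length_cons] at hL
      have : mk (t :: L) * h = lt t * (mk L * h) := by rw [← mul_assoc]; rfl
      rw [this]
      by_contra c
      have := (cross1 (ih (by omega)) c).1
      have := (tri (mk L) h).2.2
      have : nm (mk L) ≤ L.length := norm_mk_le
      omega
  let d' : G → Bool × Bool := fun y => if p <:+ y.toWord then d (y * h⁻¹) else d y
  have k1 : ∀ y t, p <:+ y.toWord → p <:+ (lt t * y).toWord → t ∈ ch d (y * h⁻¹) →
      t ∈ ch d' y := by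
    intro y t _ c ht
    simp only [ch, Finset.mem_filter, Finset.mem_univ, true_and, d', if_pos c] at ht ⊢
    rwa [mul_assoc]
  have k2 : ∀ y t, ¬ p <:+ y.toWord → ¬ p <:+ (lt t * y).toWord → t ∈ ch d y → t ∈ ch d' y := by
    intro y t _ c ht
    simpa only [ch, Finset.mem_filter, Finset.mem_univ, true_and, d', if_neg c] using ht
  have a1 : ∀ y, p <:+ y.toWord → nm y ≠ p.length → (ch d (y * h⁻¹)).card ≤ (ch d' y).card :=
    fun y hy hn => Finset.card_le_card fun t ht =>
      k1 y t hy (by_contra fun c => hn (cross1 hy c).1) ht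
  have a2 : ∀ y, ¬ p <:+ y.toWord → nm y + 1 ≠ p.length → (ch d y).card ≤ (ch d' y).card :=
    fun y hy hn => Finset.card_le_card fun t ht => k2 y t hy (fun c => hn (cross2 hy c).1) ht
  refine ⟨d', n, ⟨fun y => ?_, 2 * N + R + 2 + nm h, fun y hy => ?_⟩, hn,
    fun y hy => if_neg (small y hy), fun g hg => ?_⟩
  · by_cases c : p <:+ y.toWord
    · by_cases c2 : nm y = p.length
      · have := card_le (A := ch d (y * h⁻¹)) (B := ch d' y) _ fun t ht hs =>
          k1 y t c (by_contra fun c' => hs (cross1 c c').2) ht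
        have := (tri y h).1
        have := h3 (y * h⁻¹) (by omega)
        omega
      · exact (h2 _).trans (a1 y c c2)
    · by_cases c2 : nm y + 1 = p.length
      · have := card_le (A := ch d y) (B := ch d' y) _ fun t ht hs =>
          k2 y t c (fun c' => hs (cross2 c c').2) ht
        have := h3 y (by omega)
        omega
      · exact (h2 _).trans (a2 y c c2)
  · have := (tri y h).2.1
    by_cases c : p <:+ y.toWord
    · exact (h3 _ (by omega)).trans (a1 y c (by omega))
    · exact (h3 _ (by omega)).trans (a2 y c (by omega))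
  · have := near g.toWord hg
    rw [mk_toWord] at this
    simp only [e, d', if_pos this, if_neg (small g hg), mul_inv_cancel_right]

theorem limit : ∃ D : G → Bool × Bool, (∀ y, 2 ≤ (ch D y).card) ∧
    ∀ (γ : G) (R : ℕ), ∃ n, R ≤ n ∧ ∀ g, nm g ≤ R → D (g * γ ^ n) = D g := by
  choose f nn h1 h2 h3 h4 using step
  obtain ⟨d0, h0⟩ := start
  obtain ⟨e, he⟩ := exists_surjective_nat G
  let S : ℕ → {d // P d} × ℕ := fun k => Nat.rec (⟨d0, h0⟩, 0) (fun k s =>
    (⟨f s.1.1 s.1.2 (e k.unpair.1) s.2, h1 _ _ _ _⟩,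
      s.2 + nm (e k.unpair.1 ^ nn s.1.1 s.1.2 (e k.unpair.1) s.2) + 1)) k
  have s1 : ∀ k, (S (k + 1)).1.1 = f (S k).1.1 (S k).1.2 (e k.unpair.1) (S k).2 := fun _ => rfl
  have s2 : ∀ k, (S (k + 1)).2 = (S k).2 +
    nm (e k.unpair.1 ^ nn (S k).1.1 (S k).1.2 (e k.unpair.1) (S k).2) + 1 := fun _ => rfl
  have ge : ∀ k, k ≤ (S k).2 := fun k => by
    induction k with
    | zero => exact Nat.zero_le _
    | succ k ih => rw [s2]; omega
  have ag : ∀ k l, k ≤ l → (S k).2 ≤ (S l).2 ∧
      ∀ y, nm y ≤ (S k).2 → (S l).1.1 y = (S k).1.1 y := by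
    intro k l hl
    induction l, hl using Nat.le_induction with
    | base => exact ⟨le_rfl, fun _ _ => rfl⟩
    | succ l _ ih =>
      refine ⟨by rw [s2]; omega, fun y hy => ?_⟩
      rw [s1, h3 _ _ _ _ _ (hy.trans ih.1), ih.2 y hy]
  have D : ∀ k y, nm y ≤ (S k).2 → (S (nm y)).1.1 y = (S k).1.1 y := by
    intro k y hy
    rcases le_total k (nm y) with c | c
    · exact (ag _ _ c).2 y hy
    · exact ((ag _ _ c).2 y (ge _)).symm
  refine ⟨fun y => (S (nm y)).1.1 y, fun y => ?_, fun γ R => ?_⟩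
  · refine ((S (nm y + 1)).1.2.1 y).trans (le_of_eq (congrArg _ (Finset.filter_congr
      fun t _ => ?_)))
    dsimp only
    rw [D (nm y + 1)]
    have := nm_mul (lt t) y
    have := norm_lt t
    have := ge (nm y + 1)
    omega
  · obtain ⟨i, rfl⟩ := he γ
    have hk := (Nat.right_le_pair i R).trans (ge _)
    have e1 := s1 (Nat.pair i R)
    have e2 := s2 (Nat.pair i R)
    rw [Nat.unpair_pair] at e1 e2
    refine ⟨_, hk.trans (h2 _ (S (Nat.pair i R)).1.2 (e i) _), fun g hg => ?_⟩
    have := nm_mul g (e i ^ nn _ (S (Nat.pair i R)).1.2 (e i) (S (Nat.pair i R)).2)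
    dsimp only at e1 e2 ⊢
    rw [D (Nat.pair i R + 1), D (Nat.pair i R + 1), e1, h4 _ _ _ _ _ (hg.trans hk)] <;> omega

end Pool.Agent.H26.Boom
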