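import Mathlib

set_option autoImplicit false

namespace Pool.Agent.H26.Brachy

abbrev M := FreeMagma Bool
abbrev A := MonoidAlgebra (ZMod 2) M

noncomputable def deg (w : A) : ℕ := w.coeff.support.sup FreeMagma.length

theorem le_deg {w : A} {m : M} (h : w.coeff m ≠ 0) : m.length ≤ deg w :=
  Finset.le_sup (f := FreeMagma.length) (Finsupp.mem_support_iff.mpr h)

theorem coeff_eq_zero {w : A} {m : M} (h : deg w < m.length) : w.coeff m = 0 := by
  by_contra h'
  have := le_deg h'
  omega

theorem exists_top {w : A} (h : w ≠ 0) : ∃ m, w.coeff m = 1 ∧ m.length = deg w := by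
  have hne : w.coeff.support.Nonempty := by
    rw [Finsupp.support_nonempty_iff]
    exact fun h' => h (MonoidAlgebra.coeff_eq_zero.mp h')
  obtain ⟨m, hm, e⟩ := Finset.exists_mem_eq_sup _ hne FreeMagma.length
  refine ⟨m, ?_, e.symm⟩
  have := Finsupp.mem_support_iff.mp hm
  revert this
  generalize w.coeff m = t
  revert t
  decide

theorem coeff_mul (a b : A) (m n : M) : (a * b).coeff (m * n) = a.coeff m * b.coeff n := by
  classical
  rw [MonoidAlgebra.coeff_mul_antidiag a b (m * n) {(m, n)}]
  · simp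
  · rintro ⟨p, q⟩
    simp only [Finset.mem_singleton, Prod.mk.injEq]
    constructor
    · rintro ⟨rfl, rfl⟩; rfl
    · intro h
      injection h with h1 h2
      exact ⟨h1, h2⟩

theorem deg_lt (a a' : A) (b c : ZMod 2) (ha : a ≠ 0) (ha' : a' ≠ 0) :
    deg a < deg (c • a + b • a' + a * a') ∧ deg a' < deg (c • a + b • a' + a * a') ∧
      2 ≤ deg (c • a + b • a' + a * a') := by
  obtain ⟨m, hm, em⟩ := exists_top ha
  obtain ⟨n, hn, en⟩ := exists_top ha'
  have p1 := m.length_pos
  have p2 := n.length_pos
  have l : (m * n).length = m.length + n.length := rfl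
  have : (c • a + b • a' + a * a').coeff (m * n) ≠ 0 := by
    simp [coeff_mul, hm, hn, coeff_eq_zero (w := a) (m := m * n) (by omega),
      coeff_eq_zero (w := a') (m := m * n) (by omega)]
  have := le_deg this
  omega

def Rep (w : A) (r : A × A × ZMod 2 × ZMod 2) : Prop :=
  r.1 ≠ 0 ∧ r.2.1 ≠ 0 ∧ w = r.2.2.2 • r.1 + r.2.2.1 • r.2.1 + r.1 * r.2.1

noncomputable def x : A := MonoidAlgebra.single (FreeMagma.of true) 1
noncomputable def y : A := MonoidAlgebra.single (FreeMagma.of false) 1

open Classical in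
noncomputable def g (w : A) : ZMod 2 :=
  if h : ∃ r, Rep w r then
    have _h1 : deg h.choose.1 < deg w := by
      have := h.choose_spec
      conv_rhs => rw [this.2.2]
      exact (deg_lt _ _ _ _ this.1 this.2.1).1
    have _h2 : deg h.choose.2.1 < deg w := by
      have := h.choose_spec
      conv_rhs => rw [this.2.2]
      exact (deg_lt _ _ _ _ this.1 this.2.1).2.1
    h.choose.2.2.2 * g h.choose.1 + h.choose.2.2.1 * g h.choose.2.1 +
      g h.choose.1 * g h.choose.2.1
  else if w = x + y then 1 else 0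
termination_by deg w

theorem z01 (c : ZMod 2) : c = 0 ∨ c = 1 := by revert c; decide

theorem ext' {u v : A} (h : ∀ m, u.coeff m = v.coeff m) : u = v :=
  MonoidAlgebra.coeff_injective (Finsupp.ext h)

theorem aux (μ : A → A → A) (hμ : ∀ u v z, μ (u + v) z = μ u z + μ v z)
    (hne : ∀ (u z : A) (b c : ZMod 2), u ≠ 0 → z ≠ 0 → c • u + b • z + μ u z ≠ 0)
    (a a2 z : A) (b c b2 c2 : ZMod 2) (hz : z ≠ 0)
    (ih : ∀ u, u = a ∨ u = a2 → ∀ (d : A) (b c : ZMod 2), d ≠ 0 → u = c • d + b • z + μ d z →
      g u = c * g d + b * g z + g d * g z)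
    (h : c • a + b • z + μ a z = c2 • a2 + b2 • z + μ a2 z) (ha : a ≠ 0) :
    c * g a + b * g z + g a * g z = c2 * g a2 + b2 * g z + g a2 * g z := by
  have h' : ∀ m, c * a.coeff m + b * z.coeff m + (μ a z).coeff m =
      c2 * a2.coeff m + b2 * z.coeff m + (μ a2 z).coeff m := fun m => by
    simpa using congrArg (fun u : A => u.coeff m) h
  by_cases hd : a + a2 = 0
  · have e : a = a2 := ext' fun m => by
      have := congrArg (fun u : A => u.coeff m) hd
      simp only [MonoidAlgebra.coeff_add, Finsupp.add_apply, MonoidAlgebra.coeff_zero,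
        Finsupp.zero_apply] at this
      revert this
      generalize a.coeff m = s
      generalize a2.coeff m = t
      revert s t
      decide
    subst e
    obtain ⟨m, hm, -⟩ := exists_top ha
    obtain ⟨n, hn, -⟩ := exists_top hz
    by_cases e : a = z
    · subst e
      have := h' m
      rw [hm] at this
      have key : ∀ b c b2 c2 s t : ZMod 2, c * 1 + b * 1 + s = c2 * 1 + b2 * 1 + s →
          c * t + b * t + t * t = c2 * t + b2 * t + t * t := by decide
      exact key _ _ _ _ _ _ this
    · obtain ⟨k, hk⟩ : ∃ k, a.coeff k ≠ z.coeff k := by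
        by_contra hk
        push Not at hk
        exact e (ext' hk)
      have key : ∀ b c b2 c2 p q r u : ZMod 2, (c * 1 + b * p = c2 * 1 + b2 * p ∧
          c * q + b * 1 = c2 * q + b2 * 1 ∧ c * r + b * u = c2 * r + b2 * u ∧
          r ≠ u) → b = b2 ∧ c = c2 := by
        intro b c b2 c2 p q
        revert b c b2 c2
        rcases z01 p with rfl | rfl <;> rcases z01 q with rfl | rfl <;> decide
      have h1 := h' m
      have h2 := h' n
      rw [hm] at h1
      rw [hn] at h2
      obtain ⟨rfl, rfl⟩ := key _ _ _ _ _ _ _ _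
        ⟨add_right_cancel h1, add_right_cancel h2, add_right_cancel (h' k), hk⟩
      rfl
  · have hm : ∀ m, (μ (a + a2) z).coeff m = (μ a z).coeff m + (μ a2 z).coeff m := fun m => by
      rw [hμ]; rfl
    have key : ∀ b c b2 c2 p q r s t : ZMod 2, c * p + b * r + s = c2 * q + b2 * r + t →
        (c + c2) * q = c * (p + q) + (b + b2) * r + (s + t) ∧
        (c + c2) * p = c2 * (p + q) + (b + b2) * r + (s + t) := by decide
    have e1 : (c + c2) • a2 = c • (a + a2) + (b + b2) • z + μ (a + a2) z := ext' fun m => by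
      simpa [hm, mul_add, add_mul] using (key _ _ _ _ _ _ _ _ _ (h' m)).1
    have e2 : (c + c2) • a = c2 • (a + a2) + (b + b2) • z + μ (a + a2) z := ext' fun m => by
      simpa [hm, mul_add, add_mul] using (key _ _ _ _ _ _ _ _ _ (h' m)).2
    rcases z01 (c + c2) with hc | hc
    · rw [hc, zero_smul] at e1
      exact absurd e1.symm (hne _ _ _ _ hd hz)
    · rw [hc, one_smul] at e1 e2
      rw [ih a2 (Or.inr rfl) _ _ _ hd e1, ih a (Or.inl rfl) _ _ _ hd e2]
      have key2 : ∀ b c b2 c2 s t : ZMod 2, c + c2 = 1 →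
          c * (c2 * s + (b + b2) * t + s * t) + b * t + (c2 * s + (b + b2) * t + s * t) * t =
          c2 * (c * s + (b + b2) * t + s * t) + b2 * t + (c * s + (b + b2) * t + s * t) * t := by
        decide
      exact key2 _ _ _ _ _ _ hc

theorem ne_zero_of_deg {w : A} (h : 2 ≤ deg w) : w ≠ 0 := by
  rintro rfl
  simp [deg] at h

theorem top_left (a a' a2 a2' : A) (b c b2 c2 : ZMod 2) (ha : a ≠ 0) (ha' : a' ≠ 0)
    (h : c • a + b • a' + a * a' = c2 • a2 + b2 • a2' + a2 * a2')
    (h1 : deg a' ≤ deg a) (h2 : deg a2 ≤ deg a) (h3 : deg a2' ≤ deg a) : a' = a2' := by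
  obtain ⟨m, hm, em⟩ := exists_top ha
  have k : ∀ n, a'.coeff n = a2.coeff m * a2'.coeff n := by
    intro n
    have p := n.length_pos
    have l : (m * n).length = m.length + n.length := rfl
    have := congrArg (fun u : A => u.coeff (m * n)) h
    simpa [coeff_mul, hm, coeff_eq_zero (w := a) (m := m * n) (by omega),
      coeff_eq_zero (w := a') (m := m * n) (by omega),
      coeff_eq_zero (w := a2) (m := m * n) (by omega),
      coeff_eq_zero (w := a2') (m := m * n) (by omega)] using this
  rcases z01 (a2.coeff m) with e | e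
  · exact absurd (ext' fun n => by simp [k, e]) ha'
  · exact ext' fun n => by simp [k, e]

theorem top_right (a a' a2 a2' : A) (b c b2 c2 : ZMod 2) (ha : a ≠ 0) (ha' : a' ≠ 0)
    (h : c • a + b • a' + a * a' = c2 • a2 + b2 • a2' + a2 * a2')
    (h1 : deg a ≤ deg a') (h2 : deg a2 ≤ deg a') (h3 : deg a2' ≤ deg a') : a = a2 := by
  obtain ⟨m, hm, em⟩ := exists_top ha'
  have k : ∀ n, a.coeff n = a2.coeff n * a2'.coeff m := by
    intro n
    have p := n.length_pos
    have l : (n * m).length = n.length + m.length := rfl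
    have := congrArg (fun u : A => u.coeff (n * m)) h
    simpa [coeff_mul, hm, coeff_eq_zero (w := a) (m := n * m) (by omega),
      coeff_eq_zero (w := a') (m := n * m) (by omega),
      coeff_eq_zero (w := a2) (m := n * m) (by omega),
      coeff_eq_zero (w := a2') (m := n * m) (by omega)] using this
  rcases z01 (a2'.coeff m) with e | e
  · exact absurd (ext' fun n => by simp [k, e]) ha
  · exact ext' fun n => by simp [k, e]

theorem main (N : ℕ) : ∀ (a a' : A) (b c : ZMod 2), a ≠ 0 → a' ≠ 0 →
    deg (c • a + b • a' + a * a') < N →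
    g (c • a + b • a' + a * a') = c * g a + b * g a' + g a * g a' := by
  induction N with
  | zero => intros; omega
  | succ N ih =>
    intro a a' b c ha ha' hN
    have hex : ∃ r, Rep (c • a + b • a' + a * a') r := ⟨(a, a', b, c), ha, ha', rfl⟩
    rw [g, dif_pos hex]
    obtain ⟨h2, h2', h⟩ := hex.choose_spec
    dsimp only
    generalize hex.choose.1 = a2 at *
    generalize hex.choose.2.1 = a2' at *
    generalize hex.choose.2.2.1 = b2 at *
    generalize hex.choose.2.2.2 = c2 at *
    have d1 := deg_lt a a' b c ha ha'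
    have d2 := deg_lt a2 a2' b2 c2 h2 h2'
    rw [← h] at d2
    have L : a' = a2' → c2 * g a2 + b2 * g a2' + g a2 * g a2' =
        c * g a + b * g a' + g a * g a' := by
      rintro rfl
      refine (aux (fun u z => u * z) (fun u v z => add_mul u v z)
        (fun u z b c hu hz => ne_zero_of_deg (deg_lt u z b c hu hz).2.2) a a2 a' b c b2 c2 ha'
        ?_ h ha).symm
      intro u hu d b c hd e
      rw [e]
      apply ih _ _ _ _ hd ha'
      rw [← e]
      rcases hu with rfl | rfl <;> omega
    have R : a = a2 → c2 * g a2 + b2 * g a2' + g a2 * g a2' =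
        c * g a + b * g a' + g a * g a' := by
      rintro rfl
      have := aux (fun u z => z * u) (fun u v z => mul_add z u v)
        (fun u z b c hu hz => by
          rw [add_comm (c • u)]
          exact ne_zero_of_deg (deg_lt z u c b hz hu).2.2) a' a2' a c b c2 b2 ha
        (by
          intro u hu d b c hd e
          rw [add_comm (c • d)] at e
          rw [e, ih _ _ _ _ ha hd (by rw [← e]; rcases hu with rfl | rfl <;> omega)]
          ring)
        (by rw [add_comm (b • a'), add_comm (b2 • a2')]; exact h) ha'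
      linear_combination -this
    by_cases c1 : deg a' ≤ deg a ∧ deg a2 ≤ deg a ∧ deg a2' ≤ deg a
    · exact L (top_left _ _ _ _ _ _ _ _ ha ha' h c1.1 c1.2.1 c1.2.2)
    by_cases c2' : deg a ≤ deg a' ∧ deg a2 ≤ deg a' ∧ deg a2' ≤ deg a'
    · exact R (top_right _ _ _ _ _ _ _ _ ha ha' h c2'.1 c2'.2.1 c2'.2.2)
    by_cases c3 : deg a2' ≤ deg a2 ∧ deg a ≤ deg a2 ∧ deg a' ≤ deg a2
    · exact L (top_left _ _ _ _ _ _ _ _ h2 h2' h.symm c3.1 c3.2.1 c3.2.2).symm
    · exact R (top_right _ _ _ _ _ _ _ _ h2 h2' h.symm (by omega) (by omega) (by omega)).symm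

open Classical in
theorem g_low (w : A) (h : deg w ≤ 1) : g w = if w = x + y then 1 else 0 := by
  rw [g, dif_neg]
  rintro ⟨r, h1, h2, e⟩
  have := (deg_lt _ _ r.2.2.1 r.2.2.2 h1 h2).2.2
  rw [← e] at this
  omega

theorem deg_low (w : A) (h : ∀ p q, w.coeff (p * q) = 0) : deg w ≤ 1 := by
  apply Finset.sup_le
  intro m hm
  cases m with
  | of _ => exact le_rfl
  | mul p q => exact absurd (h p q) (Finsupp.mem_support_iff.mp hm)

theorem x_c (p q : M) : x.coeff (p * q) = 0 := by
  simp [x, Finsupp.single_apply_eq_zero, FreeMagma.mul_eq]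

theorem y_c (p q : M) : y.coeff (p * q) = 0 := by
  simp [y, Finsupp.single_apply_eq_zero, FreeMagma.mul_eq]

theorem x_ne : x ≠ 0 := by simp [x]
theorem y_ne : y ≠ 0 := by simp [y]

theorem g0 : g 0 = 0 := by
  rw [g_low _ (by simp [deg]), if_neg]
  intro h
  have := congrArg (fun u : A => u.coeff (FreeMagma.of true)) h
  have e : (FreeMagma.of true : M) ≠ FreeMagma.of false := by
    intro h
    injection h with h
    cases h
  simp [x, y, Finsupp.single_eq_of_ne e] at this

theorem gx : g x = 0 := by
  rw [g_low _ (deg_low _ x_c), if_neg]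
  simpa using y_ne

theorem gy : g y = 0 := by
  rw [g_low _ (deg_low _ y_c), if_neg]
  simpa using x_ne

theorem gxy : g (x + y) = 1 := by
  rw [g_low _ (deg_low _ fun p q => by simp [x_c, y_c]), if_pos rfl]

theorem g_smul (c : ZMod 2) (a : A) : g (c • a) = c * g a := by
  rcases z01 c with rfl | rfl <;> simp [g0]

theorem g_mul (a a' : A) (b c : ZMod 2) :
    g (c • a + b • a' + a * a') = c * g a + b * g a' + g a * g a' := by
  by_cases ha : a = 0
  · simp [ha, g0, g_smul]
  by_cases ha' : a' = 0
  · simp [ha', g0, g_smul]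
  exact main _ a a' b c ha ha' (Nat.lt_succ_self _)

end Pool.Agent.H26.Brachy
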