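import Mathlib

set_option autoImplicit false

namespace Pool.Agent.H26.ChromRel

open Finset

/-- `Y` shatters an `α`-indexed family inside every set of size at least `s`. -/
def Large {α : Type} (M s : ℕ) (Y : Set (Fin M → Bool)) : Prop :=
  ∀ S : Finset (Fin M), s ≤ S.card →
    ∃ e : α → Fin M, Function.Injective e ∧ (∀ a, e a ∈ S) ∧ ∀ p : α → Bool, ∃ g ∈ Y, ∀ a, g (e a) = p a

theorem part {α : Type} [Fintype α] (r M s : ℕ) (hs : r * Fintype.card α ≤ s) (hM : r * s < M)
    (hsM : s ≤ M) (c : Fin M × (Fin M → Bool) → Fin r) :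
    ∃ t : Fin r, s ≤ (univ.filter fun x : Fin M => ∃ g, c (x, g) = t).card ∧
      Large (α := α) M s {g | ∃ x, c (x, g) = t} := by
  classical
  by_contra hcon
  push Not at hcon
  let A : Fin r → Finset (Fin M) := fun t => univ.filter fun x : Fin M => ∃ g, c (x, g) = t
  have h1 : ∀ t : Fin r, ∃ S : Finset (Fin M), s ≤ S.card ∧ (s ≤ (A t).card →
      ∀ e : α → Fin M, Function.Injective e → (∀ a, e a ∈ S) →
        ∃ p : α → Bool, ∀ g, (∃ x, c (x, g) = t) → ∃ a, g (e a) ≠ p a) := by
    intro t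
    by_cases h : s ≤ (A t).card
    · have := hcon t h
      unfold Large at this
      push Not at this
      obtain ⟨S, hS, h2⟩ := this
      exact ⟨S, hS, fun _ e he hin => h2 e he hin⟩
    · exact ⟨univ, by simpa using hsM, fun h' => absurd h' h⟩
  choose S hS1 hS2 using h1
  obtain ⟨E, hE1, hE2⟩ := (Finset.all_card_le_biUnion_card_iff_exists_injective
    (fun i : Fin r × α => S i.1)).mp (by
      intro I
      rcases I.eq_empty_or_nonempty with rfl | ⟨i, hi⟩
      · simp
      · calc I.card ≤ Fintype.card (Fin r × α) := card_le_univ _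
          _ = r * Fintype.card α := by simp
          _ ≤ s := hs
          _ ≤ (S i.1).card := hS1 _
          _ ≤ _ := card_le_card (subset_biUnion_of_mem (fun i : Fin r × α => S i.1) hi))
  have h2 : ∀ t : Fin r, ∃ p : α → Bool, s ≤ (A t).card →
      ∀ g, (∃ x, c (x, g) = t) → ∃ a, g (E (t, a)) ≠ p a := by
    intro t
    by_cases h : s ≤ (A t).card
    · obtain ⟨p, hp⟩ := hS2 t h (fun a => E (t, a))
        (fun a b hab => by simpa using hE1 hab) (fun a => hE2 (t, a))
      exact ⟨p, fun _ => hp⟩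
    · exact ⟨fun _ => false, fun h' => absurd h' h⟩
  choose p hp using h2
  let g : Fin M → Bool := Function.extend E (fun i => p i.1 i.2) (fun _ => false)
  have hg : ∀ t a, g (E (t, a)) = p t a := fun t a => hE1.extend_apply _ _ (t, a)
  have hx : ∃ x : Fin M, ∀ t, (A t).card < s → x ∉ A t := by
    by_contra hx
    push Not at hx
    have hsub : (univ : Finset (Fin M)) ⊆
        (univ.filter fun t : Fin r => (A t).card < s).biUnion A := by
      intro x _
      obtain ⟨t, ht1, ht2⟩ := hx x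
      exact mem_biUnion.mpr ⟨t, by simpa using ht1, ht2⟩
    have h3 := (card_le_card hsub).trans card_biUnion_le
    have h4 : ∑ t ∈ univ.filter (fun t : Fin r => (A t).card < s), (A t).card ≤
        (univ.filter fun t : Fin r => (A t).card < s).card * s := by
      rw [← smul_eq_mul]
      exact sum_le_card_nsmul _ _ _ (fun t ht => (mem_filter.mp ht).2.le)
    have h5 : (univ.filter fun t : Fin r => (A t).card < s).card ≤ r := by
      simpa using card_le_univ (univ.filter fun t : Fin r => (A t).card < s)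
    have h6 := Nat.mul_le_mul_right s h5
    simp at h3
    omega
  obtain ⟨x, hx⟩ := hx
  by_cases h : s ≤ (A (c (x, g))).card
  · obtain ⟨a, ha⟩ := hp _ h g ⟨x, rfl⟩
    exact ha (hg _ a)
  · exact hx _ (not_le.mp h) (by simp [A])

def Hg (l M : ℕ) : SimpleGraph (Fin l × (Fin M × (Fin M → Bool))) where
  Adj u v := (u.1 < v.1 ∧ v.2.2 u.2.1 = true) ∨ (v.1 < u.1 ∧ u.2.2 v.2.1 = true)
  symm := ⟨fun _ _ h => h.symm⟩
  loopless := ⟨fun _ h => by simp at h⟩

theorem Hg_col (l M : ℕ) : (Hg l M).Colorable l :=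
  ⟨SimpleGraph.Coloring.mk (fun u => u.1) (by
    intro u v h
    rcases h with h | h
    · exact h.1.ne
    · exact h.1.ne')⟩

theorem Hg_mono {α : Type} [Fintype α] (G : SimpleGraph α) (hG : G.Colorable 2) (l r M s : ℕ)
    (hr : r < l) (hs : r * Fintype.card α ≤ s) (hM : r * s < M) (hsM : s ≤ M)
    (c : Fin l × (Fin M × (Fin M → Bool)) → Fin r) :
    ∃ f : G ↪g Hg l M, ∀ x y, c (f x) = c (f y) := by
  classical
  obtain ⟨φ⟩ := hG
  choose t ht1 ht2 using fun i : Fin l => part (α := α) r M s hs hM hsM (fun w => c (i, w))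
  obtain ⟨i, j, hij, hc⟩ : ∃ i j : Fin l, i < j ∧ t i = t j := by
    obtain ⟨i, j, hne, he⟩ := Fintype.exists_ne_map_eq_of_card_lt t (by simpa using hr)
    rcases lt_or_gt_of_ne hne with h | h
    · exact ⟨i, j, h, he⟩
    · exact ⟨j, i, h, he.symm⟩
  obtain ⟨e, he1, he2, he3⟩ := ht2 j _ (ht1 i)
  have h1 : ∀ a, ∃ g, c (i, (e a, g)) = t i := fun a => by simpa using he2 a
  choose gi hgi using h1
  have h2 : ∀ b : α, ∃ w : Fin M × (Fin M → Bool), c (j, w) = t j ∧
      ∀ a, w.2 (e a) = if φ a = 0 then decide (G.Adj a b) else decide (a = b) := by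
    intro b
    obtain ⟨g, ⟨x, hx⟩, hg⟩ := he3 (fun a => if φ a = 0 then decide (G.Adj a b) else decide (a = b))
    exact ⟨(x, g), hx, hg⟩
  choose w hw1 hw2 using h2
  let f : α → Fin l × (Fin M × (Fin M → Bool)) :=
    fun a => if φ a = 0 then (i, (e a, gi a)) else (j, w a)
  have hcol : ∀ a, c (f a) = t i := by
    intro a
    by_cases h : φ a = 0
    · simp [f, h, hgi]
    · simp [f, h, hw1, hc]
  have hφ : ∀ a b, φ a ≠ 0 → φ b ≠ 0 → φ a = φ b := by
    intro a b ha hb
    omega
  refine ⟨⟨⟨f, ?_⟩, ?_⟩, fun x y => (hcol x).trans (hcol y).symm⟩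
  · intro a b hab
    by_cases ha : φ a = 0 <;> by_cases hb : φ b = 0 <;> simp only [f, ha, hb, if_true, if_false] at hab
    · exact he1 (congrArg (fun u => u.2.1) hab)
    · exact absurd (congrArg Prod.fst hab) hij.ne
    · exact absurd (congrArg Prod.fst hab) hij.ne'
    · have h3 : w a = w b := congrArg Prod.snd hab
      have h4 := hw2 a a
      rw [h3, hw2 b a] at h4
      simpa [ha] using h4
  · intro a b
    show (Hg l M).Adj (f a) (f b) ↔ G.Adj a b
    by_cases ha : φ a = 0 <;> by_cases hb : φ b = 0 <;> simp only [f, ha, hb, if_true, if_false, Hg]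
    · have : ¬ G.Adj a b := fun h => φ.valid h (ha.trans hb.symm)
      simp [this]
    · simp [hij, hij.not_gt, hw2, ha]
    · simp [hij, hij.not_gt, hw2, hb, G.adj_comm]
    · have : ¬ G.Adj a b := fun h => φ.valid h (hφ a b ha hb)
      simp [this]

def Hn (l q : ℕ) : SimpleGraph (Fin l ⊕ (Fin (l - 1) × Fin q)) where
  Adj u v := ∃ i j : Fin l, i ≠ j ∧ u = Sum.inl i ∧ v = Sum.inl j
  symm := ⟨by rintro _ _ ⟨i, j, h, rfl, rfl⟩; exact ⟨j, i, h.symm, rfl, rfl⟩⟩
  loopless := ⟨by rintro _ ⟨i, j, h, rfl, h2⟩; exact h (Sum.inl_injective h2)⟩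

theorem Hn_chrom (l q : ℕ) (hl : 2 ≤ l) : (Hn l q).chromaticNumber = l := by
  apply le_antisymm
  · apply SimpleGraph.Colorable.chromaticNumber_le
    refine ⟨SimpleGraph.Coloring.mk (Sum.elim id (fun _ => ⟨0, by omega⟩)) ?_⟩
    rintro _ _ ⟨i, j, h, rfl, rfl⟩
    exact h
  · rw [SimpleGraph.le_chromaticNumber_iff_colorable]
    rintro m ⟨c⟩
    have : Function.Injective (fun i : Fin l => c (Sum.inl i)) := by
      intro i j hij
      by_contra hne
      exact c.valid ⟨i, j, hne, rfl, rfl⟩ hij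
    exact_mod_cast (by simpa using Fintype.card_le_of_injective _ this : l ≤ m)

theorem Hn_upper {α : Type} [Fintype α] [Nontrivial α] (G : SimpleGraph α) (hG : ∀ a b, ¬ G.Adj a b)
    (l : ℕ) (hl : 2 ≤ l) :
    ∃ c : Fin l ⊕ (Fin (l - 1) × Fin (Fintype.card α - 1)) → Fin l,
      ∀ f : G ↪g Hn l (Fintype.card α - 1), ¬ ∀ x y, c (f x) = c (f y) := by
  refine ⟨Sum.elim (fun _ => ⟨0, by omega⟩) (fun u => ⟨u.1.1 + 1, by have := u.1.2; omega⟩), ?_⟩
  intro f hf
  obtain ⟨a, b, hab⟩ := exists_pair_ne α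
  cases ha : f a with
  | inl i =>
    cases hb : f b with
    | inl j =>
      apply hG a b
      rw [← f.map_adj_iff, ha, hb]
      refine ⟨i, j, ?_, rfl, rfl⟩
      rintro rfl
      exact hab (f.injective (ha.trans hb.symm))
    | inr u =>
      have := hf a b
      rw [ha, hb] at this
      simp at this
  | inr u =>
    have h1 : ∀ x, ∃ k, f x = Sum.inr (u.1, k) := by
      intro x
      have := hf a x
      rw [ha] at this
      cases hx : f x with
      | inl j => rw [hx] at this; simp at this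
      | inr v =>
        rw [hx] at this
        simp only [Sum.elim_inr, Fin.mk.injEq, add_left_inj] at this
        exact ⟨v.2, by rw [Fin.ext this]⟩
    choose k hk using h1
    have : Function.Injective k := by
      intro x y hxy
      apply f.injective
      rw [hk, hk, hxy]
    have h2 := Fintype.card_le_of_injective _ this
    have h3 : 1 < Fintype.card α := Fintype.one_lt_card
    simp at h2
    omega

theorem Hn_lower {α : Type} [Fintype α] (G : SimpleGraph α) (hG : ∀ a b, ¬ G.Adj a b)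
    (l r : ℕ) (hr : r < l) (c : Fin l ⊕ (Fin (l - 1) × Fin (Fintype.card α - 1)) → Fin r) :
    ∃ f : G ↪g Hn l (Fintype.card α - 1), ∀ x y, c (f x) = c (f y) := by
  classical
  let ι : Option (Fin (l - 1) × Fin (Fintype.card α - 1)) →
      Fin l ⊕ (Fin (l - 1) × Fin (Fintype.card α - 1)) :=
    fun o => o.elim (Sum.inl ⟨0, by omega⟩) Sum.inr
  have hι : Function.Injective ι := by
    rintro (_ | u) (_ | v) h <;> simp [ι] at h ⊢
    exact h
  obtain ⟨t, ht⟩ := Fintype.exists_lt_card_fiber_of_mul_lt_card (fun o => c (ι o))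
    (n := Fintype.card α - 1) (by
      simp only [Fintype.card_fin, Fintype.card_option, Fintype.card_prod]
      have := Nat.mul_le_mul_right (Fintype.card α - 1) (show r ≤ l - 1 by omega)
      omega)
  obtain ⟨e, he⟩ := Function.Embedding.exists_of_card_le_finset (α := α)
    (s := univ.filter fun o => c (ι o) = t) (by omega)
  have he' : ∀ a, c (ι (e a)) = t := fun a => by
    have := he (Set.mem_range_self a)
    simpa using this
  refine ⟨⟨⟨fun a => ι (e a), hι.comp e.injective⟩, ?_⟩, fun x y => (he' x).trans (he' y).symm⟩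
  intro a b
  show (Hn l _).Adj (ι (e a)) (ι (e b)) ↔ G.Adj a b
  simp only [hG, iff_false]
  rintro ⟨i, j, hij, h1, h2⟩
  apply hij
  cases ha : e a with
  | some u => rw [ha] at h1; simp [ι] at h1
  | none =>
    cases hb : e b with
    | some u => rw [hb] at h2; simp [ι] at h2
    | none =>
      rw [ha] at h1; rw [hb] at h2
      exact Sum.inl_injective (h1.symm.trans h2)

theorem main {α : Type} [Fintype α] [Nontrivial α] (G : SimpleGraph α) (hG : G.Colorable 2)
    (l : ℕ) (hl : 2 ≤ l) :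
    ∃ (β : Type) (_ : Fintype β) (H : SimpleGraph β), H.chromaticNumber = l ∧
      IsLeast {k : ℕ | ∃ c : β → Fin k, ∀ f : G ↪g H, ¬ ∀ x y, c (f x) = c (f y)} l := by
  by_cases hE : ∀ a b, ¬ G.Adj a b
  · refine ⟨_, inferInstance, Hn l (Fintype.card α - 1), Hn_chrom l _ hl, Hn_upper G hE l hl, ?_⟩
    rintro r ⟨c, hc⟩
    by_contra hr
    obtain ⟨f, hf⟩ := Hn_lower G hE l r (not_le.mp hr) c
    exact hc f hf
  · push Not at hE
    obtain ⟨a, b, hab⟩ := hE
    have low : ∀ r, r < l → ∀ c : Fin l × (Fin (l * (l * Fintype.card α) + 1) ×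
        (Fin (l * (l * Fintype.card α) + 1) → Bool)) → Fin r,
        ∃ f : G ↪g Hg l (l * (l * Fintype.card α) + 1), ∀ x y, c (f x) = c (f y) := by
      intro r hr c
      refine Hg_mono G hG l r _ (l * Fintype.card α) hr (Nat.mul_le_mul_right _ hr.le) ?_ ?_ c
      · exact Nat.lt_succ_of_le (Nat.mul_le_mul_right _ hr.le)
      · exact (Nat.le_mul_of_pos_left _ (by omega)).trans (Nat.le_succ _)
    refine ⟨_, inferInstance, Hg l (l * (l * Fintype.card α) + 1), ?_, ?_, ?_⟩
    · apply le_antisymm (Hg_col l _).chromaticNumber_le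
      rw [SimpleGraph.le_chromaticNumber_iff_colorable]
      rintro m ⟨c⟩
      by_contra hm
      obtain ⟨f, hf⟩ := low m (by exact_mod_cast not_le.mp hm) c
      exact c.valid (f.map_adj_iff.mpr hab) (hf a b)
    · obtain ⟨c⟩ := Hg_col l (l * (l * Fintype.card α) + 1)
      exact ⟨c, fun f hf => c.valid (f.map_adj_iff.mpr hab) (hf a b)⟩
    · rintro r ⟨c, hc⟩
      by_contra hr
      obtain ⟨f, hf⟩ := low r (not_le.mp hr) c
      exact hc f hf

end Pool.Agent.H26.ChromRel
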