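import Mathlib

set_option autoImplicit false

namespace Pool.Agent.H26.CritUnion

open SimpleGraph

def OddLoop {W : Type} (G : SimpleGraph W) (c : ℕ) : Prop :=
  Odd c ∧ ∃ p : ℕ → W, p c = p 0 ∧ ∀ i < c, G.Adj (p i) (p (i + 1))

theorem exists_inj_loop {W : Type} (G : SimpleGraph W) (h : ¬ G.Colorable 2) :
    ∃ c, Odd c ∧ ∃ p : ℕ → W, p c = p 0 ∧ (∀ i < c, G.Adj (p i) (p (i + 1))) ∧
      ∀ i < c, ∀ j < c, p i = p j → i = j := by
  classical
  have hex : ∃ c, OddLoop G c := by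
    rw [two_colorable_iff_forall_loop_even] at h
    push Not at h
    obtain ⟨u, w, hw⟩ := h
    exact ⟨w.length, Nat.not_even_iff_odd.mp hw, w.getVert, by simp,
      fun i hi => w.adj_getVert_succ hi⟩
  obtain ⟨hodd, p, hp0, hp⟩ := Nat.find_spec hex
  have hmin := fun m (hm : m < Nat.find hex) => Nat.find_min hex hm
  set c := Nat.find hex
  have key : ∀ i j, i < j → j < c → p i ≠ p j := by
    intro i j hij hj he
    rcases Nat.even_or_odd (j - i) with hev | hod
    · apply hmin (c - (j - i)) (by omega)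
      refine ⟨Nat.Odd.sub_even (by omega) hodd hev,
        fun t => if t ≤ i then p t else p (t + (j - i)), ?_, ?_⟩
      · have h1 : ¬ (c - (j - i) ≤ i) := by omega
        have h2 : c - (j - i) + (j - i) = c := by omega
        simp [h1, h2, hp0]
      · intro t ht
        by_cases h1 : t + 1 ≤ i
        · have h2 : t ≤ i := by omega
          simp only [h1, h2, if_true]
          exact hp t (by omega)
        · by_cases h2 : t ≤ i
          · have h3 : t = i := by omega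
            simp only [h1, h2, if_true, if_false]
            rw [h3, he, show i + 1 + (j - i) = j + 1 by omega]
            exact hp j hj
          · simp only [h1, h2, if_false]
            rw [show t + 1 + (j - i) = t + (j - i) + 1 by omega]
            exact hp _ (by omega)
    · apply hmin (j - i) (by omega)
      refine ⟨hod, fun t => p (i + t), ?_, ?_⟩
      · simp [show i + (j - i) = j by omega, he]
      · intro t ht
        exact hp (i + t) (by omega)
  refine ⟨c, hodd, p, hp0, hp, fun i hi j hj he => ?_⟩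
  rcases lt_trichotomy i j with h | h | h
  · exact absurd he (key i j h hj)
  · exact h
  · exact absurd he.symm (key j i h hi)

theorem crit_three {W : Type} (G : SimpleGraph W) (h3 : G.chromaticNumber = 3)
    (hc : ∀ H : G.Subgraph, H ≠ ⊤ → H.coe.chromaticNumber < 3) :
    ∃ c, Odd c ∧ ∃ P : ℕ → W, (∀ i j, P i = P j ↔ i % c = j % c) ∧
      ∀ x y, G.Adj x y → ∃ i, (x = P i ∧ y = P (i + 1)) ∨ (y = P i ∧ x = P (i + 1)) := by
  have h2 : ¬ G.Colorable 2 := by
    intro h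
    have := h.chromaticNumber_le
    rw [h3] at this
    exact absurd this (by decide)
  obtain ⟨c, hodd, p, hp0, hp, hinj⟩ := exists_inj_loop G h2
  have hcpos : 0 < c := hodd.pos
  have hsucc : ∀ i < c, p ((i + 1) % c) = p (i + 1) := by
    intro i hi
    by_cases h : i + 1 < c
    · rw [Nat.mod_eq_of_lt h]
    · rw [show i + 1 = c by omega, Nat.mod_self, hp0]
  refine ⟨c, hodd, fun i => p (i % c), fun i j => ⟨fun h => hinj _ (Nat.mod_lt _ hcpos) _
    (Nat.mod_lt _ hcpos) h, fun h => by simp only [h]⟩, ?_⟩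
  let H : G.Subgraph :=
    { verts := Set.univ
      Adj := fun x y => ∃ i < c, (x = p i ∧ y = p (i + 1)) ∨ (y = p i ∧ x = p (i + 1))
      adj_sub := by
        rintro x y ⟨i, hi, ⟨rfl, rfl⟩ | ⟨rfl, rfl⟩⟩
        · exact hp i hi
        · exact (hp i hi).symm
      edge_vert := fun _ => trivial
      symm := ⟨by rintro x y ⟨i, hi, h⟩; exact ⟨i, hi, h.symm⟩⟩ }
  have hH : H = ⊤ := by
    by_contra hne
    have h1 := hc H hne
    have h4 : H.coe.Colorable 2 := by
      rw [← chromaticNumber_le_iff_colorable]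
      exact Order.le_of_lt_succ h1
    obtain ⟨φ⟩ := h4
    have h5 : ∀ i ≤ c, (φ ⟨p i, trivial⟩ = φ ⟨p 0, trivial⟩ ↔ i % 2 = 0) := by
      intro i hi
      induction i with
      | zero => simp
      | succ i ih =>
        have h6 := ih (by omega)
        have h7 : φ ⟨p i, trivial⟩ ≠ φ ⟨p (i + 1), trivial⟩ :=
          φ.valid (show H.Adj (p i) (p (i + 1)) from ⟨i, by omega, Or.inl ⟨rfl, rfl⟩⟩)
        revert h6 h7
        generalize φ ⟨p i, trivial⟩ = a
        generalize φ ⟨p (i + 1), trivial⟩ = b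
        generalize φ ⟨p 0, trivial⟩ = d
        intro h6 h7
        omega
    have h8 := (h5 c le_rfl).mp (by simp only [hp0])
    obtain ⟨k, hk⟩ := hodd
    omega
  intro x y hxy
  have : H.Adj x y := by rw [hH]; exact hxy
  obtain ⟨i, hi, h⟩ := this
  refine ⟨i, ?_⟩
  simp only [Nat.mod_eq_of_lt hi, hsucc i hi]
  exact h

section Main
variable {V : Type} (C G : SimpleGraph V) (c : ℕ) (P : ℕ → V)

def X (s : ℕ) : Set V := {x | ∃ k < c, k % 2 = 0 ∧ x = P (s + k)}

variable {c P}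

theorem mem_X (hP : ∀ i j, P i = P j ↔ i % c = j % c) (s k : ℕ) (hk : k < c) :
    P (s + k) ∈ X c P s ↔ k % 2 = 0 := by
  constructor
  · rintro ⟨k', hk', h1, h2⟩
    have h3 : s + k ≡ s + k' [MOD c] := (hP _ _).mp h2
    have h4 : k % c = k' % c := Nat.ModEq.add_left_cancel' s h3
    rw [Nat.mod_eq_of_lt hk, Nat.mod_eq_of_lt hk'] at h4
    rw [h4, h1]
  · intro h
    exact ⟨k, hk, h, rfl⟩

theorem glue (hodd : Odd c) (hP : ∀ i j, P i = P j ↔ i % c = j % c)
    (hC : ∀ x y, C.Adj x y → ∃ i, (x = P i ∧ y = P (i + 1)) ∨ (y = P i ∧ x = P (i + 1)))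
    (s a b : ℕ) (ψ₁ : V → Fin a) (ψ₂ : V → Fin b)
    (h1 : ∀ x ∈ X c P s, ∀ y ∈ X c P s, G.Adj x y → ψ₁ x ≠ ψ₁ y)
    (h2 : ∀ x ∉ X c P s, ∀ y ∉ X c P s, G.Adj x y → ψ₂ x ≠ ψ₂ y)
    (h3 : ψ₁ (P (s + (c - 1))) ≠ ψ₁ (P s)) : (C ⊔ G).Colorable (a + b) := by
  classical
  have hcpos : 0 < c := hodd.pos
  obtain ⟨m, hm⟩ := hodd
  let φ : V → Fin a ⊕ Fin b := fun x => if x ∈ X c P s then Sum.inl (ψ₁ x) else Sum.inr (ψ₂ x)
  have hedge : ∀ i, φ (P i) ≠ φ (P (i + 1)) := by
    intro i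
    obtain ⟨k, hk, hi⟩ : ∃ k < c, (s + k) % c = i % c := by
      refine ⟨(i + (c - 1) * s) % c, Nat.mod_lt _ hcpos, ?_⟩
      rw [Nat.add_mod_mod]
      have : s + (i + (c - 1) * s) = i + c * s := by
        obtain ⟨d, rfl⟩ : ∃ d, c = d + 1 := ⟨c - 1, by omega⟩
        simp; ring
      rw [this, Nat.add_mul_mod_self_left]
    have e1 : P i = P (s + k) := (hP _ _).mpr hi.symm
    have e2 : P (i + 1) = P (s + (k + 1)) := by
      apply (hP _ _).mpr
      rw [← add_assoc, Nat.add_mod, ← hi, ← Nat.add_mod]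
    rw [e1, e2]
    by_cases hk1 : k + 1 < c
    · have m1 := mem_X hP s k hk
      have m2 := mem_X hP s (k + 1) hk1
      by_cases hpar : k % 2 = 0
      · have : ¬ (k + 1) % 2 = 0 := by omega
        simp [φ, m1, m2, hpar, this]
      · have : (k + 1) % 2 = 0 := by omega
        simp [φ, m1, m2, hpar, this]
    · have e3 : k = c - 1 := by omega
      have e4 : P (s + (k + 1)) = P s := by
        apply (hP _ _).mpr
        rw [show k + 1 = c by omega, Nat.add_mod_right]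
      have m1 := (mem_X hP s k hk).mpr (by omega)
      have m2 : P s ∈ X c P s := (mem_X hP s 0 hcpos).mpr rfl
      rw [e4]
      simp only [φ, m1, m2, if_true, ne_eq, Sum.inl.injEq]
      rw [e3]; exact h3
  have hcol : (C ⊔ G).Coloring (Fin a ⊕ Fin b) := Coloring.mk φ (by
    intro x y hxy
    rcases hxy with hxy | hxy
    · obtain ⟨i, ⟨rfl, rfl⟩ | ⟨rfl, rfl⟩⟩ := hC x y hxy
      · exact hedge i
      · exact (hedge i).symm
    · by_cases hx : x ∈ X c P s <;> by_cases hy : y ∈ X c P s <;> simp only [φ, hx, hy, if_true,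
        if_false, ne_eq, Sum.inl.injEq, Sum.inr.injEq, reduceCtorEq, not_false_eq_true]
      · exact h1 x hx y hy hxy
      · exact h2 x hx y hy hxy)
  simpa using hcol.colorable

theorem main (hodd : Odd c) (hc3 : 3 ≤ c) (hP : ∀ i j, P i = P j ↔ i % c = j % c)
    (hC : ∀ x y, C.Adj x y → ∃ i, (x = P i ∧ y = P (i + 1)) ∨ (y = P i ∧ x = P (i + 1)))
    (m : ℕ) (hm : 3 ≤ m) (hall : G.Colorable (m + 1))
    (hedge : ∀ a b, G.Adj a b → ∃ ψ : V → Fin m, ∀ x y, G.Adj x y → ¬ (x = a ∧ y = b) →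
      ¬ (x = b ∧ y = a) → ψ x ≠ ψ y) :
    (C ⊔ G).Colorable (2 * m) := by
  classical
  by_contra hcon
  have hc2 : c % 2 = 1 := Nat.odd_iff.mp hodd
  have hne : ∀ s, P (s + (c - 1)) ≠ P s := by
    intro s h
    have h3 : s + (c - 1) ≡ s + 0 [MOD c] := (hP _ _).mp h
    have h4 : (c - 1) % c = 0 % c := Nat.ModEq.add_left_cancel' s h3
    rw [Nat.mod_eq_of_lt (by omega), Nat.zero_mod] at h4
    omega
  have hcompl : ∀ s, ∃ ψ₂ : V → Fin m, ∀ x ∉ X c P s, ∀ y ∉ X c P s, G.Adj x y → ψ₂ x ≠ ψ₂ y := by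
    intro s
    by_cases h : ∃ a ∈ X c P s, ∃ b, G.Adj a b
    · obtain ⟨a, ha, b, hab⟩ := h
      obtain ⟨ψ, hψ⟩ := hedge a b hab
      exact ⟨ψ, fun x hx y hy hxy => hψ x y hxy (fun h => hx (h.1 ▸ ha)) (fun h => hy (h.2 ▸ ha))⟩
    · exfalso
      obtain ⟨φ⟩ := hall
      apply hcon
      refine (glue C G hodd hP hC s 2 (m + 1) (fun x => if x = P s then 0 else 1) φ
        (fun x hx y _ hxy => absurd ⟨x, hx, y, hxy⟩ h) (fun x _ y _ hxy => φ.valid hxy) ?_).mono
        (by omega)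
      simp [hne s]
  have hforce : ∀ s (ψ : V → Fin m), (∀ x ∈ X c P s, ∀ y ∈ X c P s, G.Adj x y → ψ x ≠ ψ y) →
      ψ (P (s + (c - 1))) = ψ (P s) := by
    intro s ψ hψ
    by_contra h
    obtain ⟨ψ₂, h2⟩ := hcompl s
    exact hcon ((glue C G hodd hP hC s m m ψ ψ₂ hψ h2 h).mono (by omega))
  have hleft : ∀ e1 e2 e, e1 < e2 → e2 < e → e < c → e1 % 2 = 0 → e % 2 = 0 →
      G.Adj (P e1) (P e) → ¬ G.Adj (P e2) (P e) := by
    intro e1 e2 e h12 h2 he p1 pe hab hadj
    obtain ⟨ψ, hψ⟩ := hedge _ _ hab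
    have step : ∀ i, e1 ≤ i → i < e → ψ (P i) = ψ (P (i + 1)) := by
      intro i hi1 hi2
      have e0 : P (i + 1 + (c - 1)) = P i := by
        apply (hP _ _).mpr
        rw [show i + 1 + (c - 1) = i + c by omega, Nat.add_mod_right]
      rw [← e0]
      apply hforce
      have ma : P e1 ∈ X c P (i + 1) ↔ (e1 + c - (i + 1)) % 2 = 0 := by
        rw [← mem_X hP (i + 1) _ (by omega)]
        have : P (i + 1 + (e1 + c - (i + 1))) = P e1 := by
          apply (hP _ _).mpr
          rw [show i + 1 + (e1 + c - (i + 1)) = e1 + c by omega, Nat.add_mod_right]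
        rw [this]
      have mb : P e ∈ X c P (i + 1) ↔ (e - (i + 1)) % 2 = 0 := by
        rw [← mem_X hP (i + 1) _ (by omega), show i + 1 + (e - (i + 1)) = e by omega]
      have hno : ¬ (P e1 ∈ X c P (i + 1) ∧ P e ∈ X c P (i + 1)) := by
        rw [ma, mb]; omega
      intro x hx y hy hxy
      exact hψ x y hxy (fun h => hno ⟨h.1 ▸ hx, h.2 ▸ hy⟩) (fun h => hno ⟨h.2 ▸ hy, h.1 ▸ hx⟩)
    have arc : ∀ d, e2 + d ≤ e → ψ (P e2) = ψ (P (e2 + d)) := by
      intro d
      induction d with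
      | zero => intro _; rfl
      | succ d ih => intro hd; rw [ih (by omega), step (e2 + d) (by omega) (by omega), add_assoc]
    have h5 := arc (e - e2) (by omega)
    rw [show e2 + (e - e2) = e by omega] at h5
    refine hψ _ _ hadj ?_ ?_ h5
    · rintro ⟨h, -⟩
      have := (hP _ _).mp h
      rw [Nat.mod_eq_of_lt (by omega), Nat.mod_eq_of_lt (by omega)] at this
      omega
    · rintro ⟨h, -⟩
      have := (hP _ _).mp h
      rw [Nat.mod_eq_of_lt (by omega), Nat.mod_eq_of_lt (by omega)] at this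
      omega
  have hcol : ∀ n ≤ c, ∃ col : ℕ → Bool, ∀ e' e, e' < e → e < n → e' % 2 = 0 → e % 2 = 0 →
      G.Adj (P e') (P e) → col e' ≠ col e := by
    intro n
    induction n with
    | zero => intro _; exact ⟨fun _ => true, fun _ _ _ h => absurd h (by omega)⟩
    | succ n ih =>
      intro hn
      obtain ⟨col, hcol⟩ := ih (by omega)
      by_cases h : ∃ e' < n, e' % 2 = 0 ∧ n % 2 = 0 ∧ G.Adj (P e') (P n)
      · obtain ⟨e0, h0, p0, pn, a0⟩ := h
        refine ⟨Function.update col n (!col e0), fun e' e h1 h2 p1 p2 hadj => ?_⟩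
        by_cases he : e = n
        · subst he
          have : e' = e0 := by
            rcases lt_trichotomy e' e0 with h | h | h
            · exact absurd a0 (hleft e' e0 e h h0 (by omega) p1 p2 hadj)
            · exact h
            · exact absurd hadj (hleft e0 e' e h h1 (by omega) p0 p2 a0)
          subst this
          rw [Function.update_self, Function.update_of_ne h1.ne]
          simp
        · rw [Function.update_of_ne he, Function.update_of_ne (by omega)]
          exact hcol e' e h1 (by omega) p1 p2 hadj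
      · refine ⟨col, fun e' e h1 h2 p1 p2 hadj => ?_⟩
        by_cases he : e = n
        · subst he
          exact absurd ⟨e', h1, p1, p2, hadj⟩ h
        · exact hcol e' e h1 (by omega) p1 p2 hadj
  obtain ⟨col, hcol⟩ := hcol c le_rfl
  let ψ : V → Fin 3 := fun x => if x = P (0 + (c - 1)) then 2 else
    if ∃ k < c, x = P k ∧ col k = true then 1 else 0
  have hψ : ∀ k < c, P k ≠ P (0 + (c - 1)) → ψ (P k) = if col k = true then 1 else 0 := by
    intro k hk hn
    have : (∃ k' < c, P k = P k' ∧ col k' = true) ↔ col k = true := by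
      constructor
      · rintro ⟨k', hk', h1, h2⟩
        have := (hP _ _).mp h1
        rw [Nat.mod_eq_of_lt hk, Nat.mod_eq_of_lt hk'] at this
        rw [this, h2]
      · intro h; exact ⟨k, hk, rfl, h⟩
    simp only [ψ, hn, if_false, this]
  have hψ2 : ∀ x, x ≠ P (0 + (c - 1)) → ψ x ≠ ψ (P (0 + (c - 1))) := by
    intro x hx
    simp only [ψ, hx, if_false, if_true]
    split_ifs <;> decide
  obtain ⟨ψ₂, h2⟩ := hcompl 0
  apply hcon
  refine (glue C G hodd hP hC 0 3 m ψ ψ₂ ?_ h2 (hψ2 _ (hne 0).symm).symm).mono (by omega)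
  rintro x ⟨k, hk, pk, rfl⟩ y ⟨k', hk', pk', rfl⟩ hxy
  rw [zero_add] at hxy ⊢
  rw [zero_add] at hxy ⊢
  by_cases h1 : P k = P (0 + (c - 1))
  · rw [h1] at hxy ⊢
    exact (hψ2 _ hxy.ne').symm
  by_cases h2 : P k' = P (0 + (c - 1))
  · rw [h2]
    exact hψ2 _ h1
  rw [hψ k hk h1, hψ k' hk' h2]
  have : col k ≠ col k' := by
    rcases lt_trichotomy k k' with h | h | h
    · exact hcol k k' h hk' pk pk' hxy
    · subst h; exact absurd hxy (G.loopless.irrefl _)
    · exact (hcol k' k h hk pk' pk hxy.symm).symm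
  revert this
  cases col k <;> cases col k' <;> simp

end Main

theorem final {V₁ V₂ V : Type} (G₁ : SimpleGraph V₁) (G₂ : SimpleGraph V₂)
    (f₁ : V₁ ↪ V) (f₂ : V₂ ↪ V) (l : ℕ) (hl : 4 ≤ l)
    (h₁ : G₁.chromaticNumber = 3) (c₁ : ∀ H : G₁.Subgraph, H ≠ ⊤ → H.coe.chromaticNumber < 3)
    (h₂ : G₂.chromaticNumber = l) (c₂ : ∀ H : G₂.Subgraph, H ≠ ⊤ → H.coe.chromaticNumber < l) :
    (G₁.map f₁ ⊔ G₂.map f₂).Colorable (2 * (l - 1)) := by
  classical
  obtain ⟨c, hodd, P, hP, hC⟩ := crit_three G₁ h₁ c₁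
  have hc3 : 3 ≤ c := by
    by_contra hlt
    have hc1 : c = 1 := by obtain ⟨k, hk⟩ := hodd; omega
    have : G₁.Colorable 1 := ⟨Coloring.mk (fun _ => 0) (by
      intro x y hxy
      obtain ⟨i, ⟨rfl, h⟩ | ⟨rfl, h⟩⟩ := hC x y hxy
      · exact absurd ((hP _ _).mpr (by rw [hc1]; omega) : P i = P (i + 1)) (h ▸ hxy.ne)
      · exact absurd ((hP _ _).mpr (by rw [hc1]; omega) : P i = P (i + 1)) (h ▸ hxy.ne'))⟩
    have := this.chromaticNumber_le
    rw [h₁] at this
    exact absurd this (by decide)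
  obtain ⟨m, rfl⟩ : ∃ m, l = m + 1 := ⟨l - 1, by omega⟩
  have ext : ∀ (n : ℕ) (z : Fin n) (φ : V₂ → Fin n), ∃ ψ : V → Fin n, ∀ a, ψ (f₂ a) = φ a :=
    fun n z φ => ⟨Function.extend f₂ φ (fun _ => z), fun a => f₂.injective.extend_apply _ _ a⟩
  refine main (G₁.map f₁) (G₂.map f₂) (P := fun i => f₁ (P i)) hodd hc3 ?_ ?_ m (by omega) ?_ ?_
  · intro i j
    rw [f₁.injective.eq_iff, hP]
  · intro x y hxy
    obtain ⟨a, b, hab, rfl, rfl⟩ := (map_adj f₁ G₁ x y).mp hxy
    obtain ⟨i, ⟨rfl, rfl⟩ | ⟨rfl, rfl⟩⟩ := hC a b hab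
    · exact ⟨i, Or.inl ⟨rfl, rfl⟩⟩
    · exact ⟨i, Or.inr ⟨rfl, rfl⟩⟩
  · have : G₂.Colorable (m + 1) := by
      rw [← chromaticNumber_le_iff_colorable, h₂]
    obtain ⟨φ⟩ := this
    obtain ⟨ψ, hψ⟩ := ext _ 0 φ
    refine ⟨Coloring.mk ψ ?_⟩
    intro x y hxy
    obtain ⟨a, b, hab, rfl, rfl⟩ := (map_adj f₂ G₂ x y).mp hxy
    rw [hψ, hψ]
    exact φ.valid hab
  · intro x0 y0 hxy0
    obtain ⟨a, b, hab, rfl, rfl⟩ := (map_adj f₂ G₂ x0 y0).mp hxy0
    let H : G₂.Subgraph :=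
      { verts := Set.univ
        Adj := fun x y => G₂.Adj x y ∧ ¬ (x = a ∧ y = b) ∧ ¬ (x = b ∧ y = a)
        adj_sub := fun h => h.1
        edge_vert := fun _ => trivial
        symm := ⟨fun x y h => ⟨h.1.symm, fun h' => h.2.2 h'.symm, fun h' => h.2.1 h'.symm⟩⟩ }
    have hH : H ≠ ⊤ := by
      intro h
      have : H.Adj a b := by rw [h]; exact hab
      exact this.2.1 ⟨rfl, rfl⟩
    have h4 : H.coe.Colorable m := by
      rw [← chromaticNumber_le_iff_colorable]
      have := c₂ H hH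
      push_cast at this
      exact Order.le_of_lt_add_one this
    obtain ⟨φ⟩ := h4
    obtain ⟨ψ, hψ⟩ := ext _ ⟨0, by omega⟩ (fun v => φ ⟨v, trivial⟩)
    refine ⟨ψ, fun x y hxy n1 n2 => ?_⟩
    obtain ⟨u, v, huv, rfl, rfl⟩ := (map_adj f₂ G₂ x y).mp hxy
    rw [hψ, hψ]
    apply φ.valid
    exact ⟨huv, fun h => n1 ⟨congrArg f₂ h.1, congrArg f₂ h.2⟩,
      fun h => n2 ⟨congrArg f₂ h.1, congrArg f₂ h.2⟩⟩

end Pool.Agent.H26.CritUnion
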