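import Mathlib

set_option autoImplicit false

namespace Pool.Agent.H26.Cyc

open SimpleGraph

theorem two (m : ℕ) (i : Fin (m + 4)) :
    ¬ (cycleGraph (m + 4)).Adj (i - 1) (i + 1) ∧ i - 1 ≠ i + 1 ∧
      (cycleGraph (m + 4)).Adj i (i - 1) ∧ (cycleGraph (m + 4)).Adj i (i + 1) := by
  have h2 : (i + 1) - (i - 1) = (2 : Fin (m + 4)) := by
    have : (2 : Fin (m + 4)) = 1 + 1 := by
      apply Fin.ext
      simp [Fin.val_add, Nat.mod_eq_of_lt]
    rw [this]; abel
  have h3 : (i - 1) - (i + 1) = -(2 : Fin (m + 4)) := by rw [← h2]; abel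
  have v2 : ((2 : Fin (m + 4)) : ℕ) = 2 := by simp [Nat.mod_eq_of_lt]
  have v1 : ((1 : Fin (m + 4)) : ℕ) = 1 := by simp
  have n1 : (2 : Fin (m + 4)) ≠ 1 := by
    intro h; have := congrArg Fin.val h; omega
  have n0 : (2 : Fin (m + 4)) ≠ 0 := by
    intro h; have := congrArg Fin.val h; rw [v2] at this; simp at this
  have n2 : -(2 : Fin (m + 4)) ≠ 1 := by
    intro h
    have := congrArg Fin.val h
    rw [Fin.val_neg', v2, v1, Nat.mod_eq_of_lt (by omega)] at this
    omega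
  refine ⟨?_, ?_, ?_, ?_⟩
  · rw [cycleGraph_adj, h2, h3]
    tauto
  · intro h
    rw [h, sub_self] at h2
    exact n0 h2.symm
  · rw [cycleGraph_adj]; left; abel
  · rw [cycleGraph_adj]; right; abel

/-- the vertex `i + 2` is distinct from and not adjacent to `i` -/
theorem far (m : ℕ) (i : Fin (m + 4)) : ∃ j, j ≠ i ∧ ¬ (cycleGraph (m + 4)).Adj i j := by
  obtain ⟨h1, h2, -, -⟩ := two m (i + 1)
  rw [add_sub_cancel_right] at h1 h2
  exact ⟨_, h2.symm, h1⟩

end Pool.Agent.H26.Cyc
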