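import Mathlib

set_option autoImplicit false

open Set Filter Topology Metric

namespace Pool.Agent.H26.Delta

universe u

/-- A subcontinuum: a nonempty compact connected subset. -/
def IsCont {Z : Type u} [TopologicalSpace Z] (S : Set Z) : Prop := IsCompact S ∧ IsConnected S

/-- `S` is an indecomposable continuum: a continuum which is not the union of two proper
subcontinua. -/
def Indec {Z : Type u} [TopologicalSpace Z] (S : Set Z) : Prop :=
  IsCont S ∧ ¬ ∃ A B : Set Z, IsCont A ∧ IsCont B ∧ A ⊂ S ∧ B ⊂ S ∧ A ∪ B = S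

theorem sep {X : Type u} [TopologicalSpace X] [T2Space X] {H T : Set X} (hH : IsCompact H)
    (hT : IsClosed T) {a : X} (ha : a ∈ H) (hd : Disjoint (connectedComponentIn H a) T) :
    ∃ E, E ⊆ H ∧ IsClosed E ∧ IsClosed (H \ E) ∧ a ∈ E ∧ Disjoint E T := by
  haveI : CompactSpace H := isCompact_iff_compactSpace.1 hH
  have hT' : IsCompact ((↑) ⁻¹' T : Set H) := (hT.preimage continuous_subtype_val).isCompact
  have h1 : ((↑) ⁻¹' T : Set H) ∩ ⋂ s : {s : Set H // IsClopen s ∧ (⟨a, ha⟩ : H) ∈ s}, s = ∅ := by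
    rw [← connectedComponent_eq_iInter_isClopen, eq_empty_iff_forall_notMem]
    rintro x ⟨hx, hx'⟩
    rw [connectedComponentIn_eq_image ha] at hd
    exact disjoint_left.1 hd (mem_image_of_mem _ hx') hx
  obtain ⟨t, ht⟩ := hT'.elim_finite_subfamily_closed _ (fun s => s.2.1.isClosed) h1
  have hc : IsClopen (⋂ s ∈ t, (s : Set H)) := isClopen_biInter_finset fun s _ => s.2.1
  refine ⟨(↑) '' ⋂ s ∈ t, (s : Set H), Subtype.coe_image_subset _ _,
    hH.isClosed.isClosedMap_subtype_val _ hc.isClosed, ?_,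
    ⟨⟨a, ha⟩, mem_iInter₂.2 fun s _ => s.2.2, rfl⟩, ?_⟩
  · have : H \ (↑) '' (⋂ s ∈ t, (s : Set H)) = (↑) '' (⋂ s ∈ t, (s : Set H))ᶜ := by
      rw [image_compl_eq_range_diff_image Subtype.val_injective, Subtype.range_coe]
    rw [this]
    exact hH.isClosed.isClosedMap_subtype_val _ hc.compl.isClosed
  · rw [disjoint_left]
    rintro _ ⟨x, hx, rfl⟩ hxT
    exact (eq_empty_iff_forall_notMem.1 ht x) ⟨hxT, hx⟩

theorem sub_of_clopen {X : Type u} [TopologicalSpace X] {H E C : Set X} (hE : IsClosed E)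
    (hE' : IsClosed (H \ E)) (hC : IsPreconnected C) (hCH : C ⊆ H) {a : X} (haC : a ∈ C)
    (haE : a ∈ E) : C ⊆ E := by
  rcases isPreconnected_iff_subset_of_disjoint_closed.1 hC E (H \ E) hE hE'
    (fun x hx => by by_cases h : x ∈ E; exacts [Or.inl h, Or.inr ⟨hCH hx, h⟩])
    (by ext x; simp) with h | h
  · exact h
  · exact absurd haE (h haC).2

theorem decomp {Z : Type u} [TopologicalSpace Z] [T2Space Z] {R S V : Set Z} (hR : Indec R)
    (hS : IsCont S) (hSR : S ⊂ R) (hV : IsOpen V) (hne : (V ∩ R).Nonempty) (hVS : V ∩ R ⊆ S) :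
    False := by
  obtain ⟨⟨hRc, hRn⟩, hdec⟩ := hR
  apply hdec
  set D := closure (R \ S) with hD
  have hDR : D ⊆ R := closure_minimal diff_subset hRc.isClosed
  have hDc : IsCompact D := hRc.of_isClosed_subset isClosed_closure hDR
  have hDV : Disjoint D V := by
    apply Disjoint.closure_left _ hV
    rw [disjoint_left]
    exact fun x hx hxV => hx.2 (hVS ⟨hxV, hx.1⟩)
  obtain ⟨b, hbR, hbS⟩ := exists_of_ssubset hSR
  have hcov : S ∪ D = R := by
    apply Subset.antisymm (union_subset hSR.1 hDR)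
    intro x hx
    by_cases h : x ∈ S
    exacts [Or.inl h, Or.inr (subset_closure ⟨hx, h⟩)]
  by_cases hpc : IsPreconnected D
  · refine ⟨S, D, hS, ⟨hDc, ⟨b, subset_closure ⟨hbR, hbS⟩⟩, hpc⟩, hSR, ?_, hcov⟩
    obtain ⟨v, hv⟩ := hne
    exact (ssubset_iff_of_subset hDR).2 ⟨v, hv.2, disjoint_right.1 hDV hv.1⟩
  · rw [isPreconnected_iff_subset_of_fully_disjoint_closed isClosed_closure] at hpc
    push Not at hpc
    obtain ⟨P, Q, hP, hQ, hPQ, hd, h1, h2⟩ := hpc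
    have key : ∀ P Q : Set Z, IsClosed P → IsClosed Q → D ⊆ P ∪ Q → Disjoint P Q → ¬ D ⊆ P →
        IsCont (S ∪ D ∩ P) ∧ S ∪ D ∩ P ⊂ R := by
      intro P Q hP hQ hPQ hd h1
      have hc : IsCompact (S ∪ D ∩ P) := hS.1.union (hDc.inter_right hP)
      refine ⟨⟨hc, hS.2.nonempty.mono subset_union_left, ?_⟩, ?_⟩
      · have aux : ∀ u v : Set Z, IsClosed u → IsClosed v → S ∪ D ∩ P ⊆ u ∪ v → Disjoint u v →
            S ⊆ u → S ∪ D ∩ P ⊆ u := by
          intro u v hu hv huv hd' hSu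
          have := (isPreconnected_iff_subset_of_fully_disjoint_closed hRc.isClosed).1 hRn.2
            ((u ∩ (S ∪ D ∩ P)) ∪ Q) (v ∩ P) ((hu.inter hc.isClosed).union hQ) (hv.inter hP)
            (by
              intro x hx
              rw [← hcov] at hx
              rcases hx with hx | hx
              · exact Or.inl (Or.inl ⟨hSu hx, Or.inl hx⟩)
              · rcases hPQ hx with h | h
                · rcases huv (Or.inr ⟨hx, h⟩) with h' | h'
                  · exact Or.inl (Or.inl ⟨h', Or.inr ⟨hx, h⟩⟩)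
                  · exact Or.inr ⟨h', h⟩
                · exact Or.inl (Or.inr h))
            (by
              rw [disjoint_left]
              rintro x (hx | hx) hx'
              · exact disjoint_left.1 hd' hx.1 hx'.1
              · exact disjoint_left.1 hd hx'.2 hx)
          rcases this with h | h
          · rintro x (hx | hx)
            · exact hSu hx
            · rcases h (hDR hx.1) with h' | h'
              · exact h'.1
              · exact absurd h' (disjoint_left.1 hd hx.2)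
          · obtain ⟨s, hs⟩ := hS.2.nonempty
            exact absurd (h (hSR.1 hs)).1 (disjoint_left.1 hd' (hSu hs))
        rw [isPreconnected_iff_subset_of_fully_disjoint_closed hc.isClosed]
        intro u v hu hv huv hd'
        rcases (isPreconnected_iff_subset_of_fully_disjoint_closed hS.1.isClosed).1 hS.2.2 u v hu hv
          (subset_union_left.trans huv) hd' with h | h
        · exact Or.inl (aux u v hu hv huv hd' h)
        · exact Or.inr (aux v u hv hu (by rwa [union_comm v u]) hd'.symm h)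
      · rw [ssubset_iff_of_subset (union_subset hSR.1 (inter_subset_left.trans hDR))]
        by_contra hcon
        push Not at hcon
        apply h1
        apply closure_minimal _ hP
        intro x hx
        rcases hcon x hx.1 with h | h
        exacts [absurd h hx.2, h.2]
    obtain ⟨a1, a2⟩ := key P Q hP hQ hPQ hd h1
    obtain ⟨b1, b2⟩ := key Q P hQ hP (by rwa [union_comm]) hd.symm h2
    refine ⟨_, _, a1, b1, a2, b2, Subset.antisymm (union_subset a2.1 b2.1) fun x hx => ?_⟩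
    rw [← hcov] at hx
    rcases hx with hx | hx
    · exact Or.inl (Or.inl hx)
    · rcases hPQ hx with h | h
      exacts [Or.inl (Or.inr ⟨hx, h⟩), Or.inr (Or.inr ⟨hx, h⟩)]

section
variable {X : Type} [MetricSpace X] [CompactSpace X]

theorem bump {C W : Set X} (hC : IsClosed C) (hC' : IsPreconnected C) (hW : IsOpen W) {x : X}
    (hx : x ∈ C) (hxW : x ∈ W) (hn : ¬ C ⊆ W) :
    ∃ C', IsClosed C' ∧ IsPreconnected C' ∧ x ∈ C' ∧ C' ⊆ C ∩ closure W ∧ ∃ z ∈ C', z ∉ W := by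
  have hH : IsCompact (C ∩ closure W) := (hC.inter isClosed_closure).isCompact
  have ha : x ∈ C ∩ closure W := ⟨hx, subset_closure hxW⟩
  refine ⟨closure (connectedComponentIn (C ∩ closure W) x), isClosed_closure,
    isPreconnected_connectedComponentIn.closure, subset_closure (mem_connectedComponentIn ha),
    closure_minimal (connectedComponentIn_subset _ _) hH.isClosed, ?_⟩
  by_contra hcon
  push Not at hcon
  obtain ⟨E, e1, e2, e3, e4, e5⟩ := sep (T := Wᶜ) hH hW.isClosed_compl ha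
    (disjoint_left.2 fun z hz hz' => hz' (hcon z (subset_closure hz)))
  have : C \ E = (C ∩ closure W) \ E ∪ C ∩ Wᶜ := by
    ext y
    constructor
    · intro hy
      by_cases h : y ∈ W
      exacts [Or.inl ⟨⟨hy.1, subset_closure h⟩, hy.2⟩, Or.inr ⟨hy.1, h⟩]
    · rintro (hy | hy)
      exacts [⟨hy.1.1, hy.2⟩, ⟨hy.1, disjoint_right.1 e5 hy.2⟩]
  have := sub_of_clopen (H := C) e2 (this ▸ e3.union (hC.inter hW.isClosed_compl)) hC' subset_rfl
    hx e4
  exact hn fun y hy => by_contra fun h => disjoint_left.1 e5 (this hy) h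

theorem arc_dec {M W : Set X} (hM : Indec M) (hn : M.Nontrivial) (hW : IsOpen W)
    (hne : (M ∩ W).Nonempty) {g : ℝ → X} (hg : Continuous g) {a b : ℝ} (hi : InjOn g (Icc a b))
    (hsub : M ∩ W ⊆ g '' Icc a b) : False := by
  obtain ⟨x, hxM, hxW⟩ := hne
  obtain ⟨y, hyM, hyx⟩ := hn.exists_ne x
  obtain ⟨W', hW', h1, h2⟩ := normal_exists_closure_subset (isClosed_singleton (x := x))
    (hW.inter (isOpen_compl_singleton (x := y))) (singleton_subset_iff.2 ⟨hxW, hyx.symm⟩)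
  obtain ⟨C, c1, c2, c3, c4, z, c5, c6⟩ := bump hM.1.1.isClosed hM.1.2.2 hW' hxM (h1 rfl)
    fun h => (h2 (subset_closure (h hyM))).2 rfl
  have hC : C ⊆ g '' Icc a b := fun u hu => hsub ⟨(c4 hu).1, (h2 (c4 hu).2).1⟩
  have hcl : ∀ s t, IsClosed (g '' Icc s t) := fun s t => (isCompact_Icc.image hg).isClosed
  have aux : ∀ t t', t < t' → t ∈ Icc a b → t' ∈ Icc a b → g t ∈ C → g t' ∈ C → False := by
    intro t t' h ht ht' e e'
    have hin : ∀ s, t < s → s < t' → g s ∈ C := by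
      intro s h3 h4
      by_contra hs
      rcases isPreconnected_iff_subset_of_disjoint_closed.1 c2 _ _ (hcl a s) (hcl s b) (by
          intro u hu
          obtain ⟨r, hr, rfl⟩ := hC hu
          rcases le_total r s with h' | h'
          exacts [Or.inl ⟨r, ⟨hr.1, h'⟩, rfl⟩, Or.inr ⟨r, ⟨h', hr.2⟩, rfl⟩])
        (eq_empty_iff_forall_notMem.2 (by
          rintro u ⟨hu, ⟨r, hr, rfl⟩, ⟨r', hr', h'⟩⟩
          have := hi ⟨by linarith [hr'.1, ht.1], hr'.2⟩ ⟨hr.1, by linarith [hr.2, ht'.2]⟩ h'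
          exact hs ((show r = s by linarith [hr.2, hr'.1]) ▸ hu))) with h' | h'
      · obtain ⟨r, hr, h5⟩ := h' e'
        have := hi ⟨hr.1, by linarith [hr.2, ht'.2]⟩ ht' h5
        linarith [hr.2]
      · obtain ⟨r, hr, h5⟩ := h' e
        have := hi ⟨by linarith [hr.1, ht.1], hr.2⟩ ht h5
        linarith [hr.1]
    have hm := hin ((t + t') / 2) (by linarith) (by linarith)
    have hmI : (t + t') / 2 ∈ Icc a b := ⟨by linarith [ht.1], by linarith [ht'.2]⟩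
    refine decomp hM ⟨c1.isCompact, ⟨x, c3⟩, c2⟩
      ((ssubset_iff_of_subset fun u hu => (c4 hu).1).2 ⟨y, hyM, fun h => (h2 (c4 h).2).2 rfl⟩)
      (hW.sdiff ((hcl a t).union (hcl t' b))) ⟨_, ⟨(h2 (c4 hm).2).1, ?_⟩, (c4 hm).1⟩ ?_
    · rintro (⟨r, hr, h5⟩ | ⟨r, hr, h5⟩)
      · have := hi ⟨hr.1, hr.2.trans ht.2⟩ hmI h5
        linarith [hr.2]
      · have := hi ⟨ht'.1.trans hr.1, hr.2⟩ hmI h5
        linarith [hr.1]
    · rintro u ⟨⟨h3, h4⟩, h5⟩
      obtain ⟨r, hr, rfl⟩ := hsub ⟨h5, h3⟩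
      exact hin r (not_le.1 fun h' => h4 (Or.inl ⟨r, ⟨hr.1, h'⟩, rfl⟩))
        (not_le.1 fun h' => h4 (Or.inr ⟨r, ⟨h', hr.2⟩, rfl⟩))
  obtain ⟨t, ht, rfl⟩ := hC c3
  obtain ⟨t', ht', rfl⟩ := hC c5
  rcases lt_trichotomy t t' with h | rfl | h
  exacts [aux t t' h ht ht' c3 c5, c6 (h1 rfl), aux t' t h ht' ht c5 c3]

theorem baire_dec {ι : Type} [Countable ι] {M L : Set X} (hM : Indec M) (hn : M.Nontrivial)
    (hL : IsClosed L) (g : ι → ℝ → X) (hg : ∀ i, Continuous (g i)) (a b : ι → ℝ)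
    (hi : ∀ i, InjOn (g i) (Icc (a i) (b i))) (hsub : M ⊆ L ∪ ⋃ i, g i '' Icc (a i) (b i)) :
    M ⊆ L := by
  by_contra hML
  obtain ⟨x, hx, hxL⟩ := not_subset.1 hML
  haveI : CompactSpace M := isCompact_iff_compactSpace.1 hM.1.1
  let F : Option ι → Set M := fun o => (↑) ⁻¹' (o.elim L fun i => g i '' Icc (a i) (b i))
  have hd := dense_iUnion_interior_of_closed (f := F) (by
      rintro (_ | i)
      exacts [hL.preimage continuous_subtype_val,
        (isCompact_Icc.image (hg i)).isClosed.preimage continuous_subtype_val])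
    (eq_univ_of_forall fun y => by
      rcases hsub y.2 with h | h
      · exact mem_iUnion.2 ⟨none, h⟩
      · obtain ⟨i, h⟩ := mem_iUnion.1 h
        exact mem_iUnion.2 ⟨some i, h⟩)
  obtain ⟨y, hy, hy'⟩ := hd.inter_open_nonempty (Subtype.val ⁻¹' Lᶜ)
    (hL.isOpen_compl.preimage continuous_subtype_val) ⟨⟨x, hx⟩, hxL⟩
  obtain ⟨_ | i, h⟩ := mem_iUnion.1 hy'
  · exact hy (interior_subset (s := F none) h)
  · obtain ⟨W, hW, e⟩ := isOpen_induced_iff.1 (isOpen_interior (s := F (some i)))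
    refine arc_dec hM hn hW ⟨y.1, y.2, (e.symm ▸ h : y ∈ (↑) ⁻¹' W)⟩ (hg i) (hi i) ?_
    intro u hu
    exact interior_subset (s := F (some i)) (e ▸ hu.2 : (⟨u, hu.1⟩ : M) ∈ interior (F (some i)))

theorem irred {K0 : Set X} (hK : IsCont K0) {x y : X} (hx : x ∈ K0) (hy : y ∈ K0) :
    ∃ K, K ⊆ K0 ∧ IsCompact K ∧ IsConnected K ∧ x ∈ K ∧ y ∈ K ∧
      ∀ L, L ⊆ K → IsCompact L → IsConnected L → x ∈ L → y ∈ L → L = K := by
  obtain ⟨K, h1, h2⟩ := zorn_superset_nonempty {K : Set X | IsCont K ∧ x ∈ K ∧ y ∈ K} (by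
    intro c hc hch hne
    refine ⟨⋂₀ c, ⟨⟨(isClosed_sInter fun t ht => (hc ht).1.1.isClosed).isCompact,
      ⟨x, fun t ht => (hc ht).2.1⟩, ?_⟩, fun t ht => (hc ht).2.1, fun t ht => (hc ht).2.2⟩,
      fun s hs => sInter_subset_of_mem hs⟩
    rw [isPreconnected_iff_subset_of_fully_disjoint_closed
      (isClosed_sInter fun t ht => (hc ht).1.1.isClosed)]
    intro u v hu hv huv hd
    obtain ⟨U, V, hU, hV, a, b, d⟩ := normal_separation hu hv hd
    haveI := hne.to_subtype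
    obtain ⟨t, ht⟩ := exists_subset_nhds_of_isCompact' (V := fun t : c => t.1)
      (fun s t => (hch.total s.2 t.2).elim (fun h => ⟨s, subset_rfl, h⟩) fun h => ⟨t, h, subset_rfl⟩)
      (fun t => (hc t.2).1.1) (fun t => (hc t.2).1.1.isClosed)
      (U := U ∪ V) fun z hz => (hU.union hV).mem_nhds
        ((huv (by rwa [sInter_eq_iInter])).imp (fun h => a h) fun h => b h)
    rcases (hc t.2).1.2.2.subset_or_subset hU hV d ht with h | h
    · exact Or.inl fun z hz => (huv hz).resolve_right fun h' =>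
        disjoint_left.1 d (h (hz _ t.2)) (b h')
    · exact Or.inr fun z hz => (huv hz).resolve_left fun h' =>
        disjoint_left.1 d (a h') (h (hz _ t.2))) K0 ⟨hK, hx, hy⟩
  exact ⟨K, h1, h2.1.1.1, h2.1.1.2, h2.1.2.1, h2.1.2.2, fun L a b c d e =>
    (h2.eq_of_subset ⟨⟨b, c⟩, d, e⟩ a)⟩

theorem clop {c c' : ℤ_[2]} (h : c ≠ c') : ∃ P : Set ℤ_[2], IsClopen P ∧ c ∈ P ∧ c' ∉ P :=
  ⟨ball c (dist c' c), IsUltrametricDist.isClopen_ball _ _, mem_ball_self (dist_pos.2 h.symm),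
    fun h' => lt_irrefl _ (mem_ball.1 h')⟩

theorem clop' {O : Set (ℤ_[2] × ℝ)} (hO : IsOpen O) {c : ℤ_[2]} {s : ℝ} (h : (c, s) ∈ O) :
    ∃ P : Set ℤ_[2], IsClopen P ∧ c ∈ P ∧ ∀ d ∈ P, (d, s) ∈ O := by
  obtain ⟨ε, hε, h'⟩ := Metric.isOpen_iff.1 (hO.preimage (Continuous.prodMk_left s)) c h
  exact ⟨ball c ε, IsUltrametricDist.isClopen_ball _ _, mem_ball_self hε, fun d hd => h' hd⟩

theorem fan_dec {l : ℤ_[2] × ℝ → X} (hl : Continuous l)
    (hrel : ∀ c c' h h', h ∈ Icc (0 : ℝ) 2 → h' ∈ Icc (0 : ℝ) 2 →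
      (l (c, h) = l (c', h') ↔ (c = c' ∧ h = h') ∨ (h = 0 ∧ h' = 0)))
    {M : Set X} (hM : Indec M) (hn : M.Nontrivial) (hsub : M ⊆ l '' (univ ×ˢ Icc 0 2)) : False := by
  have hcl : ∀ (P : Set ℤ_[2]) (s t : ℝ), IsClosed P → IsClosed (l '' (P ×ˢ Icc s t)) :=
    fun P s t hP => ((hP.isCompact.prod isCompact_Icc).image hl).isClosed
  have h0 : (0 : ℝ) ∈ Icc (0 : ℝ) 2 := ⟨le_rfl, zero_le_two⟩
  have hsep : ∀ (P : Set ℤ_[2]) (s : ℝ), IsClopen P → s ∈ Icc (0 : ℝ) 2 → (∀ d ∈ P, l (d, s) ∉ M) →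
      ∀ c ∈ P, ∀ h, s ≤ h → h ≤ 2 → l (c, h) ∈ M → M ⊆ l '' (P ×ˢ Icc s 2) := by
    intro P s hP hs hPs c hc h h1 h2 hm
    have hd : M ∩ (l '' (P ×ˢ Icc s 2) ∩ (l '' (Pᶜ ×ˢ Icc 0 2) ∪ l '' (univ ×ˢ Icc 0 s))) = ∅ := by
      rw [eq_empty_iff_forall_notMem]
      rintro u ⟨hu, ⟨⟨d, r⟩, ⟨hd, hr⟩, rfl⟩, ⟨⟨d', r'⟩, ⟨hd', hr'⟩, e⟩ | ⟨⟨d', r'⟩, ⟨-, hr'⟩, e⟩⟩
      · rcases (hrel _ _ _ _ hr' ⟨hs.1.trans hr.1, hr.2⟩).1 e with e | e
        · exact hd' (e.1 ▸ hd)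
        · exact hPs d hd ((show r = s by linarith [e.2, hr.1, hs.1]) ▸ hu)
      · rcases (hrel _ _ _ _ ⟨hr'.1, hr'.2.trans hs.2⟩ ⟨hs.1.trans hr.1, hr.2⟩).1 e with e | e
        · exact hPs d hd ((show r = s by linarith [e.2, hr.1, hr'.2]) ▸ hu)
        · exact hPs d hd ((show r = s by linarith [e.2, hr.1, hs.1]) ▸ hu)
    refine (isPreconnected_iff_subset_of_disjoint_closed.1 hM.1.2.2 _ _ (hcl P s 2 hP.1)
      ((hcl _ 0 2 hP.compl.1).union (hcl _ 0 s isClosed_univ)) ?_ hd).resolve_right fun h' =>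
        eq_empty_iff_forall_notMem.1 hd _ ⟨hm, ⟨(c, h), ⟨hc, h1, h2⟩, rfl⟩, h' hm⟩
    intro u hu
    obtain ⟨⟨d, r⟩, ⟨-, hr⟩, rfl⟩ := hsub hu
    by_cases hdP : d ∈ P
    · rcases le_total s r with h' | h'
      exacts [Or.inl ⟨_, ⟨hdP, h', hr.2⟩, rfl⟩, Or.inr (Or.inr ⟨_, ⟨trivial, hr.1, h'⟩, rfl⟩)]
    · exact Or.inr (Or.inl ⟨(d, r), ⟨hdP, hr⟩, rfl⟩)
  have hv : ∀ d, l (d, 0) = l (0, 0) := fun d => (hrel _ _ _ _ h0 h0).2 (Or.inr ⟨rfl, rfl⟩)
  obtain ⟨x, hx, hxv⟩ := hn.exists_ne (l (0, 0))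
  obtain ⟨⟨c, h⟩, ⟨-, hh⟩, rfl⟩ := hsub hx
  have hh0 : 0 < h := lt_of_le_of_ne hh.1 fun e => hxv (by rw [← e, hv])
  by_cases hvM : l (0, 0) ∈ M
  · have hstar : ∀ d r, r ≤ 2 → l (d, r) ∈ M → ∀ s ∈ Icc 0 r, l (d, s) ∈ M := by
      intro d r hr hm s hs
      by_contra hsM
      obtain ⟨P, p1, p2, p3⟩ := clop' (hM.1.1.isClosed.isOpen_compl.preimage hl) hsM
      obtain ⟨⟨d', r'⟩, ⟨a, b⟩, e⟩ := hsep P s p1 ⟨hs.1, hs.2.trans hr⟩ p3 d p2 r hs.2 hr hm hvM
      have : r' = 0 := by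
        rcases (hrel _ _ _ _ ⟨hs.1.trans b.1, b.2⟩ h0).1 e with e | e
        exacts [e.2, e.1]
      exact hsM (by rw [show s = 0 by linarith [b.1, hs.1], hv]; exact hvM)
    refine decomp (S := M ∩ l '' (univ ×ˢ Icc 0 (h / 2))) hM
      ⟨hM.1.1.inter_right (hcl _ _ _ isClosed_univ),
        ⟨_, hvM, (0, 0), ⟨trivial, le_rfl, by linarith⟩, rfl⟩,
        isPreconnected_of_forall (l (0, 0)) ?_⟩
      ((ssubset_iff_of_subset inter_subset_left).2 ⟨_, hx, ?_⟩)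
      (hcl univ (h / 2) 2 isClosed_univ).isOpen_compl ⟨_, ?_, hvM⟩ ?_
    · rintro _ ⟨hm, ⟨d, r⟩, ⟨-, hr⟩, rfl⟩
      refine ⟨(fun s => l (d, s)) '' Icc 0 r, ?_, ⟨0, ⟨le_rfl, hr.1⟩, hv d⟩,
        ⟨r, ⟨hr.1, le_rfl⟩, rfl⟩, isPreconnected_Icc.image _ (by fun_prop)⟩
      rintro _ ⟨s, hs, rfl⟩
      exact ⟨hstar d r (by linarith [hr.2, hh.2]) hm s hs, _, ⟨trivial, hs.1, hs.2.trans hr.2⟩, rfl⟩
    · rintro ⟨-, ⟨d, r⟩, ⟨-, hr⟩, e⟩
      rcases (hrel _ _ _ _ ⟨hr.1, by linarith [hr.2, hh.2]⟩ hh).1 e with e | e <;>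
        linarith [e.2, hr.2]
    · rintro ⟨⟨d, r⟩, ⟨-, hr⟩, e⟩
      rcases (hrel _ _ _ _ ⟨by linarith [hr.1], hr.2⟩ h0).1 e with e | e
      · linarith [e.2, hr.1]
      · linarith [e.1, hr.1]
    · rintro u ⟨h1, h2⟩
      obtain ⟨⟨d, r⟩, ⟨-, hr⟩, rfl⟩ := hsub h2
      exact ⟨h2, _, ⟨trivial, hr.1, le_of_not_ge fun h' => h1 ⟨_, ⟨trivial, h', hr.2⟩, rfl⟩⟩, rfl⟩
  · refine arc_dec hM hn isOpen_univ ⟨_, hx, trivial⟩ (g := fun s => l (c, s)) (by fun_prop)
      (a := 0) (b := 2) (fun s hs t ht e => ?_) ?_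
    · rcases (hrel _ _ _ _ hs ht).1 e with e | e
      exacts [e.2, e.1.trans e.2.symm]
    · rintro u ⟨hu, -⟩
      obtain ⟨⟨d, r⟩, ⟨-, hr⟩, rfl⟩ := hsub hu
      by_cases hd : c = d
      · exact ⟨r, hr, by rw [hd]⟩
      obtain ⟨P, p1, p2, p3⟩ := clop hd
      obtain ⟨⟨d', r'⟩, ⟨a, b⟩, e⟩ := hsep P 0 p1 h0 (fun d _ => by rwa [hv]) c p2 h hh.1 hh.2 hx hu
      rcases (hrel _ _ _ _ b hr).1 e with e | e
      · exact absurd (e.1 ▸ a) p3
      · exact absurd (by rw [← hv d, ← e.2]; exact hu) hvM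

theorem tails (c : ℤ_[2]) : ∃ k : ℕ → ℕ, (∀ j, j ≤ k j) ∧
    Tendsto (fun j => (k j : ℤ_[2])) atTop (𝓝 c) := by
  choose m hm using fun j : ℕ => (PadicInt.denseRange_natCast (p := 2)).exists_dist_lt (c - j)
    (show 0 < 1 / ((j : ℝ) + 1) by positivity)
  refine ⟨fun j => m j + j, fun j => Nat.le_add_left _ _, tendsto_iff_dist_tendsto_zero.2
    (squeeze_zero (fun _ => dist_nonneg) (fun j => ?_) tendsto_one_div_add_atTop_nhds_zero_nat)⟩
  have := (hm j).le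
  rw [dist_comm, dist_eq_norm] at this
  rw [dist_eq_norm, show ((m j + j : ℕ) : ℤ_[2]) - c = m j - (c - j) by push_cast; ring]
  exact this

theorem sol {ρ : ℤ_[2] × ℝ → X} (hρ : Continuous ρ)
    (hrel : ∀ c c' h h', h ∈ Icc (1 : ℝ) 2 → h' ∈ Icc (1 : ℝ) 2 →
      (ρ (c, h) = ρ (c', h') ↔ (c = c' ∧ h = h') ∨ (h = 2 ∧ h' = 1 ∧ c' = c + 1) ∨
        (h' = 2 ∧ h = 1 ∧ c = c' + 1))) :
    Indec (ρ '' (univ ×ˢ Icc 1 2)) ∧ (ρ '' (univ ×ˢ Icc 1 2)).Nontrivial := by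
  classical
  have h1 : (1 : ℝ) ∈ Icc (1 : ℝ) 2 := ⟨le_rfl, one_le_two⟩
  have h2 : (2 : ℝ) ∈ Icc (1 : ℝ) 2 := ⟨one_le_two, le_rfl⟩
  have h3 : (3 / 2 : ℝ) ∈ Icc (1 : ℝ) 2 := ⟨by norm_num, by norm_num⟩
  have hcl : ∀ (P : Set ℤ_[2]) (s t : ℝ), IsClosed P → IsClosed (ρ '' (P ×ˢ Icc s t)) :=
    fun P s t hP => ((hP.isCompact.prod isCompact_Icc).image hρ).isClosed
  have key : ∀ A, IsCont A → A ⊂ ρ '' (univ ×ˢ Icc 1 2) → ∃ F : Set ℤ_[2], F.Finite ∧
      ∀ c, ρ (c, 3 / 2) ∈ A → c ∈ F := by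
    intro A hA hAZ
    obtain ⟨_, ⟨⟨c0, h0⟩, ⟨-, hh0⟩, rfl⟩, hx⟩ := exists_of_ssubset hAZ
    have hO := hA.1.isClosed.isOpen_compl.preimage hρ
    obtain ⟨t, ht, htA⟩ : ∃ t ∈ Ioo (1 : ℝ) 2, (c0, t) ∈ ρ ⁻¹' Aᶜ := by
      have : h0 ∈ closure (Ioo (1 : ℝ) 2) := by rwa [closure_Ioo (by norm_num)]
      obtain ⟨t, a, b⟩ := mem_closure_iff.1 this _ (hO.preimage (Continuous.prodMk_right c0)) hx
      exact ⟨t, b, a⟩
    obtain ⟨U, u1, u2, u3⟩ := clop' hO htA
    have hex : ∀ c : ℤ_[2], ∃ k : ℕ, c + k ∈ U := fun c =>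
      (PadicInt.denseRange_natCast (p := 2)).exists_mem_open
        (u1.2.preimage (continuous_const_add c)) ⟨c0 - c, by simpa using u2⟩
    have hk : IsLocallyConstant fun c => Nat.find (hex c) := by
      refine IsLocallyConstant.iff_isOpen_fiber_apply.2 fun c => ?_
      have : (fun c => Nat.find (hex c)) ⁻¹' {Nat.find (hex c)} =
          (fun d => d + (Nat.find (hex c) : ℤ_[2])) ⁻¹' U ∩
            ⋂ i ∈ Iio (Nat.find (hex c)), (fun d => d + (i : ℤ_[2])) ⁻¹' Uᶜ := by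
        ext d
        rw [mem_preimage, mem_singleton_iff, Nat.find_eq_iff]
        simp only [mem_inter_iff, mem_preimage, mem_iInter, mem_Iio, mem_compl_iff]
      rw [this]
      exact (u1.2.preimage (continuous_add_const _)).inter ((finite_Iio _).isOpen_biInter
        fun i _ => u1.compl.2.preimage (continuous_add_const _))
    let r : ℤ_[2] → ℤ_[2] := fun c => c + (Nat.find (hex c) : ℕ)
    have hr : Continuous r := continuous_id.add ((hk.comp (Nat.cast : ℕ → ℤ_[2])).continuous)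
    have hr1 : ∀ c ∉ U, r (c + 1) = r c := by
      intro c hc
      have : Nat.find (hex c) = Nat.find (hex (c + 1)) + 1 := by
        rw [Nat.find_eq_iff]
        refine ⟨by simpa [add_assoc, add_comm] using Nat.find_spec (hex (c + 1)), fun n hn => ?_⟩
        rcases n with _ | n
        · simpa using hc
        · rw [show c + ((n + 1 : ℕ) : ℤ_[2]) = c + 1 + n by push_cast; ring]
          exact Nat.find_min (hex (c + 1)) (show n < _ by omega)
      simp only [r, this]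
      push_cast; ring
    let Adm : ℤ_[2] → ℝ → ℤ_[2] → Prop := fun c h u =>
      (h ∈ Icc 1 t ∧ u = r c) ∨ (h ∈ Icc t 2 ∧ u = r (c + 1))
    have hI : ∀ c h u, Adm c h u → h ∈ Icc (1 : ℝ) 2 := by
      rintro c h u (a | a)
      exacts [⟨a.1.1, a.1.2.trans ht.2.le⟩, ⟨ht.1.le.trans a.1.1, a.1.2⟩]
    have hK : ∀ c h u c' h' u', Adm c h u → Adm c' h' u' → ρ (c, h) = ρ (c', h') → ρ (c, h) ∈ A →
        u = u' := by
      intro c h u c' h' u' a a' e m
      rcases (hrel _ _ _ _ (hI _ _ _ a) (hI _ _ _ a')).1 e with ⟨rfl, rfl⟩ | ⟨rfl, rfl, rfl⟩ |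
        ⟨rfl, rfl, rfl⟩
      · rcases a with a | a <;> rcases a' with a' | a'
        · rw [a.2, a'.2]
        · rw [a.2, a'.2, hr1 c fun hc => u3 c hc ((le_antisymm a.1.2 a'.1.1) ▸ m)]
        · rw [a.2, a'.2, hr1 c fun hc => u3 c hc ((le_antisymm a'.1.2 a.1.1) ▸ m)]
        · rw [a.2, a'.2]
      · rcases a with a | a
        · linarith [a.1.2, ht.2]
        rcases a' with a' | a'
        · rw [a.2, a'.2]
        · linarith [a'.1.1, ht.1]
      · rcases a' with a' | a'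
        · linarith [a'.1.2, ht.2]
        rcases a with a | a
        · rw [a.2, a'.2]
        · linarith [a.1.1, ht.1]
    let E : Set ℤ_[2] → Set X := fun P =>
      ρ '' ((r ⁻¹' P) ×ˢ Icc 1 t) ∪ ρ '' (((fun c => r (c + 1)) ⁻¹' P) ×ˢ Icc t 2)
    have hE : ∀ P, IsClosed P → IsClosed (E P) := fun P hP =>
      (hcl _ _ _ (hP.preimage hr)).union (hcl _ _ _ (hP.preimage (by fun_prop)))
    have hE' : ∀ P x, x ∈ E P ↔ ∃ c h u, Adm c h u ∧ u ∈ P ∧ ρ (c, h) = x := by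
      intro P x
      constructor
      · rintro (⟨⟨c, h⟩, ⟨a, b⟩, e⟩ | ⟨⟨c, h⟩, ⟨a, b⟩, e⟩)
        exacts [⟨c, h, _, Or.inl ⟨b, rfl⟩, a, e⟩, ⟨c, h, _, Or.inr ⟨b, rfl⟩, a, e⟩]
      · rintro ⟨c, h, u, ⟨a, rfl⟩ | ⟨a, rfl⟩, b, e⟩
        exacts [Or.inl ⟨(c, h), ⟨b, a⟩, e⟩, Or.inr ⟨(c, h), ⟨b, a⟩, e⟩]
    have hex' : ∀ c, ∀ h ∈ Icc (1 : ℝ) 2, ∃ u, Adm c h u := fun c h hh =>
      (le_total h t).elim (fun a => ⟨_, Or.inl ⟨⟨hh.1, a⟩, rfl⟩⟩) fun a => ⟨_, Or.inr ⟨⟨a, hh.2⟩, rfl⟩⟩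
    have hconst : ∀ c h u c' h' u', Adm c h u → Adm c' h' u' → ρ (c, h) ∈ A → ρ (c', h') ∈ A →
        u = u' := by
      intro c h u c' h' u' a a' m m'
      by_contra hne
      obtain ⟨P, p1, p2, p3⟩ := clop hne
      have hd : ∀ x ∈ A, x ∈ E P → x ∉ E Pᶜ := by
        intro x hx b b'
        obtain ⟨d, s, w, b1, b2, rfl⟩ := (hE' _ _).1 b
        obtain ⟨d', s', w', b3, b4, b5⟩ := (hE' _ _).1 b'
        exact b4 (hK _ _ _ _ _ _ b1 b3 b5.symm hx ▸ b2)
      rcases isPreconnected_iff_subset_of_disjoint_closed.1 hA.2.2 _ _ (hE P p1.1)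
        (hE Pᶜ p1.compl.1) (by
          intro x hx
          obtain ⟨⟨d, s⟩, ⟨-, hs⟩, rfl⟩ := hAZ.1 hx
          obtain ⟨w, hw⟩ := hex' d s hs
          by_cases hP : w ∈ P
          exacts [Or.inl ((hE' _ _).2 ⟨d, s, w, hw, hP, rfl⟩),
            Or.inr ((hE' _ _).2 ⟨d, s, w, hw, hP, rfl⟩)])
        (eq_empty_iff_forall_notMem.2 fun x hx => hd x hx.1 hx.2.1 hx.2.2) with h' | h'
      · exact hd _ m' (h' m') ((hE' _ _).2 ⟨c', _, u', a', p3, rfl⟩)
      · exact hd _ m ((hE' _ _).2 ⟨c, h, u, a, p2, rfl⟩) (h' m)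
    obtain ⟨x, hx⟩ := hA.2.nonempty
    obtain ⟨⟨d, s⟩, ⟨-, hs⟩, rfl⟩ := hAZ.1 hx
    obtain ⟨w, hw⟩ := hex' d s hs
    refine ⟨(fun k : ℕ => w - k) '' range (fun c => Nat.find (hex c)) ∪
      (fun k : ℕ => w - k - 1) '' range (fun c => Nat.find (hex c)),
      (hk.range_finite.image _).union (hk.range_finite.image _), fun c hc => ?_⟩
    obtain ⟨u, hu⟩ := hex' c _ h3
    obtain rfl := hconst _ _ _ _ _ _ hu hw hc hx
    rcases hu with ⟨-, rfl⟩ | ⟨-, rfl⟩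
    · exact Or.inl ⟨_, ⟨c, rfl⟩, by simp only [r]; ring⟩
    · exact Or.inr ⟨_, ⟨c + 1, rfl⟩, by simp only [r]; ring⟩
  refine ⟨⟨⟨(isCompact_univ.prod isCompact_Icc).image hρ, ?_⟩, ?_⟩,
    ⟨_, ⟨(0, 1), ⟨trivial, h1⟩, rfl⟩, _, ⟨(0, 3 / 2), ⟨trivial, h3⟩, rfl⟩, fun e => ?_⟩⟩
  · have hc : IsConnected (⋃ n : ℕ, (fun s => ρ (n, s)) '' Icc 1 2) :=
      IsConnected.iUnion_of_chain
        (fun n => (isConnected_Icc one_le_two).image _ (by fun_prop)) fun n =>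
        ⟨_, ⟨2, h2, rfl⟩, 1, h1, ((hrel _ _ _ _ h2 h1).2 (Or.inr (Or.inl ⟨rfl, rfl, by
          rw [Order.succ_eq_add_one]; push_cast; rfl⟩))).symm⟩
    refine hc.subset_closure (iUnion_subset fun n => ?_) ?_
    · rintro _ ⟨s, hs, rfl⟩
      exact ⟨_, ⟨trivial, hs⟩, rfl⟩
    · rintro _ ⟨⟨c, s⟩, ⟨-, hs⟩, rfl⟩
      obtain ⟨k, -, hk⟩ := tails c
      exact mem_closure_of_tendsto ((hρ.tendsto _).comp (hk.prodMk_nhds tendsto_const_nhds))
        (Eventually.of_forall fun j => mem_iUnion.2 ⟨k j, s, hs, rfl⟩)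
  · rintro ⟨A, B, hA, hB, hAZ, hBZ, hAB⟩
    obtain ⟨F, a, b⟩ := key A hA hAZ
    obtain ⟨F', a', b'⟩ := key B hB hBZ
    obtain ⟨c, hc⟩ := (a.union a').exists_notMem
    exact hc ((hAB.symm ▸ ⟨(c, 3 / 2), ⟨trivial, h3⟩, rfl⟩ : ρ (c, 3 / 2) ∈ A ∪ B).imp (b c) (b' c))
  · rcases (hrel _ _ _ _ h1 h3).1 e with e | e | e
    · linarith [e.2]
    · linarith [e.1]
    · linarith [e.1]

theorem inv_quot {τ : X → X} (hτ : Continuous τ) (h2 : ∀ x, τ (τ x) = x) (hf : ∀ x, τ x ≠ x)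
    {Y : Type} [MetricSpace Y] {f : X → Y} (hc : Continuous f) (hs : Function.Surjective f)
    (hrel : ∀ x y, f x = f y ↔ x = y ∨ x = τ y) : IsLocalHomeomorph f := by
  have hq := hc.isClosedMap.isQuotientMap hc hs
  have ho : IsOpenMap f := by
    intro U hU
    rw [← hq.isOpen_preimage]
    have : f ⁻¹' (f '' U) = U ∪ τ ⁻¹' U := by
      ext x
      constructor
      · rintro ⟨y, hy, e⟩
        rcases (hrel _ _).1 e with rfl | rfl
        exacts [Or.inl hy, Or.inr hy]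
      · rintro (h | h)
        exacts [⟨x, h, rfl⟩, ⟨τ x, h, (hrel _ _).2 (Or.inr rfl)⟩]
    rw [this]
    exact hU.union (hU.preimage hτ)
  rw [isLocalHomeomorph_iff_isOpenEmbedding_restrict]
  intro x
  obtain ⟨U, V, hU, hV, a, b, d⟩ := t2_separation (hf x).symm
  have hW : IsOpen (U ∩ τ ⁻¹' V) := hU.inter (hV.preimage hτ)
  refine ⟨_, hW.mem_nhds ⟨a, b⟩, IsOpenEmbedding.of_continuous_injective_isOpenMap
    (hc.comp continuous_subtype_val) (fun y z e => ?_) (ho.comp hW.isOpenMap_subtype_val)⟩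
  rcases (hrel _ _).1 e with e | e
  · exact Subtype.ext e
  · exact absurd (e ▸ z.2.2 : y.1 ∈ V) (disjoint_left.1 d y.2.1)

end

theorem quot_closedMap {Z : Type} [TopologicalSpace Z] [CompactSpace Z] [T2Space Z] (S : Setoid Z)
    (hS : IsClosed {z : Z × Z | S z.1 z.2}) : IsClosedMap (Quotient.mk S) := by
  intro A hA
  rw [← isQuotientMap_quotient_mk'.isClosed_preimage]
  have : Quotient.mk' ⁻¹' (Quotient.mk S '' A) =
      Prod.fst '' ({z : Z × Z | S z.1 z.2} ∩ Prod.snd ⁻¹' A) := by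
    ext z
    constructor
    · rintro ⟨a, ha, h⟩
      exact ⟨(z, a), ⟨S.symm (Quotient.exact h), ha⟩, rfl⟩
    · rintro ⟨⟨z', a⟩, ⟨h, ha⟩, rfl⟩
      exact ⟨a, ha, Quotient.sound (S.symm h)⟩
  rw [this]
  exact ((hS.inter (hA.preimage continuous_snd)).isCompact.image continuous_fst).isClosed

theorem quot_metrizable {Z : Type} [TopologicalSpace Z] [CompactSpace Z] [T2Space Z]
    [SecondCountableTopology Z] (S : Setoid Z) (hS : IsClosed {z : Z × Z | S z.1 z.2}) :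
    TopologicalSpace.MetrizableSpace (Quotient S) := by
  have hc : Continuous (Quotient.mk S) := continuous_quotient_mk'
  have hcl := quot_closedMap S hS
  have hpr : IsProperMap (Quotient.mk S) := by
    refine isProperMap_iff_isClosedMap_and_compact_fibers.2 ⟨hc, hcl, fun y => ?_⟩
    obtain ⟨a, rfl⟩ := Quotient.exists_rep y
    have := hcl {a} isClosed_singleton
    rw [image_singleton] at this
    exact (this.preimage hc).isCompact
  haveI : T2Space (Quotient S) := by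
    rw [t2_iff_isClosed_diagonal]
    have : diagonal (Quotient S) =
        Prod.map (Quotient.mk S) (Quotient.mk S) '' {z : Z × Z | S z.1 z.2} := by
      ext ⟨x, y⟩
      obtain ⟨a, rfl⟩ := Quotient.exists_rep x
      obtain ⟨b, rfl⟩ := Quotient.exists_rep y
      constructor
      · intro h
        exact ⟨(a, b), Quotient.exact h, rfl⟩
      · rintro ⟨z, hz, h⟩
        rw [← h]
        exact Quotient.sound hz
    rw [this]
    exact (hpr.prodMap hpr).isClosedMap _ hS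
  haveI : SecondCountableTopology (Quotient S) := by
    let b := TopologicalSpace.countableBasis Z
    have hb := TopologicalSpace.isBasis_countableBasis Z
    have hbasis : TopologicalSpace.IsTopologicalBasis
        ((fun t : Set (Set Z) => (Quotient.mk S '' (⋃₀ t)ᶜ)ᶜ) '' {t | t.Finite ∧ t ⊆ b}) := by
      apply TopologicalSpace.isTopologicalBasis_of_isOpen_of_nhds
      · rintro _ ⟨t, ht, rfl⟩
        exact (hcl _ (isOpen_sUnion fun s hs => hb.isOpen (ht.2 hs)).isClosed_compl).isOpen_compl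
      · intro x U hx hU
        have hK : IsCompact (Quotient.mk S ⁻¹' {x}) := (isClosed_singleton.preimage hc).isCompact
        obtain ⟨t, ht1, ht2, ht3⟩ := hK.elim_finite_subcover_image
          (b := {s ∈ b | s ⊆ Quotient.mk S ⁻¹' U}) (c := id) (fun s hs => hb.isOpen hs.1) (by
            intro z hz
            obtain ⟨s, hs, hzs, hsU⟩ := hb.exists_subset_of_mem_open (a := z)
              (u := Quotient.mk S ⁻¹' U) (by rw [mem_preimage, hz]; exact hx) (hU.preimage hc)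
            exact mem_iUnion₂.2 ⟨s, ⟨hs, hsU⟩, hzs⟩)
        refine ⟨_, ⟨t, ⟨ht2, fun s hs => (ht1 hs).1⟩, rfl⟩, ?_, ?_⟩
        · rintro ⟨z, hz, hzx⟩
          obtain ⟨s, hs, hzs⟩ := mem_iUnion₂.1 (ht3 hzx)
          exact hz ⟨s, hs, hzs⟩
        · intro y hy
          obtain ⟨a, rfl⟩ := Quotient.exists_rep y
          by_contra h
          exact hy ⟨a, fun ⟨s, hs, has⟩ => h ((ht1 hs).2 has), rfl⟩
    exact hbasis.secondCountableTopology
      ((countable_setOf_finite_subset (TopologicalSpace.countable_countableBasis Z)).image _)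
  infer_instance

end Pool.Agent.H26.Delta
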