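import Mathlib
import Pool.Agent.H26.Delta

set_option autoImplicit false

open Set Filter Topology Metric

namespace Pool.Agent.H26.Delta

def RR (z w : ℤ_[2] × Bool × ℝ) : Prop :=
  z = w ∨ (z.2.2 = 0 ∧ w.2.2 = 0 ∧ z.2.1 = w.2.1) ∨
    (z.2.2 = 2 ∧ w.2.2 = 1 ∧ w.1 = z.1 + 1 ∧ w.2.1 = !z.2.1) ∨
    (w.2.2 = 2 ∧ z.2.2 = 1 ∧ z.1 = w.1 + 1 ∧ z.2.1 = !w.2.1)

theorem RR_equiv : Equivalence RR := by
  refine ⟨fun _ => Or.inl rfl, ?_, ?_⟩
  · rintro z w (h | h | h | h)
    exacts [Or.inl h.symm, Or.inr (Or.inl ⟨h.2.1, h.1, h.2.2.symm⟩), Or.inr (Or.inr (Or.inr h)),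
      Or.inr (Or.inr (Or.inl h))]
  · rintro ⟨c, i, h⟩ ⟨c', i', h'⟩ ⟨c'', i'', h''⟩ (e | e | e | e) e'
    · exact e ▸ e'
    · rcases e' with e' | e' | e' | e'
      · exact e' ▸ Or.inr (Or.inl e)
      · exact Or.inr (Or.inl ⟨e.1, e'.2.1, e.2.2.trans e'.2.2⟩)
      · linarith [e.2.1, e'.1]
      · linarith [e.2.1, e'.2.1]
    · rcases e' with e' | e' | e' | e'
      · exact e' ▸ Or.inr (Or.inr (Or.inl e))
      · linarith [e.2.1, e'.1]
      · linarith [e.2.1, e'.1]
      · refine Or.inl (Prod.ext (add_right_cancel (e.2.2.1.symm.trans e'.2.2.1))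
          (Prod.ext (Bool.not_inj (e.2.2.2.symm.trans e'.2.2.2)) (e.1.trans e'.1.symm)))
    · rcases e' with e' | e' | e' | e'
      · exact e' ▸ Or.inr (Or.inr (Or.inr e))
      · linarith [e.1, e'.1]
      · exact Or.inl (Prod.ext (e.2.2.1.trans e'.2.2.1.symm)
          (Prod.ext (e.2.2.2.trans e'.2.2.2.symm) (e.2.1.trans e'.2.1.symm)))
      · linarith [e.1, e'.2.1]

theorem RR_closed : IsClosed {y : (ℤ_[2] × Bool × ℝ) × (ℤ_[2] × Bool × ℝ) | RR y.1 y.2} := by
  have hn : Continuous (fun b : Bool => !b) := continuous_of_discreteTopology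
  refine (isClosed_eq continuous_fst continuous_snd).union (IsClosed.union ?_ (IsClosed.union ?_ ?_))
  · exact (isClosed_eq (by fun_prop) continuous_const).inter
      ((isClosed_eq (by fun_prop) continuous_const).inter (isClosed_eq (by fun_prop) (by fun_prop)))
  · exact (isClosed_eq (by fun_prop) continuous_const).inter
      ((isClosed_eq (by fun_prop) continuous_const).inter
        ((isClosed_eq (by fun_prop) (by fun_prop)).inter
          (isClosed_eq (by fun_prop) (hn.comp (by fun_prop)))))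
  · exact (isClosed_eq (by fun_prop) continuous_const).inter
      ((isClosed_eq (by fun_prop) continuous_const).inter
        ((isClosed_eq (by fun_prop) (by fun_prop)).inter
          (isClosed_eq (by fun_prop) (hn.comp (by fun_prop)))))

theorem W_ex : ∃ (W : Type) (_ : MetricSpace W) (_ : CompactSpace W) (q : ℤ_[2] × Bool × ℝ → W)
    (τ : W → W), Continuous q ∧ Continuous τ ∧
    (∀ w, ∃ c i, ∃ h ∈ Icc (0 : ℝ) 2, q (c, i, h) = w) ∧
    (∀ c i h, τ (q (c, i, h)) = q (c, !i, h)) ∧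
    ∀ c i h c' i' h', h ∈ Icc (0 : ℝ) 2 → h' ∈ Icc (0 : ℝ) 2 →
      (q (c, i, h) = q (c', i', h') ↔ RR (c, i, h) (c', i', h')) := by
  let D := ℤ_[2] × Bool × Icc (0 : ℝ) 2
  let e : D → ℤ_[2] × Bool × ℝ := fun z => (z.1, z.2.1, z.2.2.1)
  have he : Continuous e := by fun_prop
  have hn : Continuous (fun b : Bool => !b) := continuous_of_discreteTopology
  let S : Setoid D := ⟨fun z w => RR (e z) (e w), ⟨fun _ => RR_equiv.refl _,
    fun h => RR_equiv.symm h, fun h h' => RR_equiv.trans h h'⟩⟩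
  haveI := quot_metrizable S (RR_closed.preimage (he.prodMap he))
  letI : MetricSpace (Quotient S) := TopologicalSpace.metrizableSpaceMetric _
  let t : D → D := fun z => (z.1, !z.2.1, z.2.2)
  have ht : Continuous t := continuous_fst.prodMk ((hn.comp (by fun_prop)).prodMk (by fun_prop))
  have htR : ∀ z w : D, S z w → S (t z) (t w) := by
    rintro ⟨c, i, h⟩ ⟨c', i', h'⟩ (a | a | a | a)
    · exact Or.inl (congrArg (fun z : ℤ_[2] × Bool × ℝ => (z.1, !z.2.1, z.2.2)) a)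
    · exact Or.inr (Or.inl ⟨a.1, a.2.1, congrArg not a.2.2⟩)
    · exact Or.inr (Or.inr (Or.inl ⟨a.1, a.2.1, a.2.2.1, congrArg not a.2.2.2⟩))
    · exact Or.inr (Or.inr (Or.inr ⟨a.1, a.2.1, a.2.2.1, congrArg not a.2.2.2⟩))
  refine ⟨Quotient S, inferInstance, inferInstanceAs (CompactSpace (Quotient S)),
    fun z => Quotient.mk S (z.1, z.2.1, projIcc 0 2 zero_le_two z.2.2), Quotient.map t htR,
    continuous_quotient_mk'.comp (continuous_fst.prodMk ((continuous_fst.comp continuous_snd).prodMk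
      (continuous_projIcc.comp (continuous_snd.comp continuous_snd)))),
    (continuous_quotient_mk'.comp ht).quotient_lift fun z w h => Quotient.sound (htR z w h),
    fun w => ?_, fun _ _ _ => rfl, fun c i h c' i' h' a a' => ?_⟩
  · obtain ⟨⟨c, i, h⟩, rfl⟩ := Quotient.exists_rep w
    exact ⟨c, i, h.1, h.2, by simp only [projIcc_val]⟩
  · simp only [projIcc_of_mem _ a, projIcc_of_mem _ a']
    exact Quotient.eq

theorem G_ex {W : Type} [TopologicalSpace W] {q : ℤ_[2] × Bool × ℝ → W} {τ : W → W}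
    (hq : Continuous q) (hτq : ∀ c i h, τ (q (c, i, h)) = q (c, !i, h))
    (hrel : ∀ c i h c' i' h', h ∈ Icc (0 : ℝ) 2 → h' ∈ Icc (0 : ℝ) 2 →
      (q (c, i, h) = q (c', i', h') ↔ RR (c, i, h) (c', i', h'))) :
    ∃ G : Bool → ℝ → W, (∀ s, Continuous (G s)) ∧ (∀ s x, τ (G s x) = G (!s) x) ∧
      (∀ s x, ∃ c, ∃ h ∈ Icc (0 : ℝ) 2, G s x = q (c, xor (decide (1 ≤ x)) s, h)) ∧
      ∀ s (k : ℤ), ∀ h ∈ Icc (0 : ℝ) 2, G s (2 * k + h / 2) = q (k, xor (decide (1 ≤ k)) s, h) := by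
  let cn : ℤ → ℤ_[2] := fun n => if n = 1 then 1 else ((n / 2 : ℤ) : ℤ_[2])
  let an : ℤ → ℝ := fun n => if n % 2 = 0 then 0 else if n = 1 then 1 else 2
  let bn : ℤ → ℝ := fun n => if n % 2 = 0 then 2 else 0
  have ha : ∀ n, an n ∈ Icc (0 : ℝ) 2 := fun n => by
    simp only [an]; split_ifs <;> norm_num
  have hb : ∀ n, bn n ∈ Icc (0 : ℝ) 2 := fun n => by
    simp only [bn]; split_ifs <;> norm_num
  let P : Bool → ℤ → ℝ → W := fun s n x =>
    q (cn n, xor (decide (1 ≤ n)) s, an n + (bn n - an n) * (x - n))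
  have hP : ∀ s n, Continuous (P s n) := fun s n => hq.comp (by fun_prop)
  have glue : ∀ s n, P s (n + 1) (n + 1) = P s n (n + 1) := by
    intro s n
    simp only [P, Int.cast_add, Int.cast_one, sub_self, mul_zero, add_zero, add_sub_cancel_left,
      mul_one, add_sub_cancel]
    rw [hrel _ _ _ _ _ _ (ha _) (hb _)]
    by_cases h0 : n = 0
    · subst h0
      refine Or.inr (Or.inr (Or.inr ⟨by simp [bn], by simp [an], by simp [cn], by simp⟩))
    have e : decide (1 ≤ n + 1) = decide (1 ≤ n) := decide_eq_decide.2 (by omega)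
    by_cases h : n % 2 = 0
    · left
      simp only [cn, an, bn, e]
      rw [if_neg (by omega), if_neg (by omega), if_neg (by omega), if_neg (by omega), if_pos h,
        show (n + 1) / 2 = n / 2 by omega]
    · refine Or.inr (Or.inl ⟨?_, ?_, by simp only [e]⟩)
      · simp only [an]; rw [if_pos (by omega)]
      · simp only [bn]; rw [if_neg h]
  have hG : ∀ s (n : ℤ) x, x ∈ Icc (n : ℝ) (n + 1) → P s ⌊x⌋ x = P s n x := by
    intro s n x hx
    rcases hx.2.eq_or_lt with rfl | h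
    · rw [show ⌊(n : ℝ) + 1⌋ = n + 1 by simp, glue]
    · rw [Int.floor_eq_iff.2 ⟨hx.1, h⟩]
  have hGc : ∀ s (n : ℤ), ContinuousOn (fun x => P s ⌊x⌋ x) (Icc (n : ℝ) (n + 1)) :=
    fun s n => (hP s n).continuousOn.congr (hG s n)
  refine ⟨fun s x => P s ⌊x⌋ x, fun s => continuous_iff_continuousAt.2 fun x => ?_,
    fun s x => by simp only [P, hτq, Bool.xor_not], fun s x => ⟨cn ⌊x⌋, _, ?_, by
      simp only [P, Int.le_floor, Int.cast_one]; rfl⟩, fun s k h hh => ?_⟩
  · refine ((hGc s (⌊x⌋ - 1)).union_of_isClosed (hGc s ⌊x⌋) isClosed_Icc isClosed_Icc).continuousAt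
      (mem_of_superset (Ioo_mem_nhds (a := (⌊x⌋ : ℝ) - 1) (b := ⌊x⌋ + 1)
        (by linarith [Int.floor_le x]) (Int.lt_floor_add_one x)) fun y hy => ?_)
    push_cast
    rcases le_total y ⌊x⌋ with h | h
    exacts [Or.inl ⟨hy.1.le, by linarith⟩, Or.inr ⟨h, hy.2.le⟩]
  · have h1 := Int.floor_le x
    have h2 := Int.lt_floor_add_one x
    obtain ⟨a1, a2⟩ := ha ⌊x⌋
    obtain ⟨b1, b2⟩ := hb ⌊x⌋
    constructor <;> nlinarith
  · beta_reduce
    rw [hG s (2 * k) _ ⟨by push_cast; linarith [hh.1], by push_cast; linarith [hh.2]⟩]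
    simp only [P, cn, an, bn]
    rw [if_neg (by omega), if_pos (by omega), if_pos (by omega), show 2 * k / 2 = k by omega,
      show decide (1 ≤ 2 * k) = decide (1 ≤ k) from decide_eq_decide.2 (by omega)]
    congr 3
    push_cast; ring

theorem bne' {i j : Bool} (h : ¬ i = j) : (!i) = j := by cases i <;> cases j <;> simp_all

set_option maxHeartbeats 2000000 in
theorem main : ∃ (X : Type) (_ : MetricSpace X) (_ : CompactSpace X) (T : X → X) (p v : X),
    Continuous T ∧ (∀ x, T (T x) = x) ∧ (∀ x, T x ≠ x) ∧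
    (∀ x y : X, ∃ K, IsCont K ∧ x ∈ K ∧ y ∈ K ∧ ∀ M ⊆ K, Indec M → ¬ M.Nontrivial) ∧
    ∀ (Y : Type) [MetricSpace Y] [CompactSpace Y] (f : X → Y), Continuous f →
      Function.Surjective f → (∀ x y, f x = f y ↔ x = y ∨ x = T y) →
      ∀ K, IsCont K → f p ∈ K → f v ∈ K → ∃ M ⊆ K, Indec M ∧ M.Nontrivial := by
  obtain ⟨W, _, _, q, τ, hq, hτ, hsurj, hτq, hrel⟩ := W_ex
  obtain ⟨G, hG, hGτ, hGL, hGk⟩ := G_ex hq hτq hrel
  have h0 : (0 : ℝ) ∈ Icc (0 : ℝ) 2 := ⟨le_rfl, zero_le_two⟩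
  have h1 : (1 : ℝ) ∈ Icc (0 : ℝ) 2 := ⟨zero_le_one, one_le_two⟩
  have h2 : (2 : ℝ) ∈ Icc (0 : ℝ) 2 := ⟨zero_le_two, le_rfl⟩
  have hττ : ∀ w, τ (τ w) = w := fun w => by
    obtain ⟨c, i, h, -, rfl⟩ := hsurj w
    rw [hτq, hτq, Bool.not_not]
  have hsame : ∀ c c' i h h', h ∈ Icc (0 : ℝ) 2 → h' ∈ Icc (0 : ℝ) 2 →
      (q (c, i, h) = q (c', i, h') ↔ (c = c' ∧ h = h') ∨ (h = 0 ∧ h' = 0)) := by
    intro c c' i h h' a a'
    rw [hrel _ _ _ _ _ _ a a']
    cases i <;> simp [RR]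
  have hopp : ∀ c c' i h h', h ∈ Icc (0 : ℝ) 2 → h' ∈ Icc (0 : ℝ) 2 →
      (q (c, i, h) = q (c', !i, h') ↔
        (h = 2 ∧ h' = 1 ∧ c' = c + 1) ∨ (h' = 2 ∧ h = 1 ∧ c = c' + 1)) := by
    intro c c' i h h' a a'
    rw [hrel _ _ _ _ _ _ a a']
    cases i <;> simp [RR]
  have hτf : ∀ w, τ w ≠ w := fun w e => by
    obtain ⟨c, i, h, a, rfl⟩ := hsurj w
    rw [hτq] at e
    rcases (hopp _ _ _ _ _ a a).1 e.symm with e | e <;> linarith [e.1, e.2.1]
  let Xs : Set (W × ℝ × ℝ) :=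
    {z | z.2.1 ^ 2 + z.2.2 ^ 2 = z.2.1} ∩ {z | z.2.1 ≠ 0 ∧ ∀ s, z.1 ≠ G s (z.2.2 / z.2.1)}ᶜ
  have hXc : IsCompact Xs := by
    refine (isCompact_univ.prod ((isCompact_Icc (a := (0 : ℝ)) (b := 1)).prod
      (isCompact_Icc (a := (-1 : ℝ)) (b := 1)))).of_isClosed_subset
      ((isClosed_eq (by fun_prop) (by fun_prop)).inter (IsOpen.isClosed_compl
        (isOpen_iff_mem_nhds.2 fun z hz => ?_))) fun z hz => ?_
    · have hc : ContinuousAt (fun z : W × ℝ × ℝ => z.2.2 / z.2.1) z :=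
        ContinuousAt.div (by fun_prop) (by fun_prop) hz.1
      refine ((show ContinuousAt (fun z : W × ℝ × ℝ => z.2.1) z by fun_prop).eventually_ne
        hz.1).and (eventually_all.2 fun s => ?_)
      exact (continuousAt_fst.prodMk ((hG s).continuousAt.comp hc)).eventually
        (isOpen_ne_fun continuous_fst continuous_snd |>.mem_nhds (hz.2 s))
    · have := hz.1
      simp only [mem_setOf_eq] at this
      refine ⟨trivial, ⟨?_, ?_⟩, ?_, ?_⟩ <;> nlinarith [sq_nonneg z.2.1, sq_nonneg z.2.2,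
        sq_nonneg (z.2.1 - 1), sq_nonneg (z.2.2 - 1), sq_nonneg (z.2.2 + 1)]
  haveI : CompactSpace Xs := isCompact_iff_compactSpace.1 hXc
  have hpos : ∀ x : ℝ, 0 < 1 + x ^ 2 := fun x => by positivity
  have hdiv : ∀ x : ℝ, x / (1 + x ^ 2) / (1 / (1 + x ^ 2)) = x := fun x => by
    field_simp [(hpos x).ne']
  let l : Bool → ℤ_[2] × ℝ → Xs := fun i z => ⟨(q (z.1, i, z.2), 0, 0), by simp, fun h => h.1 rfl⟩
  let γ : Bool → ℝ → Xs := fun s x => ⟨(G s x, 1 / (1 + x ^ 2), x / (1 + x ^ 2)), by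
    simp only [mem_setOf_eq]
    field_simp [(hpos x).ne'], fun h => h.2 s (by simp only [hdiv])⟩
  have hl : ∀ i, Continuous (l i) := fun i => Continuous.subtype_mk (by fun_prop) _
  have hγ : ∀ s, Continuous (γ s) := fun s => Continuous.subtype_mk ((hG s).prodMk
    ((continuous_const.div (by fun_prop) fun x => (hpos x).ne').prodMk
      (continuous_id.div (by fun_prop) fun x => (hpos x).ne'))) _
  have hγi : ∀ s, Function.Injective (γ s) := fun s x y e => by
    rw [← hdiv x, ← hdiv y]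
    exact congrArg (fun z : Xs => z.1.2.2 / z.1.2.1) e
  have hcase : ∀ x : Xs, (x.1.2 = (0, 0)) ∨ ∃ s t, γ s t = x := by
    rintro ⟨⟨w, a, b⟩, e, e'⟩
    simp only [mem_setOf_eq] at e
    by_cases ha : a = 0
    · left
      rw [ha] at e
      exact Prod.ext ha (by simp only; nlinarith)
    · right
      obtain ⟨s, hs⟩ : ∃ s, w = G s (b / a) := by
        by_contra h
        push Not at h
        exact e' ⟨ha, h⟩
      have : 1 + (b / a) ^ 2 = 1 / a := by field_simp; linarith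
      refine ⟨s, b / a, Subtype.ext (Prod.ext hs.symm (Prod.ext ?_ ?_))⟩
      · simp only [γ, this, one_div, inv_inv]
      · simp only [γ, this]; field_simp
  have hleq : ∀ i i' z z', l i z = l i' z' ↔ q (z.1, i, z.2) = q (z'.1, i', z'.2) :=
    fun i i' z z' => ⟨fun e => congrArg (fun x : Xs => x.1.1) e,
      fun e => Subtype.ext (Prod.ext e rfl)⟩
  let L : Bool → Set Xs := fun i => l i '' (univ ×ˢ Icc 0 2)
  have hL : ∀ i, IsClosed (L i) := fun i => ((isCompact_univ.prod isCompact_Icc).image (hl i)).isClosed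
  let T : Xs → Xs := fun x => ⟨(τ x.1.1, x.1.2), x.2.1, fun h => x.2.2 ⟨h.1, fun s e =>
    h.2 (!s) (by rw [← hGτ]; exact congrArg τ e)⟩⟩
  have hTl : ∀ i z, T (l i z) = l (!i) z := fun i z => Subtype.ext (Prod.ext (hτq _ _ _) rfl)
  have hTγ : ∀ s x, T (γ s x) = γ (!s) x := fun s x => Subtype.ext (Prod.ext (hGτ _ _) rfl)
  have hlim : ∀ s c, ∀ h ∈ Icc (0 : ℝ) 2, ∀ x0 : ℝ,
      l (!s) (c, h) ∈ closure (γ s '' Ici x0) ∧ l s (c, h) ∈ closure (γ s '' Iic x0) := by
    intro s c h hh x0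
    have aux : ∀ (k : ℕ → ℤ) (i : Bool), Tendsto (fun j => (k j : ℤ_[2])) atTop (𝓝 c) →
        (∀ j : ℕ, (j : ℝ) ^ 2 ≤ (2 * (k j : ℝ) + h / 2) ^ 2) →
        (∀ j, xor (decide (1 ≤ k j)) s = i) →
        Tendsto (fun j => γ s (2 * k j + h / 2)) atTop (𝓝 (l i (c, h))) := by
      intro k i a b e
      have t1 : Tendsto (fun j : ℕ => 1 / (1 + (2 * (k j : ℝ) + h / 2) ^ 2)) atTop (𝓝 0) := by
        refine squeeze_zero (fun _ => by positivity) (fun j => ?_)
          tendsto_one_div_add_atTop_nhds_zero_nat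
        refine one_div_le_one_div_of_le (by positivity) ?_
        have : (j : ℝ) ≤ (j : ℝ) ^ 2 := by exact_mod_cast Nat.le_self_pow two_ne_zero j
        linarith [b j]
      rw [tendsto_subtype_rng]
      refine Tendsto.prodMk_nhds ?_ (t1.prodMk_nhds ?_)
      · simp only [hGk s _ h hh, e]
        exact (hq.tendsto _).comp (a.prodMk_nhds tendsto_const_nhds)
      · have t2 := (Real.continuous_sqrt.tendsto _).comp t1
        rw [Real.sqrt_zero] at t2
        refine squeeze_zero_norm (fun j => ?_) t2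
        refine Real.le_sqrt_of_sq_le ?_
        have := hpos (2 * (k j : ℝ) + h / 2)
        rw [Real.norm_eq_abs, sq_abs, div_pow, div_le_div_iff₀ (by positivity) this]
        nlinarith
    constructor
    · obtain ⟨k, a, b⟩ := tails c
      have a' : ∀ j : ℕ, (j : ℝ) + 1 ≤ k (j + 1) := fun j => by exact_mod_cast a (j + 1)
      refine mem_closure_of_tendsto (aux (fun j => k (j + 1)) _
        (by simpa [Function.comp_def] using b.comp (tendsto_add_atTop_nat 1)) (fun j => ?_) fun j => ?_) ?_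
      · have := a' j
        push_cast
        have hj : (0 : ℝ) ≤ j := by positivity
        nlinarith [hh.1]
      · have := a (j + 1)
        rw [decide_eq_true (by omega), Bool.true_xor]
      · obtain ⟨N, hN⟩ := exists_nat_ge x0
        refine eventually_atTop.2 ⟨N, fun j hj => mem_image_of_mem _ ?_⟩
        have := a' j
        have hj' : (N : ℝ) ≤ j := by exact_mod_cast hj
        have hj : (0 : ℝ) ≤ j := by positivity
        simp only [mem_Ici, Int.cast_natCast]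
        linarith [hh.1]
    · obtain ⟨k, a, b⟩ := tails (-c)
      have a' : ∀ j : ℕ, (j : ℝ) + 1 ≤ k (j + 1) := fun j => by exact_mod_cast a (j + 1)
      refine mem_closure_of_tendsto (aux (fun j => -k (j + 1)) _
        (by simpa using (b.comp (tendsto_add_atTop_nat 1)).neg) (fun j => ?_) fun j => ?_) ?_
      · have := a' j
        push_cast
        have hj : (0 : ℝ) ≤ j := by positivity
        nlinarith [hh.2]
      · rw [decide_eq_false (by omega), Bool.false_xor]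
      · obtain ⟨N, hN⟩ := exists_nat_ge (-x0)
        refine eventually_atTop.2 ⟨N, fun j hj => mem_image_of_mem _ ?_⟩
        have := a' j
        have hj' : (N : ℝ) ≤ j := by exact_mod_cast hj
        have hj : (0 : ℝ) ≤ j := by positivity
        simp only [mem_Iic, Int.cast_neg, Int.cast_natCast]
        linarith [hh.2]
  refine ⟨Xs, inferInstance, inferInstance, T, γ false 0, l false (0, 0),
    Continuous.subtype_mk (by fun_prop) _, fun x => Subtype.ext (Prod.ext (hττ _) rfl),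
    fun x e => hτf _ (congrArg (fun x : Xs => x.1.1) e), fun x y => ?_, ?_⟩
  · let S : Bool → ℤ_[2] → Set Xs := fun i c =>
      L i ∪ (range (γ false) ∪ range (γ true) ∪ (fun h => l (!i) (c, h)) '' Icc 0 2)
    have hrange : ∀ i c s x, γ s x ∈ S i c := fun i c s x => by
      cases s
      exacts [Or.inr (Or.inl (Or.inl ⟨x, rfl⟩)), Or.inr (Or.inl (Or.inr ⟨x, rfl⟩))]
    have hleg : ∀ i c, IsCont ((fun h => l i (c, h)) '' Icc 0 2) := fun i c =>
      ⟨isCompact_Icc.image (by fun_prop), (isConnected_Icc zero_le_two).image _ (by fun_prop)⟩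
    have hv : ∀ i c, l i (c, 0) = l i (0, 0) := fun i c =>
      (hleq _ _ _ _).2 ((hsame _ _ _ _ _ h0 h0).2 (Or.inr ⟨rfl, rfl⟩))
    have htail : ∀ i c s (A : Set ℝ) a b, (∀ x ∈ A, x ∈ Icc a b ∨ xor (decide (1 ≤ x)) s = i) →
        closure (γ s '' A) ⊆ S i c := by
      intro i c s A a b hA
      have hcl : IsClosed (γ s '' Icc a b ∪
          (fun x : Xs => x.1.1) ⁻¹' ((fun x : Xs => x.1.1) '' L i)) :=
        (isCompact_Icc.image (hγ s)).isClosed.union
          (((hL i).isCompact.image (by fun_prop)).isClosed.preimage (by fun_prop))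
      refine (closure_minimal ?_ hcl).trans ?_
      · rintro _ ⟨x, hx, rfl⟩
        rcases hA x hx with h | h
        · exact Or.inl ⟨x, h, rfl⟩
        · obtain ⟨d, r, hr, e⟩ := hGL s x
          exact Or.inr ⟨_, ⟨(d, r), ⟨trivial, hr⟩, rfl⟩, by rw [h] at e; exact e.symm⟩
      · rintro x (⟨t, -, rfl⟩ | ⟨_, ⟨z, hz, rfl⟩, e⟩)
        · exact hrange _ _ _ _
        · rcases hcase x with h | ⟨s, t, rfl⟩
          exacts [Or.inl ⟨z, hz, Subtype.ext (Prod.ext e h.symm)⟩, hrange _ _ _ _]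
    have hjoin : ∀ i c, ∀ x ∈ S i c, ∃ K, IsCont K ∧ K ⊆ S i c ∧ x ∈ K ∧ l i (0, 0) ∈ K := by
      intro i c
      have a1 : ∀ d, (fun h => l i (d, h)) '' Icc 0 2 ⊆ S i c := by
        rintro d _ ⟨h, hh, rfl⟩
        exact Or.inl ⟨(d, h), ⟨trivial, hh⟩, rfl⟩
      have a2 : ∀ s t, ∃ K, IsCont K ∧ K ⊆ S i c ∧ γ s t ∈ K ∧ l i (0, 0) ∈ K := by
        intro s t
        by_cases h : s = i
        · refine ⟨closure (γ s '' Iic t), ⟨isClosed_closure.isCompact,
            (isConnected_Iic.image _ (hγ s).continuousOn).closure⟩,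
            htail i c s _ 0 t fun x hx => ?_, subset_closure ⟨t, le_refl t, rfl⟩,
            h ▸ (hlim s 0 0 h0 t).2⟩
          by_cases h' : 0 ≤ x
          · exact Or.inl ⟨h', hx⟩
          · right; rw [decide_eq_false (by linarith), Bool.false_xor, h]
        · have h' : (!s) = i := bne' h
          refine ⟨closure (γ s '' Ici t), ⟨isClosed_closure.isCompact,
            (isConnected_Ici.image _ (hγ s).continuousOn).closure⟩,
            htail i c s _ t 1 fun x hx => ?_, subset_closure ⟨t, le_refl t, rfl⟩,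
            h' ▸ (hlim s 0 0 h0 t).1⟩
          by_cases h'' : 1 ≤ x
          · right; rw [decide_eq_true h'', Bool.true_xor, h']
          · exact Or.inl ⟨hx, by linarith⟩
      rintro x (⟨⟨d, h⟩, ⟨-, hh⟩, rfl⟩ | (⟨t, rfl⟩ | ⟨t, rfl⟩) | hx)
      · exact ⟨_, hleg i d, a1 d, ⟨h, hh, rfl⟩, 0, h0, hv i d⟩
      · exact a2 _ _
      · exact a2 _ _
      · refine ⟨_, ⟨(hleg (!i) c).1.union (hleg i (c - 1)).1, (hleg (!i) c).2.union
          ⟨_, ⟨1, h1, rfl⟩, 2, h2, (hleq _ _ _ _).2 ((hopp _ _ _ _ _ h2 h1).2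
            (Or.inl ⟨rfl, rfl, by simp⟩))⟩ (hleg i (c - 1)).2⟩,
          union_subset (fun u hu => Or.inr (Or.inr hu)) (a1 _), Or.inl hx, Or.inr ⟨0, h0, hv _ _⟩⟩
    have hmem : ∀ x : Xs, (∀ i c, x ∈ S i c) ∨ ∃ i c, (∀ d, x ∈ S i d) ∧ x ∈ S (!i) c := by
      intro x
      rcases hcase x with h | ⟨s, t, rfl⟩
      · obtain ⟨c, i, r, hr, e⟩ := hsurj x.1.1
        have : l i (c, r) = x := Subtype.ext (Prod.ext e h.symm)
        exact Or.inr ⟨i, c, fun d => Or.inl ⟨_, ⟨trivial, hr⟩, this⟩,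
          Or.inr (Or.inr ⟨r, hr, by rw [Bool.not_not]; exact this⟩)⟩
      · exact Or.inl fun i c => hrange _ _ _ _
    obtain ⟨i, c, hx, hy⟩ : ∃ i c, x ∈ S i c ∧ y ∈ S i c := by
      rcases hmem x with a | ⟨i, c, a, a'⟩ <;> rcases hmem y with b | ⟨j, d, b, b'⟩
      · exact ⟨false, 0, a _ _, b _ _⟩
      · exact ⟨j, 0, a _ _, b _⟩
      · exact ⟨i, 0, a _, b _ _⟩
      · by_cases h : i = j
        · exact ⟨i, 0, a _, h ▸ b _⟩
        · exact ⟨i, d, a _, bne' (Ne.symm h) ▸ b'⟩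
    obtain ⟨K, a1, a2, a3, a4⟩ := hjoin i c x hx
    obtain ⟨K', b1, b2, b3, b4⟩ := hjoin i c y hy
    refine ⟨K ∪ K', ⟨a1.1.union b1.1, a1.2.union ⟨_, a4, b4⟩ b1.2⟩, Or.inl a3, Or.inr b3,
      fun M hM hI hn => ?_⟩
    refine fan_dec (hl i) (fun c c' h h' a a' => (hleq _ _ _ _).trans (hsame _ _ _ _ _ a a')) hI hn
      (baire_dec (ι := Option (Bool × ℕ)) hI hn (hL i)
        (fun o => o.elim (fun h => l (!i) (c, h)) fun z => γ z.1) ?_
        (fun o => o.elim 0 fun z => -z.2) (fun o => o.elim 2 fun z => z.2) ?_ ?_)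
    · rintro (_ | z)
      exacts [(hl _).comp (Continuous.prodMk_right c), hγ _]
    · rintro (_ | z)
      · intro s hs t ht e
        rcases (hsame _ _ _ _ _ hs ht).1 ((hleq _ _ _ _).1 e) with e | e
        exacts [e.2, e.1.trans e.2.symm]
      · exact (hγi _).injOn
    · intro u hu
      have aux : ∀ s t, ∃ n : ℕ, γ s t ∈ γ s '' Icc (-(n : ℝ)) n := fun s t => by
        obtain ⟨n, hn⟩ := exists_nat_ge |t|
        exact ⟨n, mem_image_of_mem _ (abs_le.1 hn)⟩
      rcases union_subset a2 b2 (hM hu) with h | (⟨t, rfl⟩ | ⟨t, rfl⟩) | h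
      · exact Or.inl h
      · obtain ⟨n, hn⟩ := aux false t
        exact Or.inr (mem_iUnion.2 ⟨some (false, n), hn⟩)
      · obtain ⟨n, hn⟩ := aux true t
        exact Or.inr (mem_iUnion.2 ⟨some (true, n), hn⟩)
      · exact Or.inr (mem_iUnion.2 ⟨none, h⟩)
  · intro Y _ _ f hf hs hfr K hK hp hv
    have hfT : ∀ x, f (T x) = f x := fun x => (hfr _ _).2 (Or.inr rfl)
    have hfγ : ∀ s t, f (γ s t) = f (γ false t) := fun s t => by
      cases s
      exacts [rfl, (hfT _).symm.trans (by rw [hTγ]; rfl)]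
    have hside : (∀ t ∈ Ici (1 : ℝ), f (γ false t) ∈ K) ∨ ∀ t ∈ Iic (-1 : ℝ), f (γ false t) ∈ K := by
      by_contra hcon
      push Not at hcon
      obtain ⟨⟨α, hα, a⟩, β, hβ, b⟩ := hcon
      let m : Xs → ℝ := fun x => x.1.2.1 - 1 + (α + β) * x.1.2.2 - α * β * x.1.2.1
      have hm : ∀ x, m (Function.surjInv hs (f x)) = m x := fun x => by
        rcases (hfr _ _).1 (Function.surjInv_eq hs (f x)) with e | e <;> rw [e]
      have hc : Continuous fun y => m (Function.surjInv hs y) :=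
        (hf.isClosedMap.isQuotientMap hf hs).continuous_iff.2 (by
          rw [show (fun y => m (Function.surjInv hs y)) ∘ f = m from funext hm]
          fun_prop)
      have hα' : (1 : ℝ) ≤ α := hα
      have hβ' : β ≤ (-1 : ℝ) := hβ
      obtain ⟨y, hy, e⟩ := hK.2.2.intermediate_value hv hp hc.continuousOn
        (show (0 : ℝ) ∈ _ from ⟨by rw [hm]; simp [m, l], by rw [hm]; simp [m, γ]; nlinarith⟩)
      obtain ⟨x, rfl⟩ := hs y
      simp only [hm] at e
      rcases hcase x with h | ⟨s, t, rfl⟩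
      · simp [m, h] at e
      · rw [hfγ] at hy
        simp only [m, γ] at e
        have : (t - α) * (t - β) = 0 := by
          field_simp [(hpos t).ne'] at e
          linarith
        rcases mul_eq_zero.1 this with h | h
        exacts [a (sub_eq_zero.1 h ▸ hy), b (sub_eq_zero.1 h ▸ hy)]
    have hI : ∀ h ∈ Icc (1 : ℝ) 2, h ∈ Icc (0 : ℝ) 2 := fun h hh => ⟨zero_le_one.trans hh.1, hh.2⟩
    obtain ⟨a, b⟩ := sol (ρ := fun z => f (l false z)) (hf.comp (hl _)) fun c c' h h' a a' => by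
      rw [hfr, hTl, hleq, hleq, hsame _ _ _ _ _ (hI _ a) (hI _ a'), hopp _ _ _ _ _ (hI _ a) (hI _ a'),
        or_iff_left (show ¬ (h = 0 ∧ h' = 0) from fun e => by linarith [e.1, a.1])]
    refine ⟨_, ?_, a, b⟩
    rintro _ ⟨⟨c, h⟩, ⟨-, hh⟩, rfl⟩
    have hcl := hK.1.isClosed.preimage hf
    rcases hside with h' | h'
    · have := closure_minimal (t := f ⁻¹' K) (image_subset_iff.2 h') hcl (hlim false c h (hI h hh) 1).1
      rwa [← hTl, mem_preimage, hfT] at this
    · exact closure_minimal (t := f ⁻¹' K) (image_subset_iff.2 h') hcl (hlim false c h (hI h hh) (-1)).2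

end Pool.Agent.H26.Delta
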