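import Mathlib

/-! Dyadic description of Erdős–Ulam ideals and a second-moment selection lemma. -/

namespace Pool.Agent.H26.EU

open Set Filter Topology Finset

section
variable (f : ℕ → ℝ)

noncomputable def F (n : ℕ) : ℝ := ∑ i ∈ Finset.range n, f i

noncomputable def cl (i : ℕ) : ℕ := Nat.log 2 ⌊F f (i + 1)⌋₊

variable {f}

lemma F_mono (h0 : ∀ i, 0 ≤ f i) : Monotone (F f) := fun _ _ h =>
  Finset.sum_le_sum_of_subset_of_nonneg (Finset.range_mono h) fun i _ _ => h0 i

lemma cl_mono (h0 : ∀ i, 0 ≤ f i) : Monotone (cl f) := fun _ _ h =>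
  Nat.log_mono_right (Nat.floor_mono (F_mono h0 (by omega)))

lemma F_lt (i : ℕ) : F f (i + 1) < 2 ^ (cl f i + 1) := by
  have h := Nat.lt_pow_succ_log_self (b := 2) (by norm_num) ⌊F f (i + 1)⌋₊
  have h2 : ((⌊F f (i + 1)⌋₊ + 1 : ℕ) : ℝ) ≤ ((2 ^ (cl f i + 1) : ℕ) : ℝ) := by exact_mod_cast h
  push_cast at h2
  exact (Nat.lt_floor_add_one _).trans_le h2

lemma le_F (h0 : ∀ i, 0 ≤ f i) {i : ℕ} (h : cl f i ≠ 0) : 2 ^ cl f i ≤ F f (i + 1) := by
  have h1 : ⌊F f (i + 1)⌋₊ ≠ 0 := fun e => h (by simp [cl, e])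
  have h2 : ((2 ^ cl f i : ℕ) : ℝ) ≤ (⌊F f (i + 1)⌋₊ : ℝ) := by
    exact_mod_cast Nat.pow_log_le_self 2 h1
  push_cast at h2
  exact h2.trans (Nat.floor_le (Finset.sum_nonneg fun i _ => h0 i))

lemma cl_tend (h1 : Tendsto (F f) atTop atTop) : Tendsto (cl f) atTop atTop :=
  (tendsto_atTop_atTop_of_monotone (fun _ _ h => Nat.log_mono_right h) fun b =>
    ⟨2 ^ b, by rw [Nat.log_pow (by norm_num)]⟩).comp
    (tendsto_nat_floor_atTop.comp (h1.comp (tendsto_add_atTop_nat 1)))

lemma cl_fin (h1 : Tendsto (F f) atTop atTop) (j : ℕ) : {i | cl f i = j}.Finite := by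
  obtain ⟨N, hN⟩ := eventually_atTop.1 ((cl_tend h1).eventually_gt_atTop j)
  exact (finite_Iio N).subset fun i hi => not_le.1 fun c => (hN i c).ne' hi

open Classical in
noncomputable def m (h1 : Tendsto (F f) atTop atTop) (A : Set ℕ) (j : ℕ) : ℝ :=
  (∑ i ∈ (cl_fin h1 j).toFinset with i ∈ A, f i) / 2 ^ j

open Classical in
noncomputable def S (f : ℕ → ℝ) (A : Set ℕ) (n : ℕ) : ℝ := ∑ i ∈ Finset.range n with i ∈ A, f i

lemma m_nonneg (h0 : ∀ i, 0 ≤ f i) (h1 : Tendsto (F f) atTop atTop) (A : Set ℕ) (j : ℕ) :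
    0 ≤ m h1 A j := div_nonneg (Finset.sum_nonneg fun i _ => h0 i) (by positivity)

lemma m_le (h0 : ∀ i, 0 ≤ f i) (h1 : Tendsto (F f) atTop atTop) (A : Set ℕ) (j : ℕ) :
    m h1 A j = 0 ∨ ∃ i, cl f i = j ∧ m h1 A j * 2 ^ j ≤ S f A (i + 1) := by
  classical
  rcases (cl_fin h1 j).toFinset.eq_empty_or_nonempty with h | h
  · left; simp [m, h]
  · right
    refine ⟨_, by simpa using Finset.max'_mem _ h, ?_⟩
    rw [m, div_mul_cancel₀ _ (by positivity)]
    refine Finset.sum_le_sum_of_subset_of_nonneg (fun i hi => ?_) fun i _ _ => h0 i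
    rw [Finset.mem_filter] at hi ⊢
    exact ⟨Finset.mem_range.2 (Nat.lt_succ_of_le (Finset.le_max' _ _ hi.1)), hi.2⟩

lemma S_le_F (h0 : ∀ i, 0 ≤ f i) (A : Set ℕ) (n : ℕ) : S f A n ≤ F f n := by
  classical
  exact Finset.sum_le_sum_of_subset_of_nonneg (Finset.filter_subset _ _) fun i _ _ => h0 i

lemma m_le_two (h0 : ∀ i, 0 ≤ f i) (h1 : Tendsto (F f) atTop atTop) (A : Set ℕ) (j : ℕ) :
    m h1 A j ≤ 2 := by
  rcases m_le h0 h1 A j with h | ⟨i, rfl, h⟩
  · rw [h]; norm_num
  · have := (h.trans (S_le_F h0 A _)).trans_lt (F_lt i)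
    rw [pow_succ, mul_comm] at this
    exact (lt_of_mul_lt_mul_left this (by positivity)).le

lemma S_le (h0 : ∀ i, 0 ≤ f i) (h1 : Tendsto (F f) atTop atTop) (A : Set ℕ) (n : ℕ) :
    S f A (n + 1) ≤ ∑ j ∈ Finset.range (cl f n + 1), m h1 A j * 2 ^ j := by
  classical
  rw [S, ← Finset.sum_fiberwise_of_maps_to (g := cl f) (t := Finset.range (cl f n + 1))]
  · refine Finset.sum_le_sum fun j _ => ?_
    rw [m, div_mul_cancel₀ _ (by positivity)]
    refine Finset.sum_le_sum_of_subset_of_nonneg (fun i hi => ?_) fun i _ _ => h0 i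
    simp only [Finset.mem_filter, Set.Finite.mem_toFinset, mem_setOf_eq] at hi ⊢
    exact ⟨hi.2, hi.1.2⟩
  · intro i hi
    simp only [Finset.mem_filter, Finset.mem_range] at hi ⊢
    exact Nat.lt_succ_of_le (cl_mono h0 (by omega))

theorem EU_iff (h0 : ∀ i, 0 ≤ f i) (h1 : Tendsto (F f) atTop atTop) (A : Set ℕ) :
    Tendsto (fun n => S f A n / F f n) atTop (𝓝 0) ↔ Tendsto (m h1 A) atTop (𝓝 0) := by
  have S0 : ∀ n, 0 ≤ S f A n := fun n => Finset.sum_nonneg fun i _ => h0 i
  have F0 : ∀ n, 0 ≤ F f n := fun n => Finset.sum_nonneg fun i _ => h0 i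
  constructor
  · intro h
    rw [Metric.tendsto_atTop] at h ⊢
    intro ε hε
    obtain ⟨N, hN⟩ := h (ε / 2) (by positivity)
    refine ⟨cl f N + 1, fun j hj => ?_⟩
    rw [Real.dist_eq, sub_zero, abs_of_nonneg (m_nonneg h0 h1 A j)]
    rcases m_le h0 h1 A j with h | ⟨i, rfl, h⟩
    · rwa [h]
    · have hi : N ≤ i := by
        by_contra c
        have := cl_mono h0 (not_le.1 c).le
        omega
      have a := hN (i + 1) (by omega)
      have p : 0 < F f (i + 1) := lt_of_lt_of_le (by positivity) (le_F h0 (by omega))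
      rw [Real.dist_eq, sub_zero, abs_of_nonneg (div_nonneg (S0 _) (F0 _)), div_lt_iff₀ p] at a
      have b := F_lt (f := f) i
      rw [pow_succ] at b
      have c : m h1 A (cl f i) * 2 ^ cl f i < ε * 2 ^ cl f i := by nlinarith
      exact lt_of_mul_lt_mul_right c (by positivity)
  · intro h
    rw [← tendsto_add_atTop_iff_nat 1]
    rw [Metric.tendsto_atTop] at h ⊢
    intro ε hε
    obtain ⟨J, hJ⟩ := h (ε / 4) (by positivity)
    have key : ∀ j, ∑ l ∈ Finset.range (j + 1), m h1 A l * 2 ^ l ≤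
        2 ^ (J + 1) + ε / 4 * 2 ^ (j + 1) := by
      have k1 : ∀ j, ∑ l ∈ Finset.range j, m h1 A l * 2 ^ l ≤
          2 * 2 ^ min j J + ε / 4 * 2 ^ j := by
        intro j
        induction j with
        | zero => simp; positivity
        | succ j ih =>
          rw [Finset.sum_range_succ]
          rcases lt_or_ge j J with c | c
          · rw [min_eq_left c.le] at ih
            rw [min_eq_left c, pow_succ]
            have := m_le_two h0 h1 A j
            have p : (0 : ℝ) < 2 ^ j := by positivity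
            nlinarith
          · rw [min_eq_right c] at ih
            rw [min_eq_right (by omega), pow_succ]
            have := hJ j c
            rw [Real.dist_eq, sub_zero, abs_of_nonneg (m_nonneg h0 h1 A j)] at this
            have p : (0 : ℝ) < 2 ^ j := by positivity
            nlinarith
      intro j
      refine (k1 (j + 1)).trans ?_
      have : (2 : ℝ) ^ min (j + 1) J ≤ 2 ^ J := pow_le_pow_right₀ (by norm_num) (min_le_right _ _)
      rw [pow_succ 2 J]; linarith
    obtain ⟨N, hN⟩ := eventually_atTop.1 (((cl_tend h1).eventually_gt_atTop 0).and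
      ((h1.comp (tendsto_add_atTop_nat 1)).eventually_gt_atTop (2 ^ (J + 1) / (ε / 2))))
    refine ⟨N, fun n hn => ?_⟩
    obtain ⟨a, b⟩ := hN n hn
    have c := le_F h0 a.ne'
    have p : 0 < F f (n + 1) := lt_of_lt_of_le (by positivity) c
    rw [Real.dist_eq, sub_zero, abs_of_nonneg (div_nonneg (S0 _) (F0 _)), div_lt_iff₀ p]
    have d := (S_le h0 h1 A n).trans (key _)
    simp only [Function.comp] at b
    rw [div_lt_iff₀ (by positivity)] at b
    rw [pow_succ 2 (cl f n)] at d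
    nlinarith

end

/-- derandomised second moment -/
lemma select {X J : Type*} [DecidableEq X] (H : Finset J) (M : ℕ) (hM : 0 < M)
    (u : J → X → ℕ → ℝ) (s : Finset X) (b : J → ℝ) :
    ∃ g : X → ℕ, (∀ x, g x < M) ∧ ∑ j ∈ H, (b j + ∑ x ∈ s, u j x (g x)) ^ 2 ≤
      ∑ j ∈ H, ((b j + ∑ x ∈ s, (∑ y ∈ Finset.range M, u j x y) / M) ^ 2 +
        ∑ x ∈ s, (∑ y ∈ Finset.range M, u j x y ^ 2) / M) := by
  induction s using Finset.induction_on generalizing b with
  | empty => exact ⟨fun _ => 0, fun _ => hM, by simp⟩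
  | insert x0 s hx ih =>
    have hM' : (0 : ℝ) < M := by exact_mod_cast hM
    let c : J → ℝ := fun j => b j + ∑ x ∈ s, (∑ y ∈ Finset.range M, u j x y) / M
    obtain ⟨y0, hy, h⟩ : ∃ y ∈ Finset.range M, ∑ j ∈ H, (c j + u j x0 y) ^ 2 ≤
        ∑ j ∈ H, ((c j + (∑ y ∈ Finset.range M, u j x0 y) / M) ^ 2 +
          (∑ y ∈ Finset.range M, u j x0 y ^ 2) / M) := by
      apply Finset.exists_le_of_sum_le ⟨0, Finset.mem_range.2 hM⟩
      rw [Finset.sum_comm, Finset.sum_const, Finset.card_range, Finset.smul_sum]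
      refine Finset.sum_le_sum fun j _ => ?_
      have e : ∑ y ∈ Finset.range M, (c j + u j x0 y) ^ 2 = M * c j ^ 2 +
          2 * c j * ∑ y ∈ Finset.range M, u j x0 y + ∑ y ∈ Finset.range M, u j x0 y ^ 2 := by
        simp only [add_sq, Finset.sum_add_distrib, Finset.sum_const, Finset.card_range,
          nsmul_eq_mul, Finset.mul_sum]
      rw [e, nsmul_eq_mul]
      set a := ∑ y ∈ Finset.range M, u j x0 y
      set v := ∑ y ∈ Finset.range M, u j x0 y ^ 2
      have : (M : ℝ) * ((c j + a / M) ^ 2 + v / M) =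
          M * c j ^ 2 + 2 * c j * a + v + M * (a / M) ^ 2 := by field_simp; ring
      rw [this]
      have : 0 ≤ (M : ℝ) * (a / M) ^ 2 := by positivity
      linarith
    obtain ⟨g, g1, g2⟩ := ih (fun j => b j + u j x0 y0)
    refine ⟨Function.update g x0 y0, fun x => ?_, ?_⟩
    · by_cases e : x = x0
      · subst e; simpa using hy
      · rw [Function.update_of_ne e]; exact g1 x
    · have e1 : ∀ j, b j + ∑ x ∈ insert x0 s, u j x (Function.update g x0 y0 x) =
          b j + u j x0 y0 + ∑ x ∈ s, u j x (g x) := by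
        intro j
        rw [Finset.sum_insert hx, Function.update_self, add_assoc]
        congr 2
        exact Finset.sum_congr rfl fun x h' => by
          rw [Function.update_of_ne (fun e : x = x0 => hx (e ▸ h'))]
      simp only [e1]
      simp only [Finset.sum_insert hx]
      refine g2.trans ?_
      simp only [Finset.sum_add_distrib] at h ⊢
      have e2 : ∀ j, b j + u j x0 y0 + ∑ x ∈ s, (∑ y ∈ Finset.range M, u j x y) / M =
          c j + u j x0 y0 := fun j => by simp only [c]; ring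
      have e3 : ∀ j, b j + ((∑ y ∈ Finset.range M, u j x0 y) / M +
          ∑ x ∈ s, (∑ y ∈ Finset.range M, u j x y) / M) =
          c j + (∑ y ∈ Finset.range M, u j x0 y) / M := fun j => by simp only [c]; ring
      simp only [e2, e3]
      linarith

end Pool.Agent.H26.EU
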