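import Mathlib

/-! A `Π⁰₃` ideal that is not a Farah ideal. The ground set is `ω^{<ω}`, coded by `node`. -/

namespace Pool.Agent.H26.Farah

open Set Filter Topology

def node (n : ℕ) : List ℕ := Denumerable.ofNat (List ℕ) n

lemma node_inj : Function.Injective node := (Denumerable.eqv (List ℕ)).symm.injective
lemma node_surj : Function.Surjective node := (Denumerable.eqv (List ℕ)).symm.surjective

/-- `s` is a set of more than `r` nodes in one cone of level `r` with distinct prefixes of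
length `d`. -/
def Bad (r : ℕ) (s : Finset ℕ) (d : ℕ) : Prop :=
  (∀ m ∈ s, ∀ n ∈ s, (node m).take r = (node n).take r) ∧ (∀ n ∈ s, d ≤ (node n).length) ∧
    InjOn (fun n => (node n).take d) s ∧ r < s.card

def K (r : ℕ) : Set (ℕ → Bool) := {x | ∀ s d, Bad r s d → ∃ n ∈ s, x n = false}

def fib (x : ℕ → Bool) (r : ℕ) (τ : List ℕ) : Set ℕ := {n | x n = true ∧ (node n).take r = τ}

def I : Set (ℕ → Bool) := {x | ∃ r, x ∈ K r ∧ ∀ τ, (fib x r τ).Finite}

lemma take_mono {r r' : ℕ} (h : r ≤ r') {u v : List ℕ} (e : u.take r' = v.take r') :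
    u.take r = v.take r := by
  have := congrArg (List.take r) e
  simpa [List.take_take, min_eq_left h] using this

lemma Bad.sub {r r' : ℕ} {s t : Finset ℕ} {d : ℕ} (h : Bad r' s d) (hr : r ≤ r') (ht : t ⊆ s)
    (hc : r < t.card) : Bad r t d :=
  ⟨fun m hm n hn => take_mono hr (h.1 m (ht hm) n (ht hn)), fun n hn => h.2.1 n (ht hn),
    h.2.2.1.mono (by exact_mod_cast ht), hc⟩

lemma K_mono {r r' : ℕ} (h : r ≤ r') : K r ⊆ K r' := fun _ hx s d hb =>
  hx s d (hb.sub h subset_rfl (lt_of_le_of_lt h hb.2.2.2))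

lemma fib_mono {x : ℕ → Bool} {r r' : ℕ} (h : r ≤ r') (hx : ∀ τ, (fib x r τ).Finite) (τ : List ℕ) :
    (fib x r' τ).Finite := (hx (τ.take r)).subset fun n hn =>
  ⟨hn.1, by rw [← hn.2, List.take_take, min_eq_left h]⟩

lemma le_true {x y : ℕ → Bool} (h : y ≤ x) {n : ℕ} (hy : y n = true) : x n = true := by
  have := h n
  rw [hy] at this
  exact top_le_iff.1 this

lemma I_sub : ∀ x ∈ I, ∀ y : ℕ → Bool, y ≤ x → y ∈ I := by
  rintro x ⟨r, h1, h2⟩ y h
  refine ⟨r, fun s d hb => ?_, fun τ => (h2 τ).subset fun n hn => ⟨le_true h hn.1, hn.2⟩⟩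
  obtain ⟨n, hn, e⟩ := h1 s d hb
  refine ⟨n, hn, ?_⟩
  by_contra c
  rw [le_true h (by simpa using c)] at e
  exact Bool.noConfusion e

lemma I_sup : ∀ x ∈ I, ∀ y ∈ I, x ⊔ y ∈ I := by
  rintro x ⟨r, h1, h2⟩ y ⟨r', h3, h4⟩
  refine ⟨r + r', fun s d hb => ?_, fun τ => ?_⟩
  · by_contra c
    push Not at c
    have hc := Finset.card_filter_add_card_filter_not (s := s) (fun n => x n = true)
    have := hb.2.2.2
    by_cases a : r < (s.filter (fun n => x n = true)).card
    · obtain ⟨n, hn, e⟩ := h1 _ d (hb.sub (by omega) (Finset.filter_subset _ _) a)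
      rw [(Finset.mem_filter.1 hn).2] at e
      exact Bool.noConfusion e
    · obtain ⟨n, hn, e⟩ := h3 (s.filter (fun n => ¬ x n = true)) d
        (hb.sub (by omega) (Finset.filter_subset _ _) (by omega))
      obtain ⟨h5, h6⟩ := Finset.mem_filter.1 hn
      apply c n h5
      have h7 : x n = false := by simpa using h6
      simp [h7, e]
  · refine ((fib_mono (r' := r + r') (by omega) h2 τ).union
      (fib_mono (r' := r + r') (by omega) h4 τ)).subset fun n hn => ?_
    have h := hn.1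
    simp only [Pi.sup_apply] at h
    cases hx : x n
    · right; refine ⟨?_, hn.2⟩; simpa [hx] using h
    · left; exact ⟨hx, hn.2⟩

lemma I_fin (x : ℕ → Bool) (h : {n : ℕ | x n = true}.Finite) : x ∈ I := by
  refine ⟨h.toFinset.card, fun s d hb => ?_, fun τ => h.subset fun n hn => hn.1⟩
  by_contra c
  push Not at c
  have : s ⊆ h.toFinset := fun n hn => by simpa using c n hn
  exact absurd (Finset.card_le_card this) (not_le.2 hb.2.2.2)

lemma key {x : ℕ → Bool} {r r0 : ℕ} (h1 : x ∈ K r) (h2 : ∀ τ, (fib x r0 τ).Finite) (τ : List ℕ) :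
    (fib x r τ).Finite := by
  classical
  have P : ∀ d, ((fun n => (node n).take d) '' {n ∈ fib x r τ | d ≤ (node n).length}).Finite := by
    intro d
    by_contra c
    obtain ⟨t, ht, hc⟩ := Set.Infinite.exists_subset_card_eq c (r + 1)
    obtain ⟨s, s1, s2, s3⟩ := Finset.exists_subset_injOn_image_eq_of_surjOn _ t ht
    have : s.card = r + 1 := by rw [← hc, ← s3, Finset.card_image_of_injOn s2]
    obtain ⟨n, hn, e⟩ := h1 s d ⟨fun m hm n hn => (s1 hm).1.2.trans (s1 hn).1.2.symm,
      fun n hn => (s1 hn).2, s2, by omega⟩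
    rw [(s1 hn).1.1] at e
    exact Bool.noConfusion e
  have T := (finite_Iic r0).biUnion fun d _ => P d
  refine (T.biUnion fun τ' _ => h2 τ').subset fun n hn => ?_
  simp only [mem_iUnion]
  refine ⟨(node n).take r0, ⟨min r0 (node n).length, mem_Iic.2 (min_le_left _ _), n, ⟨hn, min_le_right _ _⟩,
    ?_⟩, hn.1, rfl⟩
  simp [← List.take_take]

lemma clop (s : Finset ℕ) : IsClopen {x : ℕ → Bool | ∀ n ∈ s, x n = true} := by
  have : {x : ℕ → Bool | ∀ n ∈ s, x n = true} = ⋂ n ∈ s, (fun x : ℕ → Bool => x n) ⁻¹' {true} := by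
    ext; simp
  rw [this]
  exact isClopen_biInter_finset fun n _ => (isClopen_discrete _).preimage (continuous_apply n)

lemma K_closed (r : ℕ) : IsClosed (K r) := by
  have : K r = ⋂ s, ⋂ d, ⋂ (_ : Bad r s d), {x : ℕ → Bool | ∀ n ∈ s, x n = true}ᶜ := by
    ext; simp [K]
  rw [this]
  exact isClosed_iInter fun s => isClosed_iInter fun d => isClosed_iInter fun _ =>
    (clop s).compl.isClosed

lemma I_pi03 : ∃ C : ℕ → ℕ → Set (ℕ → Bool), (∀ i j, IsClosed (C i j)) ∧ I = ⋂ i, ⋃ j, C i j := by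
  classical
  obtain ⟨e, he⟩ := exists_surjective_nat (ℕ × Finset ℕ × ℕ × ℕ)
  let D : List ℕ → ℕ × Finset ℕ × ℕ × ℕ → Set (ℕ → Bool) := fun τ p =>
    K p.1 ∩ ({x | p.1 = 0 ∨ Bad (p.1 - 1) p.2.1 p.2.2.1} ∩ {x | ∀ n ∈ p.2.1, x n = true}) ∩
      ⋂ n, ⋂ (_ : p.2.2.2 ≤ n ∧ (node n).take p.1 = τ), (fun x : ℕ → Bool => x n) ⁻¹' {false}
  refine ⟨fun i j => D (node i) (e j), fun i j => ?_, ?_⟩
  · exact ((K_closed _).inter (isClosed_const.inter (clop _).isClosed)).inter
      (isClosed_iInter fun n => isClosed_iInter fun _ =>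
        (isClosed_discrete _).preimage (continuous_apply n))
  ext x
  simp only [mem_iInter, mem_iUnion]
  constructor
  · rintro ⟨r0, h1, h2⟩ i
    have ex : ∃ r, x ∈ K r := ⟨r0, h1⟩
    have h3 := Nat.find_spec ex
    obtain ⟨N, hN⟩ := (key h3 h2 (node i)).bddAbove
    have : ∃ s d, (Nat.find ex = 0 ∨ Bad (Nat.find ex - 1) s d) ∧ ∀ n ∈ s, x n = true := by
      by_cases h0 : Nat.find ex = 0
      · exact ⟨∅, 0, Or.inl h0, by simp⟩
      · have := Nat.find_min ex (m := Nat.find ex - 1) (by omega)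
        simp only [K, mem_setOf_eq, not_forall, not_exists, not_and, Bool.not_eq_false] at this
        obtain ⟨s, d, hb, h⟩ := this
        exact ⟨s, d, Or.inr hb, h⟩
    obtain ⟨s, d, h4, h5⟩ := this
    obtain ⟨j, hj⟩ := he (Nat.find ex, s, d, N + 1)
    refine ⟨j, ?_⟩
    rw [hj]
    refine ⟨⟨h3, h4, h5⟩, mem_iInter₂.2 fun n hn => ?_⟩
    by_contra c
    have := hN ⟨by simpa using c, hn.2⟩
    have := hn.1
    simp only at this
    omega
  · intro h
    choose j hj using h
    have lt : ∀ i i', ¬ (e (j i)).1 < (e (j i')).1 := by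
      intro i i' c
      obtain ⟨⟨-, h1 | h1, h2⟩, -⟩ := hj i'
      · omega
      · obtain ⟨n, hn, e'⟩ := K_mono (r' := (e (j i')).1 - 1) (by omega) (hj i).1.1 _ _ h1
        rw [h2 n hn] at e'
        exact Bool.noConfusion e'
    refine ⟨(e (j 0)).1, (hj 0).1.1, fun τ => ?_⟩
    obtain ⟨i, rfl⟩ := node_surj τ
    have e1 : (e (j 0)).1 = (e (j i)).1 := le_antisymm (not_lt.1 (lt i 0)) (not_lt.1 (lt 0 i))
    refine (finite_Iio (e (j i)).2.2.2).subset fun n hn => ?_
    by_contra c
    have := mem_iInter₂.1 (hj i).2 n ⟨not_lt.1 c, e1 ▸ hn.2⟩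
    simp [hn.1] at this

def pre (f : ℕ → ℕ) (d : ℕ) : List ℕ := (List.range d).map f

lemma pre_len (f : ℕ → ℕ) (d : ℕ) : (pre f d).length = d := by simp [pre]

lemma pre_take (f : ℕ → ℕ) {d e : ℕ} (h : d ≤ e) : (pre f e).take d = pre f d := by
  simp [pre, ← List.map_take, List.take_range, min_eq_left h]

/-- the branch of `f` -/
def X (f : ℕ → ℕ) : ℕ → Bool := fun n => decide (node n = pre f (node n).length)

lemma X_not (f : ℕ → ℕ) : X f ∉ I := by
  rintro ⟨r, -, h⟩
  choose g hg using node_surj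
  refine Set.infinite_of_injective_forall_mem (f := fun d => g (pre f (r + d))) ?_ ?_ (h (pre f r))
  · intro a b e
    have := congrArg (fun n => (node n).length) e
    simpa [hg, pre_len] using this
  · intro d
    exact ⟨by simp [X, hg, pre_len], by rw [hg, pre_take f (by omega)]⟩

lemma step (Kn : Set (ℕ → Bool)) (hc : IsClosed Kn) (hh : ∀ x ∈ Kn, ∀ y : ℕ → Bool, y ≤ x → y ∈ Kn)
    (hI : ∀ x ∈ I, ∃ k : ℕ, (fun m => x m && decide (k ≤ m)) ∈ Kn) (L : ℕ) (σ : List ℕ) :
    ∃ l, ∀ f, pre f L = σ → f L = l → ∃ k : ℕ, (fun m => X f m && decide (k ≤ m)) ∈ Kn := by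
  classical
  by_contra c
  push Not at c
  choose f f1 f2 f3 using c
  have ex : ∀ l, ∃ N, (fun m => (X (f l) m && decide (l ≤ m)) && decide (m < N)) ∉ Kn := by
    intro l
    by_contra c
    push Not at c
    refine f3 l l (hc.mem_of_tendsto (f := fun N => fun m =>
      (X (f l) m && decide (l ≤ m)) && decide (m < N)) (b := atTop) ?_ (Eventually.of_forall c))
    exact tendsto_pi_nhds.2 fun m => tendsto_const_nhds.congr'
      ((eventually_gt_atTop m).mono fun N hN => by simp [hN])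
  choose N hN using ex
  let A : ℕ → Bool := fun m => decide (∃ l, node m = pre (f l) (node m).length ∧ l ≤ m ∧ m < N l)
  have ent : ∀ {m l}, node m = pre (f l) (node m).length → L + 1 ≤ (node m).length →
      ((node m).take (L + 1)).getD L 0 = l := by
    intro m l h1 h2
    rw [h1, pre_take _ h2]
    simp [pre, f2]
  have hA : A ∈ I := by
    refine ⟨L + 1, fun s d hb => ?_, fun τ => ?_⟩
    · by_contra c
      push Not at c
      obtain ⟨m, hm, n, hn, hne⟩ := Finset.one_lt_card.1 (by have := hb.2.2.2; omega : 1 < s.card)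
      obtain ⟨l, a1, -⟩ : ∃ l, node m = pre (f l) (node m).length ∧ l ≤ m ∧ m < N l := by
        simpa [A] using c m hm
      obtain ⟨l', b1, -⟩ : ∃ l, node n = pre (f l) (node n).length ∧ l ≤ n ∧ n < N l := by
        simpa [A] using c n hn
      have e := hb.1 m hm n hn
      have el := congrArg List.length e
      simp only [List.length_take] at el
      by_cases h : L + 1 ≤ (node m).length
      · have h' : L + 1 ≤ (node n).length := by omega
        have : l = l' := by rw [← ent a1 h, ← ent b1 h', e]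
        subst this
        apply hne (hb.2.2.1 hm hn _)
        simp only
        rw [a1, b1, pre_take _ (hb.2.1 m hm), pre_take _ (hb.2.1 n hn)]
      · rw [List.take_of_length_le (by omega), List.take_of_length_le (by omega)] at e
        exact hne (node_inj e)
    · obtain ⟨i, hi⟩ := node_surj τ
      refine ((finite_Iio (N (τ.getD L 0))).union (finite_singleton i)).subset fun m hm => ?_
      obtain ⟨l, a1, -, a3⟩ : ∃ l, node m = pre (f l) (node m).length ∧ l ≤ m ∧ m < N l := by
        simpa [A] using hm.1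
      by_cases h : L + 1 ≤ (node m).length
      · left; rw [← hm.2, ent a1 h]; exact a3
      · right
        have := hm.2
        rw [List.take_of_length_le (by omega), ← hi] at this
        exact node_inj this
  obtain ⟨k, hk⟩ := hI A hA
  refine hN k (hh _ hk _ fun m => ?_)
  rw [Bool.le_iff_imp]
  simp only [X, A, Bool.and_eq_true, decide_eq_true_eq]
  rintro ⟨⟨h1, h2⟩, h3⟩
  exact ⟨⟨k, h1, h2, h3⟩, h2⟩

theorem not_farah : ¬ ∃ K : ℕ → Set (ℕ → Bool),
    (∀ n, IsCompact (K n)) ∧ (∀ n, ∀ x ∈ K n, ∀ y : ℕ → Bool, y ≤ x → y ∈ K n) ∧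
    I = {x : ℕ → Bool | ∀ n : ℕ, ∃ k : ℕ, (fun m => x m && decide (k ≤ m)) ∈ K n} := by
  rintro ⟨K, h1, h2, h3⟩
  have st := fun n => step (K n) (h1 n).isClosed (h2 n) (fun x hx => by rw [h3] at hx; exact hx n) n
  choose g hg using st
  let sq : ℕ → List ℕ := fun n => Nat.rec [] (fun n σ => σ ++ [g n σ]) n
  let f : ℕ → ℕ := fun n => g n (sq n)
  have e : ∀ n, pre f n = sq n := by
    intro n
    induction n with
    | zero => rfl
    | succ n ih =>
      show pre f (n + 1) = sq n ++ [g n (sq n)]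
      rw [← ih]; simp only [pre, List.range_succ, List.map_append, List.map_cons, List.map_nil]
      congr 2
      show g n (sq n) = _
      rw [← ih]; rfl
  apply X_not f
  rw [h3]
  exact fun n => hg n (sq n) f (e n) rfl

end Pool.Agent.H26.Farah
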