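import Mathlib

set_option autoImplicit false

namespace Pool.Agent.H26.GF2

open Polynomial

section
variable {A : Type} [CommRing A]

def ev (θ : A) : ℕ → A
  | 0 => 0
  | (n + 1) => (((n + 1) % 2 : ℕ) : A) + θ * ev θ ((n + 1) / 2)
decreasing_by omega

theorem ev_eq (θ : A) (a : ℕ) : ev θ a = ((a % 2 : ℕ) : A) + θ * ev θ (a / 2) := by
  cases a with
  | zero => simp [ev]
  | succ n => rw [ev]

theorem ev_zero (θ : A) : ev θ 0 = 0 := by rw [ev]

theorem ev_one (θ : A) : ev θ 1 = 1 := by rw [ev_eq]; simp [ev_zero]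

theorem ev_two_mul (θ : A) (a : ℕ) : ev θ (2 * a) = θ * ev θ a := by
  rw [ev_eq]; simp

theorem ev_xor (h2 : (2 : A) = 0) (θ : A) (N : ℕ) :
    ∀ a b, a + b < N → ev θ (a ^^^ b) = ev θ a + ev θ b := by
  induction N with
  | zero => intros; omega
  | succ N ih =>
    intro a b h
    by_cases h0 : a + b = 0
    · obtain ⟨rfl, rfl⟩ : a = 0 ∧ b = 0 := by omega
      simp [ev_zero]
    rw [ev_eq θ (a ^^^ b), ev_eq θ a, ev_eq θ b, Nat.xor_div_two, ih _ _ (by omega),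
      Nat.xor_mod_two_eq]
    rcases Nat.mod_two_eq_zero_or_one a with ha | ha <;>
      rcases Nat.mod_two_eq_zero_or_one b with hb | hb
    · rw [show (a + b) % 2 = 0 by omega, ha, hb]; push_cast; ring
    · rw [show (a + b) % 2 = 1 by omega, ha, hb]; push_cast; ring
    · rw [show (a + b) % 2 = 1 by omega, ha, hb]; push_cast; ring
    · rw [show (a + b) % 2 = 0 by omega, ha, hb]; push_cast; linear_combination -h2

theorem ev_xor' (h2 : (2 : A) = 0) (θ : A) (a b : ℕ) : ev θ (a ^^^ b) = ev θ a + ev θ b :=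
  ev_xor h2 θ _ a b (Nat.lt_succ_self _)

theorem pow_eq (h2 : (2 : A) = 0) (θ : A) (P N : ℕ) (hP : ev θ P = 0) (tab : ℕ → ℕ)
    (h0 : tab 0 = 1) (hs : ∀ k < N, tab (k + 1) = 2 * tab k ∨ tab (k + 1) = 2 * tab k ^^^ P) :
    ∀ k ≤ N, θ ^ k = ev θ (tab k) := by
  intro k
  induction k with
  | zero => intro _; rw [h0, ev_one, pow_zero]
  | succ k ih =>
    intro hk
    rw [pow_succ, ih (by omega), mul_comm, ← ev_two_mul]
    rcases hs k (by omega) with h | h
    · rw [h]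
    · rw [h, ev_xor' h2, hP, add_zero]

end

/-- data certifying that `f` is primitive of degree `n` -/
structure Cert (n P : ℕ) (tab lg : ℕ → ℕ) : Prop where
  h0 : tab 0 = 1
  hN : tab (2 ^ n - 1) = 1
  hs : ∀ k < 2 ^ n - 1, tab (k + 1) = 2 * tab k ∨ tab (k + 1) = 2 * tab k ^^^ P
  hlt : ∀ k < 2 ^ n - 1, tab k < 2 ^ n ∧ lg (tab k) = k
  hlg : ∀ a < 2 ^ n, a ≠ 0 → lg a < 2 ^ n - 1 ∧ tab (lg a) = a

theorem two_eq (f : (ZMod 2)[X]) : (2 : AdjoinRoot f) = 0 := by
  have : (2 : AdjoinRoot f) = algebraMap (ZMod 2) _ 2 := by simp [map_ofNat]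
  rw [this, show (2 : ZMod 2) = 0 from rfl, map_zero]

theorem irred {n P : ℕ} {tab lg : ℕ → ℕ} (c : Cert n P tab lg) (hn : 0 < n) (f : (ZMod 2)[X])
    (hf : f.degree ≠ 0) (hf0 : f ≠ 0) (hP : ev (AdjoinRoot.root f) P = 0) : Irreducible f := by
  have h2 := two_eq f
  set θ := AdjoinRoot.root f with hθ
  have hp := pow_eq h2 θ P _ hP tab c.h0 c.hs
  have hN : 0 < 2 ^ n - 1 := by
    have := Nat.one_lt_two_pow hn.ne'
    omega
  have h1 : θ ^ (2 ^ n - 1) = 1 := by rw [hp _ le_rfl, c.hN, ev_one]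
  have hu : IsUnit θ := IsUnit.of_pow_eq_one h1 hN.ne'
  have all : ∀ x : AdjoinRoot f, ∃ a < 2 ^ n, x = ev θ a := by
    intro x
    induction x using AdjoinRoot.induction_on with
    | _ p =>
    induction p using Polynomial.induction_on' with
    | add p q hp hq =>
      obtain ⟨a, ha, e1⟩ := hp
      obtain ⟨b, hb, e2⟩ := hq
      exact ⟨a ^^^ b, Nat.xor_lt_two_pow ha hb, by rw [map_add, e1, e2, ev_xor' h2]⟩
    | monomial k c' =>
      have hc : c' = 0 ∨ c' = 1 := by revert c'; decide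
      rcases hc with rfl | rfl
      · exact ⟨0, by positivity, by simp [ev_zero]⟩
      · have hk := Nat.mod_lt k hN
        refine ⟨tab (k % (2 ^ n - 1)), (c.hlt _ hk).1, ?_⟩
        rw [← hp _ hk.le, ← X_pow_eq_monomial, map_pow, AdjoinRoot.mk_X, ← hθ,
          pow_eq_pow_mod k h1]
  haveI : Nontrivial (AdjoinRoot f) := AdjoinRoot.nontrivial f hf
  have hF : IsField (AdjoinRoot f) := by
    refine ⟨exists_pair_ne _, mul_comm, fun {x} hx => ?_⟩
    obtain ⟨a, ha, rfl⟩ := all x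
    have ha0 : a ≠ 0 := by rintro rfl; exact hx (ev_zero θ)
    obtain ⟨g1, g2⟩ := c.hlg a ha ha0
    rw [← g2, ← hp _ g1.le]
    exact (hu.pow _).exists_right_inv
  have := Ideal.Quotient.maximal_of_isField _ hF
  exact ((Ideal.span_singleton_prime hf0).mp this.isPrime).irreducible

section
variable {F : Type} [Field F] {n P : ℕ} {tab lg : ℕ → ℕ}

theorem pow_tab (c : Cert n P tab lg) (h2 : (2 : F) = 0) (θ : F) (hP : ev θ P = 0) (hn : 0 < n)
    (k : ℕ) : θ ^ k = ev θ (tab (k % (2 ^ n - 1))) := by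
  have hp := pow_eq h2 θ P _ hP tab c.h0 c.hs
  have hN : 0 < 2 ^ n - 1 := by
    have := Nat.one_lt_two_pow hn.ne'
    omega
  have h1 : θ ^ (2 ^ n - 1) = 1 := by rw [hp _ le_rfl, c.hN, ev_one]
  rw [← hp _ (Nat.mod_lt k hN).le, pow_eq_pow_mod k h1]

theorem ev_inj (c : Cert n P tab lg) (h2 : (2 : F) = 0) (θ : F) (hP : ev θ P = 0) (hn : 0 < n)
    (a b : ℕ) (ha : a < 2 ^ n) (hb : b < 2 ^ n) (h : ev θ a = ev θ b) : a = b := by
  have hp := pow_eq h2 θ P _ hP tab c.h0 c.hs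
  have hN : 0 < 2 ^ n - 1 := by
    have := Nat.one_lt_two_pow hn.ne'
    omega
  have h1 : θ ^ (2 ^ n - 1) = 1 := by rw [hp _ le_rfl, c.hN, ev_one]
  have hu : IsUnit θ := IsUnit.of_pow_eq_one h1 hN.ne'
  by_contra hab
  have hx : a ^^^ b ≠ 0 := fun e => hab (Nat.xor_eq_zero_iff.mp e)
  obtain ⟨g1, g2⟩ := c.hlg _ (Nat.xor_lt_two_pow ha hb) hx
  have := hp _ g1.le
  rw [g2, ev_xor' h2, h, ← two_mul, h2, zero_mul] at this
  exact (hu.pow _).ne_zero this

theorem order_eq (c : Cert n P tab lg) (h2 : (2 : F) = 0) (θ : F) (hP : ev θ P = 0) (hn : 0 < n) :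
    orderOf θ = 2 ^ n - 1 := by
  have hN : 0 < 2 ^ n - 1 := by
    have := Nat.one_lt_two_pow hn.ne'
    omega
  rw [orderOf_eq_iff hN]
  refine ⟨by rw [pow_tab c h2 θ hP hn, Nat.mod_self, c.h0, ev_one], fun m hm hm0 h => ?_⟩
  rw [pow_tab c h2 θ hP hn, Nat.mod_eq_of_lt hm, ← ev_one θ] at h
  have := ev_inj c h2 θ hP hn _ _ (c.hlt _ hm).1 (Nat.one_lt_two_pow hn.ne') h
  have e1 := (c.hlt _ hm).2
  have e2 := (c.hlt _ hN).2
  rw [c.h0] at e2
  rw [this] at e1
  omega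

theorem deg_eq [Algebra (ZMod 2) F] [FiniteDimensional (ZMod 2) F]
    (hr : Module.finrank (ZMod 2) F = n) (x : F) (hx : ∀ d, 0 < d → d < n → x ^ 2 ^ d ≠ x) :
    (minpoly (ZMod 2) x).natDegree = n := by
  have hi : IsIntegral (ZMod 2) x := IsIntegral.of_finite _ _
  have h1 := minpoly.natDegree_le (A := ZMod 2) x
  have h0 := minpoly.natDegree_pos hi
  by_contra hne
  apply hx _ h0 (by omega)
  haveI : Finite F := Module.finite_of_finite (ZMod 2)
  letI : Fintype (IntermediateField.adjoin (ZMod 2) {x}) := Fintype.ofFinite _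
  have := FiniteField.pow_card (IntermediateField.AdjoinSimple.gen (ZMod 2) x)
  rw [Module.card_eq_pow_finrank (K := ZMod 2), IntermediateField.adjoin.finrank hi, ZMod.card]
    at this
  exact congrArg Subtype.val this

end

end Pool.Agent.H26.GF2
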