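import Mathlib

set_option autoImplicit false
open scoped NNReal ENNReal

namespace Pool.Agent.H26.Gauge

open MeasureTheory Set Filter Topology

noncomputable def dg (x : ℕ → Bool) (n : ℕ) : ℝ := if x n then (1/3 : ℝ) ^ n else 0

noncomputable def E (x : ℕ → Bool) : ℝ := ∑' n, dg x n

lemma dg_abs (x y : ℕ → Bool) (n : ℕ) : |dg x n - dg y n| ≤ (1/3 : ℝ) ^ n := by
  have h : (0 : ℝ) ≤ (1/3 : ℝ) ^ n := by positivity
  unfold dg
  split_ifs <;> simp [abs_of_nonneg, h]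

lemma summable_dg (x : ℕ → Bool) : Summable (dg x) := by
  refine Summable.of_nonneg_of_le (fun n => ?_) (fun n => ?_)
    (summable_geometric_of_lt_one (r := (1/3 : ℝ)) (by norm_num) (by norm_num))
  · unfold dg; split_ifs <;> positivity
  · unfold dg; split_ifs
    · exact le_rfl
    · positivity

lemma tail (x y : ℕ → Bool) (n : ℕ) :
    |E x - E y - ∑ k ∈ Finset.range n, (dg x k - dg y k)| ≤ (1/3 : ℝ) ^ n * (3/2) := by
  have hs : Summable (fun k => dg x k - dg y k) := (summable_dg x).sub (summable_dg y)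
  have h1 : E x - E y = ∑' k, (dg x k - dg y k) :=
    ((summable_dg x).tsum_sub (summable_dg y)).symm
  have h2 := hs.sum_add_tsum_nat_add n
  have h3 : E x - E y - ∑ k ∈ Finset.range n, (dg x k - dg y k) =
      ∑' k, (dg x (k + n) - dg y (k + n)) := by rw [h1, ← h2]; ring
  rw [h3]
  have hg : HasSum (fun k : ℕ => (1/3 : ℝ) ^ (k + n)) ((1/3 : ℝ) ^ n * (3/2)) := by
    have := (hasSum_geometric_of_lt_one (r := (1/3 : ℝ)) (by norm_num) (by norm_num)).mul_left
      ((1/3 : ℝ) ^ n)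
    have e1 : (fun k : ℕ => (1/3 : ℝ) ^ (k + n)) = fun i => (1/3 : ℝ) ^ n * (1/3 : ℝ) ^ i := by
      ext k; rw [pow_add]; ring
    have e2 : (1/3 : ℝ) ^ n * (3/2) = (1/3 : ℝ) ^ n * (1 - 1/3)⁻¹ := by norm_num
    rw [e1, e2]
    exact this
  have := tsum_of_norm_bounded (f := fun k => dg x (k + n) - dg y (k + n)) hg
    (fun k => by rw [Real.norm_eq_abs]; exact dg_abs x y _)
  rwa [Real.norm_eq_abs] at this

lemma close (x y : ℕ → Bool) (n : ℕ) (h : ∀ k < n, x k = y k) :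
    |E x - E y| ≤ (1/3 : ℝ) ^ n * (3/2) := by
  have := tail x y n
  rwa [Finset.sum_eq_zero, sub_zero] at this
  intro k hk
  unfold dg
  rw [h k (Finset.mem_range.1 hk), sub_self]

lemma far (x y : ℕ → Bool) (n : ℕ) (h : ∀ k < n, x k = y k) (hn : x n ≠ y n) :
    (1/3 : ℝ) ^ n / 2 ≤ |E x - E y| := by
  have h1 := tail x y (n + 1)
  rw [Finset.sum_range_succ, Finset.sum_eq_zero, zero_add] at h1
  · have h2 : |dg x n - dg y n| = (1/3 : ℝ) ^ n := by
      have h : (0 : ℝ) ≤ (1/3 : ℝ) ^ n := by positivity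
      unfold dg
      cases hx : x n <;> cases hy : y n <;> simp_all
    have h3 := abs_sub_abs_le_abs_sub (dg x n - dg y n) (E x - E y)
    rw [abs_sub_comm (dg x n - dg y n)] at h3
    rw [pow_succ] at h1
    linarith
  · intro k hk
    unfold dg
    rw [h k (Finset.mem_range.1 hk), sub_self]

noncomputable def N (t : ℝ≥0) : ℕ := sInf {n | (1/3 : ℝ) ^ n / 2 ≤ t}

lemma N_spec {t : ℝ≥0} (ht : t ≠ 0) : (1/3 : ℝ) ^ (N t) / 2 ≤ t := by
  have hpos : (0 : ℝ) < t := by positivity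
  obtain ⟨n, hn⟩ := exists_pow_lt_of_lt_one hpos (show (1/3 : ℝ) < 1 by norm_num)
  have hne : {n | (1/3 : ℝ) ^ n / 2 ≤ t}.Nonempty := ⟨n, by
    have : (0 : ℝ) ≤ (1/3 : ℝ) ^ n := by positivity
    show (1/3 : ℝ) ^ n / 2 ≤ t
    linarith⟩
  exact Nat.sInf_mem hne

lemma N_le {t : ℝ≥0} {m : ℕ} (h : (1/3 : ℝ) ^ m / 2 ≤ t) : N t ≤ m := Nat.sInf_le h

lemma le_N {t : ℝ≥0} (ht : t ≠ 0) {m : ℕ} (h : (t : ℝ) ≤ (1/3 : ℝ) ^ m / 2) : m ≤ N t := by
  by_contra hc
  push Not at hc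
  have h1 := N_spec ht
  have h2 : (1/3 : ℝ) ^ m < (1/3 : ℝ) ^ (N t) :=
    pow_lt_pow_right_of_lt_one₀ (by norm_num) (by norm_num) hc
  linarith

open Classical in
noncomputable def cnt (J : Set ℕ) (n : ℕ) : ℕ := ((Finset.range n).filter (· ∈ J)).card

lemma cnt_mono (J : Set ℕ) : Monotone (cnt J) := by
  classical
  intro a b h
  unfold cnt
  refine Finset.card_le_card fun i hi => ?_
  simp only [Finset.mem_filter, Finset.mem_range] at hi ⊢
  exact ⟨hi.1.trans_le h, hi.2⟩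

lemma cnt_tendsto {J : Set ℕ} (hJ : J.Infinite) : Tendsto (cnt J) atTop atTop := by
  refine tendsto_atTop_atTop_of_monotone (cnt_mono J) fun b => ?_
  obtain ⟨F, hF, hb⟩ := hJ.exists_subset_card_eq b
  refine ⟨F.sup id + 1, ?_⟩
  rw [← hb]
  refine Finset.card_le_card fun i hi => ?_
  simp only [Finset.mem_filter, Finset.mem_range]
  exact ⟨Nat.lt_succ_of_le (Finset.le_sup (f := id) hi), hF hi⟩

noncomputable def g (J : Set ℕ) (t : ℝ≥0) : ℝ≥0 := if t = 0 then 0 else (1/2) ^ (cnt J (N t))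

lemma g_zero (J : Set ℕ) : g J 0 = 0 := by simp [g]

lemma g_pos (J : Set ℕ) (t : ℝ≥0) (ht : 0 < t) : 0 < g J t := by
  unfold g
  rw [if_neg ht.ne']
  positivity

lemma half_anti {a b : ℕ} (h : a ≤ b) : (1/2 : ℝ≥0) ^ b ≤ (1/2 : ℝ≥0) ^ a :=
  pow_le_pow_right_of_le_one' (by norm_num) h

lemma g_mono (J : Set ℕ) : Monotone (g J) := by
  intro s t hst
  unfold g
  by_cases hs : s = 0
  · simp [hs]
  · have ht : t ≠ 0 := fun h => hs (le_antisymm (h ▸ hst) zero_le)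
    rw [if_neg hs, if_neg ht]
    refine half_anti (cnt_mono J (N_le ((N_spec hs).trans ?_)))
    exact_mod_cast hst

lemma g_le (J : Set ℕ) (t : ℝ≥0) (m : ℕ) (h : (t : ℝ) ≤ (1/3 : ℝ) ^ m / 2) :
    g J t ≤ (1/2) ^ (cnt J m) := by
  unfold g
  split_ifs with ht
  · exact zero_le
  · exact half_anti (cnt_mono J (le_N ht h))

lemma g_cont {J : Set ℕ} (hJ : J.Infinite) (t : ℝ≥0) : ContinuousWithinAt (g J) (Ici t) t := by
  by_cases ht : t = 0
  · subst ht
    rw [ContinuousWithinAt, g_zero]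
    refine tendsto_order.2 ⟨fun a ha => absurd ha (not_lt.2 zero_le), fun a ha => ?_⟩
    have h1 : Tendsto (fun m => (1/2 : ℝ≥0) ^ (cnt J m)) atTop (𝓝 0) :=
      (NNReal.tendsto_pow_atTop_nhds_zero_of_lt_one (by norm_num)).comp (cnt_tendsto hJ)
    obtain ⟨m, hm⟩ := (h1.eventually (gt_mem_nhds ha)).exists
    have h2 : ∀ᶠ s : ℝ≥0 in 𝓝 0, (s : ℝ) < (1/3 : ℝ) ^ m / 2 :=
      NNReal.continuous_coe.continuousAt.eventually (gt_mem_nhds (by
        simp only [NNReal.coe_zero]; positivity))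
    filter_upwards [nhdsWithin_le_nhds h2] with s hs
    exact (g_le J s m hs.le).trans_lt hm
  · have h1 : ∀ᶠ s : ℝ≥0 in 𝓝 t, ∀ m < N t, (s : ℝ) < (1/3 : ℝ) ^ m / 2 := by
      have : ∀ᶠ s : ℝ≥0 in 𝓝 t, ∀ m ∈ Finset.range (N t), (s : ℝ) < (1/3 : ℝ) ^ m / 2 := by
        rw [Filter.eventually_all_finset]
        intro m hm
        refine NNReal.continuous_coe.continuousAt.eventually (gt_mem_nhds ?_)
        by_contra hc
        push Not at hc
        exact absurd (N_le hc) (not_le.2 (Finset.mem_range.1 hm))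
      filter_upwards [this] with s hs m hm using hs m (Finset.mem_range.2 hm)
    refine (continuousWithinAt_const (b := g J t)).congr_of_eventuallyEq ?_ rfl
    filter_upwards [nhdsWithin_le_nhds h1, self_mem_nhdsWithin] with s hs hts
    have hts' : t ≤ s := hts
    have hs0 : s ≠ 0 := fun h => ht (le_antisymm (h ▸ hts') zero_le)
    have : N s = N t := by
      refine le_antisymm (N_le ((N_spec ht).trans (by exact_mod_cast hts'))) ?_
      by_contra hc
      push Not at hc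
      exact absurd (N_spec hs0) (not_le.2 (hs _ hc))
    unfold g
    rw [if_neg hs0, if_neg ht, this]

noncomputable def H (f : ℝ≥0 → ℝ≥0) : OuterMeasure ℝ :=
  OuterMeasure.mkMetric (fun r : ℝ≥0∞ => ((f r.toNNReal : ℝ≥0) : ℝ≥0∞))

open Classical in
noncomputable def e (J : Set ℕ) (x : ℕ → Bool) : ℝ := E (fun n => if n ∈ J then x n else false)

noncomputable def P : Measure (ℕ → Bool) :=
  Measure.infinitePi (fun _ : ℕ => ProbabilityTheory.uniformOn (Set.univ : Set Bool))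

instance : IsProbabilityMeasure P := by unfold P; infer_instance

lemma P_cyl (F : Finset ℕ) (x : ℕ → Bool) :
    P (Set.pi (↑F) (fun n => {x n})) = ((1/2 : ℝ≥0) ^ F.card : ℝ≥0) := by
  unfold P
  rw [Measure.infinitePi_pi _ (fun _ _ => MeasurableSet.of_discrete)]
  have h : ∀ b : Bool, ProbabilityTheory.uniformOn (Set.univ : Set Bool) {b} = 2⁻¹ := by
    intro b
    rw [ProbabilityTheory.uniformOn_univ]
    simp
  simp only [h]
  simp [ENNReal.inv_pow]

lemma P_le (J : Set ℕ) (s : Set ℝ) (m : ℕ)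
    (h : ∀ a ∈ s, ∀ b ∈ s, ∀ k < m, |a - b| < (1/3 : ℝ) ^ k / 2) :
    P (e J ⁻¹' s) ≤ ((1/2 : ℝ≥0) ^ (cnt J m) : ℝ≥0) := by
  classical
  rcases (e J ⁻¹' s).eq_empty_or_nonempty with h0 | ⟨x, hx⟩
  · rw [h0]; simp
  · unfold cnt
    rw [← P_cyl _ x]
    refine measure_mono fun y hy => ?_
    have key : ∀ k < m, (if k ∈ J then y k else false) = (if k ∈ J then x k else false) := by
      intro k
      induction k using Nat.strong_induction_on with
      | _ k ih =>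
        intro hk
        by_contra hne
        have h1 := far (fun n => if n ∈ J then y n else false)
          (fun n => if n ∈ J then x n else false) k (fun j hj => ih j hj (hj.trans hk)) hne
        have h2 := h _ hy _ hx k hk
        unfold e at h2
        linarith
    intro n hn
    simp only [Finset.coe_filter, Finset.mem_range, mem_setOf_eq] at hn
    have := key n hn.1
    rw [if_pos hn.2, if_pos hn.2] at this
    exact this

lemma H_pos {J : Set ℕ} (hJ : J.Infinite) : 0 < H (g J) (range (e J)) := by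
  have h1 : OuterMeasure.map (e J) P.toOuterMeasure ≤ H (g J) := by
    refine OuterMeasure.le_mkMetric _ _ 1 one_pos fun s hs => ?_
    have hfin : Metric.ediam s ≠ ∞ := (hs.trans_lt ENNReal.one_lt_top).ne
    have hd : ∀ a ∈ s, ∀ b ∈ s, |a - b| ≤ ((Metric.ediam s).toNNReal : ℝ) := by
      intro a ha b hb
      have := Metric.edist_le_ediam_of_mem ha hb
      rw [edist_dist, Real.dist_eq] at this
      exact (ENNReal.ofReal_le_iff_le_toReal hfin).1 this
    show P (e J ⁻¹' s) ≤ _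
    by_cases h0 : (Metric.ediam s).toNNReal = 0
    · rw [h0, g_zero]
      have h1 : Tendsto (fun m => (((1/2 : ℝ≥0) ^ (cnt J m) : ℝ≥0) : ℝ≥0∞)) atTop (𝓝 ((0 : ℝ≥0) : ℝ≥0∞)) :=
        ENNReal.tendsto_coe.2
          ((NNReal.tendsto_pow_atTop_nhds_zero_of_lt_one (by norm_num)).comp (cnt_tendsto hJ))
      refine ge_of_tendsto' h1 fun m => P_le J s m fun a ha b hb k _ => ?_
      have := hd a ha b hb
      rw [h0] at this
      have h3 : (0 : ℝ) < (1/3 : ℝ) ^ k / 2 := by positivity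
      exact lt_of_le_of_lt this (by simpa using h3)
    · unfold g
      rw [if_neg h0]
      refine P_le J s _ fun a ha b hb k hk => (hd a ha b hb).trans_lt ?_
      by_contra hc
      push Not at hc
      exact absurd (N_le hc) (not_le.2 hk)
  have h2 := h1 (range (e J))
  have h3 : OuterMeasure.map (e J) P.toOuterMeasure (range (e J)) = 1 := by
    show P (e J ⁻¹' range (e J)) = 1
    rw [preimage_range]; exact measure_univ
  rw [h3] at h2
  exact lt_of_lt_of_le one_pos h2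

def JJ (c : Set ℕ) : Set ℕ := {n | ∃ k ∈ c, 4 ^ k ≤ n ∧ n < 4 ^ (k + 1)}

lemma JJ_inf {c : Set ℕ} (hc : c.Infinite) : (JJ c).Infinite := by
  have : (fun k => 4 ^ k) '' c ⊆ JJ c := by
    rintro _ ⟨k, hk, rfl⟩
    exact ⟨k, hk, le_rfl, Nat.pow_lt_pow_right (by norm_num) (Nat.lt_succ_self k)⟩
  refine Infinite.mono this (hc.image ?_)
  exact (Nat.pow_right_injective (by norm_num)).injOn

def S (k : ℕ) : Set ℝ := {r | ∃ x, E x = r ∧ ∀ n, 4 ^ k ≤ n → n < 4 ^ (k + 1) → x n = false}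

lemma pre_S (c : Set ℕ) (k : ℕ) (hk : k ∈ c) (r : ℝ≥0∞)
    (hr : ENNReal.ofReal ((1/3 : ℝ) ^ k) ≤ r) :
    OuterMeasure.mkMetric'.pre (fun s : Set ℝ => ((g (JJ c) (Metric.ediam s).toNNReal : ℝ≥0) : ℝ≥0∞)) r
      (S k) ≤ (1/2 : ℝ≥0∞) ^ k := by
  classical
  set μ := OuterMeasure.mkMetric'.pre
    (fun s : Set ℝ => ((g (JJ c) (Metric.ediam s).toNNReal : ℝ≥0) : ℝ≥0∞)) r with hμ
  have hk4 : k < 4 ^ k := Nat.lt_pow_self (by norm_num)
  obtain ⟨M, hM⟩ : ∃ M, 4 ^ (k + 1) = M + 1 := ⟨4 ^ (k + 1) - 1, by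
    have : 0 < 4 ^ (k + 1) := by positivity
    omega⟩
  have hM2 : 4 * 4 ^ k = M + 1 := by rw [← hM, pow_succ]; ring
  let Q : (Fin (4 ^ k) → Bool) → Set ℝ := fun σ =>
    {r | ∃ x, E x = r ∧ (∀ i : Fin (4 ^ k), x i = σ i) ∧
      ∀ n, 4 ^ k ≤ n → n < 4 ^ (k + 1) → x n = false}
  have hSQ : S k ⊆ ⋃ σ, Q σ := by
    rintro _ ⟨x, rfl, hx⟩
    exact mem_iUnion.2 ⟨fun i => x i, x, rfl, fun _ => rfl, hx⟩
  have hdiam : ∀ σ, Metric.ediam (Q σ) ≤ ENNReal.ofReal ((1/3 : ℝ) ^ M / 2) := by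
    intro σ
    refine Metric.ediam_le ?_
    rintro _ ⟨x, rfl, hx1, hx2⟩ _ ⟨y, rfl, hy1, hy2⟩
    rw [edist_dist, Real.dist_eq]
    refine ENNReal.ofReal_le_ofReal ?_
    have := close x y (M + 1) fun j hj => by
      by_cases h : j < 4 ^ k
      · exact (hx1 ⟨j, h⟩).trans (hy1 ⟨j, h⟩).symm
      · rw [hx2 j (by omega) (by omega), hy2 j (by omega) (by omega)]
    rw [pow_succ] at this
    linarith
  have hcnt : 2 * 4 ^ k ≤ cnt (JJ c) M := by
    have h1 : Finset.Ico (4 ^ k) M ⊆ (Finset.range M).filter (· ∈ JJ c) := by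
      intro n hn
      rw [Finset.mem_Ico] at hn
      simp only [Finset.mem_filter, Finset.mem_range]
      exact ⟨hn.2, k, hk, hn.1, by omega⟩
    have h2 := Finset.card_le_card h1
    rw [Nat.card_Ico] at h2
    unfold cnt
    refine le_trans ?_ (le_of_le_of_eq h2 (by congr))
    omega
  have hQ : ∀ σ, μ (Q σ) ≤ (1/2 : ℝ≥0∞) ^ (2 * 4 ^ k) := by
    intro σ
    have h1 : Metric.ediam (Q σ) ≤ r := by
      refine (hdiam σ).trans (le_trans (ENNReal.ofReal_le_ofReal ?_) hr)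
      have h2 : (1/3 : ℝ) ^ M ≤ (1/3 : ℝ) ^ k :=
        pow_le_pow_of_le_one (by norm_num) (by norm_num) (by omega)
      have : (0 : ℝ) ≤ (1/3 : ℝ) ^ M := by positivity
      linarith
    refine (OuterMeasure.mkMetric'.pre_le h1).trans ?_
    have h2 : (((Metric.ediam (Q σ)).toNNReal : ℝ≥0) : ℝ) ≤ (1/3 : ℝ) ^ M / 2 :=
      ENNReal.toReal_le_of_le_ofReal (by positivity) (hdiam σ)
    have h3 := (g_le (JJ c) _ M h2).trans (half_anti hcnt)
    have h4 : (((1/2 : ℝ≥0) ^ (2 * 4 ^ k) : ℝ≥0) : ℝ≥0∞) = (1/2 : ℝ≥0∞) ^ (2 * 4 ^ k) := by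
      simp [ENNReal.inv_pow]
    rw [← h4]
    exact_mod_cast h3
  calc μ (S k) ≤ μ (⋃ σ, Q σ) := measure_mono hSQ
    _ ≤ ∑' σ, μ (Q σ) := measure_iUnion_le _
    _ ≤ ∑' _σ : Fin (4 ^ k) → Bool, (1/2 : ℝ≥0∞) ^ (2 * 4 ^ k) := ENNReal.tsum_le_tsum hQ
    _ = 2 ^ (4 ^ k) * (1/2 : ℝ≥0∞) ^ (2 * 4 ^ k) := by
        rw [tsum_fintype]; simp
    _ = (1/2 : ℝ≥0∞) ^ (4 ^ k) := by
        rw [two_mul, pow_add, ← mul_assoc, ← mul_pow, one_div, ENNReal.mul_inv_cancel] <;> simp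
    _ ≤ (1/2 : ℝ≥0∞) ^ k := pow_le_pow_right_of_le_one' (by norm_num) hk4.le

def G (c : Set ℕ) : Set ℝ := {r | ∃ᶠ k in atTop, k ∈ c ∧ r ∈ S k}

lemma H_null (c : Set ℕ) : H (g (JJ c)) (G c) = 0 := by
  unfold H OuterMeasure.mkMetric OuterMeasure.mkMetric'
  simp only [OuterMeasure.iSup_apply, ENNReal.iSup_eq_zero]
  intro r hr
  have h1 : Tendsto (fun k : ℕ => ENNReal.ofReal ((1/3 : ℝ) ^ k)) atTop (𝓝 0) := by
    have := ENNReal.tendsto_ofReal
      (tendsto_pow_atTop_nhds_zero_of_lt_one (r := (1/3 : ℝ)) (by norm_num) (by norm_num))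
    simpa using this
  have h2 : ∀ᶠ k in atTop, ENNReal.ofReal ((1/3 : ℝ) ^ k) ≤ r :=
    (h1.eventually (gt_mem_nhds hr)).mono fun _ h => h.le
  have h3 := measure_setOfPred_frequently_eq_zero
    (μ := OuterMeasure.mkMetric'.pre
      (fun s : Set ℝ => ((g (JJ c) (Metric.ediam s).toNNReal : ℝ≥0) : ℝ≥0∞)) r)
    (p := fun k x => (k ∈ c ∧ x ∈ S k) ∧ ENNReal.ofReal ((1/3 : ℝ) ^ k) ≤ r) (by
      refine ne_top_of_le_ne_top (b := ∑' k : ℕ, (1/2 : ℝ≥0∞) ^ k) (by simp) ?_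
      refine ENNReal.tsum_le_tsum fun k => ?_
      by_cases hk : k ∈ c ∧ ENNReal.ofReal ((1/3 : ℝ) ^ k) ≤ r
      · refine le_trans (measure_mono ?_) (pre_S c k hk.1 r hk.2)
        exact fun x hx => hx.1.2
      · have : {x | (k ∈ c ∧ x ∈ S k) ∧ ENNReal.ofReal ((1/3 : ℝ) ^ k) ≤ r} = ∅ := by
          ext x
          simp only [mem_setOf_eq, mem_empty_iff_false, iff_false]
          exact fun h => hk ⟨h.1.1, h.2⟩
        rw [this]; simp)
  refine measure_mono_null ?_ h3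
  intro x hx
  exact Filter.Frequently.and_eventually hx h2

lemma K_sub {c d : Set ℕ} (h : (c \ d).Infinite) : range (e (JJ d)) ⊆ G c := by
  rintro _ ⟨x, rfl⟩
  have h1 : ∃ᶠ k in atTop, k ∈ c \ d := Nat.frequently_atTop_iff_infinite.2 h
  refine h1.mono fun k hk => ⟨hk.1, _, rfl, fun n h1 h2 => ?_⟩
  rw [if_neg]
  rintro ⟨j, hj, h3, h4⟩
  have h5 : k < j + 1 := (Nat.pow_lt_pow_iff_right (by norm_num)).1 (h1.trans_lt h4)
  have h6 : j < k + 1 := (Nat.pow_lt_pow_iff_right (by norm_num)).1 (h3.trans_lt h2)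
  have : j = k := by omega
  exact hk.2 (this ▸ hj)

def cc (a : Set ℕ) : Set ℕ :=
  {k | (k.unpair.1 / 2 ∈ a ↔ k.unpair.1 % 2 = 0)}

lemma col_inf (j : ℕ) : {k : ℕ | k.unpair.1 = j}.Infinite := by
  refine infinite_of_injective_forall_mem (f := fun i => Nat.pair j i) ?_ (by simp)
  intro a b h
  simpa using h

lemma cc_diff {a b : Set ℕ} (h : a ≠ b) : (cc a \ cc b).Infinite := by
  obtain ⟨j, hj⟩ : ∃ j, ¬ (j ∈ a ↔ j ∈ b) := by
    by_contra hc
    push Not at hc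
    exact h (Set.ext hc)
  by_cases ha : j ∈ a
  · refine (col_inf (2 * j)).mono fun k hk => ?_
    have hk' : k.unpair.1 = 2 * j := hk
    have e1 : 2 * j / 2 = j := by omega
    have e2 : 2 * j % 2 = 0 := by omega
    simp only [cc, mem_diff, mem_setOf_eq, hk', e1, e2]
    tauto
  · refine (col_inf (2 * j + 1)).mono fun k hk => ?_
    have hk' : k.unpair.1 = 2 * j + 1 := hk
    have e1 : (2 * j + 1) / 2 = j := by omega
    have e2 : (2 * j + 1) % 2 = 1 := by omega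
    simp only [cc, mem_diff, mem_setOf_eq, hk', e1, e2]
    tauto

lemma cc_inf (a : Set ℕ) : (cc a).Infinite := by
  have h : a ≠ aᶜ := fun h => by
    have := Set.ext_iff.1 h 0
    simp at this
  exact (cc_diff h).mono diff_subset

def AA (T : Set (Set ℕ)) : Set ℝ := ⋃ a ∈ T, range (e (JJ (cc a)))

lemma AA_iff (T : Set (Set ℕ)) (a : Set ℕ) : 0 < H (g (JJ (cc a))) (AA T) ↔ a ∈ T := by
  constructor
  · intro h
    by_contra ha
    refine h.ne' (measure_mono_null ?_ (H_null (cc a)))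
    refine iUnion₂_subset fun b hb => K_sub (cc_diff ?_)
    rintro rfl
    exact ha hb
  · intro ha
    exact (H_pos (JJ_inf (cc_inf a))).trans_le
      (measure_mono (subset_biUnion_of_mem (u := fun a => range (e (JJ (cc a)))) ha))

end Pool.Agent.H26.Gauge
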