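import Mathlib

set_option autoImplicit false

namespace Pool.Agent.H26.IdealLim

open Set Filter Topology

open Classical in
/-- the point of the Cantor space coding a subset of `ω` -/
noncomputable def chi (S : Set ℕ) : ℕ → Bool := fun i => decide (i ∈ S)

structure IsIdeal (I : Set (Set ℕ)) : Prop where
  sub : ∀ {S T}, S ⊆ T → T ∈ I → S ∈ I
  union : ∀ {S T}, S ∈ I → T ∈ I → S ∪ T ∈ I
  fin : ∀ {S}, S.Finite → S ∈ I
  proper : univ ∉ I

theorem open_iff {U : Set (ℕ → Bool)} (hU : IsOpen U) {S : Set ℕ} (h : chi S ∈ U) :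
    ∃ N, ∀ T : Set ℕ, (∀ i < N, i ∈ T ↔ i ∈ S) → chi T ∈ U := by
  by_contra c
  push Not at c
  choose T h1 h2 using c
  have : Tendsto (fun N => chi (T N)) atTop (𝓝 (chi S)) := tendsto_pi_nhds.mpr fun i =>
    tendsto_const_nhds.congr' ((eventually_gt_atTop i).mono fun N hN => by simp [chi, h1 N i hN])
  obtain ⟨N, hN⟩ := (this.eventually (hU.mem_nhds h)).exists
  exact h2 N hN

def Phi (A : ℕ → Set ℕ) (U : Set (ℕ → Bool)) (B : Set ℕ) (k : ℕ) : Prop :=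
  ∀ s : Finset ℕ, ↑s ⊆ A k → ∀ k', k ≤ k' → ∃ R ⊆ A k', chi (B ∪ s ∪ R) ∈ U

variable {A : ℕ → Set ℕ}

theorem Phi.mono (hA : Antitone A) {U : Set (ℕ → Bool)} {B : Set ℕ} {k k' : ℕ} (h : Phi A U B k)
    {s : Finset ℕ} (hs : ↑s ⊆ A k) (hk : k ≤ k') : Phi A U (B ∪ s) k' := by
  intro t ht l hl
  obtain ⟨R, h1, h2⟩ := h (s ∪ t) (by
    rw [Finset.coe_union]; exact union_subset hs (ht.trans (hA hk))) l (hk.trans hl)
  exact ⟨R, h1, by rwa [Finset.coe_union, ← union_assoc] at h2⟩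

theorem Phi.enter (hA : Antitone A) (hA' : ∀ k, A k ⊆ Ici k) {U : Set (ℕ → Bool)} (hU : IsOpen U)
    {B : Set ℕ} {k : ℕ} (h : Phi A U B k) : ∃ (s : Finset ℕ) (k' : ℕ), ↑s ⊆ A k ∧ k < k' ∧
      ∀ R ⊆ A k', chi (B ∪ s ∪ R) ∈ U := by
  classical
  obtain ⟨R, h1, h2⟩ := h ∅ (by simp) k le_rfl
  obtain ⟨N, hN⟩ := open_iff hU h2
  refine ⟨(Finset.range N).filter (· ∈ R), k + 1 + N, fun i hi => h1 (by simp at hi; exact hi.2),
    by omega, fun R' h' => hN _ fun i hi => ?_⟩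
  have : i ∉ R' := fun c => by have : k + 1 + N ≤ i := hA' _ (h' c); omega
  simp [this, hi]

theorem baire {ι : Type} [Countable ι] (U : ι → Set (ℕ → Bool))
    (hU : ∀ i, IsOpen (U i)) (B : Bool → Set ℕ) (P : Bool → ι → Prop) {k k' : ℕ} (hk : k ≤ k')
    (hA : Antitone A) (C : Set ℕ) (hC : C ⊆ A k) (h : ∀ b i, P b i → Phi A (U i) (B b) k) :
    ∃ T : Bool → Set ℕ, (∀ b, T b ⊆ C) ∧ C ⊆ T true ∪ T false ∧
      ∀ b i, P b i → Phi A (U i) (B b ∪ T b) k' := by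
  classical
  let T : (ℕ → Bool) → Bool → Set ℕ := fun f b => {i | i ∈ C ∧ f i = b}
  have := dense_iInter_of_isOpen (f := fun p : Bool × ι × Finset ℕ × ℕ =>
    {f : ℕ → Bool | P p.1 p.2.1 → ↑p.2.2.1 ⊆ A k' → k' ≤ p.2.2.2 →
      ∃ R ⊆ A p.2.2.2, chi (B p.1 ∪ T f p.1 ∪ p.2.2.1 ∪ R) ∈ U p.2.1}) ?_ ?_
  · obtain ⟨f, hf⟩ := this.nonempty
    refine ⟨T f, fun b i hi => hi.1, fun i hi => ?_, fun b i hp s hs l hl =>
      mem_iInter.mp hf (b, i, s, l) hp hs hl⟩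
    cases e : f i
    exacts [Or.inr ⟨hi, e⟩, Or.inl ⟨hi, e⟩]
  · rintro ⟨b, i, s, l⟩
    refine isOpen_iff_mem_nhds.mpr fun f hf => ?_
    by_cases c : P b i ∧ ↑s ⊆ A k' ∧ k' ≤ l
    · obtain ⟨R, h1, h2⟩ := hf c.1 c.2.1 c.2.2
      obtain ⟨N, hN⟩ := open_iff (hU i) h2
      have : ∀ᶠ g in 𝓝 f, ∀ j ∈ Finset.range N, g j = f j :=
        (eventually_all_finset _).mpr fun j _ =>
          ((continuous_apply j).tendsto f).eventually (p := (· = f j)) (by simp)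
      refine this.mono fun g hg _ _ _ => ⟨R, h1, hN _ fun j hj => ?_⟩
      simp [T, hg j (Finset.mem_range.mpr hj)]
    · exact univ_mem' fun g h1 h2 h3 => absurd ⟨h1, h2, h3⟩ c
  · rintro ⟨b, i, s, l⟩ f
    refine mem_closure_of_tendsto (f := fun N j => if j < N then f j else !b) (b := atTop)
      (tendsto_pi_nhds.mpr fun j => tendsto_const_nhds.congr'
        ((eventually_gt_atTop j).mono fun N hN => by simp [hN])) (Eventually.of_forall ?_)
    intro N h1 h2 h3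
    have := (h b i h1).mono hA (s := (Finset.range N).filter fun j => j ∈ C ∧ f j = b)
      (fun j hj => hC (by simp at hj; exact hj.2.1)) hk s h2 l h3
    convert this using 7
    ext j
    by_cases c : j < N <;> simp [T, c]

variable {I : Set (Set ℕ)} {U : ℕ → ℕ → ℕ → Set (ℕ → Bool)}

theorem chain {B : ℕ → Set ℕ} {R : ℕ → Set ℕ} (h1 : ∀ l, B (l + 1) ⊆ B l ∪ R l)
    (h2 : ∀ l, R (l + 1) ⊆ R l) (h3 : ∀ l, B l ⊆ B (l + 1)) (l : ℕ) :
    ∃ Q ⊆ R l, ⋃ i, B i = B l ∪ Q := by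
  refine ⟨(⋃ i, B i) \ B l, ?_, (union_diff_cancel (subset_iUnion B l)).symm⟩
  rintro x ⟨hx, hn⟩
  obtain ⟨i, hi⟩ := mem_iUnion.mp hx
  have : ∀ j, l ≤ j → B j ⊆ B l ∪ R l := by
    intro j hj
    induction j, hj using Nat.le_induction with
    | base => exact subset_union_left
    | succ j hj ih =>
      exact (h1 j).trans (union_subset ih ((antitone_nat_of_succ_le h2 hj).trans
        subset_union_right))
  exact (this (max l i) (le_max_left _ _)
    (monotone_nat_of_le_succ h3 (le_max_right _ _) hi)).resolve_left hn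

theorem dc {σ : Type} (P : ℕ → σ → Prop) (Q : ℕ → σ → σ → Prop) (s0 : σ) (h0 : P 0 s0)
    (h : ∀ l s, P l s → ∃ s', P (l + 1) s' ∧ Q l s s') :
    ∃ f : ℕ → σ, f 0 = s0 ∧ ∀ l, P l (f l) ∧ Q l (f l) (f (l + 1)) := by
  choose g h1 h2 using h
  let F : ∀ l, {s // P l s} := fun l => Nat.rec ⟨s0, h0⟩ (fun l s => ⟨g l s.1 s.2, h1 _ _ _⟩) l
  exact ⟨fun l => (F l).1, rfl, fun l => ⟨(F l).2, h2 _ _ _⟩⟩

theorem lemR (hI : IsIdeal I) (hU : ∀ n m j, IsOpen (U n m j))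
    (h4 : ∀ S, S ∈ I ↔ ∀ n, ∃ m, ∀ j, chi S ∈ U n m j) (hA : Antitone A)
    (hA' : ∀ k, A k ⊆ Ici k) (D : Set ℕ)
    (H : ∀ n B k, (B \ (D \ A k)).Finite → ∃ (m : ℕ) (s : Finset ℕ) (k' : ℕ), ↑s ⊆ A k ∧ k ≤ k' ∧
      ∀ j, Phi A (U n m j) (B ∪ s) k') : D ∈ I := by
  classical
  obtain ⟨F, -, hF⟩ := dc (σ := ℕ × (ℕ → Set ℕ) × (ℕ → ℕ))
    (fun l s => l ≤ s.1 ∧ (∀ c, (s.2.1 c \ (D \ A s.1)).Finite) ∧
      D \ A s.1 ⊆ s.2.1 0 ∪ s.2.1 1 ∪ s.2.1 2 ∧
      ∀ i < l, ∀ j, Phi A (U (i / 3) (s.2.2 i) j) (s.2.1 (i % 3)) s.1)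
    (fun l s s' => s.1 ≤ s'.1 ∧ (∀ c, s.2.1 c ⊆ s'.2.1 c ∧ s'.2.1 c ⊆ s.2.1 c ∪ A s.1) ∧
      (∀ i < l, s'.2.2 i = s.2.2 i) ∧ ∀ R ⊆ A s'.1, chi (s'.2.1 (l % 3) ∪ R) ∈
        U (l / 3).unpair.1 (s'.2.2 (3 * (l / 3).unpair.1 + l % 3)) (l / 3).unpair.2)
    (0, fun _ => D \ A 0, fun _ => 0) ⟨le_rfl, by simp, by simp, by simp⟩ (by
      rintro l ⟨k, B, μ⟩ ⟨h1, h2, h3, h5⟩
      dsimp only at h1 h2 h3 h5
      obtain ⟨m, s, k1, hs, hk1, hm⟩ := H (l / 3) (B (l % 3)) k (h2 _)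
      let μ' := Function.update μ l m
      have hμ : ∀ i < l, μ' i = μ i := fun i hi => Function.update_of_ne hi.ne _ _
      have p1 : ∀ i ≤ l, i % 3 = l % 3 → ∀ j, Phi A (U (i / 3) (μ' i) j) (B (l % 3) ∪ s) k1 := by
        intro i hi e j
        rcases hi.lt_or_eq with c | rfl
        · rw [hμ i c, ← e]; exact (h5 i c j).mono hA hs hk1
        · simp only [μ', Function.update_self]; exact hm j
      have hn := Nat.unpair_left_le (l / 3)
      obtain ⟨t, k2, ht, hk2, hent⟩ := (p1 (3 * (l / 3).unpair.1 + l % 3) (by omega) (by omega)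
        (l / 3).unpair.2).enter hA hA' (hU _ _ _)
      rw [show (3 * (l / 3).unpair.1 + l % 3) / 3 = (l / 3).unpair.1 by omega] at hent
      obtain ⟨T, t1, t2, t3⟩ := baire (fun p : ℕ × ℕ => U (p.1 / 3) (μ p.1) p.2) (fun _ => hU _ _ _)
        (fun b => B (if b then (l + 1) % 3 else (l + 2) % 3))
        (fun b p => p.1 < l ∧ p.1 % 3 = if b then (l + 1) % 3 else (l + 2) % 3)
        (hk1.trans hk2.le) hA ((D ∩ A k) \ A k2) (fun _ h => h.1.2)
        fun b p hp => hp.2 ▸ h5 p.1 hp.1 p.2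
      let E : ℕ → Set ℕ := fun c => if c = l % 3 then ↑s ∪ ↑t else T (decide (c = (l + 1) % 3))
      have e1 : ∀ c, E c ⊆ A k := fun c => by
        simp only [E]
        split_ifs
        exacts [union_subset hs (ht.trans (hA hk1)), fun _ h => (t1 _ h).1.2]
      refine ⟨(k2, fun c => B c ∪ E c, μ'), ⟨by dsimp only; omega, fun c => ?_, ?_, ?_⟩,
        hk1.trans hk2.le, fun c => ⟨subset_union_left, union_subset_union_right _ (e1 c)⟩, hμ,
        fun R hR => by simpa only [E, if_true, ← union_assoc] using hent R hR⟩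
      · refine ((h2 c).union (s ∪ t).finite_toSet).subset ?_
        rintro i ⟨c1 | c1, c2⟩
        · exact Or.inl ⟨c1, fun c3 => c2 ⟨c3.1, fun c4 => c3.2 (hA (hk1.trans hk2.le) c4)⟩⟩
        · simp only [E] at c1
          split_ifs at c1
          · exact Or.inr (by simpa using c1)
          · exact absurd ⟨(t1 _ c1).1.1, (t1 _ c1).2⟩ c2
      · intro i hi
        by_cases c : i ∈ A k
        · have : ∃ c < 3, i ∈ E c := by
            rcases t2 ⟨⟨hi.1, c⟩, hi.2⟩ with g | g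
            · exact ⟨(l + 1) % 3, by omega, by
                simp only [E]; rw [if_neg (by omega)]; simpa using g⟩
            · exact ⟨(l + 2) % 3, by omega, by
                simp only [E]; rw [if_neg (by omega), decide_eq_false (by omega)]; exact g⟩
          obtain ⟨c, hc, g⟩ := this
          interval_cases c <;> simp [g]
        · rcases h3 ⟨hi.1, c⟩ with (g | g) | g <;> simp [g]
      · intro i hi j
        dsimp only
        by_cases c : i % 3 = l % 3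
        · simp only [E, c, if_true, ← union_assoc]
          exact (p1 i (by omega) c j).mono hA ht hk2.le
        · have hl : i < l := by
            rcases (Nat.lt_succ_iff.mp hi).lt_or_eq with g | g
            exacts [g, absurd (g ▸ rfl) c]
          have e : i % 3 = if decide (i % 3 = (l + 1) % 3) then (l + 1) % 3 else (l + 2) % 3 := by
            split_ifs with g
            · simpa using g
            · simp at g; omega
          have := t3 (decide (i % 3 = (l + 1) % 3)) (i, j) ⟨hl, e⟩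
          rw [← e] at this
          simpa only [E, if_neg c, hμ i hl] using this)
  have st : ∀ i l, i < l → (F l).2.2 i = (F (i + 1)).2.2 i := by
    intro i l hl
    induction l, hl using Nat.le_induction with
    | base => rfl
    | succ l hl ih => rw [(hF l).2.2.2.1 i hl, ih]
  have mem : ∀ c < 3, (⋃ l, (F l).2.1 c) ∈ I := by
    intro c hc
    refine (h4 _).mpr fun n => ⟨(F (3 * n + c + 1)).2.2 (3 * n + c), fun j => ?_⟩
    obtain ⟨Q, q1, q2⟩ := chain (B := fun l => (F l).2.1 c) (R := fun l => A (F l).1)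
      (fun l => ((hF l).2.2.1 c).2) (fun l => hA (hF l).2.1) (fun l => ((hF l).2.2.1 c).1)
      (3 * Nat.pair n j + c + 1)
    have := (hF (3 * Nat.pair n j + c)).2.2.2.2 Q q1
    have hn := Nat.left_le_pair n j
    rw [show (3 * Nat.pair n j + c) / 3 = Nat.pair n j by omega,
      show (3 * Nat.pair n j + c) % 3 = c by omega, Nat.unpair_pair, st _ _ (by omega)] at this
    rwa [q2]
  refine hI.sub (fun i hi => ?_) (hI.union (hI.union (mem 0 (by omega)) (mem 1 (by omega)))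
    (mem 2 (by omega)))
  have := (hF (i + 1)).1.2.2.1 ⟨hi, fun c => by
    have : (F (i + 1)).1 ≤ i := hA' _ c
    have := (hF (i + 1)).1.1
    omega⟩
  exact union_subset_union (union_subset_union (subset_iUnion (fun l => (F l).2.1 0) _)
    (subset_iUnion (fun l => (F l).2.1 1) _)) (subset_iUnion (fun l => (F l).2.1 2) _) this

def Theta (A : ℕ → Set ℕ) (V : ℕ → ℕ → Set (ℕ → Bool)) (B : Set ℕ) (k : ℕ) : Prop :=
  ∀ (m : ℕ) (s : Finset ℕ) (k' : ℕ), ↑s ⊆ A k → k ≤ k' → ∃ (j : ℕ) (t : Finset ℕ) (k'' : ℕ),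
    ↑t ⊆ A k' ∧ k' ≤ k'' ∧ ∀ R ⊆ A k'', chi (B ∪ s ∪ t ∪ R) ∉ V m j

theorem lemQ (hI : IsIdeal I) (hU : ∀ n m j, IsOpen (U n m j))
    (h4 : ∀ S, S ∈ I ↔ ∀ n, ∃ m, ∀ j, chi S ∈ U n m j) (hA : Antitone A)
    (hA' : ∀ k, A k ⊆ Ici k) (D : Set ℕ) (hD : D ∉ I) :
    ∃ n B k, (B \ (D \ A k)).Finite ∧ Theta A (U n) B k := by
  by_contra c
  refine hD (lemR hI hU h4 hA hA' D fun n B k hB => ?_)
  by_contra c2
  refine c ⟨n, B, k, hB, fun m s k' hs hk => ?_⟩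
  by_contra c3
  refine c2 ⟨m, s, k', hs, hk, fun j t ht k'' hk' => ?_⟩
  by_contra c4
  exact c3 ⟨j, t, k'', ht, hk', fun R hR h => c4 ⟨R, hR, h⟩⟩

theorem lemP (hI : IsIdeal I) (hU : ∀ n m j, IsOpen (U n m j))
    (h4 : ∀ S, S ∈ I ↔ ∀ n, ∃ m, ∀ j, chi S ∈ U n m j) (hA : Antitone A)
    (hA' : ∀ k, A k ⊆ Ici k) (D : Set ℕ) (h1 : ∀ k, D \ A k ∈ I)
    (h2 : ∀ S, (∀ k, (S \ A k).Finite) → S ∈ I) : D ∈ I := by
  by_contra hD
  obtain ⟨n, B, k, hB, hT⟩ := lemQ hI hU h4 hA hA' D hD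
  obtain ⟨F, -, hF⟩ := dc (σ := Finset ℕ × ℕ) (fun l s => ↑s.1 ⊆ A k ∧ k ≤ s.2 ∧ l ≤ s.2)
    (fun l s s' => s.2 ≤ s'.2 ∧ (s.1 : Set ℕ) ⊆ s'.1 ∧ (s'.1 : Set ℕ) ⊆ (s.1 : Set ℕ) ∪ A s.2 ∧
      ∃ j, ∀ R ⊆ A s'.2, chi (B ∪ s'.1 ∪ R) ∉ U n l j) (∅, k) (by simp) (by
      rintro l ⟨s, k'⟩ ⟨a1, a2, a3⟩
      dsimp only at a1 a2 a3
      obtain ⟨j, t, k2, b1, b2, b3⟩ := hT l s k' a1 a2
      refine ⟨(s ∪ t, k2 + 1), ⟨?_, by dsimp only; omega, by dsimp only; omega⟩,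
        by dsimp only; omega, by simp, ?_, j, fun R hR => ?_⟩ <;> simp only [Finset.coe_union]
      · exact union_subset a1 (b1.trans (hA a2))
      · exact union_subset_union_right _ b1
      · rw [← union_assoc]; exact b3 R (hR.trans (hA (Nat.le_succ _))))
  have ch := chain (B := fun l => ((F l).1 : Set ℕ)) (R := fun l => A (F l).2)
    (fun l => (hF l).2.2.2.1) (fun l => hA (hF l).2.1) fun l => (hF l).2.2.1
  have m1 : (⋃ l, ((F l).1 : Set ℕ)) ∈ I := h2 _ fun l => by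
    obtain ⟨Q, q1, q2⟩ := ch l
    rw [q2]
    exact (F l).1.finite_toSet.subset fun i hi =>
      hi.1.resolve_right fun c => hi.2 (hA (hF l).1.2.2 (q1 c))
  have m2 : B ∈ I := hI.sub (subset_diff_union B _) (hI.union (hI.fin hB) (h1 k))
  obtain ⟨m, hm⟩ := (h4 _).mp (hI.union m2 m1) n
  obtain ⟨Q, q1, q2⟩ := ch (m + 1)
  obtain ⟨j, hj⟩ := (hF m).2.2.2.2
  exact hj Q q1 (by rw [union_assoc, ← q2]; exact hm j)

theorem lemT (hI : IsIdeal I) (hU : ∀ n m j, IsOpen (U n m j))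
    (h4 : ∀ S, S ∈ I ↔ ∀ n, ∃ m, ∀ j, chi S ∈ U n m j) (D : Set ℕ) (hD : D ∉ I) :
    ∃ g : ℕ → ℕ, Tendsto g atTop atTop ∧
      ∀ E : Set ℕ, E.Infinite → {i | i ∈ D ∧ g i ∈ E} ∉ I := by
  classical
  have hA : Antitone fun k => D ∩ Ici k := fun _ _ h => inter_subset_inter_right _ (Ici_subset_Ici.mpr h)
  obtain ⟨n, B, k, hB, hT⟩ := lemQ hI hU h4 hA (fun _ => inter_subset_right) D hD
  have fB : B.Finite := (hB.union (finite_Iio k)).subset fun i hi => by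
    by_cases c : i < k
    · exact Or.inr c
    · exact Or.inl ⟨hi, fun h => h.2 ⟨h.1, not_lt.mp c⟩⟩
  have blk : ∀ (N : ℕ), k ≤ N → ∀ P : Finset (ℕ × Finset ℕ), ∃ (a : Finset ℕ) (N' : ℕ),
      ↑a ⊆ D ∩ Ici N ∧ N < N' ∧ (∀ i ∈ a, i < N') ∧ ∀ p ∈ P, ↑p.2 ⊆ D ∩ Ici k →
        ∃ j, ∀ R ⊆ D ∩ Ici N', chi (B ∪ p.2 ∪ a ∪ R) ∉ U n p.1 j := by
    intro N hN P
    induction P using Finset.induction_on with
    | empty => exact ⟨∅, N + 1, by simp, by simp, by simp, by simp⟩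
    | insert p P _ ih =>
      obtain ⟨a, N', a1, a2, a3, a4⟩ := ih
      by_cases c : ↑p.2 ⊆ D ∩ Ici k
      · obtain ⟨j, t, k2, b1, b2, b3⟩ := hT p.1 (p.2 ∪ a) N' (by
          rw [Finset.coe_union]; exact union_subset c (a1.trans (hA hN))) (by omega)
        refine ⟨a ∪ t, k2 + t.sup id + 1, ?_, by omega, fun i hi => ?_, fun q hq hc => ?_⟩
        · rw [Finset.coe_union]; exact union_subset a1 (b1.trans (hA a2.le))
        · rcases Finset.mem_union.mp hi with g | g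
          · have := a3 i g; omega
          · have : i ≤ t.sup id := Finset.le_sup (f := id) g
            omega
        · rcases Finset.mem_insert.mp hq with rfl | g
          · refine ⟨j, fun R hR => ?_⟩
            have := b3 R (hR.trans (hA (by omega)))
            simpa only [Finset.coe_union, union_assoc] using this
          · obtain ⟨j', hj⟩ := a4 q g hc
            refine ⟨j', fun R hR => ?_⟩
            have := hj (t ∪ R) (union_subset b1 (hR.trans (hA (by omega))))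
            simpa only [Finset.coe_union, union_assoc] using this
      · refine ⟨a, N', a1, a2, a3, fun q hq hc => ?_⟩
        rcases Finset.mem_insert.mp hq with rfl | g
        exacts [absurd hc c, a4 q g hc]
  choose! a nx b1 b2 b3 b4 using fun N hN =>
    blk N hN (Finset.range (N + 1) ×ˢ (Finset.range N).powerset)
  let N : ℕ → ℕ := fun l => nx^[l] k
  have n1 : ∀ l, N (l + 1) = nx (N l) := fun l => Function.iterate_succ_apply' _ _ _
  have n2 : ∀ l, k + l ≤ N l := fun l => by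
    induction l with
    | zero => exact le_rfl
    | succ l ih => have := b2 (N l) (by omega); rw [n1]; omega
  have n3 : StrictMono N := strictMono_nat_of_lt_succ fun l => by
    rw [n1]; exact b2 _ (by have := n2 l; omega)
  have ex : ∀ i, ∃ l, i < N (l + 1) := fun i => ⟨i, by have := n2 (i + 1); omega⟩
  have g1 : ∀ i l, N l ≤ i → i < N (l + 1) → Nat.find (ex i) = l := fun i l h1 h2 =>
    (Nat.find_eq_iff _).mpr ⟨h2, fun r hr => not_lt.mpr ((n3.monotone hr).trans h1)⟩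
  refine ⟨fun i => Nat.find (ex i), tendsto_atTop.mpr fun l => (eventually_ge_atTop (N l)).mono
    fun i hi => (Nat.le_find_iff _ _).mpr fun r hr => not_lt.mpr ((n3.monotone hr).trans hi),
    fun E hE h => ?_⟩
  let S : Set ℕ := {i | ∃ l ∈ E, i ∈ a (N l)}
  have s1 : ∀ l, ∀ i ∈ a (N l), i ∈ D ∧ N l ≤ i ∧ i < N (l + 1) := fun l i hi =>
    have := b1 (N l) (by have := n2 l; omega) hi
    ⟨this.1, this.2, n1 l ▸ b3 _ (by have := n2 l; omega) i hi⟩
  have s2 : S ∈ I := hI.sub (by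
    rintro i ⟨l, hl, hi⟩
    exact ⟨(s1 l i hi).1, by
      dsimp only; rwa [g1 i l (s1 l i hi).2.1 (s1 l i hi).2.2]⟩) h
  obtain ⟨m, hm⟩ := (h4 _).mp (hI.union (hI.fin fB) s2) n
  obtain ⟨l, hl, hml⟩ := hE.exists_gt m
  obtain ⟨j, hj⟩ := b4 (N l) (by have := n2 l; omega) (m, (Finset.range (N l)).filter (· ∈ S))
    (by have := n2 l; simp; omega) (by
      intro i hi
      obtain ⟨r, -, hr⟩ : i ∈ S := by simp at hi; exact hi.2
      exact ⟨(s1 r i hr).1, by have := n2 r; have := (s1 r i hr).2.1; simp; omega⟩)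
  refine hj (S ∩ Ici (N (l + 1))) (by
    rintro i ⟨⟨r, -, hr⟩, hi⟩
    exact ⟨(s1 r i hr).1, n1 l ▸ hi⟩) ?_
  convert hm j using 2
  rw [union_assoc, union_assoc]
  congr 1
  ext i
  simp only [mem_union, Finset.coe_filter, Finset.mem_range, mem_setOf_eq, Finset.mem_coe,
    mem_inter_iff, mem_Ici]
  refine ⟨by rintro (h | h | h); exacts [h.2, ⟨l, hl, h⟩, h.1], fun hi => ?_⟩
  by_cases c1 : i < N l
  · exact Or.inl ⟨c1, hi⟩
  by_cases c2 : i < N (l + 1)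
  · obtain ⟨r, -, hr⟩ := hi
    have := (g1 i r (s1 r i hr).2.1 (s1 r i hr).2.2).symm.trans (g1 i l (not_lt.mp c1) c2)
    exact Or.inr (Or.inl (this ▸ hr))
  · exact Or.inr (Or.inr ⟨hi, not_lt.mp c2⟩)

def pre (y : ℕ → ℕ) : ℕ → List ℕ
  | 0 => []
  | l + 1 => y l :: pre y l

theorem pre_len (y : ℕ → ℕ) (l : ℕ) : (pre y l).length = l := by
  induction l with
  | zero => rfl
  | succ l ih => simp [pre, ih]

theorem pre_eq {y z : ℕ → ℕ} {l : ℕ} (h : pre y l = pre z l) : ∀ i < l, y i = z i := by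
  induction l with
  | zero => simp
  | succ l ih =>
    simp only [pre, List.cons.injEq] at h
    intro i hi
    rcases (Nat.lt_succ_iff.mp hi).lt_or_eq with c | rfl
    exacts [ih h.2 i c, h.1]

theorem fixpt (Φ : Set ℕ → Set ℕ)
    (h : ∀ S T n, (∀ i < n, i ∈ S ↔ i ∈ T) → n ∈ Φ S → n ∈ Φ T) : ∃ S, Φ S = S := by
  let g : ℕ → Prop := Nat.lt_wfRel.wf.fix fun n r => n ∈ Φ {i | ∃ h : i < n, r i h}
  have e : ∀ n, g n = (n ∈ Φ {i | ∃ _ : i < n, g i}) := fun n => WellFounded.fix_eq _ _ n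
  refine ⟨{n | g n}, Set.ext fun n => ?_⟩
  rw [mem_setOf_eq, e]
  exact ⟨h _ _ n fun i hi => by simp [hi], h _ _ n fun i hi => by simp [hi]⟩

theorem diag (hI : IsIdeal I) (hU : ∀ n m j, IsOpen (U n m j))
    (h4 : ∀ S, S ∈ I ↔ ∀ n, ∃ m, ∀ j, chi S ∈ U n m j) (n0 : ℕ) (B : Set ℕ) (hB : B.Finite)
    (s : List ℕ → Finset ℕ) (Reg E : List ℕ → Set ℕ) (s0 : s [] = ∅)
    (a1 : ∀ i τ, (s τ : Set ℕ) ⊆ s (i :: τ)) (a2 : ∀ i τ, (s (i :: τ) : Set ℕ) ⊆ ↑(s τ) ∪ E (i :: τ))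
    (a3 : ∀ i τ, Reg (i :: τ) ⊆ E (i :: τ)) (a4 : ∀ i τ, E (i :: τ) ⊆ Reg τ ∩ Ioi τ.length)
    (a5 : ∀ i τ, ∃ j, ∀ R ⊆ Reg (i :: τ), chi (B ∪ s (i :: τ) ∪ R) ∉ U n0 τ.length j)
    (a6 : ∀ τ (C : ℕ → Set ℕ), (∀ i, C i ⊆ E (i :: τ)) → (∀ i, C i ∈ I) → (⋃ i, C i) ∈ I) :
    False := by
  have ms : MeasurableSet (⋂ n, ⋃ m, ⋂ j, U n m j) := .iInter fun n => .iUnion fun m =>
    .iInter fun j => (hU n m j).measurableSet
  have mm : ∀ S, S ∈ I ↔ chi S ∈ ⋂ n, ⋃ m, ⋂ j, U n m j := fun S => by simp [h4]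
  haveI : PolishSpace (ℕ → Bool) := {}
  have an := ms.analyticSet
  rw [MeasureTheory.AnalyticSet] at an
  obtain h | ⟨ρ, hρ, hr⟩ := an
  · exact (h ▸ (mm ∅).mp (hI.fin finite_empty) :)
  let T : Set ℕ → List ℕ → Prop := fun S τ =>
    ∃ y, pre y τ.length = τ ∧ ∀ i < τ.length, (ρ y i = true ↔ i ∈ S)
  have nw : ∀ i τ n, n ∈ s (i :: τ) → n ∉ s τ → n ∈ E (i :: τ) := fun i τ n h1 h2 =>
    (a2 i τ h1).resolve_left h2
  obtain ⟨S, hS⟩ := fixpt (fun S => {n | ∃ i τ, T S (i :: τ) ∧ n ∈ s (i :: τ) ∧ n ∉ s τ}) (by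
    rintro S S' n h ⟨i, τ, ⟨y, h1, h2⟩, h3⟩
    refine ⟨i, τ, ⟨y, h1, fun j hj => (h2 j hj).trans (h j ?_)⟩, h3⟩
    have : τ.length < n := (a4 i τ (nw _ _ _ h3.1 h3.2)).2
    simp at hj; omega)
  have tr : ∀ i τ, T S (i :: τ) → T S τ := by
    rintro i τ ⟨y, h1, h2⟩
    exact ⟨y, (List.cons.inj h1).2, fun j hj => h2 j (by simp; omega)⟩
  have tr2 : ∀ σ τ, τ <:+ σ → (T S σ → T S τ) ∧ Reg σ ⊆ Reg τ := by
    intro σ τ h
    induction σ with
    | nil => rw [List.suffix_nil.mp h]; exact ⟨id, le_rfl⟩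
    | cons i σ ih =>
      rcases List.suffix_cons_iff.mp h with rfl | h
      · exact ⟨id, le_rfl⟩
      · exact ⟨fun c => (ih h).1 (tr _ _ c),
          ((a3 i σ).trans ((a4 i σ).trans inter_subset_left)).trans (ih h).2⟩
  by_cases c : S ∈ I
  · obtain ⟨y, hy⟩ : chi S ∈ range ρ := hr ▸ (mm S).mp c
    have t1 : ∀ l, T S (pre y l) := fun l => ⟨y, by rw [pre_len], fun i _ => by simp [hy, chi]⟩
    have t2 : ∀ l, (s (pre y l) : Set ℕ) ⊆ S := by
      intro l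
      induction l with
      | zero => simp [pre, s0]
      | succ l ih =>
        intro n hn
        by_cases g : n ∈ s (pre y l)
        · exact ih g
        · rw [← hS]; exact ⟨_, _, t1 (l + 1), hn, g⟩
    obtain ⟨m, hm⟩ := (h4 _).mp (hI.union (hI.fin hB) (hI.sub (iUnion_subset t2) c)) n0
    obtain ⟨Q, q1, q2⟩ := chain (B := fun l => (s (pre y l) : Set ℕ)) (R := fun l => Reg (pre y l))
      (fun l => (a2 _ _).trans (union_subset_union_right _ ((a4 _ _).trans inter_subset_left)))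
      (fun l => (a3 _ _).trans ((a4 _ _).trans inter_subset_left)) (fun l => a1 _ _) (m + 1)
    obtain ⟨j, hj⟩ := a5 (y m) (pre y m)
    rw [pre_len] at hj
    exact hj Q q1 (by have := hm j; rwa [q2, ← union_assoc] at this)
  · let De : List ℕ → Set ℕ := fun τ =>
      {n | ∃ i σ, τ <:+ σ ∧ T S (i :: σ) ∧ n ∈ s (i :: σ) ∧ n ∉ s σ}
    have st : ∀ τ, De τ ∉ I → ∃ i, T S (i :: τ) ∧ De (i :: τ) ∉ I := by
      intro τ h
      by_contra g
      push Not at g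
      refine h (hI.sub ?_ (a6 τ (fun i => {n | T S (i :: τ) ∧
        ((n ∈ s (i :: τ) ∧ n ∉ s τ) ∨ n ∈ De (i :: τ))}) ?_ fun i => ?_))
      · rintro n ⟨i, σ, h1, h2, h3⟩
        rcases eq_or_ne τ σ with rfl | e
        · exact mem_iUnion.mpr ⟨i, h2, Or.inl h3⟩
        · obtain ⟨p, rfl⟩ := h1
          obtain ⟨q, r, rfl⟩ : ∃ q r, p = q ++ [r] := by
            rcases List.eq_nil_or_concat p with rfl | ⟨q, r, rfl⟩
            exacts [absurd rfl e, ⟨q, r, by simp⟩]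
          have su : r :: τ <:+ q ++ [r] ++ τ := ⟨q, by simp⟩
          exact mem_iUnion.mpr ⟨r, (tr2 _ _ su).1 (tr _ _ h2), Or.inr ⟨i, _, su, h2, h3⟩⟩
      · rintro i n ⟨-, h1 | ⟨j, σ, h1, -, h2⟩⟩
        · exact nw _ _ _ h1.1 h1.2
        · exact a3 _ _ ((tr2 _ _ h1).2 (a4 _ _ (nw _ _ _ h2.1 h2.2)).1)
      · by_cases e : T S (i :: τ)
        · exact hI.sub (fun n hn => hn.2.imp_left fun h => h.1)
            (hI.union (hI.fin (s (i :: τ)).finite_toSet) (g i e))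
        · exact hI.sub (fun n hn => absurd hn.1 e) (hI.fin finite_empty)
    obtain ⟨F, f0, hF⟩ := dc (σ := List ℕ) (fun _ τ => De τ ∉ I)
      (fun _ τ τ' => T S τ' ∧ ∃ i, τ' = i :: τ) [] (fun h => c (hI.sub (by
        intro n hn
        rw [← hS] at hn
        obtain ⟨i, τ, h⟩ := hn
        exact ⟨i, τ, List.nil_suffix, h⟩) h))
      fun l τ h => let ⟨i, h1, h2⟩ := st τ h; ⟨i :: τ, h2, h1, i, rfl⟩
    choose y hy using fun l => (hF l).2.2
    have e : ∀ l, F l = pre y l := fun l => by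
      induction l with
      | zero => exact f0
      | succ l ih => rw [hy, ih]; rfl
    choose z h1 h2 using fun l => (hF l).2.1
    simp only [e, pre_len] at h1 h2
    have l1 : Tendsto z atTop (𝓝 y) := tendsto_pi_nhds.mpr fun i => tendsto_const_nhds.congr'
      ((eventually_ge_atTop i).mono fun l hl => (pre_eq (h1 l) i (by omega)).symm)
    have l2 : Tendsto (fun l => ρ (z l)) atTop (𝓝 (chi S)) := tendsto_pi_nhds.mpr fun i =>
      tendsto_const_nhds.congr' ((eventually_ge_atTop i).mono fun l hl => by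
        have := h2 l i (by omega)
        rw [Bool.eq_iff_iff, this]; simp [chi])
    exact c ((mm S).mpr (hr ▸ ⟨y, tendsto_nhds_unique ((hρ.tendsto y).comp l1) l2⟩))

end Pool.Agent.H26.IdealLim
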