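import Mathlib
import Pool.Agent.H26.IdealLim

set_option autoImplicit false

namespace Pool.Agent.H26.IdealLim2

open Set Filter Topology Pool.Agent.H26.IdealLim

/-- `I` is a `Π⁰₄ = G_δσδ` subset of the Cantor space -/
def IsPi04 (I : Set (Set ℕ)) : Prop :=
  ∃ U : ℕ → ℕ → ℕ → Set (ℕ → Bool), (∀ n m j, IsOpen (U n m j)) ∧
    chi '' I = ⋂ n, ⋃ m, ⋂ j, U n m j

/-- the set of `I`-limit points of `x` -/
def Lim {X : Type} [TopologicalSpace X] (I : Set (Set ℕ)) (x : ℕ → X) : Set X :=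
  {η | ∃ S, S ∉ I ∧ Tendsto x (atTop ⊓ 𝓟 S) (𝓝 η)}

/-- the family `𝓛_X(I)` -/
def Fam (X : Type) [TopologicalSpace X] (I : Set (Set ℕ)) : Set (Set X) := range (Lim I) ∪ {∅}

def IsFsigma {X : Type} [TopologicalSpace X] (Y : Set X) : Prop :=
  ∃ F : ℕ → Set X, (∀ n, IsClosed (F n)) ∧ Y = ⋃ n, F n

section
variable {X : Type} [MetricSpace X] [SecondCountableTopology X] {I : Set (Set ℕ)}
  {U : ℕ → ℕ → ℕ → Set (ℕ → Bool)}

def Ab (x : ℕ → X) (η : X) (k : ℕ) : Set ℕ := {i | k ≤ i ∧ dist (x i) η < (1 / 2) ^ k}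

omit [SecondCountableTopology X] in
theorem Ab_anti (x : ℕ → X) (η : X) : Antitone (Ab x η) := fun _ _ h _ hi =>
  ⟨h.trans hi.1, hi.2.trans_le (pow_le_pow_of_le_one (by norm_num) (by norm_num) h)⟩

omit [SecondCountableTopology X] in
theorem Ab_sub (x : ℕ → X) {η ζ : X} {k l : ℕ} (h : dist η ζ < (1 / 2) ^ (k + 1)) (hl : k < l) :
    Ab x η l ⊆ Ab x ζ k := fun i hi => by
  have h1 := Ab_anti x η hl hi
  refine ⟨(Nat.le_succ k).trans h1.1, ?_⟩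
  have := dist_triangle (x i) η ζ
  have := h1.2
  rw [pow_succ] at *
  linarith

omit [SecondCountableTopology X] in
theorem tend_iff (x : ℕ → X) (η : X) (S : Set ℕ) :
    Tendsto x (atTop ⊓ 𝓟 S) (𝓝 η) ↔ ∀ k, (S \ Ab x η k).Finite := by
  simp only [Metric.tendsto_nhds, eventually_inf_principal, ← Nat.cofinite_eq_atTop,
    eventually_cofinite]
  refine ⟨fun h k => ((h ((1 / 2) ^ k) (by positivity)).union (finite_Iio k)).subset
    fun i hi => ?_, fun h ε hε => ?_⟩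
  · by_cases c : i < k
    · exact Or.inr c
    · exact Or.inl fun g => hi.2 ⟨not_lt.mp c, g hi.1⟩
  · obtain ⟨k, hk⟩ := exists_pow_lt_of_lt_one hε (by norm_num : (1 / 2 : ℝ) < 1)
    refine (h k).subset fun i hi => ?_
    simp only [mem_setOf_eq, Classical.not_imp] at hi
    exact ⟨hi.1, fun g => hi.2 (g.2.trans hk)⟩

theorem fin_union (hI : IsIdeal I) (C : ℕ → Set ℕ) (h : ∀ i, C i ∈ I) (k : ℕ) :
    (⋃ i < k, C i) ∈ I := by
  induction k with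
  | zero => simpa using hI.fin finite_empty
  | succ k ih => rw [biUnion_lt_succ]; exact hI.union ih (h k)

variable (hI : IsIdeal I) (hU : ∀ n m j, IsOpen (U n m j))
  (h4 : ∀ S, S ∈ I ↔ ∀ n, ∃ m, ∀ j, chi S ∈ U n m j)
include hI hU h4

omit [SecondCountableTopology X] in
theorem col {x : ℕ → X} {d : X} (hd : d ∉ Lim I x) (D : Set ℕ) (h : ∀ k, D \ Ab x d k ∈ I) :
    D ∈ I := lemP hI hU h4 (Ab_anti x d) (fun _ _ h => h.1) D h fun S hS =>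
  by_contra fun c => hd ⟨S, c, (tend_iff x d S).mpr hS⟩

omit [SecondCountableTopology X] in
theorem tree (x : ℕ → X) (Z : Set X) (n k : ℕ) (B : Set ℕ) (hB : B.Finite) (η0 : X) (h0 : η0 ∈ Z)
    (h1 : ∀ η ∈ Z, ∀ r > 0, ¬ closure (Z ∩ Metric.ball η r) ⊆ Lim I x)
    (h2 : ∀ η ∈ Z, Theta (Ab x η) (U n) B k ∧ Ab x η0 (k + 1) ⊆ Ab x η k) : False := by
  classical
  have ch : ∀ p : {p : X × Finset ℕ × ℕ // p.1 ∈ Z ∧ ↑p.2.1 ⊆ Ab x η0 (k + 1) ∧
      Ab x p.1 p.2.2 ⊆ Ab x η0 (k + 1) ∧ k ≤ p.2.2}, ∃ d ∉ Lim I x, ∀ m i : ℕ,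
      ∃ q : {p : X × Finset ℕ × ℕ // p.1 ∈ Z ∧ ↑p.2.1 ⊆ Ab x η0 (k + 1) ∧
        Ab x p.1 p.2.2 ⊆ Ab x η0 (k + 1) ∧ k ≤ p.2.2}, ∃ E : Set ℕ,
      (p.1.2.1 : Set ℕ) ⊆ q.1.2.1 ∧ (q.1.2.1 : Set ℕ) ⊆ ↑p.1.2.1 ∪ E ∧ Ab x q.1.1 q.1.2.2 ⊆ E ∧
      E ⊆ Ab x p.1.1 p.1.2.2 ∩ Ioi m ∧ E ⊆ Ab x d i ∧
      ∃ j, ∀ R ⊆ Ab x q.1.1 q.1.2.2, chi (B ∪ q.1.2.1 ∪ R) ∉ U n m j := by
    rintro ⟨⟨η, s, κ⟩, a1, a2, a3, a4⟩
    obtain ⟨d, d1, d2⟩ := not_subset.mp (h1 η a1 ((1 / 2) ^ (κ + 1)) (by positivity))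
    refine ⟨d, d2, fun m i => ?_⟩
    obtain ⟨ζ, ⟨z1, z2⟩, z3⟩ := Metric.mem_closure_iff.mp d1 ((1 / 2) ^ (i + 1)) (by positivity)
    dsimp only at a1 a2 a3 a4
    obtain ⟨j, t, k2, b1, b2, b3⟩ := (h2 ζ z1).1 m s (κ + m + i + 1) (a2.trans (h2 ζ z1).2)
      (by omega)
    have e1 : Ab x ζ (κ + m + i + 1) ⊆ Ab x η κ := Ab_sub x z2 (by omega)
    refine ⟨⟨(ζ, s ∪ t, k2), z1, ?_, ((Ab_anti x ζ b2).trans e1).trans a3, by dsimp only; omega⟩,
      Ab x ζ (κ + m + i + 1), by simp, ?_, Ab_anti x ζ b2, fun a ha => ⟨e1 ha, ?_⟩,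
      Ab_sub x (dist_comm d ζ ▸ z3) (by omega), j, fun R hR => ?_⟩
    · rw [Finset.coe_union]; exact union_subset a2 ((b1.trans e1).trans a3)
    · rw [Finset.coe_union]; exact union_subset_union_right _ b1
    · have := ha.1; simp; omega
    · simpa only [Finset.coe_union, union_assoc] using b3 R hR
  choose d hd q E c1 c2 c3 c4 c5 c6 using ch
  let st : List ℕ → _ := fun τ => List.rec (motive := fun _ => _)
    ⟨(η0, ∅, k + 1), h0, by simp, le_rfl, Nat.le_succ k⟩ (fun i τ p => q p τ.length i) τ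
  refine diag hI hU h4 n B hB (fun τ => (st τ).1.2.1) (fun τ => Ab x (st τ).1.1 (st τ).1.2.2)
    (fun τ => E (st τ.tail) τ.tail.length τ.headI) rfl (fun i τ => c1 _ _ _) (fun i τ => c2 _ _ _)
    (fun i τ => c3 _ _ _) (fun i τ => c4 _ _ _) (fun i τ => c6 _ _ _) fun τ C g1 g2 => ?_
  refine col hI hU h4 (hd (st τ)) _ fun l => hI.sub ?_ (fin_union hI C g2 l)
  rintro a ⟨ha, hn⟩
  obtain ⟨i, hi⟩ := mem_iUnion.mp ha
  exact mem_biUnion (lt_of_not_ge fun c => hn (Ab_anti x _ c (c5 _ _ _ (g1 i hi)))) hi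

theorem fsigma (x : ℕ → X) : IsFsigma (Lim I x) := by
  let Cov : Set X → Prop := fun Y =>
    ∃ F : ℕ → Set X, (∀ n, IsClosed (F n)) ∧ Y ⊆ ⋃ n, F n ∧ (⋃ n, F n) ⊆ Lim I x
  have cu : ∀ {ι : Type} [Countable ι] (Y : ι → Set X) (W : Set X), (∀ i, Cov (Y i)) →
      W ⊆ ⋃ i, Y i → Cov W := by
    intro ι _ Y W h hW
    choose F f1 f2 f3 using h
    obtain ⟨e, he⟩ := exists_surjective_nat (Option (ι × ℕ))
    refine ⟨fun n => (e n).elim ∅ fun p => F p.1 p.2, fun n => ?_, fun a ha => ?_,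
      iUnion_subset fun n => ?_⟩
    · dsimp only
      cases e n <;> simp [f1]
    · obtain ⟨i, hi⟩ := mem_iUnion.mp (hW ha)
      obtain ⟨j, hj⟩ := mem_iUnion.mp (f2 i hi)
      obtain ⟨n, hn⟩ := he (some (i, j))
      exact mem_iUnion.mpr ⟨n, by rw [hn]; exact hj⟩
    · cases e n with
      | none => exact empty_subset _
      | some p => exact (subset_iUnion (F p.1) p.2).trans (f3 p.1)
  suffices Cov (Lim I x) by
    obtain ⟨F, f1, f2, f3⟩ := this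
    exact ⟨F, f1, f2.antisymm f3⟩
  refine cu (fun p : ℕ × Finset ℕ × ℕ => {η | Theta (Ab x η) (U p.1) p.2.1 p.2.2} ∩ Lim I x) _
    ?_ fun η hη => ?_
  · rintro ⟨n, B, k⟩
    dsimp only
    generalize hL : {η | Theta (Ab x η) (U n) B k} ∩ Lim I x = L
    let Z := {η ∈ L | ∀ r > 0, ¬ Cov (L ∩ Metric.ball η r)}
    have hW : Cov (L \ Z) := by
      haveI := (TopologicalSpace.countable_countableBasis X).mono
        (sep_subset _ fun b => Cov (L ∩ b)) |>.to_subtype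
      refine cu (fun b : {b ∈ TopologicalSpace.countableBasis X | Cov (L ∩ b)} => L ∩ b.1) _
        (fun b => b.2.2) fun η hη => ?_
      obtain ⟨r, hr, F, f1, f2, f3⟩ : ∃ r > 0, Cov (L ∩ Metric.ball η r) := by
        by_contra c
        exact hη.2 ⟨hη.1, fun r hr g => c ⟨r, hr, g⟩⟩
      obtain ⟨b, b1, b2, b3⟩ := (TopologicalSpace.isBasis_countableBasis X).mem_nhds_iff.mp
        (Metric.ball_mem_nhds η hr)
      exact mem_iUnion.mpr ⟨⟨b, b1, F, f1, (inter_subset_inter_right _ b3).trans f2, f3⟩, hη.1, b2⟩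
    by_contra hc
    obtain ⟨η0, h0⟩ : Z.Nonempty := by
      by_contra c
      rw [not_nonempty_iff_eq_empty.mp c, diff_empty] at hW
      exact hc hW
    refine tree hI hU h4 x (Z ∩ Metric.ball η0 ((1 / 2) ^ (k + 1))) n k B B.finite_toSet η0
      ⟨h0, Metric.mem_ball_self (by positivity)⟩ (fun η hη r hr c => ?_) fun η hη =>
      ⟨(hL ▸ hη.1.1 :).1, Ab_sub x (Metric.mem_ball'.mp hη.2) (Nat.lt_succ_self k)⟩
    obtain ⟨r', p1, p2⟩ := Metric.isOpen_iff.mp (Metric.isOpen_ball.inter Metric.isOpen_ball) η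
      ⟨hη.2, Metric.mem_ball_self hr⟩
    refine hη.1.2 r' p1 (cu (fun b : Bool => if b then L \ Z else
      closure (Z ∩ Metric.ball η0 ((1 / 2) ^ (k + 1)) ∩ Metric.ball η r)) _ ?_ fun a ha => ?_)
    · rintro (_ | _)
      · exact ⟨fun _ => _, fun _ => isClosed_closure, subset_iUnion (fun _ : ℕ => _) 0,
          iUnion_subset fun _ => c⟩
      · exact hW
    · by_cases g : a ∈ Z
      · exact mem_iUnion.mpr ⟨false, subset_closure ⟨⟨g, (p2 ha.2).1⟩, (p2 ha.2).2⟩⟩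
      · exact mem_iUnion.mpr ⟨true, ha.1, g⟩
  · obtain ⟨S, s1, s2⟩ := id hη
    obtain ⟨n, B, k, hB, hT⟩ := lemQ hI hU h4 (Ab_anti x η) (fun _ _ h => h.1) S s1
    have fB : B.Finite := (hB.union ((tend_iff x η S).mp s2 k)).subset (subset_diff_union _ _)
    exact mem_iUnion.mpr ⟨(n, fB.toFinset, k), by simpa using hT, hη⟩

end

end Pool.Agent.H26.IdealLim2
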