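import Mathlib

/-! Independent families on `ℕ` and maximal ideals avoiding a family of sets. -/

namespace Pool.Agent.H26.Indep

open Set

/-- a countable dense family of points of `2^(Set ℕ)`. -/
lemma exists_dense : ∃ e : ℕ → Set ℕ → Bool, ∀ (s : Finset (Set ℕ)) (σ : Set ℕ → Bool),
    ∃ n, ∀ a ∈ s, e n a = σ a := by
  classical
  obtain ⟨q, hq⟩ := exists_surjective_nat (ℕ × Finset (Finset ℕ))
  refine ⟨fun n a => decide ((Finset.range (q n).1).filter (· ∈ a) ∈ (q n).2), ?_⟩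
  intro s σ
  have : ∀ a b : Set ℕ, ∃ k, a ≠ b → ¬ (k ∈ a ↔ k ∈ b) := by
    intro a b
    by_cases h : a = b
    · exact ⟨0, fun h' => absurd h h'⟩
    · by_contra hc
      simp only [not_exists, Classical.not_imp, not_not] at hc
      exact h (Set.ext fun k => (hc k).2)
  choose k hk using this
  obtain ⟨N, hN⟩ := (((s ×ˢ s).finite_toSet).image (fun p => k p.1 p.2)).bddAbove
  obtain ⟨n, hn⟩ := hq (N + 1, (s.filter (fun a => σ a = true)).image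
    (fun a => (Finset.range (N + 1)).filter (· ∈ a)))
  refine ⟨n, fun a ha => ?_⟩
  simp only [hn]
  cases hσ : σ a
  · simp only [decide_eq_false_iff_not, Finset.mem_image, Finset.mem_filter, not_exists, not_and]
    rintro b ⟨hb, hσb⟩ he
    have hab : a ≠ b := by
      rintro rfl
      rw [hσ] at hσb
      exact Bool.noConfusion hσb
    have h1 : k a b ≤ N := hN ⟨(a, b), by simp [ha, hb], rfl⟩
    apply hk a b hab
    have := Finset.ext_iff.1 he (k a b)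
    simp only [Finset.mem_filter, Finset.mem_range, Nat.lt_succ_iff, h1, true_and] at this
    exact this.symm
  · simp only [decide_eq_true_eq, Finset.mem_image, Finset.mem_filter]
    exact ⟨a, ⟨ha, hσ⟩, rfl⟩

lemma exists_dense_of_inj {Λ : Type*} (j : Λ → Set ℕ) (hj : Function.Injective j) :
    ∃ e : ℕ → Λ → Bool, ∀ (s : Finset Λ) (σ : Λ → Bool), ∃ n, ∀ a ∈ s, e n a = σ a := by
  classical
  obtain ⟨e, he⟩ := exists_dense
  refine ⟨fun n a => e n (j a), fun s σ => ?_⟩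
  obtain ⟨n, hn⟩ := he (s.image j) (Function.extend j σ (fun _ => false))
  refine ⟨n, fun a ha => ?_⟩
  show e n (j a) = σ a
  rw [hn _ (Finset.mem_image_of_mem j ha), hj.extend_apply]

/-- possibly improper ideals -/
def Idl (I : Set (Set ℕ)) : Prop :=
  ∅ ∈ I ∧ (∀ A ∈ I, ∀ B ∈ I, A ∪ B ∈ I) ∧ ∀ A ∈ I, ∀ B ⊆ A, B ∈ I

lemma exists_max (𝓑 : Set (Set ℕ)) (I₀ : Set (Set ℕ)) (h₀ : Idl I₀) (hd : ∀ b ∈ 𝓑, b ∉ I₀) :
    ∃ I, I₀ ⊆ I ∧ Idl I ∧ (∀ b ∈ 𝓑, b ∉ I) ∧ ∀ X, X ∉ I → ∃ b ∈ 𝓑, b \ X ∈ I := by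
  obtain ⟨I, hI0, hI⟩ := zorn_subset_nonempty {I | Idl I ∧ ∀ b ∈ 𝓑, b ∉ I} (by
    intro c hc hch hne
    refine ⟨⋃₀ c, ⟨⟨?_, ?_, ?_⟩, ?_⟩, fun s hs => subset_sUnion_of_mem hs⟩
    · obtain ⟨I, hI⟩ := hne
      exact ⟨I, hI, (hc hI).1.1⟩
    · rintro A ⟨I, hI, hA⟩ B ⟨J, hJ, hB⟩
      rcases hch.total hI hJ with h | h
      · exact ⟨J, hJ, (hc hJ).1.2.1 A (h hA) B hB⟩
      · exact ⟨I, hI, (hc hI).1.2.1 A hA B (h hB)⟩
    · rintro A ⟨I, hI, hA⟩ B hB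
      exact ⟨I, hI, (hc hI).1.2.2 A hA B hB⟩
    · rintro b hb ⟨I, hI, h⟩
      exact (hc hI).2 b hb h) I₀ ⟨h₀, hd⟩
  obtain ⟨⟨h1, h2, h3⟩, h4⟩ := hI.prop
  refine ⟨I, hI0, ⟨h1, h2, h3⟩, h4, fun X hX => ?_⟩
  by_contra hc
  simp only [not_exists, not_and] at hc
  have : {Y | Y \ X ∈ I} ⊆ I := by
    refine hI.le_of_ge (y := {Y | Y \ X ∈ I}) ⟨⟨?_, ?_, ?_⟩, hc⟩ ?_
    · simpa using h1
    · intro A hA B hB
      show (A ∪ B) \ X ∈ I
      rw [union_diff_distrib]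
      exact h2 _ hA _ hB
    · intro A hA B hB
      exact h3 _ hA _ (diff_subset_diff_left hB)
    · intro A hA
      exact h3 _ hA _ diff_subset
  exact hX (this (by simpa using h1))

end Pool.Agent.H26.Indep
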