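import Mathlib

set_option autoImplicit false

open Set Topology Filter Cardinal

namespace Pool.Agent.H26.Kunen

abbrev C := ℕ → Bool

def res (k : ℕ) (X : C) : Fin k → Bool := fun i => X i

lemma res_inj {τ : Set C} (h : τ.Finite) : ∃ k0, ∀ k, k0 ≤ k → InjOn (res k) τ := by
  refine eventually_atTop.1 ((eventually_all_finite h).2 fun X _ =>
    (eventually_all_finite h).2 fun Y _ => ?_)
  by_cases hXY : X = Y
  · exact Eventually.of_forall fun _ _ => hXY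
  · obtain ⟨i, hi⟩ := Function.ne_iff.1 hXY
    filter_upwards [eventually_gt_atTop i] with k hk he
    exact absurd (congrFun he ⟨i, hk⟩) hi

structure Fam (A : C → ℕ → C → Set ℕ) : Prop where
  mono : ∀ X n m Y, n ≤ m → A X n Y ⊆ A X m Y
  fin : ∀ n Y (σ : Finset C), n < σ.card → {s | ∀ X ∈ σ, s ∈ A X n Y}.Finite
  inf : ∀ σ : C → Finset C, {Y | σ Y ≠ ∅}.Finite →
    {s | ∀ Y, ∀ X ∈ σ Y, s ∈ A X (σ Y).card Y}.Infinite

lemma exists_fam : ∃ A, Fam A := by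
  classical
  let S := Σ k : ℕ, ((Fin k → Bool) → Finset (Fin k → Bool))
  haveI : Infinite S := Infinite.of_injective (fun k : ℕ => (⟨k, fun _ => ∅⟩ : S))
    fun a b h => congrArg Sigma.fst h
  obtain ⟨e⟩ : Nonempty (ℕ ≃ S) := nonempty_equiv_of_countable
  refine ⟨fun X n Y => {s | ((e s).2 (res _ Y)).card ≤ n ∧ res _ X ∈ (e s).2 (res _ Y)},
    fun X n m Y h s hs => ⟨hs.1.trans h, hs.2⟩, fun n Y σ hn => ?_, fun σ hσ => ?_⟩
  · obtain ⟨k0, hk⟩ := res_inj σ.finite_toSet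
    have hf : {t : S | t.1 < k0}.Finite := by
      refine ((finite_Iio k0).biUnion fun k _ =>
        finite_range (fun f => (⟨k, f⟩ : S))).subset fun t ht => ?_
      exact mem_biUnion ht ⟨t.2, rfl⟩
    refine (hf.preimage e.injective.injOn).subset fun s hs => (not_le.1 fun hle => ?_ : (e s).1 < k0)
    obtain ⟨X, hX⟩ := Finset.card_pos.1 (n.zero_le.trans_lt hn)
    have := Finset.card_le_card_of_injOn (res (e s).1) (fun X hX => (hs X hX).2) (hk _ hle)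
    have := (hs X hX).1
    omega
  · obtain ⟨k0, hk⟩ := res_inj hσ
    refine infinite_of_injective_forall_mem (f := fun k : ℕ => e.symm ⟨k + k0, fun y =>
      (hσ.toFinset.filter fun Y => res _ Y = y).biUnion fun Y => (σ Y).image (res _)⟩)
      (fun a b h => by simpa using congrArg Sigma.fst (e.symm.injective h)) fun k Y X hX => ?_
    have hY : σ Y ≠ ∅ := Finset.ne_empty_of_mem hX
    have : (hσ.toFinset.filter fun Z => res (k + k0) Z = res _ Y) = {Y} := by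
      ext Z
      simp only [Finset.mem_filter, Finite.mem_toFinset, Finset.mem_singleton]
      exact ⟨fun h => hk _ (Nat.le_add_left _ _) h.1 hY h.2, fun h => ⟨h ▸ hY, by rw [h]⟩⟩
    simp only [mem_setOf_eq]
    rw [e.apply_symm_apply]
    simp only [this, Finset.singleton_biUnion]
    exact ⟨Finset.card_image_le, Finset.mem_image_of_mem _ hX⟩

section
variable (A : C → ℕ → C → Set ℕ)

def comb (σ : C → Finset C) : Set ℕ := {s | ∀ Y, ∀ X ∈ σ Y, s ∈ A X (σ Y).card Y}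

def Cond (K : Set C) (σ : C → Finset C) : Prop := {Y | σ Y ≠ ∅}.Finite ∧ ∀ Y, σ Y ≠ ∅ → Y ∈ K

def Indep (F : Filter ℕ) (K : Set C) : Prop :=
  F ≤ cofinite ∧ ∀ σ, Cond K σ → ∀ G ∈ F, (G ∩ comb A σ).Nonempty

variable {A}

lemma Indep.mono {F : Filter ℕ} {K K' : Set C} (h : Indep A F K) (hK : K' ⊆ K) : Indep A F K' :=
  ⟨h.1, fun σ hσ => h.2 σ ⟨hσ.1, fun Y hY => hK (hσ.2 Y hY)⟩⟩

lemma Indep.use {F F' : Filter ℕ} {K T : Set C} (h : Indep A F K) (hF : F' ≤ F)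
    (hu : ∀ G' ∈ F', ∃ G ∈ F, ∃ σ, Cond (K ∩ T) σ ∧ G ∩ comb A σ ⊆ G') : Indep A F' (K \ T) := by
  classical
  refine ⟨hF.trans h.1, fun σ hσ G' hG' => ?_⟩
  obtain ⟨G, hG, σ0, h0, hs⟩ := hu G' hG'
  obtain ⟨s, hs1, hs2⟩ := h.2 (fun Y => if Y ∈ T then σ0 Y else σ Y)
    ⟨(h0.1.union hσ.1).subset fun Y hY => by
      by_cases hT : Y ∈ T
      · exact Or.inl (by simpa [hT] using hY)
      · exact Or.inr (by simpa [hT] using hY), fun Y hY => by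
      by_cases hT : Y ∈ T
      · exact (h0.2 Y (by simpa [hT] using hY)).1
      · exact (hσ.2 Y (by simpa [hT] using hY)).1⟩ G hG
  refine ⟨s, hs ⟨hs1, fun Y X hX => ?_⟩, fun Y X hX => ?_⟩
  · have hT := (h0.2 Y (Finset.ne_empty_of_mem hX)).2
    simpa [hT] using hs2 Y X (by simpa [hT] using hX)
  · have hT := (hσ.2 Y (Finset.ne_empty_of_mem hX)).2
    simpa [hT] using hs2 Y X (by simpa [hT] using hX)

lemma Indep.add {F : Filter ℕ} {K : Set C} (h : Indep A F K) {σ : C → Finset C} (hσ : Cond K σ) :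
    Indep A (F ⊓ 𝓟 (comb A σ)) (K \ {Y | σ Y ≠ ∅}) :=
  h.use inf_le_left fun G' hG' => ⟨_, mem_inf_principal.1 hG', σ,
    ⟨hσ.1, fun Y hY => ⟨hσ.2 Y hY, hY⟩⟩, fun _ hs => hs.1 hs.2⟩

lemma Indep.decide {F : Filter ℕ} {K : Set C} (h : Indep A F K) (B : Set ℕ) :
    ∃ F' ≤ F, ∃ T : Set C, T.Finite ∧ Indep A F' (K \ T) ∧ (B ∈ F' ∨ Bᶜ ∈ F') := by
  by_cases hB : Indep A (F ⊓ 𝓟 B) K
  · exact ⟨_, inf_le_left, ∅, finite_empty, by simpa using hB,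
      Or.inl (mem_inf_of_right (mem_principal_self _))⟩
  · have : ∃ σ, Cond K σ ∧ ∃ G ∈ F ⊓ 𝓟 B, G ∩ comb A σ = ∅ := by
      by_contra hn
      push Not at hn
      exact hB ⟨inf_le_left.trans h.1, hn⟩
    obtain ⟨σ, hσ, G, hG, he⟩ := this
    refine ⟨_, inf_le_left, _, hσ.1, h.add hσ, Or.inr (mem_inf_principal.2 ?_)⟩
    filter_upwards [mem_inf_principal.1 hG] with s hs h1 h2
    exact (he ▸ (⟨hs h2, h1⟩ : s ∈ G ∩ comb A σ) : s ∈ (∅ : Set ℕ))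

lemma indep_lim (hA : Fam A) {ι : Type} [LinearOrder ι] (P : Set ι) (F : ι → Filter ℕ)
    (hF : Antitone F) (K : Set C) (h : ∀ i ∈ P, Indep A (F i) K) :
    Indep A (cofinite ⊓ ⨅ i ∈ P, F i) K := by
  refine ⟨inf_le_left, fun σ hσ G hG => ?_⟩
  rcases P.eq_empty_or_nonempty with rfl | hP
  · have hG' : Gᶜ.Finite := by simpa using hG
    obtain ⟨s, hs, hs'⟩ := ((hA.inf σ hσ.1).diff hG').nonempty
    exact ⟨s, not_not.1 hs', hs⟩
  · obtain ⟨i0, hi0⟩ := hP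
    rw [inf_eq_right.2 ((biInf_le F hi0).trans (h i0 hi0).1),
      mem_biInf_of_directed (fun a ha b hb => ⟨max a b, by
        rcases le_total a b with hab | hab <;> simp [hab, ha, hb],
        hF (le_max_left _ _), hF (le_max_right _ _)⟩) ⟨i0, hi0⟩] at hG
    obtain ⟨i, hi, hG⟩ := hG
    exact (h i hi).2 σ hσ G hG

lemma Indep.decideSeq (hA : Fam A) {F : Filter ℕ} {K : Set C} (h : Indep A F K) (B : ℕ → Set ℕ) :
    ∃ F' ≤ F, ∃ T : Set C, T.Countable ∧ Indep A F' (K \ T) ∧ ∀ n, B n ∈ F' ∨ (B n)ᶜ ∈ F' := by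
  have step : ∀ (n : ℕ) (s : {s : Filter ℕ × Set C // s.2.Finite ∧ Indep A s.1 (K \ s.2)}),
      ∃ t : {s : Filter ℕ × Set C // s.2.Finite ∧ Indep A s.1 (K \ s.2)},
        t.1.1 ≤ s.1.1 ∧ (B n ∈ t.1.1 ∨ (B n)ᶜ ∈ t.1.1) := fun n s => by
    obtain ⟨F', h1, T, h2, h3, h4⟩ := s.2.2.decide (B n)
    exact ⟨⟨(F', s.1.2 ∪ T), s.2.1.union h2, by rwa [← diff_diff]⟩, h1, h4⟩
  choose t h1 h2 using step
  obtain ⟨s, h0, hs⟩ : ∃ s : ℕ → {s : Filter ℕ × Set C // s.2.Finite ∧ Indep A s.1 (K \ s.2)},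
      s 0 = ⟨(F, ∅), finite_empty, by simpa using h⟩ ∧ ∀ n, s (n + 1) = t n (s n) :=
    ⟨fun n => Nat.rec ⟨(F, ∅), finite_empty, by simpa using h⟩ t n, rfl, fun _ => rfl⟩
  have hle : ∀ n, cofinite ⊓ (⨅ i ∈ (Set.univ : Set ℕ), (s i).1.1) ≤ (s n).1.1 := fun n =>
    inf_le_right.trans (biInf_le (fun i => (s i).1.1) (mem_univ n))
  refine ⟨_, by simpa [h0] using hle 0, ⋃ n, (s n).1.2,
    countable_iUnion fun n => (s n).2.1.countable,
    indep_lim hA Set.univ _ (antitone_nat_of_succ_le fun n => hs n ▸ h1 n _) _ fun i _ =>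
      (s i).2.2.mono (diff_subset_diff_right (subset_iUnion (fun n => (s n).1.2) i)), fun n => ?_⟩
  have := h2 n (s n)
  rw [← hs n] at this
  exact this.imp (fun h => hle _ h) fun h => hle _ h

def OK (F : Filter ℕ) (B : ℕ → Set ℕ) : Prop := ∃ D : C → Set ℕ, (∀ X, D X ∈ F) ∧
  ∀ n (σ : Finset C), n < σ.card → {s | (∀ X ∈ σ, s ∈ D X) ∧ s ∉ B n}.Finite

lemma Indep.ok (hA : Fam A) {F : Filter ℕ} {K : Set C} (h : Indep A F K) {β : C} (hβ : β ∈ K)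
    (B : ℕ → Set ℕ) (hB : ∀ n, B n ∈ F) : ∃ F' ≤ F, Indep A F' (K \ {β}) ∧ OK F' B := by
  classical
  let D : C → Set ℕ := fun X => {s | ∀ n, s ∉ B n → s ∈ A X n β}
  refine ⟨F ⊓ ⨅ X, 𝓟 (D X), inf_le_left, h.use inf_le_left fun G' hG' => ?_, D,
    fun X => mem_inf_of_right (mem_iInf_of_mem X (mem_principal_self _)),
    fun n σ hn => (hA.fin n β σ hn).subset fun s hs X hX => hs.1 X hX n hs.2⟩
  obtain ⟨G, hG, W, hW, rfl⟩ := mem_inf_iff.1 hG'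
  obtain ⟨I, hI, V, hV, rfl⟩ := mem_iInf.1 hW
  refine ⟨G ∩ ⋂ n ∈ Iic hI.toFinset.card, B n, inter_mem hG
    ((biInter_mem (finite_Iic _)).2 fun n _ => hB n), fun Y => if Y = β then hI.toFinset else ∅,
    ⟨(finite_singleton β).subset fun Y hY => by_contra fun hn => hY (if_neg hn),
      fun Y hY => ?_⟩, fun s hs => ⟨hs.1.1, mem_iInter.2 fun X => hV X fun n hn => ?_⟩⟩
  · have : Y = β := by_contra fun hn => hY (if_neg hn)
    exact ⟨this ▸ hβ, this⟩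
  · have h1 := hs.2 β X (by simp)
    simp only [if_true] at h1
    exact hA.mono _ _ _ _ (not_lt.1 fun hlt => hn (mem_iInter₂.1 hs.1.2 n hlt.le)) h1

lemma Indep.sep (hA : Fam A) {F G : Filter ℕ} {K : Set C} (h : Indep A F K) (h' : Indep A G K)
    {β : C} (hβ : β ∈ K) (f : ℕ → ℕ) : ∃ F' ≤ F, ∃ G' ≤ G, ∃ T : Set C, T.Finite ∧
      Indep A F' (K \ T) ∧ Indep A G' (K \ T) ∧ ∃ J, f ⁻¹' J ∈ F' ∧ Jᶜ ∈ G' := by
  classical
  have hadd : ∀ X, Indep A (G ⊓ 𝓟 (A X 1 β)) (K \ {β}) := fun X =>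
    h'.use inf_le_left fun G' hG' => ⟨_, mem_inf_principal.1 hG',
      fun Y => if Y = β then {X} else ∅,
      ⟨(finite_singleton β).subset fun Y hY => by_contra fun hn => hY (if_neg hn), fun Y hY => by
        have : Y = β := by_contra fun hn => hY (if_neg hn)
        exact ⟨this ▸ hβ, this⟩⟩, fun s hs => hs.1 (by simpa using hs.2 β X (by simp))⟩
  obtain ⟨F', h1, T, h2, h3, h4⟩ := h.decide (f ⁻¹' A (fun _ => true) 1 β)
  have e1 : K \ insert β T ⊆ K \ T := diff_subset_diff_right (subset_insert _ _)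
  have e2 : K \ insert β T ⊆ K \ {β} := diff_subset_diff_right (by simp)
  rcases h4 with h4 | h4
  · refine ⟨F', h1, _, inf_le_left, _, h2.insert β, h3.mono e1, (hadd fun _ => false).mono e2,
      _, h4, mem_inf_principal.2 ?_⟩
    have hne : (fun _ => true : C) ≠ fun _ => false := fun h => by simpa using congrFun h 0
    filter_upwards [h'.1 (hA.fin 1 β {fun _ => true, fun _ => false}
      (by rw [Finset.card_pair hne]; norm_num)).compl_mem_cofinite] with s hs a b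
    exact hs (by simp [a, show s ∈ A (fun _ => true) 1 β from b])
  · exact ⟨F', h1, _, inf_le_left, _, h2.insert β, h3.mono e1, (hadd fun _ => true).mono e2,
      (A (fun _ => true) 1 β)ᶜ, h4, by
        rw [compl_compl]; exact mem_inf_of_right (mem_principal_self _)⟩

def Done (t : (ℕ → Set ℕ) × (ℕ → ℕ)) (F G : Filter ℕ) : Prop :=
  ((∃ n, (t.1 n)ᶜ ∈ F) ∨ OK F t.1) ∧ (∃ J, t.2 ⁻¹' J ∈ F ∧ Jᶜ ∈ G) ∧ ∃ J, t.2 ⁻¹' J ∈ G ∧ Jᶜ ∈ F

lemma step (hA : Fam A) (F G : Filter ℕ) (K : Set C) (t : (ℕ → Set ℕ) × (ℕ → ℕ)) :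
    ∃ r : Filter ℕ × Filter ℕ × Set C, r.1 ≤ F ∧ r.2.1 ≤ G ∧ r.2.2.Countable ∧
      (Indep A F K → Indep A G K → ¬ K.Countable →
        Indep A r.1 (K \ r.2.2) ∧ Indep A r.2.1 (K \ r.2.2) ∧ Done t r.1 r.2.1) := by
  by_cases hh : Indep A F K ∧ Indep A G K ∧ ¬ K.Countable
  swap
  · exact ⟨(F, G, ∅), le_rfl, le_rfl, countable_empty, fun a b c => absurd ⟨a, b, c⟩ hh⟩
  obtain ⟨hF, hG, hK⟩ := hh
  have pick : ∀ T : Set C, T.Countable → ∃ β, β ∈ K \ T := fun T hT => by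
    by_contra hn
    push Not at hn
    exact hK (hT.mono fun x hx => by_contra fun h => hn x ⟨hx, h⟩)
  obtain ⟨β1, hβ1⟩ := pick ∅ countable_empty
  obtain ⟨F1, a1, G1, b1, T1, c1, d1, e1, J1, f1, g1⟩ := hF.sep hA hG hβ1.1 t.2
  obtain ⟨β2, hβ2⟩ := pick T1 c1.countable
  obtain ⟨G2, b2, F2, a2, T2, c2, e2, d2, J2, f2, g2⟩ := e1.sep hA d1 hβ2 t.2
  obtain ⟨F3, a3, T3, c3, d3, f3⟩ := d2.decideSeq hA t.1
  have hc : (T1 ∪ T2 ∪ T3).Countable := (c1.union c2).countable.union c3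
  rw [diff_diff, diff_diff, ← union_assoc] at d3
  rw [diff_diff] at e2
  by_cases hB : ∀ n, t.1 n ∈ F3
  · obtain ⟨β, hβ⟩ := pick _ hc
    obtain ⟨F4, a4, d4, f4⟩ := d3.ok hA hβ t.1 hB
    rw [diff_diff] at d4
    exact ⟨(F4, G2, T1 ∪ T2 ∪ T3 ∪ {β}), a4.trans (a3.trans (a2.trans a1)), b2.trans b1,
      hc.union (countable_singleton _), fun _ _ _ => ⟨d4, e2.mono (diff_subset_diff_right
        (subset_union_left.trans subset_union_left)), Or.inr f4,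
        ⟨J1, a4 (a3 (a2 f1)), b2 g1⟩, J2, f2, a4 (a3 g2)⟩⟩
  · obtain ⟨n, hn⟩ := not_forall.1 hB
    exact ⟨(F3, G2, T1 ∪ T2 ∪ T3), a3.trans (a2.trans a1), b2.trans b1, hc,
      fun _ _ _ => ⟨d3, e2.mono (diff_subset_diff_right subset_union_left),
        Or.inl ⟨n, (f3 n).resolve_left hn⟩, ⟨J1, a3 (a2 f1), b2 g1⟩, J2, f2, a3 g2⟩⟩

end

lemma exists_ok : ∃ u v : Ultrafilter ℕ, (u : Filter ℕ) ≤ cofinite ∧ (v : Filter ℕ) ≤ cofinite ∧
    (∀ B : ℕ → Set ℕ, (∀ n, B n ∈ u) → OK u B) ∧ (∀ f, u.map f ≠ v) ∧ ∀ f, v.map f ≠ u := by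
  obtain ⟨A, hA⟩ := exists_fam
  choose st h1 h2 h3 h4 using step hA
  obtain ⟨Ω, _, _, ⟨task⟩, hΩ⟩ : ∃ (Ω : Type) (_ : LinearOrder Ω) (_ : WellFoundedLT Ω),
      Nonempty (Ω ≃ (ℕ → Set ℕ) × (ℕ → ℕ)) ∧ ∀ μ : Ω, #(Iio μ) < 𝔠 :=
    ⟨(continuum.{0}).ord.ToType, inferInstance, inferInstance, Cardinal.eq.1 (by simp),
      fun μ => mk_Iio_ord_toType μ⟩
  obtain ⟨R, hR⟩ : ∃ R : Ω → Filter ℕ × Filter ℕ × Set C, ∀ μ, R μ =
      st (cofinite ⊓ ⨅ ν ∈ Iio μ, (R ν).1) (cofinite ⊓ ⨅ ν ∈ Iio μ, (R ν).2.1)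
        (⋃ ν ∈ Iio μ, (R ν).2.2)ᶜ (task μ) :=
    ⟨(wellFounded_lt (α := Ω)).fix fun μ ih =>
      st (cofinite ⊓ ⨅ (ν) (h : ν ∈ Iio μ), (ih ν h).1) (cofinite ⊓ ⨅ (ν) (h : ν ∈ Iio μ), (ih ν h).2.1)
        (⋃ (ν) (h : ν ∈ Iio μ), (ih ν h).2.2)ᶜ (task μ), fun μ => by rw [WellFounded.fix_eq]⟩
  have a1 : Antitone fun μ => (R μ).1 := antitone_iff_forall_lt.2 fun ν μ h => by
    rw [hR μ]; exact (h1 ..).trans (inf_le_right.trans (biInf_le (fun ν => (R ν).1) h))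
  have a2 : Antitone fun μ => (R μ).2.1 := antitone_iff_forall_lt.2 fun ν μ h => by
    rw [hR μ]; exact (h2 ..).trans (inf_le_right.trans (biInf_le (fun ν => (R ν).2.1) h))
  have a3 : ∀ μ, (R μ).2.2.Countable := fun μ => by rw [hR μ]; exact h3 ..
  have key : ∀ μ, Indep A (R μ).1 ((⋃ ν ∈ Iio μ, (R ν).2.2)ᶜ \ (R μ).2.2) ∧
      Indep A (R μ).2.1 ((⋃ ν ∈ Iio μ, (R ν).2.2)ᶜ \ (R μ).2.2) ∧
      Done (task μ) (R μ).1 (R μ).2.1 := by
    intro μ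
    induction μ using WellFoundedLT.induction with
    | ind μ ih =>
    have hs : ∀ ν ∈ Iio μ, (⋃ ν ∈ Iio μ, (R ν).2.2)ᶜ ⊆ (⋃ ξ ∈ Iio ν, (R ξ).2.2)ᶜ \ (R ν).2.2 :=
      fun ν hν x hx => ⟨fun h => hx (biUnion_subset_biUnion_left (Iio_subset_Iio (le_of_lt hν)) h),
        fun h => hx (mem_biUnion hν h)⟩
    have := h4 _ _ _ (task μ) (indep_lim hA (Iio μ) _ a1 _ fun ν hν => (ih ν hν).1.mono (hs ν hν))
      (indep_lim hA (Iio μ) _ a2 _ fun ν hν => (ih ν hν).2.1.mono (hs ν hν)) fun hc => ?_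
    · rwa [← hR μ] at this
    · have b1 : #(⋃ ν ∈ Iio μ, (R ν).2.2) < 𝔠 := by
        rw [biUnion_eq_iUnion]
        refine ((mk_iUnion_le _).trans (mul_le_mul' le_rfl
          (ciSup_le' fun ν : Iio μ => le_aleph0_iff_set_countable.2 (a3 ν)))).trans_lt ?_
        exact mul_lt_of_lt aleph0_le_continuum (hΩ μ) aleph0_lt_continuum
      have b2 := add_lt_of_lt aleph0_le_continuum b1
        ((le_aleph0_iff_set_countable.2 hc).trans_lt aleph0_lt_continuum)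
      rw [mk_sum_compl] at b2
      simp at b2
  have i1 := indep_lim hA Set.univ _ a1 ∅ fun ν _ => (key ν).1.mono (empty_subset _)
  have i2 := indep_lim hA Set.univ _ a2 ∅ fun ν _ => (key ν).2.1.mono (empty_subset _)
  have nb : ∀ F, Indep A F ∅ → F.NeBot := fun F h => forall_mem_nonempty_iff_neBot.1 fun G hG =>
    (h.2 (fun _ => ∅) ⟨by simp, by simp⟩ G hG).mono inter_subset_left
  obtain ⟨u, hu⟩ := @Ultrafilter.exists_le _ _ (nb _ i1)
  obtain ⟨v, hv⟩ := @Ultrafilter.exists_le _ _ (nb _ i2)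
  have hu' : ∀ μ, (u : Filter ℕ) ≤ (R μ).1 := fun μ =>
    hu.trans (inf_le_right.trans (biInf_le (fun ν => (R ν).1) (mem_univ μ)))
  have hv' : ∀ μ, (v : Filter ℕ) ≤ (R μ).2.1 := fun μ =>
    hv.trans (inf_le_right.trans (biInf_le (fun ν => (R ν).2.1) (mem_univ μ)))
  refine ⟨u, v, hu.trans inf_le_left, hv.trans inf_le_left, fun B hB => ?_, fun f hf => ?_,
    fun f hf => ?_⟩
  · have := (key (task.symm (B, id))).2.2.1
    rw [Equiv.apply_symm_apply] at this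
    rcases this with ⟨n, hn⟩ | ⟨D, hD, hD'⟩
    · exact absurd (hB n) (Ultrafilter.compl_mem_iff_notMem.1 (hu' _ hn))
    · exact ⟨D, fun X => hu' _ (hD X), hD'⟩
  · have := (key (task.symm (fun _ => ∅, f))).2.2.2.1
    rw [Equiv.apply_symm_apply] at this
    obtain ⟨J, b1, b2⟩ := this
    exact Ultrafilter.compl_mem_iff_notMem.1 (hv' _ b2) (hf ▸ (hu' _ b1 : J ∈ u.map f))
  · have := (key (task.symm (fun _ => ∅, f))).2.2.2.2
    rw [Equiv.apply_symm_apply] at this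
    obtain ⟨J, b1, b2⟩ := this
    exact Ultrafilter.compl_mem_iff_notMem.1 (hu' _ b2) (hf ▸ (hv' _ b1 : J ∈ v.map f))

lemma le_cofinite_iff {u : Ultrafilter ℕ} : (u : Filter ℕ) ≤ cofinite ↔ ∀ n, u ≠ pure n := by
  refine ⟨fun h n hn => ?_, fun h => u.le_cofinite_or_eq_pure.resolve_right fun ⟨n, hn⟩ => h n hn⟩
  have := h (finite_singleton n).compl_mem_cofinite
  rw [hn] at this
  simp at this

/-- Kunen: a weak P-point `u`, together with a free `v` that is RK-incomparable with it. -/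
theorem exists_weakP : ∃ u v : Ultrafilter ℕ, (∀ n, u ≠ pure n) ∧ (∀ n, v ≠ pure n) ∧
    (∀ F : Set (Ultrafilter ℕ), F.Countable → (∀ w ∈ F, (∀ n, w ≠ pure n) ∧ w ≠ u) →
      u ∉ closure F) ∧ (∀ f, u.map f ≠ v) ∧ ∀ f, v.map f ≠ u := by
  obtain ⟨u, v, hu, hv, hok, h1, h2⟩ := exists_ok
  refine ⟨u, v, le_cofinite_iff.1 hu, le_cofinite_iff.1 hv, fun F hF hw hc => ?_, h1, h2⟩
  obtain ⟨x, rfl⟩ := hF.exists_eq_range (closure_nonempty_iff.1 ⟨u, hc⟩)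
  have : ∀ n, ∃ B ∈ u, B ∉ x n := fun n => by
    by_contra hn
    push Not at hn
    exact (hw _ ⟨n, rfl⟩).2 (Ultrafilter.eq_of_le hn)
  choose B hB hB' using this
  obtain ⟨D, hD, hD'⟩ := hok B hB
  have : ∀ X, ∃ n, D X ∈ x n := fun X => by
    obtain ⟨_, h, n, rfl⟩ := mem_closure_iff.1 hc _ (ultrafilter_isOpen_basic (D X)) (hD X)
    exact ⟨n, h⟩
  choose g hg using this
  obtain ⟨n, hn⟩ := Cardinal.exists_infinite_fiber g (by simp [aleph0_lt_continuum])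
  obtain ⟨σ, hσ, hc⟩ := (infinite_coe_iff.1 hn).exists_subset_card_eq (n + 1)
  refine Ultrafilter.compl_mem_iff_notMem.1
    (le_cofinite_iff.2 (hw _ ⟨n, rfl⟩).1 (hD' n σ (by omega)).compl_mem_cofinite) ?_
  refine (inter_mem ((eventually_all_finset σ).2 fun X hX => ?_)
    (Ultrafilter.compl_mem_iff_notMem.2 (hB' n)) : _ ∈ (x n : Filter ℕ))
  have := hg X
  rwa [show g X = n from hσ hX] at this

end Pool.Agent.H26.Kunen
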