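import Mathlib

/-! Real-variable inequalities for Euclidean minimum spanning trees. -/

namespace Pool.Agent.H26.MST

open Real

/-- squared distance in the quadrilateral `w, v, c, g` with `|vc| = 1`. -/
noncomputable def FF (a α b β : ℝ) : ℝ :=
  1 + a ^ 2 + b ^ 2 - 2 * a * cos α - 2 * b * cos β + 2 * a * b * cos (α + β)

structure Quad (a α b β : ℝ) : Prop where
  ha : 0 < a
  hb : 0 < b
  c1 : a ^ 2 ≤ FF a α b β
  c2 : 1 ≤ FF a α b β
  c3 : b ^ 2 ≤ FF a α b β
  a1 : 2 * cos α ≤ a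
  a2 : 2 * a * cos α ≤ 1
  b1 : 2 * cos β ≤ b
  b2 : 2 * b * cos β ≤ 1

lemma cos_le_half {a x : ℝ} (ha : 0 < a) (h1 : 2 * x ≤ a) (h2 : 2 * a * x ≤ 1) : x ≤ 1 / 2 := by
  by_contra h
  push Not at h
  nlinarith

lemma ge_third {α : ℝ} (h0 : 0 ≤ α) (h : cos α ≤ 1 / 2) : π / 3 ≤ α := by
  by_contra hc
  push Not at hc
  have := cos_lt_cos_of_nonneg_of_le_pi h0 (by linarith [pi_pos]) hc
  rw [cos_pi_div_three] at this
  linarith

lemma cos_lt_neg_half {θ : ℝ} (h1 : 2 * π / 3 < θ) (h2 : θ < 4 * π / 3) : cos θ < -1 / 2 := by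
  have key : ∀ φ : ℝ, 2 * π / 3 < φ → φ ≤ π → cos φ < -1 / 2 := by
    intro φ a b
    have := cos_lt_cos_of_nonneg_of_le_pi (by linarith [pi_pos]) b a
    have e : cos (2 * π / 3) = -1 / 2 := by
      have : 2 * π / 3 = π - π / 3 := by ring
      rw [this, cos_pi_sub, cos_pi_div_three]; ring
    linarith
  rcases le_total θ π with h | h
  · exact key θ h1 h
  · have := key (2 * π - θ) (by linarith) (by linarith)
    rwa [cos_two_pi_sub] at this

lemma box {a b x y k : ℝ} (hx : 0 < x) (hy : 0 < y) (hk : k < 0)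
    (a1 : 2 * x ≤ a) (a2 : a ≤ 1) (b1 : 2 * y ≤ b) (b2 : b ≤ 1)
    (h1 : 1 - 2 * x + 4 * y * k < 0) (h2 : 1 - 2 * y + 4 * x * k < 0)
    (h3 : 2 - 2 * x - 2 * y + 2 * k < 0) :
    a - 2 * x + b - 2 * y + 2 * a * b * k < 0 := by
  have e1 : b - 2 * y + 4 * x * b * k < 0 := by
    rcases le_total 0 (1 + 4 * x * k) with h | h
    · nlinarith [mul_le_mul_of_nonneg_right b2 h]
    · have : x * y * k < 0 := mul_neg_of_pos_of_neg (mul_pos hx hy) hk
      nlinarith [mul_le_mul_of_nonpos_right b1 h]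
  have e2 : 1 - 2 * x + b - 2 * y + 2 * b * k < 0 := by
    rcases le_total 0 (1 + 2 * k) with h | h
    · nlinarith [mul_le_mul_of_nonneg_right b2 h]
    · nlinarith [mul_le_mul_of_nonpos_right b1 h]
  rcases le_total 0 (1 + 2 * b * k) with h | h
  · nlinarith [mul_le_mul_of_nonneg_right a2 h]
  · nlinarith [mul_le_mul_of_nonpos_right a1 h]

lemma alg {a b x y k : ℝ} (ha : 0 < a) (hb : 0 < b) (hx : 0 < x) (hy : 0 < y) (hk : k ≤ -1 / 2)
    (a1 : 2 * x ≤ a) (b1 : 2 * y ≤ b) (hx2 : x ≤ 1 / 2) (hy2 : y ≤ 1 / 2)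
    (h1 : 1 - 2 * x + 4 * y * k < 0) (h2 : 1 - 2 * y + 4 * x * k < 0)
    (h3 : 2 - 2 * x - 2 * y + 2 * k < 0)
    (c1 : 0 ≤ 1 + b ^ 2 - 2 * a * x - 2 * b * y + 2 * a * b * k)
    (c2 : 0 ≤ a ^ 2 + b ^ 2 - 2 * a * x - 2 * b * y + 2 * a * b * k)
    (c3 : 0 ≤ 1 + a ^ 2 - 2 * a * x - 2 * b * y + 2 * a * b * k) : False := by
  have hk0 : k < 0 := by linarith
  have diag : ∀ t : ℝ, 1 ≤ t → 1 + t ^ 2 - 2 * t * x - 2 * t * y + 2 * t * t * k < 0 := by
    intro t ht
    have p1 : t * t * (1 + 2 * k) ≤ 1 * (1 + 2 * k) :=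
      mul_le_mul_of_nonpos_right (by nlinarith) (by linarith)
    nlinarith
  rcases le_total a 1 with hA | hA <;> rcases le_total b 1 with hB | hB
  · have := box hx hy hk0 a1 hA b1 hB h1 h2 h3
    nlinarith [mul_nonneg (sub_nonneg.2 a1) (sub_nonneg.2 hA),
      mul_nonneg (sub_nonneg.2 b1) (sub_nonneg.2 hB)]
  · have := box (b := 1) hx hy hk0 a1 hA (by linarith) le_rfl h1 h2 h3
    have p : (b - 1) * (y - a * k) ≥ 0 := mul_nonneg (by linarith) (by nlinarith)
    nlinarith [mul_nonneg (sub_nonneg.2 a1) (sub_nonneg.2 hA)]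
  · have := box (a := 1) hx hy hk0 (by linarith) le_rfl b1 hB h1 h2 h3
    have p : (a - 1) * (x - b * k) ≥ 0 := mul_nonneg (by linarith) (by nlinarith)
    nlinarith [mul_nonneg (sub_nonneg.2 b1) (sub_nonneg.2 hB)]
  · rcases le_total a b with h | h
    · have := diag a hA
      have p : (b - a) * (y - a * k) ≥ 0 := mul_nonneg (by linarith) (by nlinarith)
      nlinarith
    · have := diag b hB
      have p : (a - b) * (x - b * k) ≥ 0 := mul_nonneg (by linarith) (by nlinarith)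
      nlinarith

lemma sin_gt {α : ℝ} (h0 : 0 < α) (h1 : α < π / 2) : 1 - cos α < sin α := by
  have hs : 0 < sin α := sin_pos_of_pos_of_lt_pi h0 (by linarith [pi_pos])
  have hc : 0 < cos α := cos_pos_of_mem_Ioo ⟨by linarith [pi_pos], h1⟩
  have := sin_sq_add_cos_sq α
  by_contra h
  push Not at h
  nlinarith [mul_pos hs hc]

/-- The angle lemma. -/
lemma lemmaQ {a α b β : ℝ} (Q : Quad a α b β) (h0 : 0 ≤ α) (h1 : α ≤ 4 * π / 9) (h2 : 0 ≤ β) :
    2 * π / 3 - α / 2 ≤ β := by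
  by_contra hc
  push Not at hc
  have hp := pi_pos
  have hx2 := cos_le_half Q.ha Q.a1 Q.a2
  have hy2 := cos_le_half Q.hb Q.b1 Q.b2
  have hα := ge_third h0 hx2
  have hβ := ge_third h2 hy2
  have hx : 0 < cos α := cos_pos_of_mem_Ioo ⟨by linarith, by linarith⟩
  have hy : 0 < cos β := cos_pos_of_mem_Ioo ⟨by linarith, by linarith⟩
  have hk : cos (α + β) ≤ -1 / 2 := by
    have := cos_le_cos_of_nonneg_of_le_pi (x := 2 * π / 3) (y := α + β) (by linarith) (by linarith)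
      (by linarith)
    have e : cos (2 * π / 3) = -1 / 2 := by
      have : 2 * π / 3 = π - π / 3 := by ring
      rw [this, cos_pi_sub, cos_pi_div_three]; ring
    linarith
  have k1 := cos_lt_neg_half (θ := α + β + β) (by linarith) (by linarith)
  have k2 := cos_lt_neg_half (θ := α + β + α) (by linarith) (by linarith)
  have e1 : cos (α + β + β) + cos α = 2 * cos β * cos (α + β) := by
    have : cos α = cos ((α + β) - β) := by congr 1; ring
    rw [this, cos_add (α + β), cos_sub (α + β)]; ring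
  have e2 : cos (α + β + α) + cos β = 2 * cos α * cos (α + β) := by
    have : cos β = cos ((α + β) - α) := by congr 1; ring
    rw [this, cos_add (α + β), cos_sub (α + β)]; ring
  have s1 := sin_gt (α := α) (by linarith) (by linarith)
  have s2 := sin_gt (α := β) (by linarith) (by linarith)
  have h3 : 2 - 2 * cos α - 2 * cos β + 2 * cos (α + β) < 0 := by
    rw [cos_add]
    have : (1 - cos α) * (1 - cos β) < sin α * sin β :=
      mul_lt_mul'' s1 s2 (by linarith) (by linarith)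
    nlinarith
  have c1 := Q.c1
  have c2 := Q.c2
  have c3 := Q.c3
  unfold FF at c1 c2 c3
  exact alg Q.ha Q.hb hx hy hk Q.a1 Q.b1 hx2 hy2 (by linarith) (by linarith) h3
    (by linarith) (by linarith) (by linarith)

lemma cos_56 {θ e : ℝ} (he : 0 ≤ e) (h1 : 5 * π / 6 - e ≤ θ) (h2 : θ ≤ 7 * π / 6 + e) :
    cos θ ≤ -0.866 + e := by
  have hp := pi_pos
  have s3 : (1.732 : ℝ) ≤ √3 := by
    apply le_sqrt_of_sq_le; norm_num
  have e5 : cos (5 * π / 6) = -(√3 / 2) := by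
    have : 5 * π / 6 = π - π / 6 := by ring
    rw [this, cos_pi_sub, cos_pi_div_six]
  have key : ∀ φ : ℝ, 5 * π / 6 - e ≤ φ → φ ≤ π → cos φ ≤ -0.866 + e := by
    intro φ a b
    rcases le_total φ (5 * π / 6) with h | h
    · have := abs_cos_sub_cos_le φ (5 * π / 6)
      rw [abs_of_nonpos (a := φ - 5 * π / 6) (by linarith)] at this
      have := (abs_le.1 this).2
      linarith
    · have := cos_le_cos_of_nonneg_of_le_pi (by linarith) b h
      linarith
  rcases le_total θ π with h | h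
  · exact key θ h1 h
  · have := key (2 * π - θ) (by linarith) (by linarith)
    rwa [cos_two_pi_sub] at this

lemma cos_near {θ φ e : ℝ} (h1 : φ - e ≤ θ) (h2 : θ ≤ φ + e) :
    cos φ - e ≤ cos θ ∧ cos θ ≤ cos φ + e := by
  have := abs_cos_sub_cos_le θ φ
  have h3 : |θ - φ| ≤ e := abs_le.2 ⟨by linarith, by linarith⟩
  have := abs_le.1 (this.trans h3)
  constructor <;> linarith [this.1, this.2]

/-- length bound on a sibling side -/
lemma lenS {a α b β σ t : ℝ} (Q : Quad a α b β) (h0 : 0 ≤ α) (h1 : α ≤ π / 3 + σ)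
    (hσ : 0 ≤ σ) (hσt : σ ≤ t) (ht : t ≤ 1 / 100)
    (h2 : π / 2 - 2 * t ≤ β) (h3 : β ≤ π / 2 + 2 * t) : b ≤ 1.3 * σ := by
  have hx2 := cos_le_half Q.ha Q.a1 Q.a2
  have hα := ge_third h0 hx2
  have hx := (cos_near (θ := α) (φ := π / 3) (e := σ) (by linarith) h1).1
  rw [cos_pi_div_three] at hx
  have hy := (cos_near (θ := β) (φ := π / 2) (e := 2 * t) h2 h3).1
  rw [cos_pi_div_two] at hy
  have hk := cos_56 (θ := α + β) (e := 3 * t) (by linarith) (by linarith) (by linarith [pi_pos])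
  have c1 := Q.c1
  have c2 := Q.c2
  have c3 := Q.c3
  have a1 := Q.a1
  have a2 := Q.a2
  have ha := Q.ha
  have hb := Q.hb
  unfold FF at c1 c2 c3
  set x := cos α
  set y := cos β
  set k := cos (α + β)
  have aL : 0.98 ≤ a := by linarith
  have aU : a ≤ 1.021 := by nlinarith
  have hak : a * k ≤ -0.819 := by nlinarith
  have hbk : b * (a * k) ≤ b * (-0.819) := mul_le_mul_of_nonneg_left hak hb.le
  have hby : b * (-0.02) ≤ b * y := mul_le_mul_of_nonneg_left (by linarith) hb.le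
  have b0 : b ≤ 0.66 := by nlinarith
  have main : b * (1.598 - b) ≤ 2 * σ := by
    rcases le_total a 1 with h | h
    · have : a * (a - 2 * x) ≤ 1 * (1 - 2 * x) :=
        mul_le_mul h (by linarith) (by linarith) (by norm_num)
      nlinarith
    · have : 1 * x ≤ a * x := mul_le_mul_of_nonneg_right h (by linarith)
      nlinarith
  have b1 : b ≤ 0.022 := by nlinarith
  nlinarith

/-- length bound on the parent side -/
lemma lenP {a α b β σ t : ℝ} (Q : Quad a α b β) (hat : 1 ≤ a * t) (h0 : π / 2 - t ≤ α)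
    (h1 : α ≤ π / 2 + t) (hd : 1 - 2 * a * cos α ≤ 2 * σ * a)
    (hσ : 0 ≤ σ) (hσt : σ ≤ t) (ht : t ≤ 1 / 100)
    (h2 : π / 3 ≤ β) (h3 : β ≤ 2 * π / 3) : b ≤ 1.3 * σ := by
  have hp := pi_pos
  have hx := (cos_near (θ := α) (φ := π / 2) (e := t) h0 h1).1
  rw [cos_pi_div_two] at hx
  have hy : -1 / 2 ≤ cos β := by
    have := cos_le_cos_of_nonneg_of_le_pi (x := β) (y := 2 * π / 3) (by linarith) (by linarith) h3
    have e : cos (2 * π / 3) = -1 / 2 := by
      have : 2 * π / 3 = π - π / 3 := by ring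
      rw [this, cos_pi_sub, cos_pi_div_three]; ring
    linarith
  have hk := cos_56 (θ := α + β) (e := t) (by linarith) (by linarith) (by linarith)
  have c1 := Q.c1
  have c3 := Q.c3
  have ha := Q.ha
  have hb := Q.hb
  unfold FF at c1 c3
  set x := cos α
  set y := cos β
  set k := cos (α + β)
  have aL : 100 ≤ a := by nlinarith
  have hab : 0 < a * b := mul_pos ha hb
  have hbk : a * b * k ≤ a * b * (-0.856) := mul_le_mul_of_nonneg_left (by linarith) hab.le
  have hby : b * (-1 / 2) ≤ b * y := mul_le_mul_of_nonneg_left hy hb.le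
  have hax : a * (-0.01) ≤ a * x := mul_le_mul_of_nonneg_left (by linarith) ha.le
  have hb100 : 100 * b ≤ a * b := mul_le_mul_of_nonneg_right aL hb.le
  have b0 : b ≤ 0.59 * a := by
    by_contra h
    push Not at h
    have : a * (0.59 * a) < a * b := mul_lt_mul_of_pos_left h ha
    nlinarith
  have hbb : b * b ≤ 0.59 * a * b := mul_le_mul_of_nonneg_right b0 hb.le
  have m1 : a * (1.112 * b) ≤ a * (2 * σ) := by nlinarith
  have m2 : 1.112 * b ≤ 2 * σ := le_of_mul_le_mul_left m1 ha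
  have b1 : b ≤ 0.018 := by linarith
  have hbb2 : b * b ≤ 0.018 * b := mul_le_mul_of_nonneg_right b1 hb.le
  have m3 : a * (1.7 * b) ≤ a * (2 * σ) := by nlinarith
  have m4 : 1.7 * b ≤ 2 * σ := le_of_mul_le_mul_left m3 ha
  linarith

/-- an angle whose cosine is at most `sin η` is at least `π/2 - η`. -/
lemma ge_of_cos_le {β η c : ℝ} (hβ : 0 ≤ β) (hη : 0 < η) (hη1 : η ≤ 1 / 10)
    (hc : cos β ≤ c) (h : c ≤ 0.99 * η) : π / 2 - η ≤ β := by
  by_contra hh
  push Not at hh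
  have hp := pi_gt_three
  have := cos_lt_cos_of_nonneg_of_le_pi hβ (by linarith) hh
  rw [cos_pi_div_two_sub] at this
  have s := sin_gt_sub_cube hη
  have : η ^ 3 ≤ η * 0.01 := by
    have : η ^ 2 ≤ 0.01 := by nlinarith
    nlinarith
  nlinarith

/-- the type of a side -/
def Ty (a α σ t : ℝ) : Prop :=
  0 ≤ σ ∧ ((0 ≤ α ∧ α ≤ π / 3 + σ) ∨
    (1 ≤ a * t ∧ π / 2 - t ≤ α ∧ α ≤ π / 2 + t ∧ 1 - 2 * a * cos α ≤ 2 * σ * a))

lemma angle_lb {a α b β σ t : ℝ} (Q : Quad a α b β) (T : Ty a α σ t) (hσt : σ ≤ t) (ht0 : 0 < t)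
    (ht : t ≤ 1 / 100) (h2 : π / 3 ≤ β) (h3 : β ≤ 2 * π / 3) : π / 2 - 2 * t ≤ β := by
  have hp := pi_gt_three
  rcases T with ⟨hσ, ⟨h0, h1⟩ | ⟨hat, h0, h1, hd⟩⟩
  · have := lemmaQ Q h0 (by linarith) (by linarith)
    linarith
  · have hb := lenP Q hat h0 h1 hd hσ hσt ht h2 h3
    exact ge_of_cos_le (c := b / 2) (by linarith) (by linarith) (by linarith)
      (by linarith [Q.b1]) (by linarith)

lemma len_ub {a α b β σ t : ℝ} (Q : Quad a α b β) (T : Ty a α σ t) (hσt : σ ≤ t)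
    (ht : t ≤ 1 / 100) (h2 : π / 2 - 2 * t ≤ β) (h3 : β ≤ π / 2 + 2 * t) : b ≤ 1.3 * σ := by
  have hp := pi_gt_three
  rcases T with ⟨hσ, ⟨h0, h1⟩ | ⟨hat, h0, h1, hd⟩⟩
  · exact lenS Q h0 h1 hσ hσt ht h2 h3
  · exact lenP Q hat h0 h1 hd hσ hσt ht (by linarith) (by linarith)

lemma ratio {b b' γ t : ℝ} (hb : 0 < b) (h : 2 * b * cos γ ≤ b') (h1 : π / 3 ≤ γ)
    (h2 : γ ≤ π / 3 + 4 * t) (ht : t ≤ 1 / 100) : b ≤ 1.087 * b' := by
  have hx := (cos_near (θ := γ) (φ := π / 3) (e := 4 * t) (by linarith) h2).1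
  rw [cos_pi_div_three] at hx
  have : b * 0.46 ≤ b * cos γ := mul_le_mul_of_nonneg_left (by linarith) hb.le
  nlinarith

lemma tyP {b α η t' : ℝ} (hb : 0 < b) (hη : 0 < η) (hη1 : η ≤ 1 / 10) (hbη : b / 2 ≤ 0.99 * η)
    (hbt : b ≤ t') (hηt : η ≤ t') (h1 : π / 2 - η ≤ α) (h2 : α ≤ π / 2 + η) :
    Ty (1 / b) α (α - (π / 2 - η)) t' := by
  refine ⟨by linarith, Or.inr ⟨?_, by linarith, by linarith, ?_⟩⟩
  · rw [one_div, inv_mul_eq_div, le_div_iff₀ hb]; linarith
  · have hx := (cos_near (θ := α) (φ := π / 2 - η) (e := α - (π / 2 - η)) (by linarith)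
      (by linarith)).1
    rw [cos_pi_div_two_sub] at hx
    have s := sin_gt_sub_cube hη
    have : η ^ 3 ≤ η * 0.01 := by
      have : η ^ 2 ≤ 0.01 := by nlinarith
      nlinarith
    have key : b - 2 * cos α ≤ 2 * (α - (π / 2 - η)) := by linarith
    have e : (1 : ℝ) = b * (1 / b) := by field_simp
    have hb' : 0 < 1 / b := by positivity
    nlinarith [mul_le_mul_of_nonneg_right key hb'.le]

lemma tyS {a α t : ℝ} (h : π / 3 ≤ α) : Ty a α (α - π / 3) t :=
  ⟨by linarith, Or.inl ⟨by linarith [pi_pos], by linarith⟩⟩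

end Pool.Agent.H26.MST
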