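import Mathlib
import Pool.Agent.H26.MST1

/-! Local geometry of Euclidean minimum spanning trees at vertices of degree five. -/

namespace Pool.Agent.H26.MST

open Real

noncomputable def E (t : ℝ) : ℂ := Complex.exp (t * Complex.I)

lemma E_re (t : ℝ) : (E t).re = cos t := Complex.exp_ofReal_mul_I_re t
lemma E_im (t : ℝ) : (E t).im = sin t := Complex.exp_ofReal_mul_I_im t
lemma E_add (s t : ℝ) : E (s + t) = E s * E t := by
  unfold E; rw [← Complex.exp_add]; congr 1; push_cast; ring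
lemma E_pi : E π = -1 := by unfold E; exact Complex.exp_pi_mul_I
lemma E_neg_pi : E (-π) = -1 := by
  unfold E; push_cast; rw [neg_mul, Complex.exp_neg, Complex.exp_pi_mul_I]; norm_num
lemma E_zero : E 0 = 1 := by unfold E; simp
lemma norm_E (t : ℝ) : ‖E t‖ = 1 := Complex.norm_exp_ofReal_mul_I t

lemma sq3 (a α b ψ : ℝ) : ‖1 + (b : ℂ) * E ψ - a * E α‖ ^ 2 =
    1 + a ^ 2 + b ^ 2 - 2 * a * cos α + 2 * b * cos ψ - 2 * a * b * cos (ψ - α) := by
  rw [Complex.sq_norm, Complex.normSq_apply]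
  simp only [Complex.sub_re, Complex.add_re, Complex.one_re, Complex.mul_re, Complex.ofReal_re,
    Complex.ofReal_im, E_re, E_im, Complex.sub_im, Complex.add_im, Complex.one_im, Complex.mul_im,
    cos_sub]
  have h1 := sin_sq_add_cos_sq α
  have h2 := sin_sq_add_cos_sq ψ
  linear_combination a ^ 2 * h1 + b ^ 2 * h2

lemma sq2 (a α b ψ : ℝ) : ‖(b : ℂ) * E ψ - a * E α‖ ^ 2 =
    a ^ 2 + b ^ 2 - 2 * a * b * cos (ψ - α) := by
  rw [Complex.sq_norm, Complex.normSq_apply]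
  simp only [Complex.sub_re, Complex.mul_re, Complex.ofReal_re,
    Complex.ofReal_im, E_re, E_im, Complex.sub_im, Complex.mul_im, cos_sub]
  have h1 := sin_sq_add_cos_sq α
  have h2 := sin_sq_add_cos_sq ψ
  linear_combination a ^ 2 * h1 + b ^ 2 * h2

lemma norm_polar {a : ℝ} (ha : 0 < a) (α : ℝ) : ‖(a : ℂ) * E α‖ = a := by
  rw [norm_mul, norm_E, mul_one, Complex.norm_real, Real.norm_eq_abs, abs_of_pos ha]

variable {V : Type*} (G : SimpleGraph V) (q : V → ℂ)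

/-- the local consequences of the minimum spanning tree property -/
structure Loc : Prop where
  inj : Function.Injective q
  h2 : ∀ x0 x1 x2, G.Adj x0 x1 → G.Adj x1 x2 → x0 ≠ x2 → ‖q x0 - q x1‖ ≤ ‖q x0 - q x2‖
  h3a : ∀ x0 x1 x2 x3, G.Adj x0 x1 → G.Adj x1 x2 → G.Adj x2 x3 → x0 ≠ x2 → x1 ≠ x3 →
    ‖q x0 - q x1‖ ≤ ‖q x0 - q x3‖
  h3b : ∀ x0 x1 x2 x3, G.Adj x0 x1 → G.Adj x1 x2 → G.Adj x2 x3 → x0 ≠ x2 → x1 ≠ x3 →
    ‖q x1 - q x2‖ ≤ ‖q x0 - q x3‖

def Side (v c : V) (s a α : ℝ) : Prop :=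
  ∃ w, G.Adj v w ∧ w ≠ c ∧ 0 < a ∧ q w - q v = (q c - q v) * (a * E (s * α))

variable {G q}

lemma cancel_sq {D X Y : ℂ} (hD : D ≠ 0) (h : ‖D * X‖ ≤ ‖D * Y‖) : ‖X‖ ^ 2 ≤ ‖Y‖ ^ 2 := by
  rw [norm_mul, norm_mul] at h
  have := le_of_mul_le_mul_left h (norm_pos_iff.2 hD)
  exact pow_le_pow_left₀ (norm_nonneg _) this 2

/-- two neighbours of a common vertex -/
lemma pair (L : Loc G q) {c x y : V} {D : ℂ} (hD : D ≠ 0) {a α b ψ : ℝ} (ha : 0 < a) (hb : 0 < b)
    (hx : G.Adj c x) (hy : G.Adj c y) (hxy : x ≠ y)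
    (ex : q x - q c = D * (a * E α)) (ey : q y - q c = D * (b * E ψ)) :
    2 * a * cos (ψ - α) ≤ b := by
  have h := L.h2 x c y hx.symm hy hxy
  have e1 : q x - q y = -(D * (b * E ψ - a * E α)) := by linear_combination ex - ey
  rw [ex, e1, norm_neg] at h
  have := cancel_sq hD h
  rw [sq2, norm_polar ha] at this
  have : b * (2 * a * cos (ψ - α)) ≤ b * b := by nlinarith
  exact le_of_mul_le_mul_left this hb

lemma quad (L : Loc G q) {v c g : V} {s a α b β : ℝ} (hs : s = 1 ∨ s = -1) (hvc : G.Adj v c)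
    (S : Side G q v c s a α) (hcg : G.Adj c g) (hgv : g ≠ v) (hb : 0 < b)
    (eg : q g - q c = (q c - q v) * (b * E (s * (π - β)))) : Quad a α b β := by
  obtain ⟨w, hvw, hwc, ha, ew⟩ := S
  have hD : q c - q v ≠ 0 := sub_ne_zero.2 fun h => hvc.ne (L.inj h).symm
  set D := q c - q v with hDdef
  have cs : ∀ x : ℝ, cos (s * x) = cos x := by
    intro x; rcases hs with rfl | rfl <;> simp
  have eF : ‖1 + (b : ℂ) * E (s * (π - β)) - a * E (s * α)‖ ^ 2 = FF a α b β := by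
    rw [sq3, ← mul_sub, cs, cs, cs, cos_pi_sub]
    have : π - β - α = π - (α + β) := by ring
    rw [this, cos_pi_sub]; unfold FF; ring
  have e1 : q w - q g = -(D * (1 + (b : ℂ) * E (s * (π - β)) - a * E (s * α))) := by
    linear_combination ew - eg - hDdef.symm
  have ec : q c - q v = D * ((1 : ℝ) * E 0) := by rw [E_zero]; simp [hDdef]
  have ev : q v - q c = D * ((1 : ℝ) * E (s * π)) := by
    have : E (s * π) = -1 := by
      rcases hs with rfl | rfl
      · rw [one_mul, E_pi]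
      · rw [neg_one_mul, E_neg_pi]
    rw [this]; simp [hDdef]
  have p1 := pair L hD one_pos ha hvc hvw hwc.symm ec ew
  have p2 := pair L hD ha one_pos hvw hvc hwc ew ec
  have p3 := pair L hD one_pos hb hvc.symm hcg hgv.symm ev eg
  have p4 := pair L hD hb one_pos hcg hvc.symm hgv eg ev
  rw [sub_zero, cs] at p1
  rw [zero_sub, cos_neg, cs] at p2
  rw [← mul_sub, cs, show π - β - π = -β by ring, cos_neg] at p3
  rw [← mul_sub, cs, show π - (π - β) = β by ring] at p4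
  refine ⟨ha, hb, ?_, ?_, ?_, by linarith, p2, by linarith, p4⟩
  · have h := L.h3a w v c g hvw.symm hvc hcg hwc hgv.symm
    rw [ew, e1, norm_neg] at h
    have := cancel_sq hD h
    rwa [eF, norm_polar ha] at this
  · have h := L.h3b w v c g hvw.symm hvc hcg hwc hgv.symm
    rw [ev, e1, norm_neg] at h
    have := cancel_sq hD h
    rwa [eF, norm_polar one_pos, one_pow] at this
  · have h := L.h3a g c v w hcg.symm hvc.symm hvw hgv hwc.symm
    rw [eg, norm_sub_rev (q g), e1, norm_neg] at h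
    have := cancel_sq hD h
    rwa [eF, norm_polar hb] at this

/-- the four further neighbours of `c`, sorted by angle -/
structure Star (G : SimpleGraph V) (q : V → ℂ) (v c : V) (g : Fin 4 → V) (b ψ : Fin 4 → ℝ) :
    Prop where
  adj : ∀ i, G.Adj c (g i)
  ne : ∀ i, g i ≠ v
  inj : Function.Injective g
  pos : ∀ i, 0 < b i
  eq : ∀ i, q (g i) - q c = (q c - q v) * (b i * E (ψ i))
  lo : -(2 * π / 3) ≤ ψ 0
  hi : ψ 3 ≤ 2 * π / 3
  g0 : π / 3 ≤ ψ 1 - ψ 0
  g1 : π / 3 ≤ ψ 2 - ψ 1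
  g2 : π / 3 ≤ ψ 3 - ψ 2
  pr : ∀ i j, i ≠ j → 2 * b i * cos (ψ j - ψ i) ≤ b j
  par : ∀ i, 2 * cos (π - ψ i) ≤ b i

lemma star (L : Loc G q) {v c : V} (hvc : G.Adj v c) (k : Fin 4 → V) (hk : Function.Injective k)
    (hadj : ∀ i, G.Adj c (k i)) (hne : ∀ i, k i ≠ v) :
    ∃ (σ : Equiv.Perm (Fin 4)) (b ψ : Fin 4 → ℝ), Star G q v c (k ∘ σ) b ψ := by
  have hD : q c - q v ≠ 0 := sub_ne_zero.2 fun h => hvc.ne (L.inj h).symm
  set D := q c - q v with hDdef
  let z : Fin 4 → ℂ := fun i => (q (k i) - q c) / D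
  have hz : ∀ i, z i ≠ 0 := fun i =>
    div_ne_zero (sub_ne_zero.2 fun h => (hadj i).ne (L.inj h).symm) hD
  let σ := Tuple.sort (fun i => Complex.arg (z i))
  have hm : Monotone ((fun i => Complex.arg (z i)) ∘ σ) := Tuple.monotone_sort _
  let b : Fin 4 → ℝ := fun i => ‖z (σ i)‖
  let ψ : Fin 4 → ℝ := fun i => Complex.arg (z (σ i))
  have pos : ∀ i, 0 < b i := fun i => norm_pos_iff.2 (hz _)
  have eq : ∀ i, q ((k ∘ σ) i) - q c = D * (b i * E (ψ i)) := by
    intro i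
    have : (b i : ℂ) * E (ψ i) = z (σ i) := Complex.norm_mul_exp_arg_mul_I _
    rw [this]; simp only [z, Function.comp]; field_simp
  have inj : Function.Injective (k ∘ σ) := hk.comp σ.injective
  have pr : ∀ i j, i ≠ j → 2 * b i * cos (ψ j - ψ i) ≤ b j := fun i j h =>
    pair L hD (pos i) (pos j) (hadj _) (hadj _) (fun e => h (inj e)) (eq i) (eq j)
  have ev : q v - q c = D * ((1 : ℝ) * E π) := by rw [E_pi]; simp [hDdef]
  have par : ∀ i, 2 * cos (π - ψ i) ≤ b i := by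
    intro i
    have := pair L hD one_pos (pos i) hvc.symm (hadj _) (hne _).symm ev (eq i)
    rw [← cos_neg, neg_sub] at this
    linarith
  have par2 : ∀ i, 2 * b i * cos (π - ψ i) ≤ 1 := fun i =>
    pair L hD (pos i) one_pos (hadj _) hvc.symm (hne _) (eq i) ev
  have gap : ∀ i j, i < j → π / 3 ≤ ψ j - ψ i := by
    intro i j h
    have hm' : ψ i ≤ ψ j := hm h.le
    apply ge_third (sub_nonneg.2 hm')
    have p1 := pr i j h.ne
    have p2 := pr j i h.ne'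
    rw [← cos_neg, neg_sub] at p2
    by_contra hc
    push Not at hc
    nlinarith [mul_lt_mul_of_pos_left hc (pos i), mul_lt_mul_of_pos_left hc (pos j)]
  refine ⟨σ, b, ψ, fun i => hadj _, fun i => hne _, inj, pos, eq, ?_, ?_, gap 0 1 (by decide),
    gap 1 2 (by decide), gap 2 3 (by decide), pr, par⟩
  · have h := cos_le_half (pos 0) (par 0) (par2 0)
    have e : cos (π - ψ 0) = cos (π + ψ 0) := by rw [cos_pi_sub, add_comm, cos_add_pi]
    rw [e] at h
    have := ge_third (by have := Complex.neg_pi_lt_arg (z (σ 0)); simp only [ψ]; linarith) h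
    linarith
  · have h := cos_le_half (pos 3) (par 3) (par2 3)
    have := ge_third (by have := Complex.arg_le_pi (z (σ 3)); simp only [ψ]; linarith) h
    linarith

section
variable {v c : V} {g : Fin 4 → V} {b ψ : Fin 4 → ℝ}

lemma Star.sib (S : Star G q v c g b ψ) {i j : Fin 4} (h : i ≠ j) {s α : ℝ}
    (e : s * α = ψ j - ψ i) : Side G q c (g i) s (b j / b i) α := by
  refine ⟨g j, S.adj j, fun e => h (S.inj e).symm, div_pos (S.pos j) (S.pos i), ?_⟩
  have hb : (b i : ℂ) ≠ 0 := by exact_mod_cast (S.pos i).ne'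
  have : E (ψ j) = E (ψ i) * E (s * α) := by rw [← E_add, e]; congr 1; ring
  rw [S.eq j, S.eq i, this]; push_cast; field_simp

lemma Star.parent (S : Star G q v c g b ψ) (hvc : G.Adj v c) (i : Fin 4) {s α : ℝ}
    (e : s * α = π - ψ i ∨ s * α = -π - ψ i) : Side G q c (g i) s (1 / b i) α := by
  refine ⟨v, hvc.symm, (S.ne i).symm, div_pos one_pos (S.pos i), ?_⟩
  have hb : (b i : ℂ) ≠ 0 := by exact_mod_cast (S.pos i).ne'
  have : E (ψ i) * E (s * α) = -1 := by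
    rw [← E_add]
    rcases e with e | e <;> rw [e]
    · rw [← E_pi]; congr 1; ring
    · rw [← E_neg_pi]; congr 1; ring
  rw [S.eq i]; push_cast
  have e2 : (q c - q v) * (b i * E (ψ i)) * (1 / b i * E (s * α)) =
      (q c - q v) * (E (ψ i) * E (s * α)) := by field_simp
  rw [e2, this]; ring

lemma Star.back (S : Star G q v c g b ψ) (i : Fin 4) {s α : ℝ}
    (e : s * α = π + ψ i ∨ s * α = -π + ψ i) : Side G q c v s (b i) α := by
  refine ⟨g i, S.adj i, S.ne i, S.pos i, ?_⟩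
  have : E (s * α) = - E (ψ i) := by
    rcases e with e | e <;> rw [e, E_add]
    · rw [E_pi]; ring
    · rw [E_neg_pi]; ring
  rw [S.eq i, this]; ring

lemma Star.quadL (S : Star G q v c g b ψ) (L : Loc G q) (hvc : G.Adj v c) {a α : ℝ}
    (T : Side G q v c 1 a α) : Quad a α (b 3) (π - ψ 3) :=
  quad L (Or.inl rfl) hvc T (S.adj 3) (S.ne 3) (S.pos 3) (by rw [S.eq 3]; congr 3; ring)

lemma Star.quadR (S : Star G q v c g b ψ) (L : Loc G q) (hvc : G.Adj v c) {a α : ℝ}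
    (T : Side G q v c (-1) a α) : Quad a α (b 0) (π + ψ 0) :=
  quad L (Or.inr rfl) hvc T (S.adj 0) (S.ne 0) (S.pos 0) (by rw [S.eq 0]; congr 3; ring)

end

def Good (G : SimpleGraph V) (q : V → ℂ) (v c : V) (σ : ℝ) : Prop :=
  ∃ aL αL aR αR : ℝ, Side G q v c 1 aL αL ∧ Side G q v c (-1) aR αR ∧ π / 3 ≤ αL ∧
    αL ≤ 4 * π / 9 ∧ π / 3 ≤ αR ∧ αR ≤ 4 * π / 9 ∧ αL + αR ≤ 2 * π / 3 + σ

def Tight (G : SimpleGraph V) (q : V → ℂ) (v c : V) (t : ℝ) : Prop :=
  ∃ aL αL σL aR αR σR : ℝ, Side G q v c 1 aL αL ∧ Side G q v c (-1) aR αR ∧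
    Ty aL αL σL t ∧ Ty aR αR σR t ∧ σL + σR ≤ t

lemma Good.tight {v c : V} {σ t : ℝ} (h : Good G q v c σ) (ht : σ ≤ t) : Tight G q v c t := by
  obtain ⟨aL, αL, aR, αR, S1, S2, h1, -, h2, -, h3⟩ := h
  exact ⟨aL, αL, _, aR, αR, _, S1, S2, tyS h1, tyS h2, by linarith⟩

lemma root (L : Loc G q) {u r : V} (hur : G.Adj u r) (k : Fin 4 → V) (hk : Function.Injective k)
    (hadj : ∀ i, G.Adj r (k i)) (hne : ∀ i, k i ≠ u) :
    Good G q r u (2 * π / 9) ∨ ∃ i, Good G q r (k i) (2 * π / 9) := by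
  obtain ⟨σ, b, ψ, S⟩ := star L hur k hk hadj hne
  have hp := pi_pos
  have lo := S.lo
  have hi := S.hi
  have g0 := S.g0
  have g1 := S.g1
  have g2 := S.g2
  by_cases c0 : π + ψ 0 ≤ 4 * π / 9 ∧ π - ψ 3 ≤ 4 * π / 9
  · exact Or.inl ⟨_, π + ψ 0, _, π - ψ 3, S.back 0 (Or.inl (by ring)), S.back 3 (Or.inr (by ring)),
      by linarith, c0.1, by linarith, c0.2, by linarith [c0.1, c0.2]⟩
  right
  by_cases c1 : π + ψ 0 ≤ 4 * π / 9 ∧ ψ 1 - ψ 0 ≤ 4 * π / 9
  · exact ⟨σ 0, _, ψ 1 - ψ 0, _, π + ψ 0, S.sib (i := 0) (j := 1) (by decide) (by ring),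
      S.parent hur 0 (Or.inr (by ring)), g0, c1.2, by linarith, c1.1, by linarith [c1.1, c1.2]⟩
  by_cases c2 : ψ 1 - ψ 0 ≤ 4 * π / 9 ∧ ψ 2 - ψ 1 ≤ 4 * π / 9
  · exact ⟨σ 1, _, ψ 2 - ψ 1, _, ψ 1 - ψ 0, S.sib (i := 1) (j := 2) (by decide) (by ring),
      S.sib (i := 1) (j := 0) (by decide) (by ring), g1, c2.2, g0, c2.1, by linarith [c2.1, c2.2]⟩
  by_cases c3 : ψ 2 - ψ 1 ≤ 4 * π / 9 ∧ ψ 3 - ψ 2 ≤ 4 * π / 9
  · exact ⟨σ 2, _, ψ 3 - ψ 2, _, ψ 2 - ψ 1, S.sib (i := 2) (j := 3) (by decide) (by ring),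
      S.sib (i := 2) (j := 1) (by decide) (by ring), g2, c3.2, g1, c3.1, by linarith [c3.1, c3.2]⟩
  by_cases c4 : ψ 3 - ψ 2 ≤ 4 * π / 9 ∧ π - ψ 3 ≤ 4 * π / 9
  · exact ⟨σ 3, _, π - ψ 3, _, ψ 3 - ψ 2, S.parent hur 3 (Or.inl (by ring)),
      S.sib (i := 3) (j := 2) (by decide) (by ring), by linarith, c4.2, g2, c4.1,
      by linarith [c4.1, c4.2]⟩
  exfalso
  simp only [not_and_or, not_le] at c0 c1 c2 c3 c4
  rcases c0 with c0 | c0 <;> rcases c1 with c1 | c1 <;> rcases c2 with c2 | c2 <;>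
    rcases c3 with c3 | c3 <;> rcases c4 with c4 | c4 <;> linarith

lemma halve (L : Loc G q) {v c : V} (hvc : G.Adj v c) (k : Fin 4 → V) (hk : Function.Injective k)
    (hadj : ∀ i, G.Adj c (k i)) (hne : ∀ i, k i ≠ v) {σ : ℝ} (hσ : σ ≤ 2 * π / 9)
    (h : Good G q v c σ) : ∃ i, Good G q c (k i) (σ / 2) := by
  obtain ⟨τ, b, ψ, S⟩ := star L hvc k hk hadj hne
  obtain ⟨aL, αL, aR, αR, S1, S2, h1, h1', h2, h2', h3⟩ := h
  have hp := pi_pos
  have lo := S.lo
  have hi := S.hi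
  have g0 := S.g0
  have g1 := S.g1
  have g2 := S.g2
  have q1 := lemmaQ (S.quadL L hvc S1) (by linarith) h1' (by linarith)
  have q2 := lemmaQ (S.quadR L hvc S2) (by linarith) h2' (by linarith)
  exact ⟨τ 1, _, ψ 2 - ψ 1, _, ψ 1 - ψ 0, S.sib (i := 1) (j := 2) (by decide) (by ring),
      S.sib (i := 1) (j := 0) (by decide) (by ring), g1, by linarith, g0, by linarith, by linarith⟩

lemma step (L : Loc G q) {v c : V} (hvc : G.Adj v c) (k : Fin 4 → V) (hk : Function.Injective k)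
    (hadj : ∀ i, G.Adj c (k i)) (hne : ∀ i, k i ≠ v) {t : ℝ} (ht0 : 0 < t) (ht : t ≤ 1 / 100)
    (h : Tight G q v c t) (i : Fin 4) :
    Tight G q c (k i) (0.9 * t) ∧ ‖q (k i) - q c‖ ≤ t * ‖q c - q v‖ := by
  obtain ⟨τ, b, ψ, S⟩ := star L hvc k hk hadj hne
  obtain ⟨aL, αL, σL, aR, αR, σR, S1, S2, T1, T2, h3⟩ := h
  have hp := pi_gt_three
  have lo := S.lo
  have hi := S.hi
  have g0 := S.g0
  have g1 := S.g1
  have g2 := S.g2
  have hL := T1.1
  have hR := T2.1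
  have Q1 := S.quadL L hvc S1
  have Q2 := S.quadR L hvc S2
  have a1 := angle_lb Q1 T1 (by linarith) ht0 ht (by linarith) (by linarith)
  have a2 := angle_lb Q2 T2 (by linarith) ht0 ht (by linarith) (by linarith)
  have l1 := len_ub Q1 T1 (by linarith) ht a1 (by linarith)
  have l2 := len_ub Q2 T2 (by linarith) ht a2 (by linarith)
  have up : ∀ i j : Fin 4, i ≠ j → π / 3 ≤ ψ j - ψ i → ψ j - ψ i ≤ π / 3 + 4 * t →
      b i ≤ 1.087 * b j ∧ b j ≤ 1.087 * b i := by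
    intro i j hij x y
    refine ⟨ratio (S.pos i) (S.pr i j hij) x y ht, ratio (S.pos j) ?_ x y ht⟩
    have := S.pr j i hij.symm
    rwa [← cos_neg, neg_sub] at this
  obtain ⟨r01, r10⟩ := up 0 1 (by decide) g0 (by linarith)
  obtain ⟨r12, r21⟩ := up 1 2 (by decide) g1 (by linarith)
  obtain ⟨r23, r32⟩ := up 2 3 (by decide) g2 (by linarith)
  have hb : ∀ j, b j ≤ 0.84 * t := by
    have : b 0 ≤ 0.84 * t ∧ b 1 ≤ 0.84 * t ∧ b 2 ≤ 0.84 * t ∧ b 3 ≤ 0.84 * t := by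
      rcases le_total σL σR with x | x
      · refine ⟨by linarith, by linarith, by linarith, by linarith⟩
      · refine ⟨by linarith, by linarith, by linarith, by linarith⟩
    intro j
    fin_cases j
    exacts [this.1, this.2.1, this.2.2.1, this.2.2.2]
  have n1 : π / 2 - 0.43 * t ≤ π - ψ 3 :=
    ge_of_cos_le (c := b 3 / 2) (by linarith) (by linarith) (by linarith) (by linarith [Q1.b1])
      (by linarith [hb 3])
  have n2 : π / 2 - 0.43 * t ≤ π + ψ 0 :=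
    ge_of_cos_le (c := b 0 / 2) (by linarith) (by linarith) (by linarith) (by linarith [Q2.b1])
      (by linarith [hb 0])
  have all : ∀ j, Tight G q c ((k ∘ τ) j) (0.9 * t) := by
    have f0 : Tight G q c ((k ∘ τ) 0) (0.9 * t) :=
      ⟨_, ψ 1 - ψ 0, _, _, π + ψ 0, _, S.sib (i := 0) (j := 1) (by decide) (by ring),
        S.parent hvc 0 (Or.inr (by ring)), tyS g0,
        tyP (η := 0.43 * t) (S.pos 0) (by linarith) (by linarith) (by linarith [hb 0])
          (by linarith [hb 0]) (by linarith) n2 (by linarith), by linarith⟩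
    have f1 : Tight G q c ((k ∘ τ) 1) (0.9 * t) :=
      ⟨_, ψ 2 - ψ 1, _, _, ψ 1 - ψ 0, _, S.sib (i := 1) (j := 2) (by decide) (by ring),
        S.sib (i := 1) (j := 0) (by decide) (by ring), tyS g1, tyS g0, by linarith⟩
    have f2 : Tight G q c ((k ∘ τ) 2) (0.9 * t) :=
      ⟨_, ψ 3 - ψ 2, _, _, ψ 2 - ψ 1, _, S.sib (i := 2) (j := 3) (by decide) (by ring),
        S.sib (i := 2) (j := 1) (by decide) (by ring), tyS g2, tyS g1, by linarith⟩
    have f3 : Tight G q c ((k ∘ τ) 3) (0.9 * t) :=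
      ⟨_, π - ψ 3, _, _, ψ 3 - ψ 2, _, S.parent hvc 3 (Or.inl (by ring)),
        S.sib (i := 3) (j := 2) (by decide) (by ring),
        tyP (η := 0.43 * t) (S.pos 3) (by linarith) (by linarith) (by linarith [hb 3])
          (by linarith [hb 3]) (by linarith) n1 (by linarith), tyS g2, by linarith⟩
    intro j
    fin_cases j
    exacts [f0, f1, f2, f3]
  have e : k i = (k ∘ τ) (τ.symm i) := by simp
  rw [e]
  refine ⟨all _, ?_⟩
  rw [S.eq, norm_mul, norm_polar (S.pos _), mul_comm]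
  exact mul_le_mul_of_nonneg_right (by linarith [hb (τ.symm i)]) (norm_nonneg _)

end Pool.Agent.H26.MST
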