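import Mathlib
import Pool.Agent.H26.MST2

/-! The exchange property, and the explicit trees. -/

namespace Pool.Agent.H26.MST

open Real SimpleGraph

/-- exchange step for minimum spanning trees -/
lemma exchange {V : Type*} [Fintype V] [DecidableEq V] {T : SimpleGraph V} (hT : T.IsTree)
    {a b x y : V} (hab : T.Adj a b)
    (hx : (T.deleteEdges {s(a, b)}).Reachable x a) (hy : (T.deleteEdges {s(a, b)}).Reachable y b)
    (hne : s(x, y) ≠ s(a, b)) :
    ∃ T' : SimpleGraph V, T'.IsTree ∧ s(x, y) ∉ T.edgeSet ∧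
      T'.edgeSet = insert s(x, y) (T.edgeSet \ {s(a, b)}) := by
  set D := T.deleteEdges {s(a, b)} with hD
  have hbr : ¬ D.Reachable a b := by
    have := (isAcyclic_iff_forall_adj_isBridge.1 hT.isAcyclic) hab
    rw [isBridge_iff] at this
    exact this
  have hxy : x ≠ y := by
    rintro rfl
    exact hbr (hx.symm.trans hy)
  have hnot : s(x, y) ∉ T.edgeSet := by
    intro h
    have : D.Adj x y := by
      rw [hD, deleteEdges_adj]
      exact ⟨h, by simpa using hne⟩
    exact hbr (hx.symm.trans (this.reachable.trans hy))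
  have hE : (D ⊔ edge x y).edgeSet = insert s(x, y) (T.edgeSet \ {s(a, b)}) := by
    rw [edgeSet_sup, hD, edgeSet_deleteEdges, edgeSet_edge_of_ne hxy, Set.union_comm]
    rfl
  refine ⟨D ⊔ edge x y, ?_, hnot, hE⟩
  rw [isTree_iff_connected_and_card]
  have hle : D ≤ D ⊔ edge x y := le_sup_left
  have hxy' : (D ⊔ edge x y).Adj x y := Or.inr ((edge_adj _ _ _ _).2 ⟨Or.inl ⟨rfl, rfl⟩, hxy⟩)
  have hab' : (D ⊔ edge x y).Reachable a b :=
    (hx.mono hle).symm.trans (hxy'.reachable.trans (hy.mono hle))
  constructor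
  · have hc := hT.connected
    haveI := hc.nonempty
    refine ⟨fun u v => ?_⟩
    obtain ⟨w⟩ := hc.preconnected u v
    induction w with
    | nil => rfl
    | @cons u u' v h _ ih =>
      refine Reachable.trans ?_ ih
      by_cases e : s(u, u') = s(a, b)
      · rcases Sym2.eq_iff.1 e with ⟨rfl, rfl⟩ | ⟨rfl, rfl⟩
        · exact hab'
        · exact hab'.symm
      · have : D.Adj u u' := by
          rw [hD, deleteEdges_adj]
          exact ⟨h, by simpa using e⟩
        exact (hle this).reachable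
  · rw [← (isTree_iff_connected_and_card.1 hT).2, hE]
    simp only [Nat.card_coe_set_eq]
    rw [Set.ncard_insert_of_notMem (fun h => hnot h.1), Set.ncard_diff_singleton_add_one]
    exact hab

/-- the parent function -/
def par (A j : ℕ) : ℕ := if j < 4 * A + 2 then (j - 2) / 4 else j - (3 * A + 2) - (j + 2) % 4

/-- first child -/
def base (A i : ℕ) : ℕ := if i < A then 4 * i + 2 else i + (3 * A + 2)

lemma par_lt (A : ℕ) {j : ℕ} (hj : j ≠ 0) : par A j < j := by
  unfold par; split_ifs <;> omega

lemma par_base {A i r : ℕ} (hA : A % 4 = 2) (hi : i < A ∨ i % 4 = 2) (hr : r < 4) :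
    par A (base A i + r) = i := by
  unfold par base; split_ifs <;> omega

lemma of_par {A j : ℕ} (hA : A % 4 = 2) (hj : j ≠ 0) :
    (par A j = 0 ∧ j = 1) ∨ ∃ r < 4, j = base A (par A j) + r := by
  by_cases h1 : j = 1
  · left; subst h1; unfold par; split_ifs <;> omega
  · right
    refine ⟨(j + 2) % 4, by omega, ?_⟩
    unfold par base; split_ifs <;> omega

def tree (A n : ℕ) : SimpleGraph (Fin n) where
  Adj i j := (j.val ≠ 0 ∧ par A j = i) ∨ (i.val ≠ 0 ∧ par A i = j)
  symm := ⟨fun _ _ h => h.symm⟩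
  loopless := ⟨fun i h => by
    rcases h with ⟨h, e⟩ | ⟨h, e⟩ <;> · have := par_lt A h; omega⟩

lemma tree_isTree (A n : ℕ) (hn : 0 < n) : (tree A n).IsTree := by
  rw [isTree_iff_connected_and_card]
  constructor
  · haveI : Nonempty (Fin n) := ⟨⟨0, hn⟩⟩
    have key : ∀ m (v : Fin n), v.val = m → (tree A n).Reachable v ⟨0, hn⟩ := by
      intro m
      induction m using Nat.strong_induction_on with
      | _ m ih =>
        intro v hv
        by_cases h0 : v.val = 0
        · have : v = ⟨0, hn⟩ := Fin.ext h0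
          rw [this]
        · have hl := par_lt A h0
          have : (tree A n).Adj v ⟨par A v, by omega⟩ := Or.inr ⟨h0, rfl⟩
          exact this.reachable.trans (ih (par A v) (by omega) _ rfl)
    exact ⟨fun u v => (key _ u rfl).trans (key _ v rfl).symm⟩
  · let f : Fin n → Sym2 (Fin n) := fun j =>
      s(j, ⟨par A j, by
        by_cases h : j.val = 0
        · have : par A j = 0 := by unfold par; split_ifs <;> omega
          omega
        · have := par_lt A h; omega⟩)
    have hE : (tree A n).edgeSet = f '' {j | j ≠ ⟨0, hn⟩} := by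
      ext e
      induction e using Sym2.ind with
      | _ i j =>
        simp only [mem_edgeSet, Set.mem_image, Set.mem_setOf_eq, f]
        constructor
        · rintro (⟨h, e⟩ | ⟨h, e⟩)
          · exact ⟨j, fun x => h (by rw [x]), Sym2.eq_iff.2 (Or.inr ⟨rfl, Fin.ext e⟩)⟩
          · exact ⟨i, fun x => h (by rw [x]), Sym2.eq_iff.2 (Or.inl ⟨rfl, Fin.ext e⟩)⟩
        · rintro ⟨k, hk, e⟩
          have hk' : k.val ≠ 0 := fun x => hk (Fin.ext x)
          rcases Sym2.eq_iff.1 e with ⟨rfl, rfl⟩ | ⟨rfl, rfl⟩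
          · exact Or.inr ⟨hk', rfl⟩
          · exact Or.inl ⟨hk', rfl⟩
    have hinj : Set.InjOn f {j | j ≠ ⟨0, hn⟩} := by
      intro i hi j hj e
      have hi' : i.val ≠ 0 := fun x => hi (Fin.ext x)
      have hj' : j.val ≠ 0 := fun x => hj (Fin.ext x)
      rcases Sym2.eq_iff.1 e with ⟨h, -⟩ | ⟨h1, h2⟩
      · exact h
      · have a := congrArg Fin.val h1
        have b := congrArg Fin.val h2
        have := par_lt A hi'
        have := par_lt A hj'
        simp only at a b
        omega
    rw [hE, Nat.card_coe_set_eq, hinj.ncard_image]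
    have : {j : Fin n | j ≠ ⟨0, hn⟩} = Set.univ \ {⟨0, hn⟩} := by ext; simp
    rw [this, Set.ncard_diff_singleton_add_one (Set.mem_univ _), Set.ncard_univ]

lemma tree_deg {A n : ℕ} (hA : A % 4 = 2) (v : Fin n) : ((tree A n).neighborSet v).ncard ≤ 5 := by
  let s : Finset ℕ := {if v.val = 0 then 1 else par A v, base A v, base A v + 1, base A v + 2,
    base A v + 3}
  have h5 : s.card ≤ 5 := Finset.card_le_five
  refine le_trans ?_ h5
  rw [← Set.ncard_coe_finset]
  refine Set.ncard_le_ncard_of_injOn Fin.val ?_ Fin.val_injective.injOn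
  intro j hj
  simp only [s, Finset.coe_insert, Finset.coe_singleton, Set.mem_insert_iff, Set.mem_singleton_iff]
  rcases hj with ⟨h, e⟩ | ⟨h, e⟩
  · rcases of_par hA h with ⟨h1, h2⟩ | ⟨r, hr, h2⟩
    · left; rw [if_pos (by omega)]; exact h2
    · right; rw [e] at h2; omega
  · left; rw [if_neg h]; exact e.symm

/-- the four children of an internal vertex -/
lemma kids {A n : ℕ} (hA : A % 4 = 2) (c : Fin n) (hc : c.val < A ∨ c.val % 4 = 2)
    (hn : base A c + 3 < n) : ∃ k : Fin 4 → Fin n, Function.Injective k ∧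
      (∀ i, (tree A n).Adj c (k i)) ∧ ∀ i, (k i).val = base A c + i := by
  refine ⟨fun i => ⟨base A c + i, by omega⟩, fun i j h => ?_, fun i => ?_, fun i => rfl⟩
  · have := congrArg Fin.val h
    simp only at this
    exact Fin.ext (by omega)
  · refine Or.inl ⟨?_, par_base hA hc i.2⟩
    simp only [base]; split_ifs <;> omega

def AA : ℕ := 4 ^ 10 + 2
def DD : ℕ := 3 * AA + 2

lemma phase1 {n : ℕ} (hn : DD + DD ≤ n) {q : Fin n → ℂ} (L : Loc (tree AA n) q) (d : ℕ)
    (hd : d ≤ 7) : ∃ v c : Fin n, (tree AA n).Adj v c ∧ v.val < c.val ∧ c.val + 2 ≤ 7 * 4 ^ d ∧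
      Good (tree AA n) q v c (2 * π / 9 / 2 ^ d) := by
  have hA : AA % 4 = 2 := by decide
  have hA' : AA = 1048578 := by decide
  have hD : DD = 3145736 := by decide
  induction d with
  | zero =>
    have b0 : base AA 0 = 2 := by decide
    let r : Fin n := ⟨0, by omega⟩
    let u : Fin n := ⟨1, by omega⟩
    have hru : (tree AA n).Adj r u := Or.inl ⟨by simp [u], show par AA 1 = 0 by decide⟩
    obtain ⟨k, hk, hadj, hv⟩ := kids hA r (Or.inl (by simp [r, hA'])) (by simp only [r, b0]; omega)
    simp only [r, b0] at hv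
    rcases root L hru.symm k hk hadj (fun i h => by
      have := hv i; rw [h] at this; simp only [u] at this; omega) with h | ⟨i, h⟩
    · exact ⟨r, u, hru, by simp [r, u], by simp [u], by simpa using h⟩
    · exact ⟨r, k i, hadj i, by rw [hv]; simp [r], by rw [hv]; omega, by simpa using h⟩
  | succ d ih =>
    obtain ⟨v, c, hvc, hlt, hc, hg⟩ := ih (by omega)
    have p : 4 ^ d ≤ 4 ^ 6 := Nat.pow_le_pow_right (by norm_num) (by omega)
    have hcA : c.val < AA := by omega
    have hb : base AA c = 4 * c + 2 := by simp [base, hcA]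
    obtain ⟨k, hk, hadj, hv⟩ := kids hA c (Or.inl hcA) (by omega)
    obtain ⟨i, hi⟩ := halve L hvc k hk hadj (fun i h => by have := hv i; rw [h] at this; omega)
      (div_le_self (by positivity) (one_le_pow₀ (by norm_num))) hg
    refine ⟨c, k i, hadj i, by rw [hv]; omega, by rw [hv, pow_succ]; omega, ?_⟩
    rwa [pow_succ, ← div_div]

def tri : ℕ → ℕ
  | 0 => 0
  | k + 1 => tri k + k

lemma tri_eq (k : ℕ) : (2 * tri k : ℝ) = k * (k - 1) := by
  induction k with
  | zero => simp [tri]
  | succ k ih => simp only [tri]; push_cast; linarith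

lemma phase2 {n : ℕ} {q : Fin n → ℂ} (L : Loc (tree AA n) q) {M : ℝ}
    (hM : ∀ x y, ‖q x - q y‖ ≤ M) (m : ℕ) (hn : (m + 2) * DD ≤ n) :
    ∃ v c : Fin n, (tree AA n).Adj v c ∧ v.val < c.val ∧ (c.val < AA ∨ c.val % 4 = 2) ∧
      c.val ≤ AA + m * DD ∧ Tight (tree AA n) q v c (1 / 100 * 0.9 ^ m) ∧
      ‖q c - q v‖ ≤ M * 0.9 ^ tri m := by
  have hA : AA % 4 = 2 := by decide
  have hA' : AA = 1048578 := by decide
  have hD : DD = 3145736 := by decide
  induction m with
  | zero =>
    obtain ⟨v, c, hvc, hlt, hc, hg⟩ := phase1 (by omega) L 7 le_rfl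
    refine ⟨v, c, hvc, hlt, Or.inl (by omega), by omega, hg.tight ?_, by simpa [tri] using hM c v⟩
    have := pi_lt_four
    norm_num
    linarith
  | succ m ih =>
    obtain ⟨v, c, hvc, hlt, hc, hb, ht, hl⟩ := ih (by nlinarith)
    have hb1 : base AA c ≤ c + DD := by unfold base; split_ifs <;> omega
    have hb2 : c.val < base AA c := by unfold base; split_ifs <;> omega
    have hb3 : base AA c % 4 = 2 := by unfold base; split_ifs <;> omega
    obtain ⟨k, hk, hadj, hv⟩ := kids hA c hc (by nlinarith)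
    have p1 : (0.9 : ℝ) ^ m ≤ 1 := pow_le_one₀ (by norm_num) (by norm_num)
    have p0 : (0 : ℝ) < 0.9 ^ m := by positivity
    obtain ⟨s1, s2⟩ := step L hvc k hk hadj (fun i h => by have := hv i; rw [h] at this; omega)
      (by positivity) (by linarith) ht 0
    have e := hv 0
    simp only [Fin.val_zero, add_zero] at e
    refine ⟨c, k 0, hadj 0, by omega, Or.inr (by omega), by nlinarith, ?_, ?_⟩
    · convert s1 using 1; ring
    · refine s2.trans ?_
      simp only [tri, pow_add]
      have := norm_nonneg (q c - q v)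
      nlinarith [mul_le_mul_of_nonneg_left hl p0.le]

end Pool.Agent.H26.MST
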