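import Mathlib
import Pool.Agent.H26.MST3

/-! Rooting a tree at a centre; minimality from the cut property. -/

namespace Pool.Agent.H26.MST

open SimpleGraph

variable {V : Type*}

lemma mid {T : SimpleGraph V} (hc : T.Connected) (u v : V) (i : ℕ) (hi : i ≤ T.dist u v) :
    ∃ z, T.dist u z = i ∧ T.dist z v + i = T.dist u v := by
  obtain ⟨p, hp⟩ := hc.exists_walk_length_eq_dist u v
  have h1 := dist_le (p.take i)
  have h2 := dist_le (p.drop i)
  rw [Walk.take_length] at h1
  rw [Walk.drop_length] at h2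
  have h3 := hc.dist_triangle (u := u) (v := p.getVert i) (w := v)
  refine ⟨p.getVert i, ?_, ?_⟩ <;> omega

lemma centre [Fintype V] {T : SimpleGraph V} (hT : T.IsTree) :
    ∃ r, ∀ v, 2 * T.dist r v ≤ Fintype.card V := by
  classical
  have hc := hT.connected
  haveI := hc.nonempty
  let f : V → ℕ := fun r => Finset.univ.sup (T.dist r)
  obtain ⟨r, -, hr⟩ := Finset.exists_min_image Finset.univ f Finset.univ_nonempty
  obtain ⟨x, -, hx⟩ := Finset.exists_mem_eq_sup Finset.univ Finset.univ_nonempty (T.dist r)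
  have hle : ∀ v, T.dist r v ≤ T.dist r x := fun v => by
    rw [← hx]; exact Finset.le_sup (f := T.dist r) (Finset.mem_univ v)
  refine ⟨r, fun v => le_trans (Nat.mul_le_mul_left 2 (hle v)) ?_⟩
  set e := T.dist r x with he
  rcases Nat.eq_zero_or_pos e with h0 | h0
  · omega
  obtain ⟨r', h1, h2⟩ := mid hc r x 1 h0
  have hadj : T.Adj r r' := dist_eq_one_iff_adj.1 h1
  obtain ⟨y, -, hy⟩ := Finset.exists_mem_eq_sup Finset.univ Finset.univ_nonempty (T.dist r')
  have h3 : e ≤ T.dist r' y := by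
    have := hr r' (Finset.mem_univ _)
    simp only [f] at this
    omega
  have h4 := hT.dist_eq_dist_add_one_of_adj y hadj
  rw [dist_comm (u := y), dist_comm (u := y)] at h4
  have h5 := hle y
  have h6 : T.dist r' y = T.dist r y + 1 := by omega
  have hA : ∀ i : Fin e, ∃ z, T.dist r' z = i ∧ i + 1 ≤ T.dist r z := by
    intro i
    obtain ⟨z, a, b⟩ := mid hc r' x i (by omega)
    have := hc.dist_triangle (u := r) (v := z) (w := x)
    exact ⟨z, a, by omega⟩
  have hB : ∀ i : Fin e, ∃ z, T.dist r z = i ∧ i + 1 ≤ T.dist r' z := by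
    intro i
    obtain ⟨z, a, b⟩ := mid hc r y i (by omega)
    have := hc.dist_triangle (u := r') (v := z) (w := y)
    exact ⟨z, a, by omega⟩
  choose zA hA1 hA2 using hA
  choose zB hB1 hB2 using hB
  have inj : Function.Injective (Sum.elim zA zB) := by
    rintro (i | i) (j | j) h <;> simp only [Sum.elim_inl, Sum.elim_inr] at h
    · have a := hA1 i; have b := hA1 j; rw [h] at a; congr 1; exact Fin.ext (by omega)
    · have a := hA1 i; have a' := hA2 i; have b := hB1 j; have b' := hB2 j
      rw [h] at a a'; omega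
    · have a := hB1 i; have a' := hB2 i; have b := hA1 j; have b' := hA2 j
      rw [h] at a a'; omega
    · have a := hB1 i; have b := hB1 j; rw [h] at a; congr 1; exact Fin.ext (by omega)
  have := Fintype.card_le_of_injective _ inj
  simp at this
  omega

structure Rooted (T : SimpleGraph V) (r : V) (pa : V → V) (dep : V → ℕ) : Prop where
  root : dep r = 0
  zero : ∀ v, dep v = 0 → v = r
  adj : ∀ v, v ≠ r → T.Adj v (pa v)
  dpa : ∀ v, v ≠ r → dep (pa v) + 1 = dep v
  edge : ∀ x y, T.Adj x y → (x ≠ r ∧ y = pa x) ∨ (y ≠ r ∧ x = pa y)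

lemma rooted {T : SimpleGraph V} (hT : T.IsTree) (r : V) : ∃ pa, Rooted T r pa (T.dist r) := by
  have hc := hT.connected
  have ex : ∀ v, ∃ w, v ≠ r → T.Adj v w ∧ T.dist r w + 1 = T.dist r v := by
    intro v
    by_cases h : v = r
    · exact ⟨v, fun h' => (h' h).elim⟩
    · have hp := hc.pos_dist_of_ne (Ne.symm h)
      obtain ⟨z, a, b⟩ := mid hc r v (T.dist r v - 1) (by omega)
      have : T.dist z v = 1 := by omega
      exact ⟨z, fun _ => ⟨(dist_eq_one_iff_adj.1 this).symm, by omega⟩⟩
  choose pa hpa using ex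
  have uniq : ∀ x y, T.Adj x y → T.dist r y + 1 = T.dist r x → x ≠ r ∧ y = pa x := by
    intro x y h hd
    have hx : x ≠ r := by
      rintro rfl
      rw [dist_self] at hd; omega
    obtain ⟨h', hd'⟩ := hpa x hx
    obtain ⟨p, hp⟩ := hc.exists_walk_length_eq_dist r y
    obtain ⟨p', hp'⟩ := hc.exists_walk_length_eq_dist r (pa x)
    have q1 := (p.concat h.symm).isPath_of_length_eq_dist (by rw [Walk.length_concat]; omega)
    have q2 := (p'.concat h'.symm).isPath_of_length_eq_dist (by rw [Walk.length_concat]; omega)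
    have := (hT.existsUnique_path r x).unique q1 q2
    exact ⟨hx, (Walk.concat_inj this).1⟩
  refine ⟨pa, dist_self, fun v h => (hc.dist_eq_zero_iff.1 h).symm, fun v h => (hpa v h).1,
    fun v h => (hpa v h).2, fun x y h => ?_⟩
  rcases hT.dist_eq_dist_add_one_of_adj r h with e | e
  · exact Or.inl (uniq x y h e.symm)
  · exact Or.inr (uniq y x h.symm e.symm)

/-- `x` lies in the subtree of `b` -/
def Sub (pa : V → V) (dep : V → ℕ) (b x : V) : Prop := ∃ k, dep x = dep b + k ∧ pa^[k] x = b

section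
variable {T : SimpleGraph V} {r : V} {pa : V → V} {dep : V → ℕ}

lemma Sub.refl (b : V) : Sub pa dep b b := ⟨0, rfl, rfl⟩

lemma Rooted.dep_it (R : Rooted T r pa dep) (k : ℕ) (x : V) (h : k ≤ dep x) :
    dep (pa^[k] x) + k = dep x := by
  induction k with
  | zero => rfl
  | succ k ih =>
    have := ih (by omega)
    rw [Function.iterate_succ_apply']
    have h2 := R.dpa (pa^[k] x) (fun e => by rw [e, R.root] at this; omega)
    omega

lemma Rooted.sub_it (R : Rooted T r pa dep) (k : ℕ) (x : V) (h : k ≤ dep x) :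
    Sub pa dep (pa^[k] x) x := ⟨k, (R.dep_it k x h).symm, rfl⟩

lemma Rooted.sub_root (R : Rooted T r pa dep) (x : V) : Sub pa dep r x := by
  have := R.dep_it (dep x) x le_rfl
  have e := R.zero _ (by omega : dep (pa^[dep x] x) = 0)
  exact ⟨dep x, by rw [R.root]; simp, e⟩

lemma Sub.trans {a b c : V} (h1 : Sub pa dep a b) (h2 : Sub pa dep b c) : Sub pa dep a c := by
  obtain ⟨k, e1, f1⟩ := h1
  obtain ⟨l, e2, f2⟩ := h2
  exact ⟨k + l, by omega, by rw [Function.iterate_add_apply, f2, f1]⟩

/-- a proper descendant lies below a child -/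
lemma Rooted.child (R : Rooted T r pa dep) {z y : V} (h : Sub pa dep z y) (hne : y ≠ z) :
    ∃ c, c ≠ r ∧ pa c = z ∧ Sub pa dep c y := by
  obtain ⟨k, e, f⟩ := h
  cases k with
  | zero => exact (hne f).elim
  | succ k =>
    have := R.dep_it k y (by omega)
    refine ⟨pa^[k] y, fun e' => by rw [e', R.root] at this; omega, ?_, R.sub_it k y (by omega)⟩
    rwa [Function.iterate_succ_apply'] at f

lemma Rooted.sub_pa (R : Rooted T r pa dep) {c : V} (h : c ≠ r) : Sub pa dep (pa c) c :=
  ⟨1, (R.dpa c h).symm, rfl⟩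

lemma Rooted.not_sub (R : Rooted T r pa dep) {c : V} (h : c ≠ r) : ¬ Sub pa dep c (pa c) := by
  rintro ⟨k, e, -⟩
  have := R.dpa c h
  omega

/-- lowest common ancestor -/
lemma Rooted.lca (R : Rooted T r pa dep) {b x y : V} (hx : Sub pa dep b x) (hy : ¬ Sub pa dep b y) :
    ∃ c, c ≠ r ∧ Sub pa dep c b ∧ ¬ Sub pa dep c y ∧ Sub pa dep (pa c) y := by
  have key : ∀ m (b : V), dep b = m → ¬ Sub pa dep b y →
      ∃ c, c ≠ r ∧ Sub pa dep c b ∧ ¬ Sub pa dep c y ∧ Sub pa dep (pa c) y := by
    intro m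
    induction m with
    | zero => intro b h hy; rw [R.zero b h] at hy; exact (hy (R.sub_root y)).elim
    | succ m ih =>
      intro b h hy
      have hb : b ≠ r := fun e => by rw [e, R.root] at h; omega
      by_cases h2 : Sub pa dep (pa b) y
      · exact ⟨b, hb, Sub.refl b, hy, h2⟩
      · obtain ⟨c, c1, c2, c3, c4⟩ := ih (pa b) (by have := R.dpa b hb; omega) h2
        exact ⟨c, c1, c2.trans (R.sub_pa hb), c3, c4⟩
  exact key _ b rfl hy

lemma Rooted.cross (R : Rooted T r pa dep) {b x y : V} (hx : Sub pa dep b x)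
    (hy : ¬ Sub pa dep b y) (h : T.Adj x y) : x = b ∧ y = pa b := by
  rcases R.edge x y h with ⟨h1, h2⟩ | ⟨h1, h2⟩
  · by_cases e : x = b
    · exact ⟨e, by rw [h2, e]⟩
    · exfalso
      obtain ⟨k, e1, f⟩ := hx
      cases k with
      | zero => exact e f
      | succ k =>
        apply hy
        have := R.dpa x h1
        exact ⟨k, by rw [h2]; omega, by rw [h2]; exact f⟩
  · exact (hy (hx.trans (by rw [h2]; exact R.sub_pa h1))).elim

end

lemma walk_cross {G : SimpleGraph V} (P : V → Prop) {u v : V} (w : G.Walk u v) (hw : w.IsTrail)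
    (hu : P u) (hv : ¬ P v) : ∃ x y, G.Adj x y ∧ P x ∧ ¬ P y ∧ s(x, y) ∈ w.edges ∧
      (G.deleteEdges {s(x, y)}).Reachable u x ∧ (G.deleteEdges {s(x, y)}).Reachable v y := by
  induction w with
  | nil => exact (hv hu).elim
  | @cons u u' v h p ih =>
    rw [Walk.isTrail_cons] at hw
    by_cases h' : P u'
    · obtain ⟨x, y, a, b, c, d, e, f⟩ := ih hw.1 h' hv
      refine ⟨x, y, a, b, c, by simp [d], Reachable.trans (Adj.reachable ?_) e, f⟩
      rw [deleteEdges_adj]
      refine ⟨h, ?_⟩
      simp only [Set.mem_singleton_iff]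
      intro e'
      exact hw.2 (e' ▸ d)
    · refine ⟨u, u', h, hu, h', by simp, Reachable.refl _, Reachable.symm ⟨p.toDeleteEdges _ ?_⟩⟩
      intro e he
      simp only [Set.mem_singleton_iff]
      rintro rfl
      exact hw.2 he

open Classical in
lemma minimal [Fintype V] {T : SimpleGraph V} (hT : T.IsTree) {r : V} {pa : V → V} {dep : V → ℕ}
    (R : Rooted T r pa dep) (w : Sym2 V → ℝ)
    (hw : ∀ b x y, b ≠ r → Sub pa dep b x → ¬ Sub pa dep b y → w s(b, pa b) ≤ w s(x, y))
    (T' : SimpleGraph V) (hT' : T'.IsTree) :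
    ∑ e ∈ Finset.univ.filter (fun e => e ∈ T.edgeSet), w e ≤
      ∑ e ∈ Finset.univ.filter (fun e => e ∈ T'.edgeSet), w e := by
  have key : ∀ m (T' : SimpleGraph V), T'.IsTree → (T.edgeSet \ T'.edgeSet).ncard = m →
      ∑ e ∈ Finset.univ.filter (fun e => e ∈ T.edgeSet), w e ≤
        ∑ e ∈ Finset.univ.filter (fun e => e ∈ T'.edgeSet), w e := by
    intro m
    induction m with
    | zero =>
      intro T' hT' h
      have hsub : T.edgeSet ⊆ T'.edgeSet := Set.diff_eq_empty.1 ((Set.ncard_eq_zero).1 h)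
      have c1 := (isTree_iff_connected_and_card.1 hT).2
      have c2 := (isTree_iff_connected_and_card.1 hT').2
      simp only [Nat.card_coe_set_eq] at c1 c2
      have : T.edgeSet = T'.edgeSet := Set.eq_of_subset_of_ncard_le hsub (by omega)
      obtain rfl : T = T' := edgeSet_inj.1 this
      exact le_rfl
    | succ m ih =>
      intro T' hT' h
      obtain ⟨e, he1, he2⟩ : (T.edgeSet \ T'.edgeSet).Nonempty :=
        Set.nonempty_of_ncard_ne_zero (by omega)
      obtain ⟨b, hb, rfl⟩ : ∃ b, b ≠ r ∧ e = s(b, pa b) := by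
        induction e using Sym2.ind with
        | _ x y =>
          rcases R.edge x y he1 with ⟨h1, h2⟩ | ⟨h1, h2⟩
          · exact ⟨x, h1, by rw [h2]⟩
          · exact ⟨y, h1, by rw [h2, Sym2.eq_swap]⟩
      obtain ⟨p, hp⟩ := (hT'.existsUnique_path b (pa b)).exists
      obtain ⟨x, y, a1, a2, a3, -, a4, a5⟩ :=
        walk_cross (Sub pa dep b) p hp.isTrail (Sub.refl b) (R.not_sub hb)
      have hne : s(b, pa b) ≠ s(x, y) := fun e => he2 (by rw [e]; exact a1)
      obtain ⟨T2, hT2, hnot, hE⟩ := exchange hT' a1 a4 a5 hne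
      have hxy : s(x, y) ∉ T.edgeSet := fun h' => by
        obtain ⟨e1, e2⟩ := R.cross a2 a3 h'
        exact hne (by rw [e1, e2])
      have hcard : (T.edgeSet \ T2.edgeSet).ncard = m := by
        have : T.edgeSet \ T2.edgeSet = (T.edgeSet \ T'.edgeSet) \ {s(b, pa b)} := by
          ext z
          simp only [hE, Set.mem_diff, Set.mem_insert_iff, Set.mem_singleton_iff]
          constructor
          · rintro ⟨h1, h2⟩
            push Not at h2
            exact ⟨⟨h1, fun h3 => hxy (h2.2 h3 ▸ h1)⟩, h2.1⟩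
          · rintro ⟨⟨h1, h2⟩, h3⟩
            exact ⟨h1, fun h4 => h4.elim h3 fun h5 => h2 h5.1⟩
        have h2 := Set.ncard_diff_singleton_add_one (s := T.edgeSet \ T'.edgeSet)
          (a := s(b, pa b)) ⟨he1, he2⟩
        rw [this]; omega
      refine (ih T2 hT2 hcard).trans ?_
      have e : Finset.univ.filter (fun e => e ∈ T2.edgeSet) =
          insert s(b, pa b) ((Finset.univ.filter (fun e => e ∈ T'.edgeSet)).erase s(x, y)) := by
        ext z; simp [hE, and_comm]
      have hmem : s(x, y) ∈ Finset.univ.filter (fun e => e ∈ T'.edgeSet) := by simpa using a1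
      rw [e, Finset.sum_insert (by simp [hnot]), ← Finset.add_sum_erase _ _ hmem]
      have := hw b x y hb a2 a3
      linarith
  exact key _ T' hT' rfl

/-- slots for the children -/
lemma slots [Fintype V] {T : SimpleGraph V} {r : V} {pa : V → V} {dep : V → ℕ}
    (R : Rooted T r pa dep) (hd : ∀ v, (T.neighborSet v).ncard ≤ 5) :
    ∃ sl : V → ℕ, (∀ v, v ≠ r → sl v < 5) ∧ (∀ v, v ≠ r → pa v ≠ r → sl v < 4) ∧
      ∀ v w, v ≠ r → w ≠ r → pa v = pa w → sl v = sl w → v = w := by
  classical
  let ch : V → Finset V := fun z => Finset.univ.filter (fun v => v ≠ r ∧ pa v = z)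
  have hsub : ∀ z, (ch z : Set V) ⊆ T.neighborSet z := by
    intro z v hv
    simp only [ch, Finset.coe_filter, Finset.mem_univ, true_and, Set.mem_setOf_eq] at hv
    rw [← hv.2]; exact (R.adj v hv.1).symm
  have c5 : ∀ z, (ch z).card ≤ 5 := fun z => by
    rw [← Set.ncard_coe_finset]; exact (Set.ncard_le_ncard (hsub z)).trans (hd z)
  have c4 : ∀ z, z ≠ r → (ch z).card ≤ 4 := fun z hz => by
    have h1 : (ch z : Set V) ⊆ T.neighborSet z \ {pa z} := by
      intro v hv
      refine ⟨hsub z hv, ?_⟩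
      simp only [ch, Finset.coe_filter, Finset.mem_univ, true_and, Set.mem_setOf_eq] at hv
      rintro rfl
      have a := R.dpa _ hv.1
      have b := R.dpa _ hz
      rw [hv.2] at a; omega
    have h2 := Set.ncard_diff_singleton_add_one (s := T.neighborSet z) (a := pa z) (R.adj z hz)
    have h3 := Set.ncard_le_ncard h1
    rw [Set.ncard_coe_finset] at h3
    have := hd z
    omega
  let sl : V → ℕ := fun v =>
    if h : v ≠ r then ((ch (pa v)).equivFin ⟨v, by simp [ch, h]⟩ : ℕ) else 0
  refine ⟨sl, fun v h => ?_, fun v h h' => ?_, fun v w hv hw e h => ?_⟩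
  · simp only [sl, dif_pos h]; exact lt_of_lt_of_le (Fin.is_lt _) (c5 _)
  · simp only [sl, dif_pos h]; exact lt_of_lt_of_le (Fin.is_lt _) (c4 _ h')
  · simp only [sl, dif_pos hv, dif_pos hw] at h
    have key : ∀ (z z' : V) (e : z = z') (h1 : v ∈ ch z) (h2 : w ∈ ch z'),
        ((ch z).equivFin ⟨v, h1⟩ : ℕ) = (ch z').equivFin ⟨w, h2⟩ → v = w := by
      rintro z _ rfl h1 h2 h
      have := (ch z).equivFin.injective (Fin.ext h)
      exact congrArg Subtype.val this
    exact key _ _ e _ _ h

end Pool.Agent.H26.MST
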