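import Mathlib
import Pool.Agent.H26.MST4

/-! An explicit drawing of a rooted tree of maximum degree five. -/

namespace Pool.Agent.H26.MST

open Real SimpleGraph

noncomputable def eps (j : ℕ) : ℝ := 1 / 64 ^ j
noncomputable def ell (K j : ℕ) : ℝ := 64 ^ (tri (K + 1) + 2) / 64 ^ tri j

lemma eps_pos (j : ℕ) : 0 < eps j := by unfold eps; positivity
lemma eps_succ (j : ℕ) : eps (j + 1) = eps j / 64 := by unfold eps; rw [pow_succ]; field_simp
lemma eps_le_one (j : ℕ) : eps j ≤ 1 := by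
  unfold eps; rw [div_le_one (by positivity)]; exact one_le_pow₀ (by norm_num)
lemma eps_le {j : ℕ} (h : 1 ≤ j) : eps j ≤ 1 / 64 := by
  obtain ⟨i, rfl⟩ : ∃ i, j = i + 1 := ⟨j - 1, by omega⟩
  rw [eps_succ]; linarith [eps_le_one i]
lemma ell_pos (K j : ℕ) : 0 < ell K j := by unfold ell; positivity
lemma ell_succ (K j : ℕ) : ell K (j + 1) = eps j * ell K j := by
  unfold ell eps; simp only [tri, pow_add]; field_simp
lemma ell_anti (K : ℕ) : Antitone (ell K) := antitone_nat_of_succ_le fun j => by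
  rw [ell_succ]; nlinarith [eps_le_one j, ell_pos K j, eps_pos j]
lemma ell_ge {K j : ℕ} (h : j ≤ K + 1) : 4096 ≤ ell K j := by
  refine le_trans (le_of_eq ?_) (ell_anti K h)
  unfold ell; rw [pow_add]; field_simp; norm_num
lemma ell_succ_le (K : ℕ) {j : ℕ} (h : 1 ≤ j) : 64 * ell K (j + 1) ≤ ell K j := by
  rw [ell_succ]; nlinarith [eps_le h, ell_pos K j]

noncomputable def phi (j s : ℕ) : ℝ :=
  if j = 1 then s * (2 * π / 5) else ((s : ℝ) - 3 / 2) * (π / 3 + eps (j - 1) / 6)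

lemma cos_third {x : ℝ} (h0 : 0 < x) (h1 : x ≤ 0.2) : cos (π / 3 + x) ≤ 1 / 2 - 0.8 * x := by
  rw [cos_add, cos_pi_div_three, sin_pi_div_three]
  have s3 : (1.732 : ℝ) ≤ √3 := by apply le_sqrt_of_sq_le; norm_num
  have s := sin_gt_sub_cube h0
  have : x ^ 3 ≤ x * 0.04 := by
    have : x ^ 2 ≤ 0.04 := by nlinarith
    nlinarith
  have hs : 0.99 * x ≤ sin x := by linarith
  have := cos_le_one x
  nlinarith

lemma cos_between {γ δ : ℝ} (h0 : 0 ≤ γ) (h1 : γ ≤ δ) (h2 : δ ≤ 2 * π - γ) : cos δ ≤ cos γ := by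
  rcases le_total δ π with h | h
  · exact cos_le_cos_of_nonneg_of_le_pi h0 h h1
  · rw [← cos_two_pi_sub δ]
    exact cos_le_cos_of_nonneg_of_le_pi h0 (by linarith) (by linarith)

lemma cos_mul_le {γ : ℝ} {s s' m : ℕ} (h0 : 0 ≤ γ) (hne : s ≠ s') (hs : s < m) (hs' : s' < m)
    (hm : m * γ ≤ 2 * π) : cos (s * γ - s' * γ) ≤ cos γ := by
  wlog h : s' < s generalizing s s'
  · rw [← cos_neg, neg_sub]; exact this hne.symm hs' hs (by omega)
  have a : (s' : ℝ) + 1 ≤ s := by exact_mod_cast h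
  have b : (s : ℝ) + 1 ≤ m := by exact_mod_cast hs
  have c : (0 : ℝ) ≤ s' := Nat.cast_nonneg _
  apply cos_between h0 <;> nlinarith

lemma sib_bound (K : ℕ) {j s s' : ℕ} (θ : ℝ) (hj : 1 ≤ j) (hne : s ≠ s') (h5 : s < 5) (h5' : s' < 5)
    (h4 : j ≠ 1 → s < 4 ∧ s' < 4) :
    ell K j + 5 * ell K (j + 1) ≤
      ‖(ell K j : ℂ) * E (θ + phi j s) - ell K j * E (θ + phi j s')‖ := by
  have hp := pi_gt_three
  have hp' := pi_gt_d2
  have hl := ell_pos K j
  have he := eps_pos j
  have he' := eps_le hj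
  have key : cos (θ + phi j s - (θ + phi j s')) ≤ 1 / 2 - 8 * eps j := by
    by_cases h : j = 1
    · have e : θ + phi j s - (θ + phi j s') = s * (2 * π / 5) - s' * (2 * π / 5) := by
        simp only [phi, if_pos h]; ring
      have a := cos_mul_le (γ := 2 * π / 5) (m := 5) (by positivity) hne h5 h5'
        (by push_cast; linarith)
      have b := cos_third (x := 0.2) (by norm_num) le_rfl
      have c := cos_le_cos_of_nonneg_of_le_pi (x := π / 3 + 0.2) (y := 2 * π / 5) (by linarith)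
        (by linarith) (by linarith)
      rw [e]; linarith
    · obtain ⟨i, rfl⟩ : ∃ i, j = i + 1 := ⟨j - 1, by omega⟩
      have hi := eps_le (j := i) (by omega)
      have hi0 := eps_pos i
      have e : θ + phi (i + 1) s - (θ + phi (i + 1) s') =
          s * (π / 3 + eps i / 6) - s' * (π / 3 + eps i / 6) := by
        simp only [phi, if_neg h, Nat.add_sub_cancel]; ring
      have a := cos_mul_le (γ := π / 3 + eps i / 6) (m := 4) (by positivity) hne (h4 h).1 (h4 h).2
        (by push_cast; linarith)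
      have b := cos_third (x := eps i / 6) (by positivity) (by linarith)
      rw [e, eps_succ]; linarith
  apply le_of_sq_le_sq _ (norm_nonneg _) |>.trans le_rfl
  rw [sq2, ell_succ]
  have h1 : ell K j ^ 2 * cos (θ + phi j s - (θ + phi j s')) ≤ ell K j ^ 2 * (1 / 2 - 8 * eps j) :=
    mul_le_mul_of_nonneg_left key (by positivity)
  have h2 : ell K j ^ 2 * (eps j * (25 * eps j)) ≤ ell K j ^ 2 * (eps j * 6) :=
    mul_le_mul_of_nonneg_left (mul_le_mul_of_nonneg_left (by linarith) he.le) (by positivity)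
  nlinarith

lemma grand_bound (K : ℕ) {j s : ℕ} (θ : ℝ) (hj : 1 ≤ j) (h4 : s < 4) :
    ell K j + 3 * ell K (j + 2) ≤
      ‖(ell K j : ℂ) * E θ + ell K (j + 1) * E (θ + phi (j + 1) s)‖ := by
  have hp := pi_gt_three
  have hl := ell_pos K j
  have he := eps_pos j
  have he' := eps_le hj
  have key : -(eps j / 4) ≤ cos (phi (j + 1) s) := by
    have a : |phi (j + 1) s| ≤ π / 2 + eps j / 4 := by
      have hs : (s : ℝ) ≤ 3 := by exact_mod_cast (by omega : s ≤ 3)
      have hs0 : (0 : ℝ) ≤ s := Nat.cast_nonneg _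
      simp only [phi, if_neg (by omega : j + 1 ≠ 1), Nat.add_sub_cancel]
      rw [abs_le]; constructor <;> nlinarith
    have b := cos_le_cos_of_nonneg_of_le_pi (abs_nonneg _) (by linarith) a
    rw [cos_abs] at b
    have c := (cos_near (θ := π / 2 + eps j / 4) (φ := π / 2) (e := eps j / 4) (by linarith)
      le_rfl).1
    rw [cos_pi_div_two] at c
    linarith
  have e : (ell K j : ℂ) * E θ + ell K (j + 1) * E (θ + phi (j + 1) s) =
      (ell K (j + 1) : ℂ) * E (θ + phi (j + 1) s) - ((-ell K j : ℝ) : ℂ) * E θ := by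
    push_cast; ring
  apply le_of_sq_le_sq _ (norm_nonneg _) |>.trans le_rfl
  rw [e, sq2, add_sub_cancel_left, ell_succ K (j + 1), ell_succ, eps_succ]
  have h1 : ell K j ^ 2 * eps j * (-(eps j / 4)) ≤ ell K j ^ 2 * eps j * cos (phi (j + 1) s) :=
    mul_le_mul_of_nonneg_left key (by positivity)
  have h2 : (ell K j * eps j) ^ 2 * eps j ^ 2 ≤ (ell K j * eps j) ^ 2 * 1 :=
    mul_le_mul_of_nonneg_left (by nlinarith) (by positivity)
  nlinarith [sq_nonneg (ell K j * eps j)]

variable {V : Type*}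

noncomputable def th (pa : V → V) (sl : V → ℕ) : ℕ → V → ℝ
  | 0, _ => 0
  | k + 1, v => th pa sl k (pa v) + phi (k + 1) (sl v)

noncomputable def QQ (K : ℕ) (pa : V → V) (sl : V → ℕ) : ℕ → V → ℂ
  | 0, _ => 0
  | k + 1, v => QQ K pa sl k (pa v) + ell K (k + 1) * E (th pa sl (k + 1) v)

lemma real_drawing {T : SimpleGraph V} {r : V} {pa : V → V} {dep : V → ℕ} (R : Rooted T r pa dep)
    {sl : V → ℕ} (s5 : ∀ v, v ≠ r → sl v < 5) (s4 : ∀ v, v ≠ r → pa v ≠ r → sl v < 4)
    (si : ∀ v w, v ≠ r → w ≠ r → pa v = pa w → sl v = sl w → v = w) {K : ℕ}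
    (hK : ∀ v, dep v ≤ K) :
    ∃ Q : V → ℂ, (∀ v, ‖Q v‖ ≤ 2 * ell K 1) ∧
      (∀ b, b ≠ r → ‖Q b - Q (pa b)‖ = ell K (dep b)) ∧
      ∀ b x y, b ≠ r → Sub pa dep b x → ¬ Sub pa dep b y →
        (x = b ∧ y = pa b) ∨ ell K (dep b) + 3 ≤ ‖Q x - Q y‖ := by
  let θ : V → ℝ := fun v => th pa sl (dep v) v
  let Q : V → ℂ := fun v => QQ K pa sl (dep v) v
  have hθ : ∀ v, v ≠ r → θ v = θ (pa v) + phi (dep v) (sl v) := by
    intro v h; simp only [θ]; rw [← R.dpa v h]; rfl
  have hQ : ∀ v, v ≠ r → Q v - Q (pa v) = ell K (dep v) * E (θ v) := by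
    intro v h; simp only [Q, θ]; rw [← R.dpa v h]; simp only [QQ]; ring
  have hlen : ∀ b, b ≠ r → ‖Q b - Q (pa b)‖ = ell K (dep b) := fun b h => by
    rw [hQ b h, norm_polar (ell_pos _ _)]
  have rad : ∀ c x, Sub pa dep c x → ‖Q x - Q c‖ ≤ 2 * ell K (dep c + 1) := by
    rintro c x ⟨k, e, f⟩
    induction k generalizing c with
    | zero => rw [← f]; simp; exact (ell_pos _ _).le
    | succ k ih =>
      have h1 := R.dep_it k x (by omega)
      have h2 := ih (pa^[k] x) h1.symm rfl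
      have hne : pa^[k] x ≠ r := fun e' => by rw [e', R.root] at h1; omega
      have h3 := hlen _ hne
      rw [Function.iterate_succ_apply'] at f
      rw [f] at h3
      have h4 : dep (pa^[k] x) = dep c + 1 := by omega
      rw [h4] at h2 h3
      have h5 := ell_succ_le K (j := dep c + 1) (by omega)
      have h6 := ell_pos K (dep c + 1 + 1)
      have h7 := norm_sub_le_norm_sub_add_norm_sub (Q x) (Q (pa^[k] x)) (Q c)
      linarith
  have pos : ∀ v, v ≠ r → 1 ≤ dep v := fun v h => by have := R.dpa v h; omega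
  refine ⟨Q, fun v => ?_, hlen, fun b x y hb hx hy => ?_⟩
  · have := rad r v (R.sub_root v)
    have e : Q r = 0 := by simp only [Q, R.root]; rfl
    rwa [e, sub_zero, R.root] at this
  obtain ⟨c, hc, hcb, hcy, hy'⟩ := R.lca hx hy
  have hcx := hcb.trans hx
  have r1 := rad c x hcx
  have hj := pos c hc
  have hdb : dep c ≤ dep b := by obtain ⟨k, e, -⟩ := hcb; omega
  have l1 : 4096 ≤ ell K (dep c + 1) := ell_ge (by have := hK c; omega)
  have l2 := ell_succ_le K hj
  by_cases e : y = pa c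
  · by_cases e2 : b = c
    · subst e2
      by_cases e3 : x = b
      · exact Or.inl ⟨e3, e⟩
      right
      obtain ⟨g, hg, hgb, hgx⟩ := R.child hx e3
      have d := R.dpa g hg
      rw [hgb] at d
      have r2 := rad g x hgx
      have gb := grand_bound K (s := sl g) (θ b) hj (s4 g hg (by rw [hgb]; exact hb))
      have e4 : (ell K (dep b) : ℂ) * E (θ b) + ell K (dep b + 1) * E (θ b + phi (dep b + 1) (sl g))
          = Q g - Q y := by
        have a := hQ g hg
        have a' := hθ g hg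
        rw [hgb, ← d] at a a'
        rw [← a', ← a, ← hQ b hb, e]; ring
      rw [e4] at gb
      rw [← d] at r2
      have l3 : 4096 ≤ ell K (dep b + 2) := ell_ge (by have := hK g; omega)
      have h7 := norm_sub_le_norm_sub_add_norm_sub (Q g) (Q x) (Q y)
      rw [norm_sub_rev (Q g) (Q x)] at h7
      linarith
    · right
      have : dep c + 1 ≤ dep b := by
        obtain ⟨k, e1, f⟩ := hcb
        cases k with
        | zero => exact (e2 f).elim
        | succ k => omega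
      have a := ell_anti K this
      have h3 := hlen c hc
      have h7 := norm_sub_le_norm_sub_add_norm_sub (Q c) (Q x) (Q (pa c))
      rw [norm_sub_rev (Q c) (Q x)] at h7
      rw [e]; linarith
  · right
    obtain ⟨c', hc', hcc, hc'y⟩ := R.child hy' e
    have hne : c ≠ c' := fun h => hcy (h ▸ hc'y)
    have d : dep c' = dep c := by
      have a := R.dpa c hc
      have b := R.dpa c' hc'
      rw [hcc] at b; omega
    have r2 := rad c' y hc'y
    rw [d] at r2
    have sb := sib_bound K (s := sl c) (s' := sl c') (θ (pa c)) hj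
      (fun h => hne (si c c' hc hc' hcc.symm h)) (s5 c hc) (s5 c' hc') (fun h => by
        have : pa c ≠ r := fun e' => by have := R.dpa c hc; rw [e', R.root] at this; omega
        exact ⟨s4 c hc this, s4 c' hc' (by rw [hcc]; exact this)⟩)
    have e4 : (ell K (dep c) : ℂ) * E (θ (pa c) + phi (dep c) (sl c)) -
        ell K (dep c) * E (θ (pa c) + phi (dep c) (sl c')) = Q c - Q c' := by
      have a := hQ c' hc'
      have a' := hθ c' hc'
      rw [hcc, d] at a a'
      rw [← a', ← a, ← hθ c hc, ← hQ c hc]; ring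
    rw [e4] at sb
    have a := ell_anti K hdb
    have h7 := norm_sub_le_norm_sub_add_norm_sub (Q c) (Q x) (Q c')
    have h8 := norm_sub_le_norm_sub_add_norm_sub (Q x) (Q y) (Q c')
    rw [norm_sub_rev (Q c) (Q x)] at h7
    linarith

noncomputable def cx (z : ℤ × ℤ) : ℂ := ⟨z.1, z.2⟩

lemma grid_drawing [Fintype V] {T : SimpleGraph V} (hT : T.IsTree)
    (hd : ∀ v, (T.neighborSet v).ncard ≤ 5) :
    ∃ (r : V) (pa : V → V) (dep : V → ℕ) (p : V → ℤ × ℤ), Rooted T r pa dep ∧
      Function.Injective p ∧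
      (∀ v, 1 ≤ (p v).1 ∧ (p v).1 ≤ (64 ^ (tri (Fintype.card V / 2 + 1) + 3) : ℕ) ∧
        1 ≤ (p v).2 ∧ (p v).2 ≤ (64 ^ (tri (Fintype.card V / 2 + 1) + 3) : ℕ)) ∧
      ∀ b x y, b ≠ r → Sub pa dep b x → ¬ Sub pa dep b y →
        ‖cx (p b) - cx (p (pa b))‖ ≤ ‖cx (p x) - cx (p y)‖ := by
  obtain ⟨r, hr⟩ := centre hT
  obtain ⟨pa, R⟩ := rooted hT r
  obtain ⟨sl, s5, s4, si⟩ := slots R hd
  set K := Fintype.card V / 2
  have hK : ∀ v, T.dist r v ≤ K := fun v => by have := hr v; omega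
  obtain ⟨Q, q1, q2, q3⟩ := real_drawing R s5 s4 si hK
  set M := ell K 1 with hM
  let p : V → ℤ × ℤ := fun v => (⌊(Q v).re + 2 * M⌋ + 1, ⌊(Q v).im + 2 * M⌋ + 1)
  have near : ∀ x y, |‖cx (p x) - cx (p y)‖ - ‖Q x - Q y‖| ≤ 3 / 2 := by
    intro x y
    refine (abs_norm_sub_norm_le _ _).trans ?_
    rw [Complex.norm_eq_sqrt_sq_add_sq]
    apply sqrt_le_iff.2 ⟨by norm_num, ?_⟩
    simp only [cx, p, Complex.sub_re, Complex.sub_im]
    push_cast
    have a1 := Int.floor_le ((Q x).re + 2 * M)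
    have a2 := Int.lt_floor_add_one ((Q x).re + 2 * M)
    have a3 := Int.floor_le ((Q y).re + 2 * M)
    have a4 := Int.lt_floor_add_one ((Q y).re + 2 * M)
    have b1 := Int.floor_le ((Q x).im + 2 * M)
    have b2 := Int.lt_floor_add_one ((Q x).im + 2 * M)
    have b3 := Int.floor_le ((Q y).im + 2 * M)
    have b4 := Int.lt_floor_add_one ((Q y).im + 2 * M)
    have u : ∀ t : ℝ, -1 ≤ t → t ≤ 1 → t ^ 2 ≤ 1 := fun t a b => by nlinarith
    have := u ((⌊(Q x).re + 2 * M⌋ : ℝ) + 1 - (⌊(Q y).re + 2 * M⌋ + 1) - ((Q x).re - (Q y).re))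
      (by linarith) (by linarith)
    have := u ((⌊(Q x).im + 2 * M⌋ : ℝ) + 1 - (⌊(Q y).im + 2 * M⌋ + 1) - ((Q x).im - (Q y).im))
      (by linarith) (by linarith)
    linarith
  have far : ∀ x y, ¬ Sub pa (T.dist r) x y → p x ≠ p y := by
    intro x y h e
    have hx : x ≠ r := fun e' => h (e' ▸ R.sub_root y)
    have l := ell_ge (K := K) (j := T.dist r x) (by have := hK x; omega)
    have n := (abs_le.1 (near x y)).1
    rw [e, sub_self, norm_zero] at n
    rcases q3 x x y hx (Sub.refl x) h with ⟨-, h2⟩ | h2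
    · have := q2 x hx
      rw [← h2] at this; linarith
    · linarith
  have bd : ∀ t : ℝ, |t| ≤ 2 * M →
      1 ≤ ⌊t + 2 * M⌋ + 1 ∧ ⌊t + 2 * M⌋ + 1 ≤ (64 ^ (tri (K + 1) + 3) : ℕ) := by
    intro t ht
    obtain ⟨t1, t2⟩ := abs_le.1 ht
    have l : 4096 ≤ M := ell_ge (by omega)
    have e : ((64 ^ (tri (K + 1) + 3) : ℕ) : ℝ) = 64 * M := by
      rw [hM]; unfold ell; simp only [tri]; push_cast; ring
    constructor
    · have : 0 ≤ ⌊t + 2 * M⌋ := Int.floor_nonneg.2 (by linarith)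
      omega
    · have a := Int.floor_le (t + 2 * M)
      have : ((⌊t + 2 * M⌋ + 1 : ℤ) : ℝ) ≤ (((64 ^ (tri (K + 1) + 3) : ℕ) : ℤ) : ℝ) := by
        rw [Int.cast_natCast, e]; push_cast; linarith
      exact_mod_cast this
  refine ⟨r, pa, T.dist r, p, R, fun x y e => ?_, fun v => ?_, fun b x y hb hx hy => ?_⟩
  · by_contra hne
    by_cases h : Sub pa (T.dist r) x y
    · by_cases h' : Sub pa (T.dist r) y x
      · obtain ⟨k, e1, f⟩ := h
        obtain ⟨l, e2, -⟩ := h'
        obtain rfl : k = 0 := by omega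
        exact hne f.symm
      · exact far y x h' e.symm
    · exact far x y h e
  · obtain ⟨a, b⟩ := bd (Q v).re ((Complex.abs_re_le_norm _).trans (q1 v))
    obtain ⟨c, d⟩ := bd (Q v).im ((Complex.abs_im_le_norm _).trans (q1 v))
    exact ⟨a, b, c, d⟩
  · rcases q3 b x y hb hx hy with ⟨rfl, rfl⟩ | h
    · exact le_rfl
    · have n1 := (abs_le.1 (near x y)).1
      have n2 := (abs_le.1 (near b (pa b))).2
      rw [q2 b hb] at n2
      linarith

end Pool.Agent.H26.MST
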