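import Mathlib

/-! A Mathias-type theorem: a selective coideal is not avoided by a tall closed-parametrised
family of small sets. -/

namespace Pool.Agent.H26.Mathias

open Set Filter Topology

/-- nodes: a finite set, a length, and a finite sequence. -/
abbrev Node := Finset ℕ × ℕ × (ℕ →₀ ℕ)

/-- `A` accepts the node `p`. -/
def Acc (G : (ℕ → ℕ) → Set ℕ) (A : Set ℕ) (p : Node) : Prop :=
  ∀ y : ℕ → ℕ, (∀ i < p.2.1, y i = p.2.2 i) → (↑p.1 : Set ℕ) ⊆ G y → (A ∩ G y).Finite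

lemma Acc.mono {G : (ℕ → ℕ) → Set ℕ} {A B : Set ℕ} {p : Node} (h : Acc G A p)
    (hB : (B \ A).Finite) : Acc G B p := by
  intro y hy hs
  refine ((h y hy hs).union hB).subset ?_
  intro n hn
  by_cases hA : n ∈ A
  · exact Or.inl ⟨hA, hn.2⟩
  · exact Or.inr ⟨hn.1, hA⟩

theorem mathias (H : Set (Set ℕ))
    (hup : ∀ A ∈ H, ∀ B, A ⊆ B → B ∈ H)
    (hdiff : ∀ Y ∈ H, ∀ X, X ∉ H → Y \ X ∈ H)
    (hfin : ∀ X : Set ℕ, X.Finite → X ∉ H)
    (hP : ∀ Y : ℕ → Set ℕ, (∀ k, Y k ∈ H) → Antitone Y →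
      ∃ Z : ℕ → Set ℕ, (∀ i, (Z i).Infinite) ∧ (∀ i k, (Z i \ Y k).Finite) ∧
        ∀ B : Set ℕ, (∀ i, (B ∩ Z i).Infinite) → B ∈ H)
    (huniv : (univ : Set ℕ) ∈ H)
    (G : (ℕ → ℕ) → Set ℕ) (hG : ∀ n, IsClosed {y | n ∈ G y}) (hGH : ∀ y, G y ∉ H)
    (htall : ∀ Y : Set ℕ, Y.Infinite → ∃ y, (Y ∩ G y).Infinite) : False := by
  classical
  have hZY : ∀ {Z Y : Set ℕ}, Z.Infinite → (Z \ Y).Finite → (Z ∩ Y).Infinite := by
    intro Z Y hZ hd hf
    apply hZ
    refine (hf.union hd).subset ?_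
    intro n hn
    by_cases h : n ∈ Y
    · exact Or.inl ⟨hn, h⟩
    · exact Or.inr ⟨hn, h⟩
  -- pseudo-intersections
  have hP' : ∀ Y : ℕ → Set ℕ, (∀ k, Y k ∈ H) → Antitone Y →
      ∃ A ∈ H, ∀ k, (A \ Y k).Finite := by
    intro Y hY hanti
    obtain ⟨Z, hZ, hZd, hZH⟩ := hP Y hY hanti
    refine ⟨⋃ i, Z i ∩ Y i, hZH _ ?_, ?_⟩
    · intro i
      refine (hZY (hZ i) (hZd i i)).mono ?_
      intro n hn
      exact ⟨mem_iUnion.2 ⟨i, hn⟩, hn.1⟩
    · intro k
      refine ((Set.finite_Iio k).biUnion (fun i _ => hZd i k)).subset ?_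
      rintro n ⟨hn, hnk⟩
      obtain ⟨i, hi⟩ := mem_iUnion.1 hn
      have : i < k := by
        by_contra hik
        exact hnk (hanti (not_lt.1 hik) hi.2)
      exact mem_biUnion this ⟨hi.1, hnk⟩
  -- deciding
  let Rej : Set ℕ → Node → Prop := fun A p => ∀ B ⊆ A, B ∈ H → ¬ Acc G B p
  have hRejmono : ∀ A B p, Rej A p → (B \ A).Finite → Rej B p := by
    intro A B p hA hBA C hC hCH hacc
    have h1 : C \ (B \ A) ∈ H := hdiff C hCH _ (hfin _ hBA)
    refine hA (C \ (B \ A)) ?_ h1 (hacc.mono ?_)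
    · intro n hn
      by_contra h
      exact hn.2 ⟨hC hn.1, h⟩
    · refine Set.finite_empty.subset ?_
      intro n hn
      exact hn.2 hn.1.1
  have hdec : ∀ A : H, ∀ p : Node, ∃ B : H, (B : Set ℕ) ⊆ A ∧ (Acc G B p ∨ Rej B p) := by
    intro A p
    by_cases h : Rej A p
    · exact ⟨A, subset_rfl, Or.inr h⟩
    · simp only [Rej, not_forall, not_not] at h
      obtain ⟨B, hB, hBH, hacc⟩ := h
      exact ⟨⟨B, hBH⟩, hB, Or.inl hacc⟩
  choose dec hdec1 hdec2 using hdec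
  obtain ⟨e, he⟩ := exists_surjective_nat Node
  let Y : ℕ → H := fun k => Nat.rec ⟨univ, huniv⟩ (fun k A => dec A (e k)) k
  have hYs : ∀ k, Y (k + 1) = dec (Y k) (e k) := fun k => rfl
  have hYanti : Antitone (fun k => (Y k).1) := by
    refine antitone_nat_of_succ_le ?_
    intro k
    show (Y (k + 1)).1 ⊆ (Y k).1
    rw [hYs]
    exact hdec1 _ _
  obtain ⟨A, hA, hAY⟩ := hP' (fun k => (Y k).1) (fun k => (Y k).2) hYanti
  have hArej : ∀ p, ¬ Acc G A p → Rej A p := by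
    intro p hp
    obtain ⟨k, rfl⟩ := he p
    have h1 := hAY (k + 1)
    simp only [hYs] at h1
    rcases hdec2 (Y k) (e k) with h | h
    · exact absurd (h.mono h1) hp
    · exact hRejmono _ _ _ h h1
  -- the small sets
  let X : Node → Set ℕ := fun p =>
    {n | n ∈ A ∧ ¬ Acc G A p ∧ Acc G A (insert n p.1, p.2.1, p.2.2)}
  have hX : ∀ p, X p ∉ H := by
    intro p hXH
    by_cases hp : Acc G A p
    · refine hfin _ ?_ hXH
      refine Set.finite_empty.subset ?_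
      intro n hn
      exact hn.2.1 hp
    · have h1 := hArej p hp (X p) (fun n hn => hn.1) hXH
      simp only [Acc, not_forall] at h1
      obtain ⟨y, hy, hs, hinf⟩ := h1
      obtain ⟨n, hn⟩ := Set.Infinite.nonempty hinf
      have h2 := hn.1.2.2 y hy (by
        intro a ha
        simp only [Finset.coe_insert, mem_insert_iff] at ha
        rcases ha with rfl | ha
        · exact hn.2
        · exact hs ha)
      exact hinf (h2.subset (fun a ha => ⟨ha.1.1, ha.2⟩))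
  let W : ℕ → Set ℕ := fun k => A \ ⋃ j ∈ Iio k, X (e j)
  have hW : ∀ k, W k ∈ H := by
    intro k
    induction k with
    | zero => simpa [W] using hA
    | succ k ih =>
      refine hup _ (hdiff _ ih _ (hX (e k))) _ ?_
      rintro n ⟨⟨h1, h2⟩, h3⟩
      refine ⟨h1, ?_⟩
      intro h4
      simp only [mem_iUnion, mem_Iio, exists_prop] at h4 h2
      obtain ⟨j, hj, hj'⟩ := h4
      rcases Nat.lt_succ_iff_lt_or_eq.1 hj with h | rfl
      · exact h2 ⟨j, h, hj'⟩
      · exact h3 hj'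
  have hWanti : Antitone W := by
    intro k l hkl n hn
    refine ⟨hn.1, fun h => hn.2 ?_⟩
    simp only [mem_iUnion, mem_Iio, exists_prop] at h ⊢
    obtain ⟨j, hj, hj'⟩ := h
    exact ⟨j, lt_of_lt_of_le hj hkl, hj'⟩
  obtain ⟨Z, hZ, hZd, hZH⟩ := hP W hW hWanti
  -- one step
  have hstep : ∀ p : {p : Node // ¬ Acc G A p}, ∀ j : ℕ, ∃ q : {p : Node // ¬ Acc G A p},
      q.1.2.1 = p.1.2.1 + 1 ∧ (∀ i < p.1.2.1, q.1.2.2 i = p.1.2.2 i) ∧ p.1.1 ⊆ q.1.1 ∧
      ∃ n ∈ q.1.1, n ∈ Z (Nat.unpair j).1 ∧ j < n := by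
    rintro ⟨⟨s, m, c⟩, hp⟩ j
    have hp' := hp
    simp only [Acc, not_forall] at hp'
    obtain ⟨y, hy, hs, hinf⟩ := hp'
    have hq : ¬ Acc G A (s, m + 1, c.update m (y m)) := by
      intro h
      refine hinf (h y ?_ hs)
      intro i hi
      simp only [Finsupp.coe_update]
      rcases Nat.lt_succ_iff_lt_or_eq.1 hi with h | rfl
      · rw [Function.update_of_ne (ne_of_lt h)]
        exact hy i h
      · simp
    obtain ⟨k, hk⟩ := he (s, m + 1, c.update m (y m))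
    obtain ⟨n, hn, hjn⟩ := (hZY (hZ (Nat.unpair j).1) (hZd _ (k + 1))).exists_gt j
    have hnX : n ∉ X (s, m + 1, c.update m (y m)) := by
      intro h
      apply hn.2.2
      simp only [mem_iUnion, mem_Iio, exists_prop]
      exact ⟨k, Nat.lt_succ_self k, hk ▸ h⟩
    have hq' : ¬ Acc G A (insert n s, m + 1, c.update m (y m)) := fun h => hnX ⟨hn.2.1, hq, h⟩
    refine ⟨⟨_, hq'⟩, rfl, ?_, Finset.subset_insert _ _, n, Finset.mem_insert_self _ _, hn.1, hjn⟩
    intro i hi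
    simp only [Finsupp.coe_update]
    exact Function.update_of_ne (ne_of_lt hi) _ _
  choose st hst1 hst2 hst3 hst4 using hstep
  have h0 : ¬ Acc G A (∅, 0, 0) := by
    intro h
    obtain ⟨y, hy⟩ := htall A (fun hf => hfin _ hf hA)
    exact hy (h y (by simp) (by simp))
  let q : ℕ → {p : Node // ¬ Acc G A p} := fun j => Nat.rec ⟨_, h0⟩ (fun j p => st p j) j
  have hqs : ∀ j, q (j + 1) = st (q j) j := fun j => rfl
  have hqm : ∀ j, (q j).1.2.1 = j := by
    intro j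
    induction j with
    | zero => rfl
    | succ j ih => rw [hqs, hst1, ih]
  let x : ℕ → ℕ := fun i => (q (i + 1)).1.2.2 i
  have hqx : ∀ j, ∀ i < j, (q j).1.2.2 i = x i := by
    intro j
    induction j with
    | zero => intro i hi; omega
    | succ j ih =>
      intro i hi
      rcases Nat.lt_succ_iff_lt_or_eq.1 hi with h | rfl
      · rw [hqs, hst2 _ _ _ (by rw [hqm]; exact h)]
        exact ih i h
      · rfl
  have hqmono : Monotone (fun j => (q j).1.1) := by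
    refine monotone_nat_of_le_succ ?_
    intro j
    show (q j).1.1 ⊆ (q (j + 1)).1.1
    rw [hqs]
    exact hst3 _ _
  have hy : ∀ j, ∃ y : ℕ → ℕ, (∀ i < j, y i = x i) ∧ (↑(q j).1.1 : Set ℕ) ⊆ G y := by
    intro j
    have h := (q j).2
    simp only [Acc, not_forall] at h
    obtain ⟨y, hy, hs, -⟩ := h
    refine ⟨y, fun i hi => ?_, hs⟩
    rw [hy i (by rw [hqm]; exact hi), hqx j i hi]
  choose y hy1 hy2 using hy
  have hlim : Tendsto y atTop (𝓝 x) := by
    rw [tendsto_pi_nhds]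
    intro i
    refine tendsto_const_nhds.congr' ?_
    filter_upwards [eventually_gt_atTop i] with j hj
    exact (hy1 j i hj).symm
  have hB : (⋃ j, (↑(q j).1.1 : Set ℕ)) ∈ H := by
    refine hZH _ ?_
    intro i
    refine Set.infinite_of_forall_exists_gt ?_
    intro b
    obtain ⟨n, hn, hnZ, hjn⟩ := hst4 (q (Nat.pair i b)) (Nat.pair i b)
    rw [Nat.unpair_pair] at hnZ
    refine ⟨n, ⟨mem_iUnion.2 ⟨Nat.pair i b + 1, ?_⟩, hnZ⟩, lt_of_le_of_lt (Nat.right_le_pair i b) hjn⟩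
    rw [hqs]
    exact hn
  refine hGH x (hup _ hB _ ?_)
  intro n hn
  obtain ⟨j, hj⟩ := mem_iUnion.1 hn
  refine (hG n).mem_of_tendsto hlim ?_
  filter_upwards [eventually_ge_atTop j] with l hl
  exact hy2 l (hqmono hl hj)

end Pool.Agent.H26.Mathias
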