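import Mathlib

set_option autoImplicit false

namespace Pool.Agent.H26.Neumann

open BoundedContinuousFunction Filter Topology

variable (𝕜 : Type) [RCLike 𝕜]

abbrev B := ℕ →ᵇ 𝕜

theorem bnd (w : B 𝕜) (j : ℕ) : ‖w (j + 1) / ((j : 𝕜) + 1)‖ ≤ ‖w‖ := by
  rw [norm_div]
  have h1 : (1 : ℝ) ≤ ‖((j : 𝕜) + 1)‖ := by
    have : ((j : 𝕜) + 1) = ((j + 1 : ℕ) : 𝕜) := by push_cast; ring
    rw [this, RCLike.norm_natCast]
    push_cast
    linarith [Nat.cast_nonneg (α := ℝ) j]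
  exact (div_le_self (norm_nonneg _) h1).trans (w.norm_coe_le_norm _)

noncomputable def Tl : B 𝕜 →ₗ[𝕜] B 𝕜 where
  toFun w := ofNormedAddCommGroupDiscrete (fun j => w (j + 1) / ((j : 𝕜) + 1)) ‖w‖ (bnd 𝕜 w)
  map_add' v w := by ext j; simp [add_div]
  map_smul' c w := by ext j; simp [mul_div_assoc]

noncomputable def T : B 𝕜 →L[𝕜] B 𝕜 :=
  (Tl 𝕜).mkContinuous 1 (fun w => by
    rw [one_mul, norm_le (norm_nonneg _)]
    intro j
    exact bnd 𝕜 w j)

theorem T_apply (w : B 𝕜) (j : ℕ) : T 𝕜 w j = w (j + 1) / ((j : 𝕜) + 1) := rfl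

theorem T_norm (w : B 𝕜) : ‖T 𝕜 w‖ ≤ ‖w‖ := by
  rw [norm_le (norm_nonneg _)]
  intro j
  exact bnd 𝕜 w j

theorem T_pow_apply (k : ℕ) (w : B 𝕜) (j : ℕ) :
    ‖((T 𝕜 ^ k) w) j‖ ≤ ‖w‖ * j.factorial / (j + k).factorial := by
  induction k generalizing j with
  | zero =>
    have : (j.factorial : ℝ) ≠ 0 := by positivity
    simp only [pow_zero, ContinuousLinearMap.one_apply, add_zero]
    rw [mul_div_assoc, div_self this, mul_one]
    exact w.norm_coe_le_norm _
  | succ k ih =>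
    rw [pow_succ', ContinuousLinearMap.mul_apply, T_apply, norm_div]
    have e : ((j : 𝕜) + 1) = ((j + 1 : ℕ) : 𝕜) := by push_cast; ring
    rw [e, RCLike.norm_natCast]
    have h := ih (j + 1)
    have hj : (0 : ℝ) < ((j + 1 : ℕ) : ℝ) := by positivity
    rw [div_le_iff₀ hj]
    refine h.trans (le_of_eq ?_)
    have e2 : j + 1 + k = j + (k + 1) := by ring
    rw [e2, Nat.factorial_succ]
    push_cast
    ring

theorem T_pow_norm (k : ℕ) : ‖T 𝕜 ^ k‖ ≤ 1 / k.factorial := by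
  apply ContinuousLinearMap.opNorm_le_bound _ (by positivity)
  intro w
  rw [norm_le (by positivity)]
  intro j
  refine (T_pow_apply 𝕜 k w j).trans ?_
  have h1 : j.factorial * k.factorial ≤ (j + k).factorial :=
    Nat.le_of_dvd (Nat.factorial_pos _) (Nat.factorial_mul_factorial_dvd_factorial_add j k)
  have h2 : (j.factorial : ℝ) * k.factorial ≤ (j + k).factorial := by exact_mod_cast h1
  have hk : (0 : ℝ) < k.factorial := by positivity
  have hjk : (0 : ℝ) < (j + k).factorial := by positivity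
  rw [div_le_iff₀ hjk]
  have : 1 / (k.factorial : ℝ) * ‖w‖ * (j + k).factorial
      = ‖w‖ * ((j + k).factorial / k.factorial) := by ring
  rw [this]
  apply mul_le_mul_of_nonneg_left _ (norm_nonneg _)
  rw [le_div_iff₀ hk]
  exact h2

theorem summable_T (μ : 𝕜) : Summable (fun k : ℕ => (μ • T 𝕜) ^ k) := by
  apply Summable.of_norm_bounded (Real.summable_pow_div_factorial ‖μ‖)
  intro k
  have e : (μ • T 𝕜) ^ k = μ ^ k • T 𝕜 ^ k := by
    induction k with
    | zero => simp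
    | succ k ih =>
      rw [pow_succ, ih, pow_succ, pow_succ]
      ext w j
      simp [mul_left_comm, mul_assoc]
  rw [e, norm_smul, norm_pow, div_eq_mul_one_div]
  exact mul_le_mul_of_nonneg_left (T_pow_norm 𝕜 k) (by positivity)

theorem exists_inv (c : 𝕜) (hc : c ≠ 0) : ∃ R : B 𝕜 →L[𝕜] B 𝕜,
    (∀ w, R (T 𝕜 w - c • w) = w) ∧ (∀ w, T 𝕜 (R w) - c • R w = w) ∧
      ∀ w, R (T 𝕜 w) = T 𝕜 (R w) := by
  have h1 := (summable_T 𝕜 c⁻¹).tsum_pow_mul_one_sub
  have h2 := (summable_T 𝕜 c⁻¹).one_sub_mul_tsum_pow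
  set S := ∑' k : ℕ, (c⁻¹ • T 𝕜) ^ k
  have a1 : ∀ w, (-c⁻¹ • S) (T 𝕜 w - c • w) = w := by
    intro w
    have := congrArg (fun A : B 𝕜 →L[𝕜] B 𝕜 => A w) h1
    simp only [ContinuousLinearMap.mul_apply, ContinuousLinearMap.sub_apply,
      ContinuousLinearMap.one_apply, ContinuousLinearMap.smul_apply] at this
    rw [ContinuousLinearMap.smul_apply, ← map_smul]
    have e : -c⁻¹ • (T 𝕜 w - c • w) = w - c⁻¹ • T 𝕜 w := by
      rw [smul_sub, smul_smul, neg_mul, inv_mul_cancel₀ hc]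
      simp only [neg_smul, one_smul]
      abel
    rw [e, this]
  have a2 : ∀ w, T 𝕜 ((-c⁻¹ • S) w) - c • (-c⁻¹ • S) w = w := by
    intro w
    have := congrArg (fun A : B 𝕜 →L[𝕜] B 𝕜 => A w) h2
    simp only [ContinuousLinearMap.mul_apply, ContinuousLinearMap.sub_apply,
      ContinuousLinearMap.one_apply, ContinuousLinearMap.smul_apply] at this
    rw [ContinuousLinearMap.smul_apply, map_smul, smul_smul, mul_neg, mul_inv_cancel₀ hc]
    simp only [neg_smul, one_smul]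
    calc -(c⁻¹ • T 𝕜 (S w)) - -S w = S w - c⁻¹ • T 𝕜 (S w) := by abel
      _ = w := this
  refine ⟨-c⁻¹ • S, a1, a2, fun w => ?_⟩
  have b1 := a1 (T 𝕜 ((-c⁻¹ • S) w))
  have b2 : T 𝕜 (T 𝕜 ((-c⁻¹ • S) w)) - c • T 𝕜 ((-c⁻¹ • S) w) = T 𝕜 w := by
    rw [← map_smul, ← map_sub, a2]
  rw [b2] at b1
  exact b1

noncomputable def E : Submodule 𝕜 (ℕ → B 𝕜) where
  carrier := {z | ∀ m, T 𝕜 (z (m + 1)) = z m}
  add_mem' := by
    intro a b ha hb m
    simp only [Pi.add_apply, map_add, ha m, hb m]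
  zero_mem' := by intro m; simp
  smul_mem' := by
    intro c a ha m
    simp only [Pi.smul_apply, map_smul, ha m]

theorem E_closed : IsClosed (E 𝕜 : Set (ℕ → B 𝕜)) := by
  have : (E 𝕜 : Set (ℕ → B 𝕜)) = ⋂ m, {z | T 𝕜 (z (m + 1)) = z m} := by
    ext z; simp [E]
  rw [this]
  exact isClosed_iInter fun m => isClosed_eq (by fun_prop) (by fun_prop)

noncomputable def U : E 𝕜 →L[𝕜] E 𝕜 where
  toFun z := ⟨fun m => z.1 (m + 1), fun m => z.2 (m + 1)⟩
  map_add' _ _ := rfl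
  map_smul' _ _ := rfl
  cont := by
    apply Continuous.subtype_mk
    exact continuous_pi fun m => (continuous_apply (m + 1)).comp continuous_subtype_val

theorem U_apply (z : E 𝕜) (m : ℕ) : (U 𝕜 z).1 m = z.1 (m + 1) := rfl

theorem U_pow (k : ℕ) (z : E 𝕜) (m : ℕ) : ((U 𝕜 ^ k) z).1 m = z.1 (m + k) := by
  induction k generalizing m with
  | zero => rfl
  | succ k ih =>
    rw [pow_succ', ContinuousLinearMap.mul_apply, U_apply, ih]
    rw [show m + 1 + k = m + (k + 1) by ring]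

noncomputable def ev (m : ℕ) : E 𝕜 →ₗ[𝕜] B 𝕜 where
  toFun z := z.1 m
  map_add' _ _ := rfl
  map_smul' _ _ := rfl

noncomputable def p (m : ℕ) : Seminorm 𝕜 (E 𝕜) := (normSeminorm 𝕜 (B 𝕜)).comp (ev 𝕜 m)

theorem p_apply (m : ℕ) (z : E 𝕜) : p 𝕜 m z = ‖z.1 m‖ := rfl

theorem p_with : WithSeminorms (p 𝕜) := by
  rw [SeminormFamily.withSeminorms_iff_nhds_eq_iInf, nhds_subtype, nhds_pi, Filter.pi,
    comap_iInf]
  congr 1
  ext1 m
  rw [comap_comap]
  have : (𝓝 (((0 : E 𝕜) : ℕ → B 𝕜) m)) = comap norm (𝓝 0) := by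
    rw [comap_norm_nhds_zero]; rfl
  rw [this, comap_comap]
  rfl

theorem p_mono : Monotone (p 𝕜) := by
  apply monotone_nat_of_le_succ
  intro m z
  rw [p_apply, p_apply, ← z.2 m]
  exact T_norm 𝕜 _

theorem bij (c : 𝕜) : Function.Bijective (fun z : E 𝕜 => z - c • U 𝕜 z) := by
  by_cases hc : c = 0
  · subst hc
    simp only [zero_smul, sub_zero]
    exact Function.bijective_id
  obtain ⟨R, h1, h2, h3⟩ := exists_inv 𝕜 c hc
  constructor
  · intro z w hzw
    have key : ∀ m, z.1 (m + 1) = w.1 (m + 1) := by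
      intro m
      have := congrArg (fun y : E 𝕜 => y.1 m) hzw
      change z.1 m - c • z.1 (m + 1) = w.1 m - c • w.1 (m + 1) at this
      rw [← z.2 m, ← w.2 m] at this
      rw [← h1 (z.1 (m + 1)), this, h1]
    apply Subtype.ext
    funext m
    rw [← z.2 m, ← w.2 m, key]
  · intro y
    refine ⟨⟨fun m => T 𝕜 (R (y.1 m)), fun m => ?_⟩, ?_⟩
    · show T 𝕜 (T 𝕜 (R (y.1 (m + 1)))) = T 𝕜 (R (y.1 m))
      rw [← h3, y.2 m]
    · apply Subtype.ext
      funext m
      show T 𝕜 (R (y.1 m)) - c • T 𝕜 (R (y.1 (m + 1))) = y.1 m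
      rw [← h3 (y.1 (m + 1)), y.2 m, h2]

noncomputable def xb (k : ℕ) : B 𝕜 :=
  ofNormedAddCommGroupDiscrete (fun j => if j = k then (k.factorial : 𝕜) else 0) k.factorial
    (fun j => by
      split_ifs
      · rw [RCLike.norm_natCast]
      · simp)

theorem xb_apply (k j : ℕ) : xb 𝕜 k j = if j = k then (k.factorial : 𝕜) else 0 := rfl

noncomputable def x : E 𝕜 := ⟨xb 𝕜, fun m => by
  ext j
  rw [T_apply, xb_apply, xb_apply]
  by_cases h : j = m
  · subst h
    have : ((j : 𝕜) + 1) ≠ 0 := by exact_mod_cast Nat.succ_ne_zero j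
    simp only [if_true, Nat.factorial_succ]
    push_cast
    field_simp
  · simp [h]⟩

theorem diverge (c : 𝕜) (hc : c ≠ 0) (s : E 𝕜) :
    ¬ Tendsto (fun n : ℕ => ∑ k ∈ Finset.range n, c ^ k • (U 𝕜 ^ k) (x 𝕜)) atTop (𝓝 s) := by
  intro h
  have h1 := (h.comp (tendsto_add_atTop_nat 1)).sub h
  simp only [Function.comp_def, Finset.sum_range_succ, add_sub_cancel_left, sub_self] at h1
  have hcont : Continuous (fun z : E 𝕜 => ‖z.1 0‖) :=
    ((continuous_apply 0).comp continuous_subtype_val).norm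
  have h2 := (hcont.tendsto 0).comp h1
  have h3 : Tendsto (fun k : ℕ => ‖c‖ ^ k * k.factorial) atTop (𝓝 0) := by
    have h0 : ‖(0 : E 𝕜).1 0‖ = 0 := by simp
    rw [h0] at h2
    refine squeeze_zero (fun k => by positivity) (fun k => ?_) h2
    show _ ≤ ‖c ^ k • ((U 𝕜 ^ k) (x 𝕜)).1 0‖
    rw [U_pow, norm_smul, norm_pow, zero_add]
    apply mul_le_mul_of_nonneg_left _ (by positivity)
    have := (xb 𝕜 k).norm_coe_le_norm k
    rw [xb_apply, if_pos rfl, RCLike.norm_natCast] at this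
    exact this
  have h4 := FloorSemiring.tendsto_pow_div_factorial_atTop (‖c‖⁻¹)
  have h5 := h3.mul h4
  have hn : ‖c‖ ≠ 0 := norm_ne_zero_iff.mpr hc
  have e : (fun k : ℕ => ‖c‖ ^ k * k.factorial * (‖c‖⁻¹ ^ k / k.factorial)) = fun _ => (1 : ℝ) := by
    funext k
    have : (k.factorial : ℝ) ≠ 0 := by positivity
    field_simp
    rw [← mul_pow]
    simp [hn]
  rw [e, mul_zero] at h5
  exact one_ne_zero (tendsto_nhds_unique tendsto_const_nhds h5)

end Pool.Agent.H26.Neumann
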