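import Mathlib

set_option autoImplicit false

namespace Pool.Agent.H26.Newton

open Matrix Finset ComplexOrder

/-- Index sequences are strictly increasing maps `Fin k → Fin n`; the minor `A[f, g]`. -/
noncomputable def minor {n k : ℕ} (A : Matrix (Fin n) (Fin n) ℂ) (f g : Fin k → Fin n) : ℂ :=
  (A.submatrix f g).det

def PMatrix {n : ℕ} (A : Matrix (Fin n) (Fin n) ℂ) : Prop :=
  ∀ (k : ℕ) (f : Fin k → Fin n), 0 < k → StrictMono f → 0 < minor A f f

def WeaklySignSymm {n : ℕ} (A : Matrix (Fin n) (Fin n) ℂ) : Prop :=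
  ∀ (k : ℕ) (f g : Fin k → Fin n), StrictMono f → StrictMono g →
    (image f univ ∩ image g univ).card + 1 = k → 0 ≤ minor A f g * minor A g f

/-- the least real eigenvalue (`⊤` if there is none) -/
noncomputable def ell {k : ℕ} (B : Matrix (Fin k) (Fin k) ℂ) : EReal :=
  sInf ((fun x : ℝ => (x : EReal)) '' {x : ℝ | (x : ℂ) ∈ spectrum ℂ B})

def TauMatrix {n : ℕ} (A : Matrix (Fin n) (Fin n) ℂ) : Prop :=
  (∀ (k m : ℕ) (f : Fin k → Fin n) (g : Fin m → Fin n), StrictMono f → StrictMono g → 0 < m →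
    Set.range g ⊆ Set.range f →
    ell (A.submatrix f f) ≤ ell (A.submatrix g g) ∧ ell (A.submatrix g g) < ⊤) ∧ 0 ≤ ell A

def Stable {n : ℕ} (A : Matrix (Fin n) (Fin n) ℂ) : Prop := ∀ z ∈ spectrum ℂ A, 0 < z.re

open Classical in
/-- normalised sum of the principal minors of order `j` -/
noncomputable def c {n : ℕ} (A : Matrix (Fin n) (Fin n) ℂ) (j : ℕ) : ℂ :=
  (n.choose j : ℂ)⁻¹ * ∑ f ∈ univ.filter fun f : Fin j → Fin n => StrictMono f, minor A f f

def M (b : Bool) (k : ℕ) : Matrix (Fin k) (Fin k) ℤ := of fun i j =>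
  if b = true ∧ i.val = 0 then (if j.val = 0 then 100 else 10)
  else if b = true ∧ j.val = 0 then 90 else if i = j then 10 else if i < j then 9 else 0

noncomputable def A (b : Bool) (k : ℕ) : Matrix (Fin k) (Fin k) ℂ := (M b k).map (↑)

instance (k : ℕ) (f : Fin k → Fin 4) : Decidable (StrictMono f) :=
  decidable_of_iff (∀ a b, a < b → f a < f b) Iff.rfl

theorem le4 {k : ℕ} {f : Fin k → Fin 4} (h : StrictMono f) : k ≤ 4 := by
  simpa using Fintype.card_le_of_injective f h.injective

theorem sub {k : ℕ} (f : Fin (k + 1) → Fin 4) (h : StrictMono f) :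
    (A true 4).submatrix f f = A (decide (f 0 = 0)) (k + 1) ∧ (f 0 ≠ 0 → k < 3) := by
  have h4 := le4 h
  have : (M true 4).submatrix f f = M (decide (f 0 = 0)) (k + 1) ∧ (f 0 ≠ 0 → k < 3) := by
    have : k ≤ 3 := by omega
    interval_cases k <;> revert f <;> decide +kernel
  exact ⟨by rw [A, A, ← this.1]; rfl, this.2⟩

theorem spec (b : Bool) (k : ℕ) (hk : k ≤ 3) (z : ℂ) : z ∈ spectrum ℂ (A b (k + 1)) ↔
    (if b then z * (z - 10) ^ k - 100 * (z - 1) ^ k else (z - 10) ^ (k + 1)) = 0 := by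
  rw [spectrum.mem_iff, isUnit_iff_isUnit_det, isUnit_iff_ne_zero, not_not]
  refine Eq.congr_left ?_
  interval_cases k <;> cases b
  · rw [show algebraMap ℂ _ z - A false (0 + 1) =
      !![z - 10] by
      ext i j; fin_cases i <;> fin_cases j <;> simp [A, M, algebraMap_eq_diagonal]]
    simp [det_succ_row_zero, Fin.sum_univ_succ, Fin.succAbove]
  · rw [show algebraMap ℂ _ z - A true (0 + 1) =
      !![z - 100] by
      ext i j; fin_cases i <;> fin_cases j <;> simp [A, M, algebraMap_eq_diagonal]]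
    simp [det_succ_row_zero, Fin.sum_univ_succ, Fin.succAbove]
  · rw [show algebraMap ℂ _ z - A false (1 + 1) =
      !![z - 10, -9; 0, z - 10] by
      ext i j; fin_cases i <;> fin_cases j <;> simp [A, M, algebraMap_eq_diagonal]]
    simp [det_succ_row_zero, Fin.sum_univ_succ, Fin.succAbove] <;> ring
  · rw [show algebraMap ℂ _ z - A true (1 + 1) =
      !![z - 100, -10; -90, z - 10] by
      ext i j; fin_cases i <;> fin_cases j <;> simp [A, M, algebraMap_eq_diagonal]]
    simp [det_succ_row_zero, Fin.sum_univ_succ, Fin.succAbove] <;> ring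
  · rw [show algebraMap ℂ _ z - A false (2 + 1) =
      !![z - 10, -9, -9; 0, z - 10, -9; 0, 0, z - 10] by
      ext i j; fin_cases i <;> fin_cases j <;> simp [A, M, algebraMap_eq_diagonal]]
    simp [det_succ_row_zero, Fin.sum_univ_succ, Fin.succAbove] <;> ring
  · rw [show algebraMap ℂ _ z - A true (2 + 1) =
      !![z - 100, -10, -10; -90, z - 10, -9; -90, 0, z - 10] by
      ext i j; fin_cases i <;> fin_cases j <;> simp [A, M, algebraMap_eq_diagonal]]
    simp [det_succ_row_zero, Fin.sum_univ_succ, Fin.succAbove] <;> ring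
  · rw [show algebraMap ℂ _ z - A false (3 + 1) =
      !![z - 10, -9, -9, -9; 0, z - 10, -9, -9; 0, 0, z - 10, -9; 0, 0, 0, z - 10] by
      ext i j; fin_cases i <;> fin_cases j <;> simp [A, M, algebraMap_eq_diagonal]]
    simp [det_succ_row_zero, Fin.sum_univ_succ, Fin.succAbove] <;> ring
  · rw [show algebraMap ℂ _ z - A true (3 + 1) =
      !![z - 100, -10, -10, -10; -90, z - 10, -9, -9; -90, 0, z - 10, -9; -90, 0, 0, z - 10] by
      ext i j; fin_cases i <;> fin_cases j <;> simp [A, M, algebraMap_eq_diagonal]]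
    simp [det_succ_row_zero, Fin.sum_univ_succ, Fin.succAbove] <;> ring

theorem ell_false (k : ℕ) (hk : k ≤ 3) : ell (A false (k + 1)) = (10 : ℝ) := by
  have : {x : ℝ | (x : ℂ) ∈ spectrum ℂ (A false (k + 1))} = {10} := by
    ext x
    simp only [Set.mem_setOf_eq, spec _ _ hk, Set.mem_singleton_iff]
    simp only [Bool.false_eq_true, if_false, pow_eq_zero_iff k.succ_ne_zero, sub_eq_zero]
    exact_mod_cast Iff.rfl
  rw [ell, this, Set.image_singleton, sInf_singleton]

theorem ell_true (k : ℕ) (hk : k ≤ 3) (s t : ℝ) (hst : s ≤ t)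
    (h1 : ∀ x ≤ s, x * (10 - x) ^ k < 100 * (1 - x) ^ k)
    (h2 : 100 * (1 - t) ^ k ≤ t * (10 - t) ^ k) :
    (s : EReal) ≤ ell (A true (k + 1)) ∧ ell (A true (k + 1)) ≤ t := by
  have e : ∀ x : ℝ, (x : ℂ) ∈ spectrum ℂ (A true (k + 1)) ↔
      x * (10 - x) ^ k - 100 * (1 - x) ^ k = 0 := by
    intro x
    rw [spec _ _ hk, if_pos rfl]
    have : (x : ℂ) * ((x : ℂ) - 10) ^ k - 100 * ((x : ℂ) - 1) ^ k =
      (-1) ^ k * ((x * (10 - x) ^ k - 100 * (1 - x) ^ k : ℝ) : ℂ) := by
      rw [← neg_sub 10 (x : ℂ), ← neg_sub 1 (x : ℂ), neg_pow, neg_pow (1 - (x : ℂ))]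
      push_cast; ring
    rw [this]
    simp only [neg_sub, mul_eq_zero, pow_eq_zero_iff', neg_eq_zero, one_ne_zero, false_and,
      false_or, Complex.ofReal_eq_zero]
  constructor
  · refine le_sInf ?_
    rintro _ ⟨x, hx, rfl⟩
    refine EReal.coe_le_coe_iff.mpr (le_of_not_ge fun h => ?_)
    have := (e x).mp hx
    linarith [h1 x h]
  · obtain ⟨x, hx, h0⟩ := intermediate_value_Icc hst
      (f := fun x : ℝ => x * (10 - x) ^ k - 100 * (1 - x) ^ k) (by fun_prop)
      (show (0 : ℝ) ∈ Set.Icc _ _ from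
        Set.mem_Icc.mpr ⟨by linarith [h1 s le_rfl], by linarith⟩)
    refine le_trans ?_ (EReal.coe_le_coe_iff.mpr hx.2)
    exact sInf_le ⟨x, (e x).mpr h0, rfl⟩

theorem ells : ∃ a b c d : EReal, ell (A true 1) = a ∧ ell (A true 2) = b ∧ ell (A true 3) = c ∧
    ell (A true 4) = d ∧ 0 ≤ d ∧ d ≤ c ∧ c ≤ b ∧ b ≤ (10 : ℝ) ∧ b ≤ a ∧ a < ⊤ := by
  have h0 := ell_true 0 (by norm_num) 10 100 (by norm_num) (fun x hx => by simp; linarith)
    (by norm_num)
  have h1 := ell_true 1 (by norm_num) (1 / 2) 10 (by norm_num) (fun x hx => by nlinarith)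
    (by norm_num)
  have h2 := ell_true 2 (by norm_num) (1 / 10) (1 / 2) (by norm_num) (fun x hx => by nlinarith)
    (by norm_num)
  have h3 := ell_true 3 (by norm_num) 0 (1 / 10) (by norm_num) (fun x hx => by
    have : 0 < (1 - x) ^ 3 := pow_pos (by linarith) 3
    have : 0 < (10 - x) ^ 3 := pow_pos (by linarith) 3
    nlinarith) (by norm_num)
  exact ⟨_, _, _, _, rfl, rfl, rfl, rfl, h3.1, h3.2.trans h2.1, h2.2.trans h1.1, h1.2,
    h1.2.trans h0.1, h0.2.trans_lt (EReal.coe_lt_top _)⟩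

theorem minor_eq {k : ℕ} (f g : Fin k → Fin 4) :
    minor (A true 4) f g = (((M true 4).submatrix f g).det : ℤ) := by
  rw [minor, Int.cast_det]; rfl

/-- A stable GKK tau-matrix violating one of Newton's inequalities. -/
theorem cex : Stable (A true 4) ∧ PMatrix (A true 4) ∧
    WeaklySignSymm (A true 4) ∧ TauMatrix (A true 4) ∧
    c (A true 4) 2 ^ 2 < c (A true 4) (2 - 1) * c (A true 4) (2 + 1) := by
  refine ⟨fun z hz => ?_, fun k f hk hf => ?_, fun k f g hf hg h => ?_,
    ⟨fun k m f g hf hg hm h => ?_, ?_⟩, ?_⟩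
  · rw [spec _ 3 le_rfl, if_pos rfl] at hz
    by_contra h
    obtain ⟨x, hx, e⟩ : ∃ x : ℝ, 0 ≤ x ∧ z.re = -x := ⟨-z.re, by linarith, by ring⟩
    have h1 := congrArg Complex.re hz
    have h2 := congrArg Complex.im hz
    simp [pow_succ, e] at h1 h2
    generalize z.im = y at h1 h2
    by_cases hy : y = 0
    · subst hy
      have : 0 < x ^ 4 + 130 * x ^ 3 + 600 * x ^ 2 + 1300 * x + 100 := by positivity
      nlinarith
    · have h3 : y ^ 2 * (4 * x + 130) = 4 * x ^ 3 + 390 * x ^ 2 + 1200 * x + 1300 := by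
        apply mul_left_cancel₀ hy
        linear_combination h2
      have h4 : (y ^ 2) ^ 2 - y ^ 2 * (6 * x ^ 2 + 390 * x + 600) +
        (x ^ 4 + 130 * x ^ 3 + 600 * x ^ 2 + 1300 * x + 100) = 0 := by linear_combination h1
      generalize y ^ 2 = Y at h3 h4
      have : 0 < 64 * x ^ 6 + 12480 * x ^ 5 + 830400 * x ^ 4 + 20072000 * x ^ 3 +
        83234400 * x ^ 2 + 137436000 * x + 98020000 := by positivity
      refine this.ne' ?_
      linear_combination (-(4 * x + 130) ^ 2) * h4 + (Y * (4 * x + 130) +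
        (4 * x ^ 3 + 390 * x ^ 2 + 1200 * x + 1300) -
        (4 * x + 130) * (6 * x ^ 2 + 390 * x + 600)) * h3
  · rw [minor_eq]
    have h4 := le4 hf
    have : 0 < ((M true 4).submatrix f f).det := by
      interval_cases k <;> revert f <;> decide +kernel
    exact_mod_cast this
  · rw [minor_eq, minor_eq]
    have h4 := le4 hf
    have : 0 ≤ ((M true 4).submatrix f g).det * ((M true 4).submatrix g f).det := by
      revert g
      interval_cases k <;> revert f <;> decide +kernel
    exact_mod_cast this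
  · obtain ⟨a, b, c, d, e1, e2, e3, e4, -, h1, h2, h3, h4, h5⟩ := ells
    have hmk : m ≤ k := by
      have := Set.ncard_le_ncard h (Set.toFinite _)
      rwa [Set.ncard_range_of_injective hf.injective, Set.ncard_range_of_injective hg.injective,
        Nat.card_eq_fintype_card, Nat.card_eq_fintype_card, Fintype.card_fin,
        Fintype.card_fin] at this
    obtain ⟨m, rfl⟩ : ∃ l, m = l + 1 := ⟨m - 1, by omega⟩
    obtain ⟨k, rfl⟩ : ∃ l, k = l + 1 := ⟨k - 1, by omega⟩
    have k4 := le4 hf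
    have t10 : ((10 : ℝ) : EReal) < ⊤ := EReal.coe_lt_top _
    rw [(sub f hf).1, (sub g hg).1]
    by_cases g0 : g 0 = 0
    · have f0 : f 0 = 0 := by
        obtain ⟨i, hi⟩ := h ⟨0, g0⟩
        exact le_antisymm (hi ▸ hf.monotone (Fin.zero_le i)) (Fin.zero_le _)
      simp only [g0, f0, decide_true]
      have : k ≤ 3 := by omega
      have : m ≤ k := by omega
      interval_cases k <;> interval_cases m <;> simp only [Nat.reduceAdd, e1, e2, e3, e4] <;>
        constructor <;> order
    · simp only [g0, decide_false]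
      rw [ell_false _ (by omega)]
      refine ⟨?_, t10⟩
      by_cases f0 : f 0 = 0
      · simp only [f0, decide_true]
        have : k ≤ 3 := by omega
        interval_cases k
        · obtain ⟨i, hi⟩ := h ⟨0, rfl⟩
          exact absurd (by rw [← hi, Subsingleton.elim (α := Fin 1) i 0, f0]) g0
        all_goals simp only [Nat.reduceAdd, e1, e2, e3, e4]; order
      · simp only [f0, decide_false]
        rw [ell_false _ (by omega)]
  · obtain ⟨a, b, c, d, -, -, -, e, h, -⟩ := ells
    exact e ▸ h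
  · have key : ∀ (j : ℕ) (v : ℤ), ∑ f ∈ univ.filter (fun f : Fin j → Fin 4 => StrictMono f),
        ((M true 4).submatrix f f).det = v → c (A true 4) j = (Nat.choose 4 j : ℂ)⁻¹ * v := by
      intro j v h
      rw [c, ← h]
      simp only [minor_eq]
      push_cast
      congr
    rw [key 2 600 (by decide +kernel), key (2 - 1) 130 (by decide +kernel),
      key (2 + 1) 1300 (by decide +kernel)]
    norm_num [Nat.choose]
    rw [Complex.lt_def]
    norm_num

end Pool.Agent.H26.Newton
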