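import Mathlib
import Pool.Agent.H26.Mathias

/-! Density lemmas for analytic `Z₀`-MAD families. -/

namespace Pool.Agent.H26.ZMad

open Set Filter Topology

noncomputable def d (n : ℕ) (A : Set ℕ) : ℝ := ((A ∩ Iio n).ncard : ℝ) / n

def Z (A : Set ℕ) : Prop := Tendsto (fun n => d n A) atTop (𝓝 0)

lemma fin (n : ℕ) (A : Set ℕ) : (A ∩ Iio n).Finite := (Set.finite_Iio n).subset inter_subset_right

lemma d_nonneg (n : ℕ) (A : Set ℕ) : 0 ≤ d n A := by unfold d; positivity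

lemma d_mono (n : ℕ) {A B : Set ℕ} (h : A ⊆ B) : d n A ≤ d n B := by
  unfold d
  refine div_le_div_of_nonneg_right ?_ (by positivity)
  exact_mod_cast Set.ncard_le_ncard (inter_subset_inter_left _ h) (fin n B)

lemma d_union_add (n : ℕ) (A B : Set ℕ) : d n (A ∪ B) + d n (A ∩ B) = d n A + d n B := by
  unfold d
  rw [← add_div, ← add_div]
  congr 1
  have := Set.ncard_union_add_ncard_inter (A ∩ Iio n) (B ∩ Iio n) (fin n A) (fin n B)
  rw [← union_inter_distrib_right, ← inter_inter_distrib_right] at this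
  exact_mod_cast this

lemma d_le_one (n : ℕ) (A : Set ℕ) : d n A ≤ 1 := by
  unfold d
  refine div_le_one_of_le₀ ?_ (by positivity)
  have := Set.ncard_le_ncard (inter_subset_right : A ∩ Iio n ⊆ Iio n) (Set.finite_Iio n)
  rw [Set.ncard_Iio_nat] at this
  exact_mod_cast this

lemma d_univ {n : ℕ} (hn : 0 < n) : d n univ = 1 := by
  unfold d
  rw [univ_inter, Set.ncard_Iio_nat]
  have : (n : ℝ) ≠ 0 := by positivity
  field_simp

lemma d_union_le (n : ℕ) (A B : Set ℕ) : d n (A ∪ B) ≤ d n A + d n B := by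
  have := d_union_add n A B
  have := d_nonneg n (A ∩ B)
  linarith

lemma d_le_inter (n : ℕ) (A B : Set ℕ) : d n A ≤ d n (A ∩ B) + 1 - d n B := by
  have := d_union_add n A B
  have := d_le_one n (A ∪ B)
  linarith

lemma Z.mono {A B : Set ℕ} (h : Z B) (hAB : A ⊆ B) : Z A :=
  squeeze_zero (fun n => d_nonneg n A) (fun n => d_mono n hAB) h

lemma Z.union {A B : Set ℕ} (hA : Z A) (hB : Z B) : Z (A ∪ B) := by
  have := Tendsto.add hA hB
  rw [add_zero] at this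
  exact squeeze_zero (fun n => d_nonneg n _) (fun n => d_union_le n A B) this

lemma Z_of_finite {A : Set ℕ} (h : A.Finite) : Z A := by
  have h1 : Tendsto (fun n : ℕ => (A.ncard : ℝ) / n) atTop (𝓝 0) :=
    tendsto_const_div_atTop_nhds_zero_nat _
  refine squeeze_zero (fun n => d_nonneg n _) (fun n => ?_) h1
  unfold d
  refine div_le_div_of_nonneg_right ?_ (by positivity)
  exact_mod_cast Set.ncard_le_ncard inter_subset_left h

lemma Z.ev {A : Set ℕ} (h : Z A) {ε : ℝ} (hε : 0 < ε) : {n | ε ≤ d n A}.Finite := by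
  have := (h.eventually (gt_mem_nhds hε))
  rw [← Nat.cofinite_eq_atTop, Filter.eventually_cofinite] at this
  simpa using this

lemma Z_of_ev {A : Set ℕ} (h : ∀ ε > 0, {n | ε ≤ d n A}.Finite) : Z A := by
  rw [Z, Metric.tendsto_atTop]
  intro ε hε
  obtain ⟨N, hN⟩ := (h ε hε).bddAbove
  refine ⟨N + 1, fun n hn => ?_⟩
  rw [Real.dist_eq, sub_zero, abs_of_nonneg (d_nonneg _ _)]
  by_contra hc
  have := hN (not_lt.1 hc)
  omega

section fam

variable {𝒜 : Set (Set ℕ)}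

lemma Z_inter_sUnion (had : ∀ A ∈ 𝒜, ∀ B ∈ 𝒜, A ≠ B → Z (A ∩ B)) {A : Set ℕ} (hA : A ∈ 𝒜)
    {F : Set (Set ℕ)} (hF : F.Finite) (hFA : F ⊆ 𝒜) (hAF : A ∉ F) : Z (A ∩ ⋃₀ F) := by
  induction F, hF using Set.Finite.induction_on with
  | empty => simpa using Z_of_finite finite_empty
  | @insert B F _ _ ih =>
    rw [sUnion_insert, inter_union_distrib_left]
    refine Z.union (had A hA B (hFA (mem_insert _ _)) ?_) (ih ?_ ?_)
    · rintro rfl
      exact hAF (mem_insert _ _)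
    · exact (subset_insert _ _).trans hFA
    · exact fun h => hAF (mem_insert_of_mem _ h)

lemma Z_sUnion_inter (had : ∀ A ∈ 𝒜, ∀ B ∈ 𝒜, A ≠ B → Z (A ∩ B)) {E : Set (Set ℕ)}
    (hE : E.Finite) (hEA : E ⊆ 𝒜)
    {F : Set (Set ℕ)} (hF : F.Finite) (hFA : F ⊆ 𝒜) (hAF : Disjoint E F) :
    Z (⋃₀ E ∩ ⋃₀ F) := by
  induction E, hE using Set.Finite.induction_on with
  | empty => simpa using Z_of_finite finite_empty
  | @insert B E _ _ ih =>
    rw [sUnion_insert, union_inter_distrib_right]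
    refine Z.union (Z_inter_sUnion had (hEA (mem_insert _ _)) hF hFA ?_) (ih ?_ ?_)
    · exact fun h => Set.disjoint_left.1 hAF (mem_insert _ _) h
    · exact (subset_insert _ _).trans hEA
    · exact hAF.mono_left (subset_insert _ _)

/-- one saturation step -/
lemma one_step (had : ∀ A ∈ 𝒜, ∀ B ∈ 𝒜, A ≠ B → Z (A ∩ B)) {Y : Set ℕ} (hY : Y.Infinite)
    {ε : ℝ} (hε : 0 < ε) : ∃ F : Set (Set ℕ), F.Finite ∧ F ⊆ 𝒜 ∧ ∃ Y' ⊆ Y, Y'.Infinite ∧
      ∀ A ∈ 𝒜, A ∉ F → {n | n ∈ Y' ∧ ε < d n A}.Finite := by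
  let S : Set ℝ := {r | ∃ F : Set (Set ℕ), F.Finite ∧ F ⊆ 𝒜 ∧ {n | n ∈ Y ∧ r ≤ d n (⋃₀ F)}.Infinite}
  have hne : S.Nonempty := ⟨0, ∅, finite_empty, empty_subset _,
    hY.mono (fun n hn => ⟨hn, d_nonneg _ _⟩)⟩
  have hbdd : BddAbove S := by
    refine ⟨1, ?_⟩
    rintro r ⟨F, -, -, h⟩
    obtain ⟨n, hn⟩ := h.nonempty
    exact hn.2.trans (d_le_one _ _)
  obtain ⟨r, ⟨F, hF, hFA, hinf⟩, hr⟩ := exists_lt_of_lt_csSup hne (show sSup S - ε / 3 < sSup S by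
    linarith)
  refine ⟨F, hF, hFA, _, fun n hn => hn.1, hinf, ?_⟩
  intro A hA hAF
  have h1 : {n | n ∈ Y ∧ sSup S + ε / 3 ≤ d n (⋃₀ insert A F)}.Finite := by
    by_contra hc
    have : sSup S + ε / 3 ∈ S := ⟨_, hF.insert A, insert_subset hA hFA, hc⟩
    have := le_csSup hbdd this
    linarith
  have h2 := (Z_inter_sUnion had hA hF hFA hAF).ev (show 0 < ε / 3 by linarith)
  refine (h1.union h2).subset ?_
  rintro n ⟨⟨hn, hn1⟩, hn2⟩
  by_contra hc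
  simp only [mem_union, mem_setOf_eq, not_or, not_and, not_le] at hc
  have h3 := hc.1 hn
  rw [sUnion_insert] at h3
  have := d_union_add n A (⋃₀ F)
  linarith [hc.2]

lemma block {nn : ℕ → ℕ} (hn : StrictMono nn) {η : ℝ} (hη : 0 < η) {X A : Set ℕ}
    (hX : ∀ x ∈ X, ∃ j, η * nn j ≤ x ∧ x < nn j)
    (hA : Tendsto (fun j => d (nn j) A) atTop (𝓝 0)) : Z (X ∩ A) := by
  classical
  rw [Z, Metric.tendsto_atTop]
  intro ε hε
  rw [Metric.tendsto_atTop] at hA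
  obtain ⟨J, hJ⟩ := hA (ε * η) (by positivity)
  obtain ⟨N, hN⟩ := exists_nat_gt (η * nn J)
  refine ⟨N, fun m hm => ?_⟩
  rw [Real.dist_eq, sub_zero, abs_of_nonneg (d_nonneg _ _)]
  have hm' : η * nn J < m := hN.trans_le (by exact_mod_cast hm)
  have hex : ∃ j, (m : ℝ) ≤ η * nn (j + 1) := by
    obtain ⟨j, hj⟩ := exists_nat_ge ((m : ℝ) / η)
    refine ⟨j, ?_⟩
    have h1 : (j : ℝ) ≤ nn (j + 1) := by
      exact_mod_cast (Nat.le_succ j).trans (hn.id_le (j + 1))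
    rw [div_le_iff₀ hη] at hj
    nlinarith
  set j := Nat.find hex with hj
  have hj1 : (m : ℝ) ≤ η * nn (j + 1) := Nat.find_spec hex
  have hJj : J ≤ j := by
    by_contra hc
    have : nn (j + 1) ≤ nn J := hn.monotone (by omega)
    have : (nn (j + 1) : ℝ) ≤ nn J := by exact_mod_cast this
    nlinarith
  have hj2 : η * nn j < m := by
    rcases Nat.eq_zero_or_pos j with h0 | h0
    · have : J = j := by omega
      rw [← this]; exact hm'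
    · have := Nat.find_min hex (show j - 1 < j by omega)
      rw [Nat.sub_add_cancel h0] at this
      exact not_le.1 this
  have hsub : X ∩ A ∩ Iio m ⊆ A ∩ Iio (nn j) := by
    rintro x ⟨⟨hx, hxA⟩, hxm⟩
    obtain ⟨i, hi1, hi2⟩ := hX x hx
    refine ⟨hxA, lt_of_lt_of_le hi2 (hn.monotone ?_)⟩
    by_contra hc
    have : nn (j + 1) ≤ nn i := hn.monotone (by omega)
    have : (nn (j + 1) : ℝ) ≤ nn i := by exact_mod_cast this
    have : (x : ℝ) < m := by exact_mod_cast hxm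
    nlinarith
  have h1 := Set.ncard_le_ncard hsub (fin _ _)
  have h2 := hJ j hJj
  rw [Real.dist_eq, sub_zero, abs_of_nonneg (d_nonneg _ _)] at h2
  have hmpos : (0 : ℝ) < m := lt_of_le_of_lt (by positivity) hj2
  unfold d at h2 ⊢
  rw [div_lt_iff₀ hmpos]
  have h1' : ((X ∩ A ∩ Iio m).ncard : ℝ) ≤ (A ∩ Iio (nn j)).ncard := by exact_mod_cast h1
  rcases Nat.eq_zero_or_pos (nn j) with h0 | h0
  · have : (A ∩ Iio (nn j)).ncard = 0 := by simp [h0]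
    rw [this] at h1'
    have : 0 < ε * m := by positivity
    simp only [Nat.cast_zero] at h1'
    linarith
  · have h0' : (0 : ℝ) < nn j := by exact_mod_cast h0
    rw [div_lt_iff₀ h0'] at h2
    nlinarith

lemma d_low (n : ℕ) {η : ℝ} (hη : 0 < η) : d n {x : ℕ | (x : ℝ) < η * n} ≤ η + 1 / n := by
  rcases Nat.eq_zero_or_pos n with rfl | hn
  · simp [d, hη.le]
  have hn' : (0 : ℝ) < n := by exact_mod_cast hn
  have h1 : {x : ℕ | (x : ℝ) < η * n} ∩ Iio n ⊆ Iio ⌈η * n⌉₊ := by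
    rintro x ⟨hx, -⟩
    exact Nat.lt_ceil.2 hx
  have h2 := Set.ncard_le_ncard h1 (Set.finite_Iio _)
  rw [Set.ncard_Iio_nat] at h2
  have h3 : (⌈η * n⌉₊ : ℝ) < η * n + 1 := Nat.ceil_lt_add_one (by positivity)
  have h2' : (({x : ℕ | (x : ℝ) < η * n} ∩ Iio n).ncard : ℝ) ≤ ⌈η * n⌉₊ := by exact_mod_cast h2
  unfold d
  rw [div_le_iff₀ hn', add_mul, one_div, inv_mul_cancel₀ hn'.ne']
  linarith

/-- maximality makes the family tall -/
lemma tall (had : ∀ A ∈ 𝒜, ∀ B ∈ 𝒜, A ≠ B → Z (A ∩ B))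
    (hmax : ∀ X, ¬ Z X → ∃ A ∈ 𝒜, ¬ Z (X ∩ A)) {Y : Set ℕ} (hY : Y.Infinite) {t : ℝ}
    (ht : t < 1) : ∃ F : Set (Set ℕ), F.Finite ∧ F ⊆ 𝒜 ∧
      {n | n ∈ Y ∧ t ≤ d n (⋃₀ F)}.Infinite := by
  classical
  by_contra hc
  simp only [not_exists, not_and, Set.not_infinite] at hc
  have hstep : ∀ W : {W : Set ℕ // W.Infinite}, ∀ i : ℕ, ∃ p : Set (Set ℕ) × {W : Set ℕ // W.Infinite},
      p.1.Finite ∧ p.1 ⊆ 𝒜 ∧ p.2.1 ⊆ W.1 ∧
        ∀ A ∈ 𝒜, A ∉ p.1 → {n | n ∈ p.2.1 ∧ 1 / ((i : ℝ) + 1) < d n A}.Finite := by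
    intro W i
    obtain ⟨F, h1, h2, Y', h3, h4, h5⟩ := one_step had W.2
      (show (0 : ℝ) < 1 / ((i : ℝ) + 1) by positivity)
    exact ⟨(F, ⟨Y', h4⟩), h1, h2, h3, h5⟩
  choose st hs1 hs2 hs3 hs4 using hstep
  let W : ℕ → {W : Set ℕ // W.Infinite} := fun i => Nat.rec ⟨Y, hY⟩ (fun i W => (st W i).2) i
  let F : ℕ → Set (Set ℕ) := fun i => (st (W i) i).1
  have hWanti : Antitone (fun i => (W i).1) := antitone_nat_of_succ_le (fun i => hs3 (W i) i)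
  let E : ℕ → Set (Set ℕ) := fun j => ⋃ i ∈ Iio j, F i
  have hEfin : ∀ j, (E j).Finite := fun j => (Set.finite_Iio j).biUnion (fun i _ => hs1 _ _)
  have hEA : ∀ j, E j ⊆ 𝒜 := fun j => iUnion₂_subset (fun i _ => hs2 _ _)
  have hpick : ∀ j b : ℕ, ∃ n, b < n ∧ n ∈ (W j).1 ∧ d n (⋃₀ E j) < t := by
    intro j b
    obtain ⟨n, hn, hb⟩ := ((W j).2.diff (hc _ (hEfin j) (hEA j))).exists_gt b
    refine ⟨n, hb, hn.1, ?_⟩
    by_contra h
    exact hn.2 ⟨hWanti (Nat.zero_le j) hn.1, not_lt.1 h⟩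
  choose pk hp1 hp2 hp3 using hpick
  let nn : ℕ → ℕ := fun j => Nat.rec (pk 0 0) (fun j n => pk (j + 1) n) j
  have hnn : StrictMono nn := strictMono_nat_of_lt_succ (fun j => hp1 (j + 1) (nn j))
  have hnn' : ∀ j, ∃ b, nn j = pk j b := by
    intro j
    cases j with
    | zero => exact ⟨0, rfl⟩
    | succ j => exact ⟨nn j, rfl⟩
  set η : ℝ := (1 - t) / 3 with hη
  have hη0 : 0 < η := by rw [hη]; linarith
  let X : Set ℕ := {x : ℕ | ∃ j : ℕ, η * (Nat.cast (nn j) : ℝ) ≤ (x : ℝ) ∧ x < nn j ∧ x ∉ ⋃₀ E j}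
  have hXZ : ¬ Z X := by
    intro hZ
    obtain ⟨N, hN⟩ := (hZ.ev hη0).bddAbove
    obtain ⟨M, hM⟩ := exists_nat_gt (1 / η)
    set j := N + M + 1
    have hj : j ≤ nn j := hnn.id_le j
    have h1 : d (nn j) X < η := by
      by_contra h
      have := hN (not_lt.1 h)
      omega
    have hpos : 0 < nn j := by omega
    have h2 : d (nn j) univ ≤ d (nn j) ((X ∪ ⋃₀ E j) ∪ {x : ℕ | (x : ℝ) < η * nn j}) := by
      unfold d
      refine div_le_div_of_nonneg_right ?_ (by positivity)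
      have : univ ∩ Iio (nn j) ⊆ ((X ∪ ⋃₀ E j) ∪ {x : ℕ | (x : ℝ) < η * nn j}) ∩ Iio (nn j) := by
        rintro x ⟨-, hx⟩
        refine ⟨?_, hx⟩
        by_cases h3 : (x : ℝ) < η * nn j
        · exact Or.inr h3
        by_cases h4 : x ∈ ⋃₀ E j
        · exact Or.inl (Or.inr h4)
        · exact Or.inl (Or.inl ⟨j, not_lt.1 h3, hx, h4⟩)
      exact_mod_cast Set.ncard_le_ncard this (fin _ _)
    rw [d_univ hpos] at h2
    have h3 := d_union_le (nn j) (X ∪ ⋃₀ E j) {x : ℕ | (x : ℝ) < η * nn j}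
    have h4 := d_union_le (nn j) X (⋃₀ E j)
    have h5 := d_low (nn j) hη0
    have h6 : d (nn j) (⋃₀ E j) < t := by
      obtain ⟨b, hb⟩ := hnn' j
      rw [hb]; exact hp3 j b
    have h7 : 1 / (nn j : ℝ) ≤ η := by
      have hMj : (M : ℝ) ≤ nn j := by exact_mod_cast (show M ≤ nn j by omega)
      have hp : (0 : ℝ) < nn j := by exact_mod_cast hpos
      rw [div_le_iff₀ hp]
      rw [div_lt_iff₀ hη0] at hM
      nlinarith
    linarith
  obtain ⟨A, hA, hAZ⟩ := hmax X hXZ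
  apply hAZ
  by_cases hAE : ∃ i, A ∈ F i
  · obtain ⟨i, hi⟩ := hAE
    refine Z_of_finite ((Set.finite_Iio (nn i + 1)).subset ?_)
    rintro x ⟨⟨j, -, h2, h3⟩, hxA⟩
    have : j ≤ i := by
      by_contra h
      exact h3 ⟨A, mem_biUnion (show i ∈ Iio j from not_le.1 h) hi, hxA⟩
    have := hnn.monotone this
    show x < nn i + 1
    omega
  · refine block hnn hη0 (fun x ⟨j, h1, h2, _⟩ => ⟨j, h1, h2⟩) ?_
    rw [Metric.tendsto_atTop]
    intro ε hε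
    obtain ⟨i, hi⟩ := exists_nat_one_div_lt hε
    obtain ⟨N, hN⟩ := (hs4 (W i) i A hA (fun h => hAE ⟨i, h⟩)).bddAbove
    refine ⟨N + i + 1, fun j hj => ?_⟩
    rw [Real.dist_eq, sub_zero, abs_of_nonneg (d_nonneg _ _)]
    by_contra h
    have h1 : nn j ∈ (W (i + 1)).1 := by
      obtain ⟨b, hb⟩ := hnn' j
      refine hWanti (show i + 1 ≤ j by omega) ?_
      rw [hb]; exact hp2 j b
    have h2 := hN ⟨h1, lt_of_lt_of_le hi (not_lt.1 h)⟩
    have : j ≤ nn j := hnn.id_le j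
    omega

lemma pseudo {Y : ℕ → Set ℕ} (hY : ∀ k, (Y k).Infinite) (hanti : Antitone Y) :
    ∃ W : Set ℕ, W.Infinite ∧ ∀ k, (W \ Y k).Finite := by
  choose f hf1 hf2 using fun k => (hY k).exists_gt k
  refine ⟨range f, Set.infinite_of_forall_exists_gt (fun b => ⟨f b, mem_range_self b, hf2 b⟩), ?_⟩
  intro k
  refine ((Set.finite_Iio k).image f).subset ?_
  rintro n ⟨⟨i, rfl⟩, h⟩
  refine ⟨i, ?_, rfl⟩
  by_contra hc
  exact h (hanti (not_lt.1 hc) (hf1 i))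

/-- the coideal -/
def HH (𝒜 : Set (Set ℕ)) (θ : ℝ) : Set (Set ℕ) :=
  {Y | ∀ F : Set (Set ℕ), F.Finite → F ⊆ 𝒜 → ∀ t > θ, {n | n ∈ Y ∧ d n (⋃₀ F) < t}.Infinite}

lemma lemmaP (had : ∀ A ∈ 𝒜, ∀ B ∈ 𝒜, A ≠ B → Z (A ∩ B))
    (hmax : ∀ X, ¬ Z X → ∃ A ∈ 𝒜, ¬ Z (X ∩ A)) (θ : ℝ) (Y : ℕ → Set ℕ)
    (hY : ∀ k, Y k ∈ HH 𝒜 θ) (hanti : Antitone Y) :
    ∃ Z : ℕ → Set ℕ, (∀ i, (Z i).Infinite) ∧ (∀ i k, (Z i \ Y k).Finite) ∧
        ∀ B : Set ℕ, (∀ i, (B ∩ Z i).Infinite) → B ∈ HH 𝒜 θ := by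
  classical
  have hstep : ∀ E : {E : Set (Set ℕ) // E.Finite ∧ E ⊆ 𝒜}, ∀ i : ℕ,
      ∃ p : {E : Set (Set ℕ) // E.Finite ∧ E ⊆ 𝒜} × Set ℕ, E.1 ⊆ p.1.1 ∧ p.2.Infinite ∧
        (∀ k, (p.2 \ Y k).Finite) ∧ ∀ n ∈ p.2, d n (⋃₀ E.1) < θ + 1 / ((i : ℝ) + 1) ∧
          1 - 1 / ((i : ℝ) + 1) ≤ d n (⋃₀ p.1.1) := by
    intro E i
    have hpos : (0 : ℝ) < 1 / ((i : ℝ) + 1) := by positivity
    obtain ⟨W, hW, hWY⟩ := pseudo
      (Y := fun k => {n | n ∈ Y k ∧ d n (⋃₀ E.1) < θ + 1 / ((i : ℝ) + 1)})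
      (fun k => hY k E.1 E.2.1 E.2.2 _ (by linarith))
      (fun k l hkl n hn => ⟨hanti hkl hn.1, hn.2⟩)
    obtain ⟨F, hF, hFA, hinf⟩ := tall had hmax (hW.diff (hWY 0))
      (show 1 - 1 / ((i : ℝ) + 1) < 1 by linarith)
    refine ⟨(⟨E.1 ∪ F, E.2.1.union hF, union_subset E.2.2 hFA⟩, _), subset_union_left, hinf, ?_, ?_⟩
    · intro k
      refine (hWY k).subset ?_
      rintro n ⟨hn, hn'⟩
      exact ⟨hn.1.1, fun h => hn' h.1⟩
    · rintro n ⟨⟨h1, h2⟩, h3⟩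
      refine ⟨?_, h3.trans (d_mono _ (sUnion_mono subset_union_right))⟩
      by_contra h
      exact h2 ⟨h1, fun h' => h h'.2⟩
  choose st hs1 hs2 hs3 hs4 using hstep
  let E : ℕ → {E : Set (Set ℕ) // E.Finite ∧ E ⊆ 𝒜} := fun i =>
    Nat.rec ⟨∅, finite_empty, empty_subset _⟩ (fun i E => (st E i).1) i
  have hEmono : Monotone (fun i => (E i).1) := monotone_nat_of_le_succ (fun i => hs1 (E i) i)
  refine ⟨fun i => (st (E i) i).2, fun i => hs2 _ _, fun i k => hs3 _ _ k, ?_⟩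
  intro B hB F hF hFA t ht
  obtain ⟨j, hj⟩ : ∃ j, ∀ A ∈ F, (∃ i, A ∈ (E i).1) → A ∈ (E j).1 := by
    have : ∀ A : Set ℕ, ∃ j, (∃ i, A ∈ (E i).1) → A ∈ (E j).1 := by
      intro A
      by_cases h : ∃ i, A ∈ (E i).1
      · obtain ⟨i, hi⟩ := h
        exact ⟨i, fun _ => hi⟩
      · exact ⟨0, fun h' => absurd h' h⟩
    choose g hg using this
    obtain ⟨j, hj⟩ := (hF.image g).bddAbove
    exact ⟨j, fun A hA h => hEmono (hj (mem_image_of_mem g hA)) (hg A h)⟩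
  obtain ⟨i0, hi0⟩ := exists_nat_one_div_lt (show 0 < (t - θ) / 3 by linarith)
  set i := max i0 j
  have hi : 1 / ((i : ℝ) + 1) < (t - θ) / 3 := by
    refine lt_of_le_of_lt ?_ hi0
    have : (i0 : ℝ) ≤ i := by exact_mod_cast le_max_left _ _
    gcongr
  let F2 : Set (Set ℕ) := {A | A ∈ F ∧ ¬ ∃ i, A ∈ (E i).1}
  have hZ := Z_sUnion_inter had (E := F2) (hF.subset (fun A hA => hA.1))
    (fun A hA => hFA hA.1) (E (i + 1)).2.1 (E (i + 1)).2.2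
    (Set.disjoint_left.2 (fun A hA hA' => hA.2 ⟨i + 1, hA'⟩))
  refine ((hB i).diff (hZ.ev (show 0 < (t - θ) / 3 by linarith))).mono ?_
  rintro n ⟨⟨hn1, hn2⟩, hn3⟩
  refine ⟨hn1, ?_⟩
  obtain ⟨h1, h2⟩ := hs4 _ _ n hn2
  have h3 : ⋃₀ F ⊆ ⋃₀ (E i).1 ∪ ⋃₀ F2 := by
    rintro x ⟨A, hA, hx⟩
    by_cases h : ∃ i, A ∈ (E i).1
    · exact Or.inl ⟨A, hEmono (le_max_right i0 j) (hj A hA h), hx⟩
    · exact Or.inr ⟨A, ⟨hA, h⟩, hx⟩
  have h4 := d_mono n h3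
  have h5 := d_union_le n (⋃₀ (E i).1) (⋃₀ F2)
  have h6 := d_le_inter n (⋃₀ F2) (⋃₀ (E (i + 1)).1)
  simp only [mem_setOf_eq, not_le] at hn3
  have h2' : 1 - 1 / ((i : ℝ) + 1) ≤ d n (⋃₀ (E (i + 1)).1) := h2
  linarith

lemma univ_mem (had : ∀ A ∈ 𝒜, ∀ B ∈ 𝒜, A ≠ B → Z (A ∩ B)) (hpos : ∀ A ∈ 𝒜, ¬ Z A)
    (hunc : ¬ 𝒜.Countable) : ∃ θ < 1, (univ : Set ℕ) ∈ HH 𝒜 θ := by
  by_contra hc
  simp only [not_exists, not_and] at hc
  have : ∀ j : ℕ, ∃ F : Set (Set ℕ), F.Finite ∧ F ⊆ 𝒜 ∧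
      {n | d n (⋃₀ F) < 1 - 1 / ((j : ℝ) + 1)}.Finite := by
    intro j
    have hp : (0 : ℝ) < 1 / ((j : ℝ) + 1) := by positivity
    have := hc (1 - 1 / ((j : ℝ) + 1)) (by linarith)
    simp only [HH, mem_setOf_eq, not_forall, Set.not_infinite] at this
    obtain ⟨F, h1, h2, t, ht, h3⟩ := this
    exact ⟨F, h1, h2, h3.subset (fun n hn => ⟨mem_univ _, lt_trans hn ht⟩)⟩
  choose F hF1 hF2 hF3 using this
  apply hunc
  refine (Set.countable_iUnion (fun j => (hF1 j).countable)).mono ?_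
  intro A hA
  by_contra hAF
  simp only [mem_iUnion, not_exists] at hAF
  refine hpos A hA (Z_of_ev ?_)
  intro ε hε
  obtain ⟨j, hj⟩ := exists_nat_one_div_lt (show 0 < ε / 2 by linarith)
  have h1 := (Z_inter_sUnion had hA (hF1 j) (hF2 j) (hAF j)).ev (show 0 < ε / 2 by linarith)
  refine (h1.union (hF3 j)).subset ?_
  intro n hn
  by_contra h
  simp only [mem_union, mem_setOf_eq, not_or, not_le, not_lt] at h hn
  have := d_le_inter n A (⋃₀ F j)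
  linarith [h.1, h.2]

theorem countable_of_range (g : (ℕ → ℕ) → (ℕ → Bool)) (hg : Continuous g)
    (h𝒜 : ∀ A, A ∈ 𝒜 ↔ ∃ x, A = {n | g x n = true})
    (had : ∀ A ∈ 𝒜, ∀ B ∈ 𝒜, A ≠ B → Z (A ∩ B)) (hpos : ∀ A ∈ 𝒜, ¬ Z A)
    (hmax : ∀ X, ¬ Z X → ∃ A ∈ 𝒜, ¬ Z (X ∩ A)) : 𝒜.Countable := by
  classical
  by_contra hunc
  obtain ⟨θ, hθ, huniv⟩ := univ_mem had hpos hunc
  let Fy : (ℕ → ℕ) → Set (Set ℕ) := fun y =>
    (fun i => {n | g (fun j => y (Nat.pair i j + 1)) n = true}) '' Iio (y 0)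
  let G : (ℕ → ℕ) → Set ℕ := fun y => {n | (1 + θ) / 2 ≤ d n (⋃₀ Fy y)}
  refine Mathias.mathias (HH 𝒜 θ) ?_ ?_ ?_ (lemmaP had hmax θ) huniv G ?_ ?_ ?_
  · intro A hA B hAB F hF hFA t ht
    exact (hA F hF hFA t ht).mono (fun n hn => ⟨hAB hn.1, hn.2⟩)
  · intro Y hY X hX F hF hFA t ht
    simp only [HH, mem_setOf_eq, not_forall, Set.not_infinite] at hX
    obtain ⟨F0, h1, h2, t0, ht0, h3⟩ := hX
    refine ((hY (F ∪ F0) (hF.union h1) (union_subset hFA h2) (min t t0) (lt_min ht ht0)).diff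
      h3).mono ?_
    rintro n ⟨⟨hn1, hn2⟩, hn3⟩
    rw [lt_min_iff] at hn2
    refine ⟨⟨hn1, fun h => hn3 ⟨h, ?_⟩⟩, ?_⟩
    · exact lt_of_le_of_lt (d_mono _ (sUnion_mono subset_union_right)) hn2.2
    · exact lt_of_le_of_lt (d_mono _ (sUnion_mono subset_union_left)) hn2.1
  · intro X hX h
    exact h ∅ finite_empty (empty_subset _) (θ + 1) (by linarith) (hX.subset (fun n hn => hn.1))
  · intro n
    rw [← isOpen_compl_iff, isOpen_iff_mem_nhds]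
    intro y hy
    have h0 : ∀ᶠ y' in 𝓝 y, y' 0 = y 0 :=
      ((continuous_apply 0).continuousAt (x := y)).eventually (isOpen_discrete {y 0} |>.mem_nhds rfl)
    have h1 : ∀ᶠ y' in 𝓝 y, ∀ p ∈ (Iio (y 0)) ×ˢ (Iio n),
        g (fun j => y' (Nat.pair p.1 j + 1)) p.2 = g (fun j => y (Nat.pair p.1 j + 1)) p.2 := by
      rw [Filter.eventually_all_finite ((Set.finite_Iio _).prod (Set.finite_Iio _))]
      intro p _
      have hc : Continuous (fun y' : ℕ → ℕ => g (fun j => y' (Nat.pair p.1 j + 1)) p.2) :=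
        (continuous_apply p.2).comp (hg.comp (continuous_pi (fun j => continuous_apply _)))
      exact (hc.continuousAt (x := y)).eventually (isOpen_discrete
        {g (fun j => y (Nat.pair p.1 j + 1)) p.2} |>.mem_nhds rfl)
    filter_upwards [h0, h1] with y' h0 h1
    have : (⋃₀ Fy y') ∩ Iio n = (⋃₀ Fy y) ∩ Iio n := by
      ext x
      simp only [Fy, sUnion_image, mem_inter_iff, mem_iUnion, mem_setOf_eq, exists_prop, h0]
      constructor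
      · rintro ⟨⟨i, hi, h⟩, hx⟩
        exact ⟨⟨i, hi, (h1 (i, x) ⟨hi, hx⟩) ▸ h⟩, hx⟩
      · rintro ⟨⟨i, hi, h⟩, hx⟩
        exact ⟨⟨i, hi, (h1 (i, x) ⟨hi, hx⟩).symm ▸ h⟩, hx⟩
    simp only [G, mem_compl_iff, mem_setOf_eq, d] at hy ⊢
    rw [this]
    exact hy
  · intro y h
    refine h (Fy y) ((Set.finite_Iio _).image _) ?_ ((1 + θ) / 2) (by linarith) ?_
    · rintro A ⟨i, -, rfl⟩
      exact (h𝒜 _).2 ⟨_, rfl⟩
    · refine finite_empty.subset ?_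
      rintro n ⟨h1, h2⟩
      exact absurd h1 (not_le.2 h2)
  · intro Y hY
    obtain ⟨F, hF, hFA, hinf⟩ := tall had hmax hY (show (1 + θ) / 2 < 1 by linarith)
    obtain ⟨k, f, hf⟩ : ∃ k : ℕ, ∃ f : ℕ → Set ℕ, F = f '' Iio k := by
      obtain ⟨k, f, -, hf⟩ := hF.fin_param
      refine ⟨k, fun i => if h : i < k then f ⟨i, h⟩ else ∅, ?_⟩
      rw [← hf]
      ext A
      constructor
      · rintro ⟨i, rfl⟩
        exact ⟨i, i.2, by simp⟩
      · rintro ⟨i, hi, rfl⟩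
        have hi' : i < k := hi
        exact ⟨⟨i, hi'⟩, by simp [hi']⟩
    have hx : ∀ i, ∃ x : ℕ → ℕ, i < k → f i = {n | g x n = true} := by
      intro i
      by_cases hi : i < k
      · obtain ⟨x, hx⟩ := (h𝒜 (f i)).1 (hFA (hf ▸ mem_image_of_mem f hi))
        exact ⟨x, fun _ => hx⟩
      · exact ⟨0, fun h => absurd h hi⟩
    choose x hx using hx
    let y : ℕ → ℕ := fun m => Nat.casesOn m k (fun m => x (Nat.unpair m).1 (Nat.unpair m).2)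
    refine ⟨y, hinf.mono ?_⟩
    rintro n ⟨h1, h2⟩
    refine ⟨h1, h2.trans (d_mono _ (sUnion_mono ?_))⟩
    rw [hf]
    rintro A ⟨i, hi, rfl⟩
    refine ⟨i, hi, ?_⟩
    rw [hx i hi]
    simp [y]

end fam

end Pool.Agent.H26.ZMad
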