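import Mathlib
import Pool.Agent.H26.ZMad

/-! Nikodym boundedness for `P(ℕ)` and for the Fubini product `Z × Fin`. -/

namespace Pool.Agent.H26.Nik

open Set Filter Topology Pool.Agent.H26.ZMad

lemma add_fin {R : Set (Set ℕ)} (h0 : ∅ ∈ R) (hu : ∀ A ∈ R, ∀ B ∈ R, A ∪ B ∈ R) {ν : Set ℕ → ℝ}
    (hadd : ∀ A ∈ R, ∀ B ∈ R, Disjoint A B → ν (A ∪ B) = ν A + ν B) {ι : Type*}
    (E : ι → Set ℕ) (s : Finset ι) (hR : ∀ i ∈ s, E i ∈ R)
    (hd : ∀ i ∈ s, ∀ j ∈ s, i ≠ j → Disjoint (E i) (E j)) :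
    (⋃ i ∈ s, E i) ∈ R ∧ ν (⋃ i ∈ s, E i) = ∑ i ∈ s, ν (E i) := by
  classical
  induction s using Finset.induction_on with
  | empty =>
    have := hadd ∅ h0 ∅ h0 (by simp)
    simp only [union_self] at this
    simp only [Finset.notMem_empty, iUnion_of_empty, iUnion_empty, Finset.sum_empty]
    exact ⟨h0, by linarith⟩
  | insert a s ha ih =>
    obtain ⟨h1, h2⟩ := ih (fun i hi => hR i (Finset.mem_insert_of_mem hi))
      (fun i hi j hj => hd i (Finset.mem_insert_of_mem hi) j (Finset.mem_insert_of_mem hj))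
    have h3 := hR a (Finset.mem_insert_self _ _)
    rw [Finset.set_biUnion_insert, Finset.sum_insert ha, ← h2]
    refine ⟨hu _ h3 _ h1, hadd _ h3 _ h1 ?_⟩
    simp only [disjoint_iUnion_right]
    intro i hi
    exact hd a (Finset.mem_insert_self _ _) i (Finset.mem_insert_of_mem hi)
      (fun h => ha (h ▸ hi))

lemma var_le {R : Set (Set ℕ)} (h0 : ∅ ∈ R) (hu : ∀ A ∈ R, ∀ B ∈ R, A ∪ B ∈ R) {ν : Set ℕ → ℝ}
    (hadd : ∀ A ∈ R, ∀ B ∈ R, Disjoint A B → ν (A ∪ B) = ν A + ν B) {C : ℝ}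
    (hC : ∀ A ∈ R, |ν A| ≤ C) {ι : Type*}
    (E : ι → Set ℕ) (s : Finset ι) (hR : ∀ i ∈ s, E i ∈ R)
    (hd : ∀ i ∈ s, ∀ j ∈ s, i ≠ j → Disjoint (E i) (E j)) : ∑ i ∈ s, |ν (E i)| ≤ 2 * C := by
  classical
  have key : ∀ t ⊆ s, |∑ i ∈ t, ν (E i)| ≤ C := by
    intro t ht
    obtain ⟨h1, h2⟩ := add_fin h0 hu hadd E t (fun i hi => hR i (ht hi))
      (fun i hi j hj => hd i (ht hi) j (ht hj))
    rw [← h2]; exact hC _ h1
  rw [← Finset.sum_filter_add_sum_filter_not s (fun i => 0 ≤ ν (E i))]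
  have h1 := abs_le.1 (key _ (Finset.filter_subset (fun i => 0 ≤ ν (E i)) s))
  have h2 := abs_le.1 (key _ (Finset.filter_subset (fun i => ¬ 0 ≤ ν (E i)) s))
  rw [Finset.sum_congr rfl (fun i hi => abs_of_nonneg (Finset.mem_filter.1 hi).2),
    Finset.sum_congr (s₁ := s.filter (fun i => ¬ 0 ≤ ν (E i))) rfl
      (fun i hi => abs_of_neg (not_le.1 (Finset.mem_filter.1 hi).2)), Finset.sum_neg_distrib]
  linarith [h1.2, h2.1]

lemma thin {ν : Set ℕ → ℝ} (hadd : ∀ A B, Disjoint A B → ν (A ∪ B) = ν A + ν B) {C : ℝ}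
    (hC : ∀ A, |ν A| ≤ C) {E : ℕ → Set ℕ} (hE : Pairwise (Function.onFun Disjoint E))
    {L : Set ℕ} (hL : L.Infinite) :
    ∃ L' ⊆ L, L'.Infinite ∧ ∀ B ⊆ ⋃ j ∈ L', E j, |ν B| ≤ 1 := by
  by_contra hc
  simp only [not_exists, not_and, not_forall, not_le] at hc
  let f := hL.natEmbedding
  have hfi : Function.Injective (fun m => (f m : ℕ)) := fun a b h => f.injective (Subtype.ext h)
  choose B hB1 hB2 using fun i => hc (range (fun m => (f (Nat.pair i m) : ℕ)))
    (by rintro _ ⟨m, rfl⟩; exact (f _).2)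
    (infinite_range_of_injective (fun a b h => by simpa using hfi h))
  obtain ⟨M, hM⟩ := exists_nat_gt (2 * C)
  have h1 := var_le (R := univ) trivial (fun _ _ _ _ => trivial) (fun A _ B _ => hadd A B)
    (fun A _ => hC A) B (Finset.range M) (fun _ _ => trivial) (by
      intro i _ j _ hij
      refine Disjoint.mono (hB1 i) (hB1 j) ?_
      simp only [disjoint_iUnion_left, disjoint_iUnion_right]
      rintro _ ⟨m, rfl⟩ _ ⟨m', rfl⟩
      refine hE (fun h => hij ?_)
      have := hfi h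
      simp only [Nat.pair_eq_pair] at this
      exact this.1)
  have h2 := Finset.sum_le_sum (s := Finset.range M) (fun i _ => (hB2 i).le)
  simp only [Finset.sum_const, Finset.card_range, nsmul_eq_mul, mul_one] at h2
  linarith

theorem nik_univ (μ : ℕ → Set ℕ → ℝ)
    (hadd : ∀ n A B, Disjoint A B → μ n (A ∪ B) = μ n A + μ n B)
    (hb : ∀ n, ∃ C, ∀ A, |μ n A| ≤ C) (hp : ∀ A, ∃ C, ∀ n, |μ n A| ≤ C) :
    ∃ C, ∀ n A, |μ n A| ≤ C := by
  classical
  choose C hC using hp
  have hC0 : ∀ A, 0 ≤ C A := fun A => (abs_nonneg _).trans (hC A 0)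
  let U : Set ℕ → Prop := fun A => ∀ r : ℝ, ∃ n, ∃ B ⊆ A, r < |μ n B|
  by_contra hc
  have hU : U univ := by
    intro r
    simp only [not_exists, not_forall, not_le] at hc
    obtain ⟨n, A, h⟩ := hc r
    exact ⟨n, A, subset_univ _, h⟩
  have hsplit : ∀ n A B, μ n A = μ n (A ∩ B) + μ n (A \ B) := by
    intro n A B
    rw [← hadd n (A ∩ B) (A \ B) disjoint_inf_sdiff, inter_union_diff]
  have ha : ∀ A, U A → ∀ r : ℝ, ∃ n E, E ⊆ A ∧ r < |μ n E| ∧ U (A \ E) := by
    intro A hA r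
    obtain ⟨n, B, hB, h⟩ := hA (r + C A)
    by_cases h1 : U (A \ B)
    · exact ⟨n, B, hB, by linarith [hC0 A], h1⟩
    refine ⟨n, A \ B, diff_subset, ?_, ?_⟩
    · have h2 := hsplit n A B
      rw [inter_eq_self_of_subset_right hB] at h2
      have h3 := hC A n
      have h4 : μ n B = μ n A - μ n (A \ B) := by linarith
      rw [h4] at h
      linarith [abs_sub (μ n A) (μ n (A \ B))]
    · rw [diff_diff_cancel_left hB]
      intro r'
      simp only [U, not_forall, not_exists, not_and, not_lt] at h1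
      obtain ⟨r1, h1⟩ := h1
      obtain ⟨m, D, hD, h2⟩ := hA (r' + r1)
      refine ⟨m, D ∩ B, inter_subset_right, ?_⟩
      rw [hsplit m D B] at h2
      linarith [abs_add_le (μ m (D ∩ B)) (μ m (D \ B)), h1 m _ (diff_subset_diff_left hD)]
  choose! fn fE hf1 hf2 hf3 using ha
  let st : ℕ → Set ℕ × ℝ := fun k => Nat.rec (univ, 0)
    (fun k p => (p.1 \ fE p.1 (p.2 + k + 1), p.2 + C (fE p.1 (p.2 + k + 1)))) k
  let E : ℕ → Set ℕ := fun k => fE (st k).1 ((st k).2 + k + 1)
  let nn : ℕ → ℕ := fun k => fn (st k).1 ((st k).2 + k + 1)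
  have hst1 : ∀ k, (st (k + 1)).1 = (st k).1 \ E k := fun k => rfl
  have hst2 : ∀ k, (st k).2 = ∑ j ∈ Finset.range k, C (E j) := by
    intro k
    induction k with
    | zero => rfl
    | succ k ih => rw [Finset.sum_range_succ, ← ih]
  have hUst : ∀ k, U (st k).1 := by
    intro k
    induction k with
    | zero => exact hU
    | succ k ih => exact hf3 _ ih _
  have hanti : Antitone (fun k => (st k).1) :=
    antitone_nat_of_succ_le (fun k => by simp only [hst1]; exact diff_subset)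
  have hE : Pairwise (Function.onFun Disjoint E) := by
    have : ∀ i j, i < j → Disjoint (E i) (E j) := by
      intro i j hij
      refine Disjoint.mono_right ((hf1 _ (hUst j) _).trans (hanti (Nat.succ_le_of_lt hij))) ?_
      simp only [hst1]
      exact disjoint_sdiff_right
    intro i j hij
    rcases lt_or_gt_of_ne hij with h | h
    · exact this i j h
    · exact (this j i h).symm
  have hthin : ∀ L : {L : Set ℕ // L.Infinite}, ∃ L' : {L : Set ℕ // L.Infinite},
      L'.1 ⊆ L.1 ∧ (∀ j ∈ L'.1, sInf L.1 < j) ∧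
        ∀ B ⊆ ⋃ j ∈ L'.1, E j, |μ (nn (sInf L.1)) B| ≤ 1 := by
    intro L
    obtain ⟨c, hc⟩ := hb (nn (sInf L.1))
    obtain ⟨L', h1, h2, h3⟩ := thin (hadd _) hc hE (L.2.diff (finite_Iic (sInf L.1)))
    exact ⟨⟨L', h2⟩, fun j hj => (h1 hj).1, fun j hj => not_le.1 (h1 hj).2, h3⟩
  choose g hg1 hg2 hg3 using hthin
  let L : ℕ → {L : Set ℕ // L.Infinite} := fun i => Nat.rec ⟨univ, infinite_univ⟩ (fun _ L => g L) i
  let k : ℕ → ℕ := fun i => sInf (L i).1
  have hkL : ∀ i, k i ∈ (L i).1 := fun i => Nat.sInf_mem (L i).2.nonempty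
  have hk : StrictMono k := strictMono_nat_of_lt_succ (fun i => hg2 (L i) _ (hkL (i + 1)))
  have hLanti : Antitone (fun i => (L i).1) := antitone_nat_of_succ_le (fun i => hg1 (L i))
  obtain ⟨i, hi⟩ := exists_nat_gt (C (⋃ i, E (k i)))
  have h1 := hC (⋃ i, E (k i)) (nn (k i))
  have h2 : (⋃ i, E (k i)) = ((⋃ j ∈ (Finset.range i).image k, E j) ∪ E (k i)) ∪
      ⋃ l ∈ Ioi i, E (k l) := by
    ext x
    simp only [mem_iUnion, mem_union, Finset.mem_image, Finset.mem_range, exists_prop, mem_Ioi]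
    constructor
    · rintro ⟨l, hl⟩
      rcases lt_trichotomy l i with h | rfl | h
      · exact Or.inl (Or.inl ⟨_, ⟨l, h, rfl⟩, hl⟩)
      · exact Or.inl (Or.inr hl)
      · exact Or.inr ⟨l, h, hl⟩
    · rintro ((⟨_, ⟨l, -, rfl⟩, hl⟩ | hl) | ⟨l, -, hl⟩) <;> exact ⟨_, hl⟩
  have h3 := (add_fin (R := univ) trivial (fun _ _ _ _ => trivial)
    (fun A _ B _ => hadd (nn (k i)) A B) E ((Finset.range i).image k) (fun _ _ => trivial)
    (fun a _ b _ h => hE h)).2
  have h4 : |μ (nn (k i)) (⋃ j ∈ (Finset.range i).image k, E j)| ≤ (st (k i)).2 := by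
    rw [h3, hst2]
    refine (Finset.abs_sum_le_sum_abs _ _).trans ((Finset.sum_le_sum (fun j _ => hC _ _)).trans
      (Finset.sum_le_sum_of_subset_of_nonneg ?_ (fun _ _ _ => hC0 _)))
    intro j hj
    obtain ⟨l, hl, rfl⟩ := Finset.mem_image.1 hj
    exact Finset.mem_range.2 (hk (Finset.mem_range.1 hl))
  have h5 : |μ (nn (k i)) (⋃ l ∈ Ioi i, E (k l))| ≤ 1 := by
    refine hg3 (L i) _ (iUnion₂_subset (fun l hl => ?_))
    exact subset_biUnion_of_mem (u := E) (hLanti (Nat.succ_le_of_lt hl) (hkL l))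
  have h6 : (st (k i)).2 + k i + 1 < |μ (nn (k i)) (E (k i))| := hf2 _ (hUst _) _
  have h7 : (i : ℝ) ≤ k i := by exact_mod_cast hk.id_le i
  rw [h2, hadd, hadd] at h1
  · rw [h2] at hi
    have := abs_le.1 h1
    have := abs_le.1 h4
    have := abs_le.1 h5
    rcases lt_abs.1 h6 with h | h <;> linarith
  · simp only [disjoint_iUnion_left, Finset.mem_image, Finset.mem_range]
    rintro _ ⟨l, hl, rfl⟩
    exact hE (hk hl).ne
  · simp only [disjoint_union_left, disjoint_iUnion_left, disjoint_iUnion_right, Finset.mem_image,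
      Finset.mem_range]
    intro l hl
    refine ⟨?_, hE (hk hl).ne⟩
    rintro _ ⟨l', hl', rfl⟩
    exact hE (hk (lt_trans hl' hl)).ne

/-- columns with an infinite section -/
def S (A : Set ℕ) : Set ℕ := {a | {b | Nat.pair a b ∈ A}.Infinite}

/-- the ideal `Z × Fin` -/
def I : Set (Set ℕ) := {A | Z (S A)}

lemma S_mono {A B : Set ℕ} (h : A ⊆ B) : S A ⊆ S B := fun _ ha =>
  Set.Infinite.mono (fun _ hb => h hb) ha

lemma I_sub {A B : Set ℕ} (hA : A ∈ I) (h : B ⊆ A) : B ∈ I := Z.mono hA (S_mono h)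

lemma I_union (A : Set ℕ) (hA : A ∈ I) (B : Set ℕ) (hB : B ∈ I) : A ∪ B ∈ I := by
  refine Z.mono (Z.union hA hB) ?_
  intro a ha
  exact infinite_union.1 ha

lemma I_col {A : Set ℕ} {j : ℕ} (h : ∀ m ∈ A, (Nat.unpair m).1 < j) : A ∈ I := by
  refine Z_of_finite ((finite_Iio j).subset ?_)
  intro a ha
  obtain ⟨b, hb⟩ := Set.Infinite.nonempty ha
  simpa using h _ hb

lemma I_fin {A : Set ℕ} (h : A.Finite) : A ∈ I := by
  obtain ⟨j, hj⟩ := h.bddAbove
  exact I_col (j := j + 1) (fun m hm => Nat.lt_succ_of_le ((Nat.unpair_left_le m).trans (hj hm)))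

lemma not_Z {T : Set ℕ} (h : ∀ b, ∃ k ≥ b, ∀ a, k ≤ a → a ≤ 2 * k → a ∈ T) : ¬ Z T := by
  intro hZ
  obtain ⟨N, hN⟩ := (hZ.ev (show (0 : ℝ) < 1 / 2 by norm_num)).bddAbove
  obtain ⟨k, hk, h⟩ := h N
  have : 2 * k + 1 ≤ N := hN (by
    show 1 / 2 ≤ d (2 * k + 1) T
    have h1 : (Finset.Icc k (2 * k) : Set ℕ) ⊆ T ∩ Iio (2 * k + 1) := by
      intro a ha
      simp only [Finset.coe_Icc, mem_Icc] at ha
      exact ⟨h a ha.1 ha.2, Nat.lt_succ_of_le ha.2⟩
    have h2 := Set.ncard_le_ncard h1 (fin _ _)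
    rw [Set.ncard_coe_finset, Nat.card_Icc, show 2 * k + 1 - k = k + 1 by omega] at h2
    have h3 : ((k + 1 : ℕ) : ℝ) ≤ (T ∩ Iio (2 * k + 1)).ncard := by exact_mod_cast h2
    unfold d
    rw [le_div_iff₀ (by positivity)]
    push_cast at h3 ⊢
    linarith)
  omega

lemma univ_not : (univ : Set ℕ) ∉ I :=
  not_Z (fun b => ⟨b, le_rfl, fun _ _ _ => by simpa [S] using infinite_univ⟩)

lemma d_mod {j r : ℕ} (hj : 0 < j) (N : ℕ) : d N {a | j ≤ a ∧ a % j = r} ≤ 1 / j := by
  rcases Nat.eq_zero_or_pos N with rfl | hN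
  · simp [d]
  have h1 : ({a | j ≤ a ∧ a % j = r} ∩ Iio N).ncard ≤ (Finset.Icc 1 (N / j) : Set ℕ).ncard := by
    refine Set.ncard_le_ncard_of_injOn (fun a => a / j) ?_ ?_ (Finset.finite_toSet _)
    · rintro a ⟨⟨h1, -⟩, h2⟩
      simp only [Finset.coe_Icc, mem_Icc]
      exact ⟨(Nat.one_le_div_iff hj).2 h1, Nat.div_le_div_right (le_of_lt h2)⟩
    · rintro a ⟨⟨-, h1⟩, -⟩ b ⟨⟨-, h2⟩, -⟩ h
      have h' : a / j = b / j := h
      rw [← Nat.div_add_mod a j, ← Nat.div_add_mod b j, h', h1, h2]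
  rw [Set.ncard_coe_finset, Nat.card_Icc, Nat.add_sub_cancel] at h1
  have h2 : (({a | j ≤ a ∧ a % j = r} ∩ Iio N).ncard : ℝ) ≤ (N : ℝ) / j :=
    le_trans (by exact_mod_cast h1) Nat.cast_div_le
  unfold d
  rw [div_le_iff₀ (by exact_mod_cast hN)]
  linarith [show (N : ℝ) / j = 1 / j * N by ring]

lemma Z_iUnion {T : ℕ → Set ℕ} (hZ : ∀ k, Z (T k)) (h1 : ∀ k, ∀ a ∈ T k, k ≤ a)
    (h2 : ∀ k N, d N (T k) ≤ (1 / 2) ^ k) : Z (⋃ k, T k) := by
  have hfin : ∀ K, Z (⋃ k ∈ Iio K, T k) := by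
    intro K
    induction K with
    | zero => simpa using Z_of_finite finite_empty
    | succ K ih =>
      refine Z.mono (Z.union ih (hZ K)) (iUnion₂_subset (fun k hk => ?_))
      rcases Nat.lt_succ_iff_lt_or_eq.1 hk with h | rfl
      · exact (subset_biUnion_of_mem (u := T) (show k ∈ Iio K from h)).trans subset_union_left
      · exact subset_union_right
  have htail : ∀ K N M, d N (⋃ k ∈ Ico K (K + M), T k) ≤ 2 * (1 / 2) ^ K - 2 * (1 / 2) ^ (K + M) := by
    intro K N M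
    induction M with
    | zero => simp [d]
    | succ M ih =>
      have : (⋃ k ∈ Ico K (K + (M + 1)), T k) ⊆ (⋃ k ∈ Ico K (K + M), T k) ∪ T (K + M) := by
        refine iUnion₂_subset (fun k hk => ?_)
        rcases Nat.lt_succ_iff_lt_or_eq.1 hk.2 with h | rfl
        · exact (subset_biUnion_of_mem (u := T) (show k ∈ Ico K (K + M) from ⟨hk.1, h⟩)).trans
            subset_union_left
        · exact subset_union_right
      have h3 := (d_mono N this).trans (d_union_le _ _ _)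
      have := h2 (K + M) N
      rw [← add_assoc, pow_succ]
      rw [← add_assoc] at h3
      linarith
  refine Z_of_ev (fun ε hε => ?_)
  obtain ⟨K, hK⟩ := exists_pow_lt_of_lt_one (show 0 < ε / 4 by positivity)
    (show (1 / 2 : ℝ) < 1 by norm_num)
  refine ((hfin K).ev (show 0 < ε / 2 by positivity)).subset ?_
  intro N hN
  have h3 : d N (⋃ k, T k) ≤ d N ((⋃ k ∈ Iio K, T k) ∪ ⋃ k ∈ Ico K (K + N), T k) := by
    unfold d
    refine div_le_div_of_nonneg_right ?_ (by positivity)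
    have : (⋃ k, T k) ∩ Iio N ⊆ ((⋃ k ∈ Iio K, T k) ∪ ⋃ k ∈ Ico K (K + N), T k) ∩ Iio N := by
      rintro a ⟨ha, haN⟩
      obtain ⟨k, hk⟩ := mem_iUnion.1 ha
      refine ⟨?_, haN⟩
      by_cases h : k < K
      · exact Or.inl (mem_biUnion h hk)
      · have := h1 k a hk
        have : a < N := haN
        exact Or.inr (mem_biUnion (show k ∈ Ico K (K + N) from ⟨by omega, by omega⟩) hk)
    exact_mod_cast Set.ncard_le_ncard this (fin _ _)
  have h4 := d_union_le N (⋃ k ∈ Iio K, T k) (⋃ k ∈ Ico K (K + N), T k)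
  have h5 := htail K N N
  have : (0 : ℝ) < (1 / 2) ^ (K + N) := by positivity
  simp only [mem_setOf_eq] at hN ⊢
  linarith

theorem nik_I (μ : ℕ → Set ℕ → ℝ)
    (hadd : ∀ n, ∀ A ∈ I, ∀ B ∈ I, Disjoint A B → μ n (A ∪ B) = μ n A + μ n B)
    (hb : ∀ n, ∃ C, ∀ A ∈ I, |μ n A| ≤ C) (hp : ∀ A ∈ I, ∃ C, ∀ n, |μ n A| ≤ C) :
    ∃ C, ∀ n, ∀ A ∈ I, |μ n A| ≤ C := by
  classical
  have h1 : ∀ W ∈ I, ∃ C, ∀ n, ∀ B ⊆ W, |μ n B| ≤ C := by
    intro W hW
    obtain ⟨C, hC⟩ := nik_univ (fun n A => μ n (A ∩ W)) (fun n A B h => by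
      rw [union_inter_distrib_right]
      exact hadd n _ (I_sub hW inter_subset_right) _ (I_sub hW inter_subset_right)
        (h.mono inter_subset_left inter_subset_left))
      (fun n => (hb n).imp (fun C h A => h _ (I_sub hW inter_subset_right)))
      (fun A => hp _ (I_sub hW inter_subset_right))
    refine ⟨C, fun n B hB => ?_⟩
    have := hC n B
    rwa [inter_eq_self_of_subset_left hB] at this
  by_contra hc
  simp only [not_exists, not_forall, not_le] at hc
  have h2 : ∀ k : ℕ, ∃ n B, B ∈ I ∧ (∀ m ∈ B, k ≤ (Nat.unpair m).1) ∧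
      (∀ N, d N (S B) ≤ (1 / 2) ^ k) ∧ (k : ℝ) < |μ n B| := by
    intro k
    set j := 2 ^ k with hj
    have hj0 : 0 < j := by positivity
    have hjk : k < j := Nat.lt_two_pow_self
    have hj' : (1 : ℝ) / j = (1 / 2) ^ k := by simp [hj]
    obtain ⟨C, hC⟩ := h1 {m | (Nat.unpair m).1 < j} (I_col (fun m hm => hm))
    obtain ⟨n, A, hA, h⟩ := hc (C + (j + 1) * k)
    obtain ⟨l, hl⟩ := (Z.ev hA (show (0 : ℝ) < (1 / 2) ^ k by positivity)).bddAbove
    let g : ℕ → ℕ := fun a => if a < j then j + 1 else if l < a then j else a % j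
    let P : ℕ → Set ℕ := fun i => A ∩ {m | g (Nat.unpair m).1 = i}
    have hP := (add_fin (I_fin finite_empty) I_union (hadd n) P (Finset.range (j + 1 + 1))
      (fun i _ => I_sub hA inter_subset_left) (fun a _ b _ hab => Set.disjoint_left.2
        (fun m h1 h2 => hab (h1.2.symm.trans h2.2)))).2
    have hAP : (⋃ i ∈ Finset.range (j + 1 + 1), P i) = A := by
      refine subset_antisymm (iUnion₂_subset (fun i _ => inter_subset_left)) (fun m hm => ?_)
      refine mem_biUnion (t := P) (x := g (Nat.unpair m).1) ?_ ⟨hm, rfl⟩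
      have := Nat.mod_lt (Nat.unpair m).1 hj0
      simp only [Finset.coe_range, mem_Iio, g]
      split_ifs <;> omega
    rw [hAP, Finset.sum_range_succ] at hP
    have hg : ∀ a i, i ≤ j → g a = i → j ≤ a ∧ (l < a ∨ a % j = i) := by
      intro a i hi h
      simp only [g] at h
      split_ifs at h <;> omega
    by_contra hc'
    simp only [not_exists, not_and, not_lt] at hc'
    have h3 : ∀ i ∈ Finset.range (j + 1), |μ n (P i)| ≤ k := by
      intro i hi
      have hi' := Nat.lt_succ_iff.1 (Finset.mem_range.1 hi)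
      refine hc' n _ (I_sub hA inter_subset_left)
        (fun m hm => hjk.le.trans (hg _ i hi' hm.2).1) (fun N => ?_)
      have hS : ∀ a ∈ S (P i), g a = i := by
        intro a ha
        obtain ⟨b, hb⟩ := Set.Infinite.nonempty ha
        simpa using hb.2
      rcases hi'.lt_or_eq with hlt | rfl
      · rw [← hj']
        refine le_trans (d_mono N ?_) (d_mod (r := i) hj0 N)
        intro a ha
        have h4 := hS a ha
        simp only [g] at h4
        simp only [mem_setOf_eq]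
        split_ifs at h4 <;> omega
      · by_cases hN : N ≤ l
        · have : S (P j) ∩ Iio N = ∅ := by
            refine eq_empty_of_forall_notMem ?_
            rintro a ⟨ha, haN⟩
            have h4 := hg a j le_rfl (hS a ha)
            have := Nat.mod_lt a hj0
            have : a < N := haN
            omega
          simp [d, this]
        · refine le_trans (d_mono N (S_mono inter_subset_left)) ?_
          by_contra h4
          exact hN (hl (not_le.1 h4).le)
    have h4 := (Finset.abs_sum_le_sum_abs _ _).trans (Finset.sum_le_sum h3)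
    have h5 := hC n (P (j + 1)) (by
      intro m hm
      have := hm.2
      have h6 := Nat.mod_lt (Nat.unpair m).1 hj0
      simp only [mem_setOf_eq, g] at this ⊢
      split_ifs at this <;> omega)
    simp only [Finset.sum_const, Finset.card_range, nsmul_eq_mul] at h4
    rw [hP] at h
    push_cast at h4
    linarith [abs_add_le (∑ i ∈ Finset.range (j + 1), μ n (P i)) (μ n (P (j + 1)))]
  choose nn B hB1 hB2 hB3 hB4 using h2
  have hS : ∀ k, ∀ a ∈ S (B k), k ≤ a := by
    intro k a ha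
    obtain ⟨b, hb⟩ := Set.Infinite.nonempty ha
    simpa using hB2 k _ hb
  have h3 : (⋃ k, B k) ∈ I := by
    refine Z.mono (Z_iUnion hB1 hS hB3) (fun a ha => ?_)
    by_contra h
    simp only [mem_iUnion, not_exists, S, mem_setOf_eq, not_infinite] at h
    refine ha (((finite_Iic a).biUnion (fun k _ => h k)).subset (fun b hb => ?_))
    obtain ⟨k, hk⟩ := mem_iUnion.1 hb
    exact mem_biUnion (show k ∈ Iic a by simpa using hB2 k _ hk) hk
  obtain ⟨C, hC⟩ := h1 _ h3
  obtain ⟨k, hk⟩ := exists_nat_gt C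
  linarith [hC (nn k) _ (subset_iUnion B k), hB4 k]

/-- agreement on the first `k` columns -/
def Ag (k : ℕ) (s t : ℕ → Bool) : Prop := ∀ m, (Nat.unpair m).1 < k → t m = s m

lemma lim (P : ℕ → ℕ × (ℕ → Bool) → ℕ × (ℕ → Bool) → Prop) (s0 : ℕ × (ℕ → Bool))
    (h : ∀ j s, ∃ s', s.1 < s'.1 ∧ Ag s.1 s.2 s'.2 ∧ P j s s') :
    ∃ s : ℕ → ℕ × (ℕ → Bool), s 0 = s0 ∧ (∀ j, P j (s j) (s (j + 1))) ∧
      StrictMono (fun j => (s j).1) ∧ ∃ y, ∀ j, Ag (s j).1 (s j).2 y := by
  choose f h1 h2 h3 using h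
  let s : ℕ → ℕ × (ℕ → Bool) := fun j => Nat.rec s0 (fun j s => f j s) j
  have hs : StrictMono (fun j => (s j).1) := strictMono_nat_of_lt_succ (fun j => h1 j (s j))
  have hag : ∀ j l, Ag (s j).1 (s j).2 (s (j + l)).2 := by
    intro j l m hm
    induction l with
    | zero => rfl
    | succ l ih =>
      rw [← ih]
      exact h2 (j + l) (s (j + l)) m (lt_of_lt_of_le hm (hs.monotone (Nat.le_add_right _ _)))
  refine ⟨s, rfl, fun j => h3 j (s j), hs, fun m => (s (m + 1)).2 m, fun j m hm => ?_⟩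
  have h4 : (Nat.unpair m).1 < (s (m + 1)).1 :=
    lt_of_lt_of_le (Nat.lt_succ_of_le (Nat.unpair_left_le m)) (hs.id_le (m + 1))
  rw [← hag j (m + 1) m hm, add_comm j, hag (m + 1) j m h4]

lemma ext (C : ℕ → Set (ℕ → Bool)) (hC : ∀ j, IsClosed (C j))
    (hI : ∀ x : ℕ → Bool, {n | x n = false} ∈ I → ∃ j, x ∈ C j) (k : ℕ) (t : ℕ → Bool) :
    ∃ k' ≥ k, ∃ t', Ag k t t' ∧ ∀ x, Ag k' t' x → ∃ j, x ∈ C j := by
  classical
  by_contra hc
  simp only [not_exists, not_and, not_forall] at hc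
  obtain ⟨s, h0, hP, hs, y, hy⟩ := lim (fun j s s' => k ≤ s.1 → Ag k t s.2 →
      (∀ x, Ag s'.1 s'.2 x → x ∉ C j) ∧
        ∀ m, s'.1 ≤ m → s.1 ≤ (Nat.unpair m).1 → s'.2 m = true) (k, t) (by
    intro j s
    by_cases h : k ≤ s.1 ∧ Ag k t s.2
    swap
    · exact ⟨(s.1 + 1, s.2), Nat.lt_succ_self _, fun _ _ => rfl, fun h1 h2 => absurd ⟨h1, h2⟩ h⟩
    obtain ⟨x, hx, hxC⟩ := hc s.1 h.1 s.2 h.2
    obtain ⟨M, hM⟩ : ∃ M, ∀ y : ℕ → Bool, (∀ m < M, y m = x m) → y ∉ C j := by
      obtain ⟨_, ⟨x', M, rfl⟩, h1, h2⟩ := (PiNat.isTopologicalBasis_cylinders (fun _ => Bool)).mem_nhds_iff.1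
        ((hC j).isOpen_compl.mem_nhds (hxC j))
      exact ⟨M, fun y hy => h2 (fun m hm => (hy m hm).trans (h1 m hm))⟩
    refine ⟨(s.1 + 1 + M, fun m => if (Nat.unpair m).1 < s.1 ∨ m < M then x m else true),
      by simp only; omega, fun m hm => by simp [hm, hx m hm], fun _ _ => ⟨fun y hy => hM y ?_, ?_⟩⟩
    · intro m hm
      have := Nat.unpair_left_le m
      rw [hy m (by simp only; omega)]
      simp [hm]
    · intro m h1 h2
      simp only at h1
      exact if_neg (by omega))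
  have hk : ∀ j, k ≤ (s j).1 := fun j => by
    have := hs.monotone (Nat.zero_le j)
    simpa [h0] using this
  have ht : ∀ j, Ag k t (s j).2 := fun j m hm => by
    have := hy 0 m (by simpa [h0] using hm)
    rw [← hy j m (lt_of_lt_of_le hm (hk j)), this, h0]
  obtain ⟨j, hj⟩ := hI y (by
    refine Z_of_finite ((finite_Iio k).subset (fun a ha => ?_))
    by_contra hak
    have hex : ∃ j, a < (s (j + 1)).1 := ⟨a, hs.id_le (a + 1)⟩
    have h1 := Nat.find_spec hex
    have h2 : (s (Nat.find hex)).1 ≤ a := by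
      rcases Nat.eq_zero_or_pos (Nat.find hex) with h | h
      · rw [h, h0]; exact not_lt.1 hak
      · have := Nat.find_min hex (show Nat.find hex - 1 < Nat.find hex by omega)
        rw [Nat.sub_add_cancel h] at this
        exact not_lt.1 this
    refine ha ((finite_Iio (s (Nat.find hex + 1)).1).subset (fun b hb => ?_))
    by_contra h3
    have h4 := (hP _ (hk _) (ht _)).2 (Nat.pair a b)
      ((not_lt.1 h3).trans (Nat.right_le_pair a b)) (by simpa using h2)
    rw [← hy _ _ (by simpa using h1)] at h4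
    have h5 : y (Nat.pair a b) = false := hb
    rw [h4] at h5
    exact Bool.noConfusion h5)
  exact (hP j (hk j) (ht j)).1 y (hy _) hj

theorem not_fsd (C : ℕ → ℕ → Set (ℕ → Bool)) (hC : ∀ i j, IsClosed (C i j)) :
    {x : ℕ → Bool | {n | x n = false} ∈ I} ≠ ⋂ i, ⋃ j, C i j := by
  classical
  intro he
  obtain ⟨s, -, hP, hs, y, hy⟩ := lim (fun i s s' => (∀ x, Ag s'.1 s'.2 x → ∃ j, x ∈ C i j) ∧
      ∃ k ≥ s.1, s'.1 = 2 * k + 1 ∧ ∀ m, k ≤ (Nat.unpair m).1 → s'.2 m = false)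
      (0, fun _ => true) (by
    intro i s
    obtain ⟨k, hk, t, h1, h2⟩ := ext (C i) (hC i) (fun x hx => by
      have : x ∈ ⋂ i, ⋃ j, C i j := he ▸ hx
      exact mem_iUnion.1 (mem_iInter.1 this i)) s.1 s.2
    refine ⟨(2 * k + 1, fun m => if (Nat.unpair m).1 < k then t m else false), by simp only; omega,
      fun m hm => ?_, fun x hx => h2 x (fun m hm => ?_), k, hk, rfl, fun m hm => if_neg (by omega)⟩
    · simp only [lt_of_lt_of_le hm hk, if_true]
      exact h1 m hm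
    · rw [hx m (by simp only; omega)]
      simp [hm])
  have h1 : y ∈ ⋂ i, ⋃ j, C i j := mem_iInter.2 (fun i => mem_iUnion.2 ((hP i).1 y (hy _)))
  rw [← he] at h1
  refine not_Z (fun b => ?_) h1
  obtain ⟨k, hk, h2, h3⟩ := (hP b).2
  refine ⟨k, (hs.id_le b).trans hk, fun a ha ha' => ?_⟩
  refine infinite_univ.mono (fun c _ => ?_)
  show y (Nat.pair a c) = false
  rw [hy (b + 1) _ (by simp only [h2, Nat.unpair_pair]; omega), h3 _ (by simpa using ha)]

theorem meas : MeasurableSet {x : ℕ → Bool | {n | x n = false} ∈ I} := by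
  classical
  have h1 : ∀ a, MeasurableSet {x : ℕ → Bool | a ∈ S {n | x n = false}} := by
    intro a
    have : {x : ℕ → Bool | a ∈ S {n | x n = false}} =
        ⋂ M : ℕ, ⋃ b : ℕ, ⋃ _ : M < b, (fun x => x (Nat.pair a b)) ⁻¹' {false} := by
      ext x
      simp only [S, mem_setOf_eq, infinite_iff_exists_gt, mem_iInter, mem_iUnion, mem_preimage,
        mem_singleton_iff, exists_prop, and_comm]
    rw [this]
    exact MeasurableSet.iInter (fun M => MeasurableSet.iUnion (fun b => MeasurableSet.iUnion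
      (fun _ => measurable_pi_apply _ (measurableSet_singleton _))))
  refine measurableSet_tendsto (𝓝 (0 : ℝ))
    (f := fun (N : ℕ) (x : ℕ → Bool) => d N (S {n | x n = false})) (fun N => ?_)
  have : (fun x : ℕ → Bool => d N (S {n | x n = false})) = fun x =>
      (∑ a ∈ Finset.range N, if a ∈ S {n | x n = false} then (1 : ℝ) else 0) / N := by
    funext x
    unfold d
    congr 1
    rw [Finset.sum_boole, ← Set.ncard_coe_finset]
    congr 2
    ext a
    simp [and_comm]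
  rw [this]
  exact (Finset.measurable_sum _ (fun a _ =>
    Measurable.ite (h1 a) measurable_const measurable_const)).div_const _

end Pool.Agent.H26.Nik
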