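import Mathlib

set_option autoImplicit false

open Set Filter Topology

namespace Pool.Agent.H26.NullFinite

variable {G : ℕ → Type} [∀ n, AddCommGroup (G n)]

/-- Basic sets of the eventually different topology. -/
def nb (y : ∀ n, G n) (m : ℕ) (F : Finset (∀ n, G n)) : Set (∀ n, G n) :=
  {z | (∀ n < m, z n = y n) ∧ ∀ n ≥ m, ∀ t ∈ F, z n ≠ t n}

omit [∀ n, AddCommGroup (G n)] in
lemma nb_mono {y : ∀ n, G n} {m m' : ℕ} {F F' : Finset (∀ n, G n)} (h : y ∈ nb y m F)
    (hm : m ≤ m') (hF : F ⊆ F') : nb y m' F' ⊆ nb y m F := fun z hz =>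
  ⟨fun n hn => hz.1 n (hn.trans_le hm), fun n hn t ht => (lt_or_ge n m').elim
    (fun h' => hz.1 n h' ▸ h.2 n hn t ht) fun h' => hz.2 n h' t (hF ht)⟩

/-- The space with the eventually different topology. -/
def Y (G : ℕ → Type) : Type := ∀ n, G n

instance : TopologicalSpace (Y G) where
  IsOpen U := ∀ y ∈ U, ∃ m F, y ∈ nb y m F ∧ nb y m F ⊆ U
  isOpen_univ y _ := ⟨0, ∅, ⟨fun _ _ => rfl, by simp⟩, subset_univ _⟩
  isOpen_inter U V hU hV y hy := by
    classical
    obtain ⟨m, F, h1, h2⟩ := hU y hy.1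
    obtain ⟨m', F', h3, h4⟩ := hV y hy.2
    exact ⟨max m m', F ∪ F', ⟨fun _ _ => rfl, fun n hn t ht => (Finset.mem_union.1 ht).elim
      (h1.2 n (le_of_max_le_left hn) t) (h3.2 n (le_of_max_le_right hn) t)⟩, subset_inter
      ((nb_mono h1 (le_max_left _ _) Finset.subset_union_left).trans h2)
      ((nb_mono h3 (le_max_right _ _) Finset.subset_union_right).trans h4)⟩
  isOpen_sUnion S hS y := fun ⟨U, hU, hy⟩ =>
    let ⟨m, F, h1, h2⟩ := hS U hU y hy; ⟨m, F, h1, h2.trans (subset_sUnion_of_mem hU)⟩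

omit [∀ n, AddCommGroup (G n)] in
lemma nb_open (y : ∀ n, G n) (m : ℕ) (F : Finset (∀ n, G n)) : IsOpen (X := Y G) (nb y m F) :=
  fun z hz => ⟨m, F, ⟨fun _ _ => rfl, hz.2⟩, fun _ hw =>
    ⟨fun n hn => (hw.1 n hn).trans (hz.1 n hn), hw.2⟩⟩

def sh (x : ∀ n, G n) (y : Y G) : Y G := fun n => y n + x n

lemma sh_cont (x : ∀ n, G n) : Continuous (sh x) := ⟨fun U hU y hy => by
  classical
  obtain ⟨m, F, h1, h2⟩ := hU _ hy
  refine ⟨m, F.image (· - x), ⟨fun _ _ => rfl, fun n hn t ht => ?_⟩, fun z hz => h2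
    ⟨fun n hn => congrArg (· + x n) (hz.1 n hn), fun n hn t ht h =>
      hz.2 n hn _ (Finset.mem_image_of_mem _ ht) (eq_sub_of_add_eq h)⟩⟩
  obtain ⟨t', ht', rfl⟩ := Finset.mem_image.1 ht
  exact fun h => h1.2 n hn t' ht' (eq_sub_iff_add_eq.1 h)⟩

variable [∀ n, Finite (G n)] [∀ n, TopologicalSpace (G n)] [∀ n, DiscreteTopology (G n)]

lemma main (hG : ∀ n, n + 2 ≤ Nat.card (G n)) {O R : Set (Y G)} (hO : IsOpen O) (hne : O.Nonempty)
    (hR : R ∈ residual (Y G)) {x : ℕ → ∀ n, G n} (hx : Tendsto x atTop (𝓝 0)) :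
    ∃ y : ∀ n, G n, {k | y + x k ∈ O ∩ R}.Infinite := by
  classical
  obtain ⟨T, h1, h2, h3, h4⟩ := mem_residual_iff.1 hR
  obtain ⟨D, hD⟩ := (h3.insert Set.univ).exists_eq_range (insert_nonempty _ _)
  have hD' : ∀ j, IsOpen (D j) ∧ Dense (D j) := fun j => by
    rcases hD.symm.subset (mem_range_self j) with h | h
    exacts [h ▸ ⟨isOpen_univ, dense_univ⟩, ⟨h1 _ h, h2 _ h⟩]
  obtain ⟨s, hs⟩ := hne
  obtain ⟨m0, F0, hs, hsO⟩ := hO s hs
  let P := {p : (∀ n, G n) × ℕ × Finset (∀ n, G n) //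
    p.1 ∈ nb p.1 p.2.1 p.2.2 ∧ nb p.1 p.2.1 p.2.2 ⊆ nb s m0 F0}
  let N : P → Set (Y G) := fun p => nb p.1.1 p.1.2.1 p.1.2.2
  have step : ∀ (p : P) (i : ℕ), ∃ q : P, ∃ k ≥ i, N q ⊆ (N p ∩ sh (x k) ⁻¹' nb s m0 F0) ∩
      sh (x (Nat.unpair i).1) ⁻¹' D (Nat.unpair i).2 := fun ⟨⟨y, m, F⟩, hy, hyO⟩ i => by
    obtain ⟨k, hk, hk'⟩ : ∃ k ≥ i, ∀ n < m + m0 + F.card + F0.card, x k n = 0 :=
      ((eventually_ge_atTop i).and ((eventually_all_finite (finite_Iio _)).2 fun n _ =>
        (tendsto_pure.1 (nhds_discrete (G n) ▸ tendsto_pi_nhds.1 hx n)))).exists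
    have : ∀ n, ∃ c : G n, m + m0 + F.card + F0.card ≤ n →
        (∀ t ∈ F, c ≠ t n) ∧ ∀ t ∈ F0, c + x k n ≠ t n := fun n => by
      haveI := Fintype.ofFinite (G n)
      by_cases h : m + m0 + F.card + F0.card ≤ n
      · obtain ⟨c, -, hc⟩ := Finset.exists_mem_notMem_of_card_lt_card (t := Finset.univ)
          (s := F.image (· n) ∪ F0.image fun t => t n - x k n) (by
            have := hG n
            rw [Nat.card_eq_fintype_card, ← Finset.card_univ] at this
            have := Finset.card_union_le (F.image (· n)) (F0.image fun t => t n - x k n)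
            have := Finset.card_image_le (s := F) (f := (· n))
            have := Finset.card_image_le (s := F0) (f := fun t => t n - x k n)
            omega)
        simp only [Finset.mem_union, Finset.mem_image, not_or, not_exists, not_and] at hc
        exact ⟨c, fun _ => ⟨fun t ht h => hc.1 t ht h.symm,
          fun t ht h => hc.2 t ht (sub_eq_of_eq_add h.symm)⟩⟩
      · exact ⟨0, fun h' => absurd h' h⟩
    choose c hc using this
    have hU := ((nb_open y m F).inter ((nb_open s m0 F0).preimage (sh_cont (x k))))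
    obtain ⟨z, hz⟩ := ((hD' (Nat.unpair i).2).2.preimage (IsOpenMap.of_inverse
      (f := sh (x (Nat.unpair i).1)) (sh_cont (-x (Nat.unpair i).1))
      (fun y => funext fun n => by simp [sh]) fun y => funext fun n => by simp [sh])).inter_open_nonempty
      _ hU ⟨fun n => if m + m0 + F.card + F0.card ≤ n then c n else y n,
        ⟨fun n hn => if_neg (by omega), fun n hn t ht => by
          beta_reduce
          split_ifs with h
          exacts [(hc n h).1 t ht, hy.2 n hn t ht]⟩, fun n hn => by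
          simp only [sh]
          rw [if_neg (by omega), hk' n (by omega), add_zero]; exact (hyO hy).1 n hn, fun n hn t ht => by
          simp only [sh]
          split_ifs with h
          · exact (hc n h).2 t ht
          · rw [hk' n (by omega), add_zero]; exact (hyO hy).2 n hn t ht⟩
    obtain ⟨m', F', h5, h6⟩ := (hU.inter ((hD' _).1.preimage (sh_cont _))) z hz
    exact ⟨⟨⟨z, m', F'⟩, h5, fun w hw => hyO (h6 hw).1.1⟩, k, hk, h6⟩
  choose nx k hk hN using step
  obtain ⟨p, hp⟩ : ∃ p : ℕ → P, ∀ i, p (i + 1) = nx (p i) i :=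
    ⟨fun i => Nat.rec ⟨(s, m0, F0), hs, Subset.rfl⟩ (fun i p => nx p i) i, fun _ => rfl⟩
  have hc : ∀ i, IsClosed (X := ∀ n, G n) (N (p i)) := fun i => by
    simp only [N, nb, setOf_and, setOf_forall]
    refine IsClosed.inter (isClosed_iInter fun n => isClosed_iInter fun _ => ?_)
      (isClosed_iInter fun n => isClosed_iInter fun _ => isClosed_iInter fun t =>
        isClosed_iInter fun _ => ?_)
    · exact (isClosed_discrete {c | c = _}).preimage (continuous_apply n)
    · exact (isClosed_discrete {c | c ≠ _}).preimage (continuous_apply n)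
  obtain ⟨y, hy⟩ := IsCompact.nonempty_iInter_of_sequence_nonempty_isCompact_isClosed
    (X := ∀ n, G n) (fun i => N (p i)) (fun i z hz => (hN _ _ (hp i ▸ hz)).1.1)
    (fun i => ⟨_, (p i).2.1⟩) (hc 0).isCompact hc
  have hy' := fun i => hN _ _ (hp i ▸ mem_iInter.1 hy (i + 1))
  refine ⟨y, infinite_of_forall_exists_gt fun i => ⟨k (p (i + 1)) (i + 1),
    ⟨hsO (hy' _).1.2, h4 fun t ht => ?_⟩, hk _ _⟩⟩
  obtain ⟨j, rfl⟩ := hD.subset (Or.inr ht)
  have := (hy' (Nat.pair (k (p (i + 1)) (i + 1)) j)).2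
  rwa [Nat.unpair_pair] at this

theorem not_covered (hG : ∀ n, n + 2 ≤ Nat.card (G n)) (B : ℕ → Set (∀ n, G n))
    (hB : ∀ k, @MeasurableSet _ (borel _) (B k))
    (hN : ∀ k, ∃ x : ℕ → ∀ n, G n, Tendsto x atTop (𝓝 0) ∧ ∀ y, {j | y + x j ∈ B k}.Finite) :
    ¬ {y | ∀ n, y n ≠ 0} ⊆ ⋃ k, B k := fun h => by
  have hle : (inferInstance : TopologicalSpace (Y G)) ≤ Pi.topologicalSpace :=
    le_iInf fun n => (continuous_iff_le_induced (f := fun y : Y G => y n)).1 ⟨fun U _ y hy =>
      ⟨n + 1, ∅, ⟨fun _ _ => rfl, by simp⟩, fun z hz =>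
        (congrArg (· ∈ U) (hz.1 n (lt_add_one n))).mpr hy⟩⟩
  have : ∀ k, ∃ u : Set (Y G), IsOpen u ∧ ∀ᶠ y : Y G in residual (Y G), B k y ↔ y ∈ u := fun k => by
    borelize (Y G)
    obtain ⟨u, h1, h2⟩ := MeasurableSet.residualEq_isOpen (α := Y G) (borel_anti hle _ (hB k))
    exact ⟨u, h1, h2.mem_iff⟩
  choose u hu hu' using this
  have hR := eventually_countable_forall.2 hu'
  have : ∀ n, Nontrivial (G n) := fun n =>
    Finite.one_lt_card_iff_nontrivial.1 (by have := hG n; omega)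
  choose a ha using fun n => exists_ne (0 : G n)
  obtain ⟨y, hy⟩ := main hG (nb_open 0 0 {0}) ⟨a, by simp, by simpa using ha⟩ hR
    (tendsto_const_nhds (x := 0))
  obtain ⟨_, h1, h2⟩ := hy.nonempty
  obtain ⟨k, hk⟩ := mem_iUnion.1 (h fun n => h1.2 n (Nat.zero_le n) 0 (Finset.mem_singleton_self 0))
  obtain ⟨x, hx, hx'⟩ := hN k
  obtain ⟨z, hz⟩ := main hG (hu k) ⟨_, (h2 k).1 hk⟩ hR hx
  exact hz ((hx' z).subset fun j hj => (hj.2 k).2 hj.1)

open MeasureTheory ProbabilityTheory in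
theorem null : ∃ μ : Measure (∀ n, ZMod (n + 2)), IsProbabilityMeasure μ ∧
    ∀ x, μ ((· + x) '' {y | ∀ n, y n ≠ 0}) = 0 := by
  refine ⟨Measure.infinitePi fun n => uniformOn Set.univ, inferInstance, fun x => ?_⟩
  have : ∀ N : ℕ, ((N : ENNReal) + 1) * ∏ n ∈ Finset.range N,
      uniformOn (Set.univ : Set (ZMod (n + 2))) {x n}ᶜ = 1 := fun N => by
    induction N with
    | zero => simp
    | succ N ih =>
      have h := uniformOn_compl (s := Set.univ) {x N} finite_univ univ_nonempty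
      rw [uniformOn_univ, Measure.count_singleton, ZMod.card] at h
      have h2 := congrArg ((((N + 2 : ℕ) : ENNReal)) * ·) h
      simp only [mul_add] at h2
      rw [ENNReal.mul_div_cancel (by simp) (by simp), mul_one, Nat.cast_add, Nat.cast_two,
        ← one_add_one_eq_two, ← add_assoc, add_comm _ (1 : ENNReal),
        ENNReal.add_right_inj (by simp)] at h2
      rw [Finset.prod_range_succ, mul_left_comm, Nat.cast_succ, add_comm _ (1 : ENNReal), h2,
        mul_comm, ih]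
  by_contra h
  obtain ⟨N, hN⟩ := ENNReal.exists_nat_mul_gt h ENNReal.one_ne_top
  refine hN.not_ge ((mul_le_mul' le_self_add ?_).trans (this N).le)
  rw [← Measure.infinitePi_pi _ fun _ _ => (measurableSet_singleton _).compl]
  exact measure_mono (by rintro _ ⟨y, hy, rfl⟩ n -; simpa using hy n)

theorem closed (x : ∀ n, G n) : IsClosed {y : ∀ n, G n | ∀ n, y n ≠ x n} := by
  simp only [setOf_forall]
  exact isClosed_iInter fun n => (isClosed_discrete {c | c ≠ _}).preimage (continuous_apply n)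

theorem meagre (x : ∀ n, G n) : IsMeagre ((· + x) '' {y | ∀ n, y n ≠ 0}) := by
  classical
  refine (IsNowhereDense.isMeagre ((closed x).isNowhereDense_iff.2 ?_)).mono
    (by rintro _ ⟨y, hy, rfl⟩ n; simpa using hy n)
  refine interior_eq_empty_iff_dense_compl.2 fun y => mem_closure_of_tendsto
    (f := fun N => Function.update y N (x N)) (b := atTop) (tendsto_pi_nhds.2 fun n =>
      tendsto_const_nhds.congr' ((eventually_gt_atTop n).mono fun N hN =>
        (Function.update_of_ne hN.ne _ _).symm)) (Eventually.of_forall fun N h => h N (by simp))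

end Pool.Agent.H26.NullFinite
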