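import Mathlib

set_option autoImplicit false

namespace Pool.Agent.H26.OBdd

open Set Topology Filter

variable {G : Type*} [Group G] [TopologicalSpace G]

/-- A left-invariant compatible pseudometric. -/
structure LD (d : G → G → ℝ) : Prop where
  self : ∀ x, d x x = 0
  symm : ∀ x y, d x y = d y x
  tri : ∀ x y z, d x z ≤ d x y + d y z
  left : ∀ g x y, d (g * x) (g * y) = d x y
  ball : ∀ ε > 0, {g | d 1 g < ε} ∈ 𝓝 (1 : G)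
  basis : ∀ V ∈ 𝓝 (1 : G), ∃ ε > 0, {g | d 1 g < ε} ⊆ V

theorem exists_LD [IsTopologicalGroup G] [FirstCountableTopology G] : ∃ d : G → G → ℝ, LD d := by
  letI U : UniformSpace G := IsTopologicalGroup.leftUniformSpace G
  have hU : uniformity G = comap (fun p : G × G => p.1⁻¹ * p.2) (𝓝 (1 : G)) := rfl
  have : IsCountablyGenerated (uniformity G) := by rw [hU]; infer_instance
  obtain ⟨I, hI⟩ := UniformSpace.metrizable_uniformity G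
  let ρ : G → G → ℝ := I.dist
  have hρ : ∀ s : Set (G × G), s ∈ comap (fun p : G × G => p.1⁻¹ * p.2) (𝓝 (1 : G)) ↔
      ∃ ε > 0, ∀ a b : G, ρ a b < ε → (a, b) ∈ s := by
    intro s
    rw [← hU, ← hI]
    exact @Metric.mem_uniformity_dist G I s
  have ρ0 : ∀ a b, 0 ≤ ρ a b := fun a b => @dist_nonneg G I a b
  have hb : ∀ x y : G, BddAbove (range fun k : G => min 1 (ρ (k * x) (k * y))) := fun x y =>
    ⟨1, by rintro _ ⟨k, rfl⟩; exact min_le_left _ _⟩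
  refine ⟨fun x y => ⨆ k : G, min 1 (ρ (k * x) (k * y)), ?_, ?_, ?_, ?_, ?_, ?_⟩
  · intro x
    have : ∀ k : G, min 1 (ρ (k * x) (k * x)) = 0 := fun k => by
      have : ρ (k * x) (k * x) = 0 := @dist_self G I _
      rw [this]; simp
    simp [this]
  · intro x y
    have : ∀ k : G, ρ (k * x) (k * y) = ρ (k * y) (k * x) := fun k => @dist_comm G I _ _
    simp [this]
  · intro x y z
    refine ciSup_le fun k => le_trans ?_ (add_le_add (le_ciSup (hb x y) k) (le_ciSup (hb y z) k))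
    have h1 : ρ (k * x) (k * z) ≤ ρ (k * x) (k * y) + ρ (k * y) (k * z) :=
      @dist_triangle G I _ _ _
    have h2 := ρ0 (k * x) (k * y)
    have h3 := ρ0 (k * y) (k * z)
    simp only [min_def]
    split_ifs <;> linarith
  · intro g x y
    have := (Equiv.mulRight g).surjective.iSup_comp (fun k : G => min 1 (ρ (k * x) (k * y)))
    simpa [mul_assoc] using this
  · intro ε hε
    obtain ⟨V, hV, hsub⟩ := mem_comap.1 ((hρ {p | ρ p.1 p.2 < ε / 2}).2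
      ⟨ε / 2, half_pos hε, fun a b h => h⟩)
    refine mem_of_superset hV fun g hg => ?_
    refine lt_of_le_of_lt (ciSup_le fun k => (min_le_right _ _).trans ?_) (half_lt_self hε)
    have : (k * 1, k * g) ∈ (fun p : G × G => p.1⁻¹ * p.2) ⁻¹' V := by simpa using hg
    exact (hsub this).le
  · intro V hV
    obtain ⟨ε, hε, h⟩ := (hρ _).1 (preimage_mem_comap (m := fun p : G × G => p.1⁻¹ * p.2) hV)
    refine ⟨min ε 1, lt_min hε one_pos, fun g hg => ?_⟩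
    have h1 := lt_of_le_of_lt (le_ciSup (hb 1 g) 1) hg
    have h2 : ρ (1 * 1) (1 * g) < ε := by
      rcases min_lt_iff.1 h1 with h3 | h3
      · exact absurd (h3.trans_le (min_le_right _ _)) (lt_irrefl _)
      · exact h3.trans_le (min_le_left _ _)
    simpa using h _ _ h2

variable {d : G → G → ℝ}

theorem LD.one (h : LD d) (x y : G) : d x y = d 1 (x⁻¹ * y) := by
  rw [← h.left x⁻¹ x y, inv_mul_cancel]

theorem LD.continuous [IsTopologicalGroup G] (h : LD d) (x : G) : Continuous (d x) := by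
  rw [continuous_iff_continuousAt]
  intro y
  rw [ContinuousAt, Metric.tendsto_nhds]
  intro ε hε
  have hc : Continuous fun g : G => y⁻¹ * g := by fun_prop
  have := hc.continuousAt (x := y) (by simpa using h.ball ε hε)
  filter_upwards [this] with g hg
  have h1 : d y g < ε := by rw [h.one]; exact hg
  have h2 := h.tri x y g
  have h3 := h.tri x g y
  have h4 := h.symm g y
  rw [Real.dist_eq, abs_lt]
  constructor <;> linarith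

/-- `S` is covered by finitely many `ε`-balls. -/
def Bdd (d : G → G → ℝ) (S : Set G) (ε : ℝ) : Prop :=
  ∃ F : Finset G, ∀ g ∈ S, ∃ f ∈ F, d f g < ε

theorem not_bdd {S : Set G} {ε : ℝ} (h : ¬ Bdd d S ε) (F : Finset G) :
    ∃ g ∈ S, ∀ f ∈ F, ε ≤ d f g := by
  by_contra hn
  push Not at hn
  exact h ⟨F, hn⟩

theorem sep_seq (h : LD d) {P : Type*} (φ : P → G) {O : Set P} {ε : ℝ}
    (hn : ¬ Bdd d (φ '' O) ε) :
    ∃ ξ : ℕ → P, (∀ l, ξ l ∈ O) ∧ ∀ l l', l ≠ l' → ε ≤ d (φ (ξ l)) (φ (ξ l')) := by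
  classical
  have : Std.Symm (fun a b : P => ε ≤ d (φ a) (φ b)) := ⟨fun a b hab => by rwa [h.symm]⟩
  obtain ⟨ξ, h1, h2⟩ := exists_seq_of_forall_finset_exists' (fun a => a ∈ O)
    (fun a b : P => ε ≤ d (φ a) (φ b)) (fun s _ => by
      obtain ⟨_, ⟨y, hy, rfl⟩, hF⟩ := not_bdd hn (s.image φ)
      exact ⟨y, hy, fun x hx => hF _ (Finset.mem_image_of_mem _ hx)⟩)
  exact ⟨ξ, h1, fun l l' hl => h2 hl⟩

theorem pigeon (h : LD d) (c a : ℕ → G) {κ : ℝ} {J : Set ℕ} (hJ : J.Infinite)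
    (ha : ∀ j ∈ J, ∀ j' ∈ J, j ≠ j' → κ ≤ d (a j) (a j')) (F : Finset G) :
    ∃ j ∈ J, {i | ∀ f ∈ F, κ / 2 ≤ d f (c i * a j)}.Infinite := by
  by_contra hn
  push Not at hn
  have h1 : ∀ j ∈ J, ∃ f ∈ (F : Set G), ∀ᶠ i in (hyperfilter ℕ : Filter ℕ),
      d f (c i * a j) < κ / 2 := by
    intro j hj
    rw [← Ultrafilter.eventually_exists_mem_iff F.finite_toSet]
    have : ∀ᶠ i in cofinite, i ∉ {i | ∀ f ∈ F, κ / 2 ≤ d f (c i * a j)} :=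
      (hn j hj).eventually_cofinite_notMem
    filter_upwards [hyperfilter_le_cofinite this] with i hi
    by_contra hc
    push Not at hc
    exact hi hc
  choose! f hf hfU using h1
  obtain ⟨j, hj, j', hj', hne, heq⟩ := hJ.exists_ne_map_eq_of_mapsTo hf F.finite_toSet
  obtain ⟨i, h2, h3⟩ := ((hfU j hj).and (hfU j' hj')).exists
  have h4 := ha j hj j' hj' hne
  rw [← h.left (c i)] at h4
  have h5 := h.tri (c i * a j) (f j) (c i * a j')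
  rw [h.symm (c i * a j) (f j)] at h5
  rw [← heq] at h3
  linarith

theorem lookahead [IsTopologicalGroup G] (h : LD d) {Q : Type*} [PseudoMetricSpace Q]
    [CompleteSpace Q] (ψ : Q → G) (hψ : Continuous ψ) {S : Type*} (O : S → Set Q) (sc : S → ℝ)
    (hne : ∀ σ, (O σ).Nonempty)
    (hstep : ∀ σ, ∀ ρ > 0, ∃ η > 0, ∀ F₁ : Finset G, ∃ e' > 0, ∀ F₂ : Finset G, ∃ σ',
      e' ≤ sc σ' ∧ O σ' ⊆ O σ ∧ (∀ p ∈ O σ', ∀ q ∈ O σ', dist p q ≤ ρ) ∧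
      ∀ q ∈ O σ', (∀ f ∈ F₁, sc σ ≤ d f (ψ q)) ∧ ∀ f ∈ F₂, η ≤ d f (ψ q))
    (σ₀ : S) (h0 : 0 < sc σ₀) (F : ℕ → Finset G) :
    ∃ q, ∀ n : ℕ, ∀ f ∈ F n, sc σ₀ / (n + 1) ≤ d f (ψ q) := by
  classical
  let ε : ℕ → ℝ := fun n => sc σ₀ / (n + 1)
  have hε : ∀ η > 0, ∀ m : ℕ, ∃ m' > m, ∀ n ≥ m', ε n ≤ η := by
    intro η hη m
    have : Tendsto ε atTop (𝓝 0) := tendsto_const_div_atTop_nhds_zero_nat (sc σ₀) |>.comp
      (tendsto_add_atTop_nat 1) |>.congr (fun n => by simp [ε])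
    obtain ⟨N, hN⟩ := eventually_atTop.1 (this.eventually (ge_mem_nhds hη))
    exact ⟨max N (m + 1), by omega, fun n hn => hN n (by omega)⟩
  let T := {a : S × ℕ // (∀ n ≥ a.2, ε n ≤ sc a.1) ∧
    ∀ n < a.2, ∀ q ∈ O a.1, ∀ f ∈ F n, ε n ≤ d f (ψ q)}
  have hT : ∀ (k : ℕ) (a : T), ∃ b : T, O b.1.1 ⊆ O a.1.1 ∧ a.1.2 < b.1.2 ∧
      ∀ p ∈ O b.1.1, ∀ q ∈ O b.1.1, dist p q ≤ 1 / ((k : ℝ) + 1) := by
    rintro k ⟨⟨σ, m⟩, h1, h2⟩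
    obtain ⟨η, hη, hs⟩ := hstep σ _ (Nat.one_div_pos_of_nat (n := k))
    obtain ⟨m₁, hm₁, hm₁'⟩ := hε η hη m
    obtain ⟨e', he', hs⟩ := hs ((Finset.range m₁).biUnion F)
    obtain ⟨m₂, hm₂, hm₂'⟩ := hε e' he' m₁
    obtain ⟨σ', h3, h4, h5, h6⟩ := hs ((Finset.range m₂).biUnion F)
    refine ⟨⟨(σ', m₂), fun n hn => (hm₂' n hn).trans h3, fun n hn q hq f hf => ?_⟩, h4,
      by simp only; omega, h5⟩
    by_cases hn1 : n < m
    · exact h2 n hn1 q (h4 hq) f hf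
    by_cases hn2 : n < m₁
    · exact (h1 n (by simp only; omega)).trans ((h6 q hq).1 f
        (Finset.mem_biUnion.2 ⟨n, Finset.mem_range.2 hn2, hf⟩))
    · exact (hm₁' n (by omega)).trans ((h6 q hq).2 f
        (Finset.mem_biUnion.2 ⟨n, Finset.mem_range.2 hn, hf⟩))
  choose nx hnx using hT
  let a0 : T := ⟨(σ₀, 0), fun n _ => by
    simp only [ε]
    exact div_le_self h0.le (by linarith [(Nat.cast_nonneg n : (0 : ℝ) ≤ n)]),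
    fun n hn => absurd hn (Nat.not_lt_zero _)⟩
  let a : ℕ → T := fun k => Nat.rec a0 (fun k b => nx k b) k
  have ha : ∀ k, a (k + 1) = nx k (a k) := fun k => rfl
  have hanti : Antitone fun k => O (a k).1.1 :=
    antitone_nat_of_succ_le fun k => by rw [ha]; exact (hnx k (a k)).1
  have hm : ∀ k, k ≤ (a k).1.2 := by
    intro k
    induction k with
    | zero => exact Nat.zero_le _
    | succ k ih => have := (hnx k (a k)).2.1; rw [ha]; omega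
  choose q hq using fun k => hne (a k).1.1
  have hc : CauchySeq q := by
    rw [Metric.cauchySeq_iff']
    intro δ hδ
    obtain ⟨k, hk⟩ := exists_nat_one_div_lt hδ
    refine ⟨k + 1, fun n hn => lt_of_le_of_lt ?_ hk⟩
    have := (hnx k (a k)).2.2
    rw [← ha] at this
    exact this _ (hanti hn (hq n)) _ (hq (k + 1))
  obtain ⟨p, hp⟩ := cauchySeq_tendsto_of_complete hc
  refine ⟨p, fun n f hf => ?_⟩
  refine ge_of_tendsto ((((h.continuous f).comp hψ).tendsto p).comp hp) ?_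
  filter_upwards [eventually_ge_atTop (n + 1)] with k hk
  exact (a k).2.2 n (by have := hm k; omega) _ (hq k) f hf

section Main

variable {P : Type*} [PseudoMetricSpace P]

/-- The `u`-step condition. -/
def UStep (d : G → G → ℝ) (φ : P → G) (s t : Set P) (e : ℝ) : Prop :=
  ∃ η > 0, ∀ F : Finset G, ∃ α ∈ s,
    ¬ Bdd d ((fun ζ => (φ ζ)⁻¹ * φ α) ''
      {ζ | ζ ∈ t ∧ ∀ f ∈ F, e / 4 ≤ d f ((φ ζ)⁻¹ * φ α)}) η

theorem dist_prod_le {A B : Type*} [PseudoMetricSpace A] [PseudoMetricSpace B] {p q : A × B}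
    {ρ : ℝ} (h1 : dist p.1 q.1 ≤ ρ) (h2 : dist p.2 q.2 ≤ ρ) : dist p q ≤ ρ := by
  rw [Prod.dist_eq]; exact max_le h1 h2

theorem dist_le_of_ball {A : Type*} [PseudoMetricSpace A] {p q c : A} {ρ : ℝ}
    (h1 : dist p c < ρ / 2) (h2 : dist q c < ρ / 2) : dist p q ≤ ρ := by
  have := dist_triangle_right p q c
  linarith

theorem caseI [IsTopologicalGroup G] [CompleteSpace P] (h : LD d) (φ : P → G) (hφ : Continuous φ)
    (hP : ∀ O : Set P, IsOpen O → O.Nonempty → ∃ ε > 0, ¬ Bdd d (φ '' O) ε)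
    (s₀ t₀ : Set P) (hs₀ : IsOpen s₀) (hs₀' : s₀.Nonempty) (ht₀ : IsOpen t₀) (ht₀' : t₀.Nonempty)
    (hU : ∀ s ⊆ s₀, ∀ t ⊆ t₀, IsOpen s → s.Nonempty → IsOpen t → t.Nonempty → ∀ e > 0,
      ¬ Bdd d (φ '' s) e → UStep d φ s t e) :
    ∃ c > 0, ∀ F : ℕ → Finset G, ∃ g : G, ∀ n : ℕ, ∀ f ∈ F n, c / (n + 1) ≤ d f g := by
  let S := {a : Set P × Set P × ℝ // a.1 ⊆ s₀ ∧ a.2.1 ⊆ t₀ ∧ IsOpen a.1 ∧ a.1.Nonempty ∧
    IsOpen a.2.1 ∧ a.2.1.Nonempty ∧ 0 < a.2.2 ∧ ¬ Bdd d (φ '' a.1) a.2.2}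
  obtain ⟨e₀, he₀, hb₀⟩ := hP s₀ hs₀ hs₀'
  let σ₀ : S := ⟨(s₀, t₀, e₀), Subset.rfl, Subset.rfl, hs₀, hs₀', ht₀, ht₀', he₀, hb₀⟩
  refine ⟨e₀ / 8, by positivity, fun F => ?_⟩
  refine (lookahead h (Q := P × P) (fun q => (φ q.2)⁻¹ * φ q.1) (by fun_prop)
    (S := S) (fun σ => σ.1.1 ×ˢ σ.1.2.1) (fun σ => σ.1.2.2 / 8)
    (fun σ => σ.2.2.2.2.1.prod σ.2.2.2.2.2.2.1) ?_ σ₀ (by positivity)
    F).elim fun q hq => ⟨_, hq⟩
  rintro ⟨⟨s, t, e⟩, hs1, ht1, hs2, hs3, ht2, ht3, he, hb⟩ ρ hρ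
  simp only at hs1 ht1 hs2 hs3 ht2 ht3 he hb ⊢
  obtain ⟨η, hη, hst⟩ := hU s hs1 t ht1 hs2 hs3 ht2 ht3 e he hb
  refine ⟨η / 2, half_pos hη, fun F₁ => ?_⟩
  obtain ⟨α, hα, hnb⟩ := hst F₁
  set κ := min (e / 16) (η / 4) with hκ
  have hκ0 : 0 < κ := lt_min (by positivity) (by positivity)
  have hκ1 : κ ≤ e / 16 := min_le_left _ _
  have hκ2 : κ ≤ η / 4 := min_le_right _ _
  let s' : Set P := s ∩ (Metric.ball α (ρ / 2) ∩ {α' | d (φ α) (φ α') < κ})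
  have hs'o : IsOpen s' := hs2.inter (Metric.isOpen_ball.inter
    (isOpen_lt ((h.continuous _).comp hφ) continuous_const))
  have hαs' : α ∈ s' := ⟨hα, Metric.mem_ball_self (half_pos hρ), by
    show d (φ α) (φ α) < κ
    rw [h.self]; exact hκ0⟩
  obtain ⟨e', he', hb'⟩ := hP s' hs'o ⟨α, hαs'⟩
  refine ⟨e' / 8, by positivity, fun F₂ => ?_⟩
  obtain ⟨_, ⟨ζ, ⟨hζ, hζ1⟩, rfl⟩, hζ2⟩ := not_bdd hnb F₂
  let t' : Set P := t ∩ (Metric.ball ζ (ρ / 2) ∩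
    {ζ' | d ((φ ζ)⁻¹ * φ α) ((φ ζ')⁻¹ * φ α) < κ})
  have ht'o : IsOpen t' := ht2.inter (Metric.isOpen_ball.inter
    (isOpen_lt ((h.continuous _).comp (by fun_prop)) continuous_const))
  have hζt' : ζ ∈ t' := ⟨hζ, Metric.mem_ball_self (half_pos hρ), by
    show d _ _ < κ
    rw [h.self]; exact hκ0⟩
  refine ⟨⟨(s', t', e'), inter_subset_left.trans hs1, inter_subset_left.trans ht1, hs'o,
    ⟨α, hαs'⟩, ht'o, ⟨ζ, hζt'⟩, he', hb'⟩, le_rfl,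
    prod_mono inter_subset_left inter_subset_left, ?_, ?_⟩
  · rintro p ⟨hp1, hp2⟩ q ⟨hq1, hq2⟩
    exact dist_prod_le (dist_le_of_ball hp1.2.1 hq1.2.1) (dist_le_of_ball hp2.2.1 hq2.2.1)
  · rintro ⟨α', ζ'⟩ ⟨hp1, hp2⟩
    have h1 : d (φ α) (φ α') < κ := hp1.2.2
    have h2 : d ((φ ζ)⁻¹ * φ α) ((φ ζ')⁻¹ * φ α) < κ := hp2.2.2
    rw [← h.left (φ ζ')⁻¹] at h1
    have key : ∀ f, d f ((φ ζ)⁻¹ * φ α) - 2 * κ ≤ d f ((φ ζ')⁻¹ * φ α') := by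
      intro f
      have h3 := h.tri f ((φ ζ')⁻¹ * φ α') ((φ ζ)⁻¹ * φ α)
      have h4 := h.tri ((φ ζ')⁻¹ * φ α') ((φ ζ')⁻¹ * φ α) ((φ ζ)⁻¹ * φ α)
      rw [h.symm] at h1 h2
      linarith
    refine ⟨fun f hf => ?_, fun f hf => ?_⟩
    · have := key f; have := hζ1 f hf
      show e / 8 ≤ d f ((φ ζ')⁻¹ * φ α')
      linarith
    · have := key f; have : η ≤ d f ((φ ζ)⁻¹ * φ α) := hζ2 f hf
      show η / 2 ≤ d f ((φ ζ')⁻¹ * φ α')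
      linarith

theorem conj_small [IsTopologicalGroup G] (h : LD d) {K : Set G} {η : ℝ} (hη : 0 < η)
    (hK : Bdd d K η) : ∃ δ > 0, ∀ k ∈ K, ∀ g, d 1 g < δ → d 1 (k⁻¹ * g * k) < 3 * η := by
  obtain ⟨F, hF⟩ := hK
  have h1 : ∀ᶠ g in 𝓝 (1 : G), ∀ f ∈ F, d 1 (f⁻¹ * g * f) < η := by
    rw [Filter.eventually_all_finset]
    intro f _
    have hc : Continuous fun g : G => f⁻¹ * g * f := by fun_prop
    exact hc.continuousAt (x := 1) (by simpa using h.ball η hη)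
  obtain ⟨δ, hδ, hsub⟩ := h.basis _ h1
  refine ⟨δ, hδ, fun k hk g hg => ?_⟩
  obtain ⟨f, hf, hfk⟩ := hF k hk
  have h2 : d 1 (f⁻¹ * g * f) < η := hsub hg f hf
  have h3 : d 1 (k⁻¹ * g * k) = d k (g * k) := by rw [h.one k, mul_assoc]
  have h4 : d f (g * f) < η := by rw [h.one f, ← mul_assoc]; exact h2
  have h5 := h.tri k f (g * k)
  have h6 := h.tri f (g * f) (g * k)
  rw [h.left, ] at h6
  rw [h.symm k f] at h5
  linarith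

theorem caseII [IsTopologicalGroup G] [CompleteSpace P] [Nonempty P] (h : LD d) (φ : P → G)
    (hφ : Continuous φ)
    (hP : ∀ O : Set P, IsOpen O → O.Nonempty → ∃ ε > 0, ¬ Bdd d (φ '' O) ε)
    (hU : ∀ s₀ t₀ : Set P, IsOpen s₀ → s₀.Nonempty → IsOpen t₀ → t₀.Nonempty →
      ∃ s ⊆ s₀, ∃ t ⊆ t₀, IsOpen s ∧ s.Nonempty ∧ IsOpen t ∧ t.Nonempty ∧ ∃ e > 0,
      ¬ Bdd d (φ '' s) e ∧ ¬ UStep d φ s t e) :
    ∃ c > 0, ∀ F : ℕ → Finset G, ∃ g : G, ∀ n : ℕ, ∀ f ∈ F n, c / (n + 1) ≤ d f g := by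
  let S := {a : Set P × Set P × Set P × ℝ × ℝ // IsOpen a.1 ∧ a.1.Nonempty ∧
    IsOpen a.2.1 ∧ a.2.1.Nonempty ∧ IsOpen a.2.2.1 ∧ a.2.2.1.Nonempty ∧ 0 < a.2.2.2.1 ∧
    ¬ Bdd d (φ '' a.2.1) a.2.2.2.1 ∧ ¬ UStep d φ a.2.1 a.2.2.1 a.2.2.2.1 ∧ 0 < a.2.2.2.2 ∧
    ¬ Bdd d (φ '' a.2.2.1) a.2.2.2.2}
  obtain ⟨s₀, -, t₀, -, hs₀, hs₀', ht₀, ht₀', e₀, he₀, hb₀, hu₀⟩ :=
    hU univ univ isOpen_univ univ_nonempty isOpen_univ univ_nonempty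
  obtain ⟨ε₀, hε₀, hc₀⟩ := hP t₀ ht₀ ht₀'
  let σ₀ : S := ⟨(univ, s₀, t₀, e₀, ε₀), isOpen_univ, univ_nonempty, hs₀, hs₀', ht₀, ht₀', he₀,
    hb₀, hu₀, hε₀, hc₀⟩
  refine ⟨ε₀ / 8, by positivity, fun F => ?_⟩
  refine (lookahead h (Q := P × P × P)
    (fun q => φ q.1 * ((φ q.2.1)⁻¹ * φ q.2.2)) (by fun_prop)
    (S := S) (fun σ => σ.1.1 ×ˢ (σ.1.2.1 ×ˢ σ.1.2.2.1)) (fun σ => σ.1.2.2.2.2 / 8)
    (fun σ => σ.2.2.1.prod (σ.2.2.2.2.1.prod σ.2.2.2.2.2.2.1)) ?_ σ₀ (by positivity)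
    F).elim fun q hq => ⟨_, hq⟩
  rintro ⟨⟨r, s, t, e, ε⟩, hr1, hr2, hs1, hs2, ht1, ht2, he, hb, hu, hε, hc⟩ ρ hρ
  simp only at hr1 hr2 hs1 hs2 ht1 ht2 he hb hu hε hc ⊢
  obtain ⟨εr, hεr, hbr⟩ := hP r hr1 hr2
  obtain ⟨ξ, hξ, hξs⟩ := sep_seq h φ hbr
  obtain ⟨ζ, hζ, hζs⟩ := sep_seq h φ hc
  obtain ⟨αs, hαs, hαss⟩ := sep_seq h φ hb
  obtain ⟨F₀, hF₀⟩ : ∃ F₀ : Finset G, ∀ α ∈ s, Bdd d ((fun ζ => (φ ζ)⁻¹ * φ α) ''
      {ζ | ζ ∈ t ∧ ∀ f ∈ F₀, e / 4 ≤ d f ((φ ζ)⁻¹ * φ α)}) (εr / 3) := by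
    by_contra hn
    push Not at hn
    exact hu ⟨εr / 3, by positivity, hn⟩
  obtain ⟨j, -, hI⟩ := pigeon h (fun i => (φ (ζ i))⁻¹) (fun j => φ (αs j)) infinite_univ
    (fun j _ j' _ hne => hαss j j' hne) F₀
  set α := αs j with hα
  have hαm : α ∈ s := hαs j
  obtain ⟨δ, hδ, hconj⟩ := conj_small h (by positivity) (hF₀ α hαm)
  refine ⟨δ / 4, by positivity, fun F₁ => ?_⟩
  obtain ⟨i, hi, hΛ⟩ := pigeon h (fun l => φ (ξ l) * (φ α)⁻¹) (fun i => φ (ζ i)) hI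
    (fun i _ i' _ hne => hζs i i' hne) F₁
  set k₀ := (φ α)⁻¹ * φ (ζ i) with hk₀
  have hsep : ∀ l l', l ≠ l' → δ ≤ d (φ (ξ l) * k₀) (φ (ξ l') * k₀) := by
    intro l l' hne
    by_contra hlt
    push Not at hlt
    rw [h.one] at hlt
    have h1 := hconj ((φ (ζ i))⁻¹ * φ α) ⟨ζ i, ⟨hζ i, fun f hf => le_trans (by linarith)
      (hi f hf)⟩, rfl⟩ _ hlt
    have h2 : ((φ (ζ i))⁻¹ * φ α)⁻¹ * ((φ (ξ l) * k₀)⁻¹ * (φ (ξ l') * k₀)) *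
        ((φ (ζ i))⁻¹ * φ α) = (φ (ξ l))⁻¹ * φ (ξ l') := by
      rw [hk₀]; group
    rw [h2, ← h.one] at h1
    have := hξs l l' hne
    linarith
  set θ := min (ε / 8) (δ / 8) with hθ
  have hθ0 : 0 < θ := lt_min (by positivity) (by positivity)
  have hθ1 : θ ≤ ε / 8 := min_le_left _ _
  have hθ2 : θ ≤ δ / 8 := min_le_right _ _
  let W : Set (P × P) := ((s ∩ Metric.ball α (ρ / 2)) ×ˢ (t ∩ Metric.ball (ζ i) (ρ / 2))) ∩
    {p | d k₀ ((φ p.1)⁻¹ * φ p.2) < θ}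
  have hW : IsOpen W := ((hs1.inter Metric.isOpen_ball).prod
    (ht1.inter Metric.isOpen_ball)).inter
    (isOpen_lt ((h.continuous _).comp (by fun_prop)) continuous_const)
  have hmem : (α, ζ i) ∈ W := ⟨⟨⟨hαm, Metric.mem_ball_self (half_pos hρ)⟩,
    ⟨hζ i, Metric.mem_ball_self (half_pos hρ)⟩⟩, by
      show d k₀ k₀ < θ
      rw [h.self]; exact hθ0⟩
  obtain ⟨u, v, huo, hvo, hαu, hζv, huv⟩ := isOpen_prod_iff.1 hW _ _ hmem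
  obtain ⟨s', hs'u, t', ht'v, hs', hs'n, ht', ht'n, e', he', hb', hu'⟩ :=
    hU u v huo ⟨_, hαu⟩ hvo ⟨_, hζv⟩
  obtain ⟨ε', hε', hc'⟩ := hP t' ht' ht'n
  refine ⟨ε' / 8, by positivity, fun F₂ => ?_⟩
  obtain ⟨l, hl, hl2⟩ := pigeon h (fun _ => 1) (fun l => φ (ξ l) * k₀) hΛ
    (fun l _ l' _ hne => hsep l l' hne) F₂
  obtain ⟨i0, hl3⟩ := hl2.nonempty
  simp only [one_mul, mem_setOf_eq] at hl3
  let r' : Set P := r ∩ (Metric.ball (ξ l) (ρ / 2) ∩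
    {ξ' | d (φ (ξ l) * k₀) (φ ξ' * k₀) < θ})
  have hr'o : IsOpen r' := hr1.inter (Metric.isOpen_ball.inter
    (isOpen_lt ((h.continuous _).comp (by fun_prop)) continuous_const))
  have hξr' : ξ l ∈ r' := ⟨hξ l, Metric.mem_ball_self (half_pos hρ), by
    show d _ _ < θ
    rw [h.self]; exact hθ0⟩
  have hin : ∀ p : P × P, p ∈ s' ×ˢ t' → p ∈ W := fun p hp => huv ⟨hs'u hp.1, ht'v hp.2⟩
  refine ⟨⟨(r', s', t', e', ε'), hr'o, ⟨_, hξr'⟩, hs', hs'n, ht', ht'n, he', hb', hu', hε', hc'⟩,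
    le_rfl, ?_, ?_, ?_⟩
  · rintro p ⟨hp1, hp2⟩
    exact ⟨hp1.1, (hin _ hp2).1.1.1, (hin _ hp2).1.2.1⟩
  · rintro p ⟨hp1, hp2⟩ q ⟨hq1, hq2⟩
    exact dist_prod_le (dist_le_of_ball hp1.2.1 hq1.2.1) (dist_prod_le
      (dist_le_of_ball (hin _ hp2).1.1.2 (hin _ hq2).1.1.2)
      (dist_le_of_ball (hin _ hp2).1.2.2 (hin _ hq2).1.2.2))
  · rintro ⟨ξ', α', ζ'⟩ ⟨hp1, hp2⟩
    have h1 : d (φ (ξ l) * k₀) (φ ξ' * k₀) < θ := hp1.2.2
    have h2 : d k₀ ((φ α')⁻¹ * φ ζ') < θ := (hin _ hp2).2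
    rw [← h.left (φ ξ')] at h2
    have key : ∀ f, d f (φ (ξ l) * k₀) - 2 * θ ≤ d f (φ ξ' * ((φ α')⁻¹ * φ ζ')) := by
      intro f
      have h3 := h.tri f (φ ξ' * ((φ α')⁻¹ * φ ζ')) (φ (ξ l) * k₀)
      have h4 := h.tri (φ ξ' * ((φ α')⁻¹ * φ ζ')) (φ ξ' * k₀) (φ (ξ l) * k₀)
      rw [h.symm] at h1 h2
      linarith
    refine ⟨fun f hf => ?_, fun f hf => ?_⟩
    · have := key f
      have h5 : ε / 2 ≤ d f (φ (ξ l) * (φ α)⁻¹ * φ (ζ i)) := hl f hf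
      rw [mul_assoc] at h5
      show ε / 8 ≤ d f (φ ξ' * ((φ α')⁻¹ * φ ζ'))
      linarith
    · have := key f
      have h5 : δ / 2 ≤ d f (φ (ξ l) * k₀) := hl3 f hf
      show δ / 4 ≤ d f (φ ξ' * ((φ α')⁻¹ * φ ζ'))
      linarith

theorem main [IsTopologicalGroup G] [CompleteSpace P] [Nonempty P] (h : LD d) (φ : P → G)
    (hφ : Continuous φ)
    (hP : ∀ O : Set P, IsOpen O → O.Nonempty → ∃ ε > 0, ¬ Bdd d (φ '' O) ε) :
    ∃ c > 0, ∀ F : ℕ → Finset G, ∃ g : G, ∀ n : ℕ, ∀ f ∈ F n, c / (n + 1) ≤ d f g := by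
  by_cases hU : ∀ s₀ t₀ : Set P, IsOpen s₀ → s₀.Nonempty → IsOpen t₀ → t₀.Nonempty →
      ∃ s ⊆ s₀, ∃ t ⊆ t₀, IsOpen s ∧ s.Nonempty ∧ IsOpen t ∧ t.Nonempty ∧ ∃ e > 0,
      ¬ Bdd d (φ '' s) e ∧ ¬ UStep d φ s t e
  · exact caseII h φ hφ hP hU
  · simp only [not_forall] at hU
    obtain ⟨s₀, t₀, h1, h2, h3, h4, h5⟩ := hU
    refine caseI h φ hφ hP s₀ t₀ h1 h2 h3 h4 fun s hs t ht a b c d' e he hb => ?_
    by_contra hn
    exact h5 ⟨s, hs, t, ht, a, b, c, d', e, he, hb, hn⟩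

end Main

/-- A countable union of totally bounded sets. -/
def SB (d : G → G → ℝ) (S : Set G) : Prop :=
  ∃ K : ℕ → Set G, S ⊆ ⋃ n, K n ∧ ∀ n, ∀ ε > 0, Bdd d (K n) ε

theorem dichotomy [IsTopologicalGroup G] (h : LD d) (φ : (ℕ → ℕ) → G) (hφ : Continuous φ) :
    SB d (range φ) ∨
      ∃ c > 0, ∀ F : ℕ → Finset G, ∃ g : G, ∀ n : ℕ, ∀ f ∈ F n, c / (n + 1) ≤ d f g := by
  rw [or_iff_not_imp_left]
  intro hn
  let 𝒲 : Set (Set (ℕ → ℕ)) := {O | IsOpen O ∧ SB d (φ '' O)}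
  have hW : SB d (φ '' ⋃₀ 𝒲) := by
    obtain ⟨T, hT, hTs, hTu⟩ := TopologicalSpace.isOpen_sUnion_countable 𝒲 fun O hO => hO.1
    rw [← hTu]
    rcases T.eq_empty_or_nonempty with rfl | hne
    · exact ⟨fun _ => ∅, by simp, fun _ _ _ => ⟨∅, by simp⟩⟩
    obtain ⟨O, rfl⟩ := hT.exists_eq_range hne
    choose K hK hKb using fun n => (hTs (mem_range_self n)).2
    refine ⟨fun n => K n.unpair.1 n.unpair.2, ?_, fun n => hKb _ _⟩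
    rintro _ ⟨x, ⟨_, ⟨n, rfl⟩, hx⟩, rfl⟩
    obtain ⟨m, hm⟩ := mem_iUnion.1 (hK n ⟨x, hx, rfl⟩)
    exact mem_iUnion.2 ⟨Nat.pair n m, by simpa using hm⟩
  have hWo : IsOpen (⋃₀ 𝒲) := isOpen_sUnion fun O hO => hO.1
  let P : Set (ℕ → ℕ) := (⋃₀ 𝒲)ᶜ
  have hPc : IsClosed P := hWo.isClosed_compl
  have : PolishSpace P := hPc.polishSpace
  have : Nonempty P := by
    by_contra hne
    have : ⋃₀ 𝒲 = univ := by
      rw [eq_univ_iff_forall]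
      intro x
      by_contra hx
      exact hne ⟨⟨x, hx⟩⟩
    rw [this, image_univ] at hW
    exact hn hW
  letI := TopologicalSpace.upgradeIsCompletelyMetrizable P
  refine main h (fun x : P => φ x) (hφ.comp continuous_subtype_val) fun O hO hOn => ?_
  by_contra hb
  push Not at hb
  obtain ⟨O', hO', rfl⟩ := isOpen_induced_iff.1 hO
  obtain ⟨x, hx⟩ := hOn
  apply x.2
  refine ⟨O', ⟨hO', ?_⟩, hx⟩
  obtain ⟨K, hK, hKb⟩ := hW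
  refine ⟨fun n => Nat.casesOn n ((fun x : P => φ x) '' (Subtype.val ⁻¹' O')) K, ?_, ?_⟩
  · rintro _ ⟨y, hy, rfl⟩
    by_cases hyW : y ∈ ⋃₀ 𝒲
    · obtain ⟨m, hm⟩ := mem_iUnion.1 (hK ⟨y, hyW, rfl⟩)
      exact mem_iUnion.2 ⟨m + 1, hm⟩
    · exact mem_iUnion.2 ⟨0, ⟨⟨y, hyW⟩, hy, rfl⟩⟩
  · rintro (_ | n)
    · exact hb
    · exact hKb n

end Pool.Agent.H26.OBdd
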