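import Mathlib

set_option autoImplicit false

namespace Pool.Agent.H26.PalWidth

open FreeGroup

abbrev Lt := Bool × Bool

/-- weight of a pair of adjacent letters -/
def h (x y : Lt) : ℤ :=
  if x = (false, true) ∧ y = (true, true) then 1
  else if x = (false, false) ∧ y = (true, false) then 1
  else if x = (true, true) ∧ y = (false, true) then -1
  else if x = (true, false) ∧ y = (false, false) then -1
  else 0

def flp (x : Lt) : Lt := (x.1, !x.2)

theorem h_swap (x y : Lt) : h y x = - h x y := by
  revert x y; decide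

theorem h_flp (x y : Lt) : h (flp x) (flp y) = h x y := by
  revert x y; decide

theorem h_abs (x y : Lt) : |h x y| ≤ 1 := by
  revert x y; decide

def S : List Lt → ℤ
  | [] => 0
  | [_] => 0
  | x :: y :: t => h x y + S (y :: t)

theorem S_append (u v : List Lt) : |S (u ++ v) - S u - S v| ≤ 1 := by
  induction u with
  | nil => simp [S]
  | cons x u ih =>
    cases u with
    | nil =>
      cases v with
      | nil => simp [S]
      | cons y v => simpa [S] using h_abs x y
    | cons z u =>
      have : S (x :: z :: u ++ v) - S (x :: z :: u) - S v = S (z :: u ++ v) - S (z :: u) - S v := by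
        simp [S]
      rw [this]; exact ih

theorem S_snoc (u : List Lt) (x y : Lt) : S (u ++ [x, y]) = S (u ++ [x]) + h x y := by
  induction u with
  | nil => simp [S]
  | cons z u ih =>
    cases u with
    | nil => simp [S]
    | cons w u =>
      simp only [List.cons_append, S] at ih ⊢
      rw [ih]; ring

theorem S_reverse (u : List Lt) : S u.reverse = - S u := by
  induction u with
  | nil => simp [S]
  | cons x u ih =>
    cases u with
    | nil => simp [S]
    | cons y u =>
      have e : (x :: y :: u).reverse = u.reverse ++ [y, x] := by simp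
      have e2 : (y :: u).reverse = u.reverse ++ [y] := by simp
      rw [e, S_snoc, ← e2, ih, h_swap]
      simp [S]

theorem S_flp (u : List Lt) : S (u.map flp) = S u := by
  induction u with
  | nil => simp [S]
  | cons x u ih =>
    cases u with
    | nil => simp [S]
    | cons y u =>
      simp only [List.map_cons, S] at ih ⊢
      rw [ih, h_flp]

theorem invRev_eq (u : List Lt) : invRev u = (u.map flp).reverse := rfl

theorem S_invRev (u : List Lt) : S (invRev u) = - S u := by
  rw [invRev_eq, S_reverse, S_flp]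

theorem reduce_flp (u : List Lt) : reduce (u.map flp) = (reduce u).map flp := by
  induction u with
  | nil => simp
  | cons x u ih =>
    simp only [List.map_cons, reduce.cons, ih]
    cases hr : reduce u with
    | nil => simp
    | cons y t =>
      simp only [List.map_cons]
      by_cases hc : x.1 = y.1 ∧ x.2 = !y.2
      · have hc' : (flp x).1 = (flp y).1 ∧ (flp x).2 = !(flp y).2 := by
          simp [flp, hc.1, hc.2]
        simp [hc, hc']
      · have hc' : ¬ ((flp x).1 = (flp y).1 ∧ (flp x).2 = !(flp y).2) := by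
          intro hh; apply hc; revert hh; rcases x with ⟨a, b⟩; rcases y with ⟨c, d⟩
          simp [flp]
        simp only [hc, hc', if_false, List.map_cons]

theorem flp_flp (u : List Lt) : (u.map flp).map flp = u := by
  simp [List.map_map, Function.comp_def, flp]

theorem reduce_reverse (u : List Lt) : reduce u.reverse = (reduce u).reverse := by
  have e : u.reverse = invRev (u.map flp) := by rw [invRev_eq, flp_flp]
  rw [e, reduce_invRev, reduce_flp, invRev_eq, flp_flp]

theorem decomp (u v : List Lt) (hu : reduce u = u) (hv : reduce v = v) :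
    ∃ u' t v', u = u' ++ t ∧ v = invRev t ++ v' ∧ reduce (u ++ v) = u' ++ v' := by
  induction u with
  | nil => exact ⟨[], [], v, by simp, by simp, by simpa using hv⟩
  | cons x u ih =>
    have hred : IsReduced (x :: u) := IsReduced.of_reduce_eq hu
    have hu' : reduce u = u := by
      apply IsReduced.reduce_eq
      exact List.IsChain.tail hred
    obtain ⟨u', t, v', e1, e2, e3⟩ := ih hu'
    rw [List.cons_append, reduce.cons, e3]
    cases u' with
    | cons y u'' =>
      have hc : ¬ (x.1 = y.1 ∧ x.2 = !y.2) := by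
        rw [e1] at hred
        have := (List.isChain_cons_cons.mp hred).1
        intro hh
        have h3 := this hh.1
        rw [hh.2] at h3
        simp at h3
      refine ⟨x :: y :: u'', t, v', by simp [e1], e2, ?_⟩
      simp [hc]
    | nil =>
      cases v' with
      | nil => exact ⟨[x], t, [], by simpa using e1, e2, by simp⟩
      | cons y v'' =>
        by_cases hc : x.1 = y.1 ∧ x.2 = !y.2
        · refine ⟨[], x :: t, v'', by simpa using e1, ?_, by simp [hc]⟩
          rw [e2, invRev_eq, invRev_eq]
          have : flp x = y := by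
            rcases x with ⟨a, b⟩; rcases y with ⟨c, d⟩
            simp [flp] at hc ⊢
            simp [hc.1, hc.2]
          simp [this]
        · exact ⟨[x], t, y :: v'', by simpa using e1, e2, by simp [hc]⟩

def psi (g : FreeGroup Bool) : ℤ := S g.toWord

theorem psi_mul (g k : FreeGroup Bool) : psi (g * k) ≤ psi g + psi k + 3 := by
  unfold psi
  rw [toWord_mul]
  obtain ⟨u', t, v', e1, e2, e3⟩ := decomp g.toWord k.toWord (reduce_toWord g) (reduce_toWord k)
  rw [e3, e1, e2]
  have h1 := abs_le.mp (S_append u' v')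
  have h2 := abs_le.mp (S_append u' t)
  have h3 := abs_le.mp (S_append (invRev t) v')
  have h4 := S_invRev t
  omega

theorem psi_pal (l : List Lt) (hl : l.reverse = l) : psi (mk l) = 0 := by
  unfold psi
  rw [toWord_mk]
  have h1 := S_reverse (reduce l)
  rw [← reduce_reverse, hl] at h1
  omega

theorem psi_prod (ps : List (FreeGroup Bool)) (hp : ∀ p ∈ ps, psi p = 0) :
    psi ps.prod ≤ 3 * ps.length := by
  induction ps with
  | nil => simp [psi, S]
  | cons p ps ih =>
    have h1 := psi_mul p ps.prod
    have h2 := hp p (by simp)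
    have h3 := ih (fun q hq => hp q (by simp [hq]))
    simp only [List.prod_cons, List.length_cons]
    push_cast
    omega

def W : ℕ → List Lt
  | 0 => [(false, true)]
  | n + 1 => (false, true) :: (true, true) :: (false, false) :: (true, false) :: W n

theorem W_head (n : ℕ) : ∃ t, W n = (false, true) :: t := by
  cases n with
  | zero => exact ⟨[], rfl⟩
  | succ n => exact ⟨_, rfl⟩

theorem W_reduce (n : ℕ) : reduce (W n) = W n := by
  induction n with
  | zero => rfl
  | succ n ih =>
    obtain ⟨t, ht⟩ := W_head n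
    simp only [W, reduce.cons, ih]
    rw [ht]
    simp

theorem W_S (n : ℕ) : S (W n) = 2 * n := by
  induction n with
  | zero => rfl
  | succ n ih =>
    obtain ⟨t, ht⟩ := W_head n
    rw [W, ht]
    rw [ht] at ih
    simp only [S, ih]
    simp [h]
    ring

theorem psi_W (n : ℕ) : psi (mk (W n)) = 2 * n := by
  unfold psi
  rw [toWord_mk, W_reduce, W_S]

def a : FreeGroup Bool := of false
def b : FreeGroup Bool := of true

def toLt (x : FreeGroup Bool) : Lt :=
  if x = a then (false, true) else if x = b then (true, true)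
  else if x = a⁻¹ then (false, false) else (true, false)

theorem mk_toLt (x : FreeGroup Bool) (hx : x = a ∨ x = b ∨ x = a⁻¹ ∨ x = b⁻¹) :
    mk [toLt x] = x := by
  unfold toLt
  split_ifs with h1 h2 h3
  · rw [h1]; rfl
  · rw [h2]; rfl
  · rw [h3]; rfl
  · rcases hx with hx | hx | hx | hx
    · exact absurd hx h1
    · exact absurd hx h2
    · exact absurd hx h3
    · rw [hx]; rfl

theorem mk_map_toLt (w : List (FreeGroup Bool))
    (hw : ∀ x ∈ w, x = a ∨ x = b ∨ x = a⁻¹ ∨ x = b⁻¹) : mk (w.map toLt) = w.prod := by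
  induction w with
  | nil => rfl
  | cons x w ih =>
    rw [List.prod_cons, ← ih (fun y hy => hw y (by simp [hy]))]
    conv_rhs => rw [← mk_toLt x (hw x (by simp))]
    rw [mul_mk]
    rfl

theorem infinite_width :
    ¬ (∃ N : ℕ, ∀ g : FreeGroup Bool, ∃ ps : List (FreeGroup Bool), ps.length ≤ N ∧ ps.prod = g ∧
        ∀ p ∈ ps, ∃ w : List (FreeGroup Bool),
          (∀ x ∈ w, x ∈ ({a, b} : Finset (FreeGroup Bool)) ∨ x⁻¹ ∈ ({a, b} : Finset (FreeGroup Bool))) ∧
            w.reverse = w ∧ w.prod = p) := by
  rintro ⟨N, hN⟩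
  obtain ⟨ps, hl, hp, hps⟩ := hN (mk (W (2 * N + 1)))
  have h1 : ∀ p ∈ ps, psi p = 0 := by
    intro p hp
    obtain ⟨w, hw, hr, hwp⟩ := hps p hp
    have hw' : ∀ x ∈ w, x = a ∨ x = b ∨ x = a⁻¹ ∨ x = b⁻¹ := by
      intro x hx
      have := hw x hx
      simp only [Finset.mem_insert, Finset.mem_singleton, inv_eq_iff_eq_inv] at this
      tauto
    rw [← hwp, ← mk_map_toLt w hw']
    apply psi_pal
    rw [← List.map_reverse, hr]
  have h2 := psi_prod ps h1
  rw [hp, psi_W] at h2
  push_cast at h2
  have : (ps.length : ℤ) ≤ N := by exact_mod_cast hl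
  omega

theorem closure_ab : Subgroup.closure ({a, b} : Set (FreeGroup Bool)) = ⊤ := by
  rw [← closure_range_of]
  congr 1
  ext x
  simp only [Set.mem_insert_iff, Set.mem_singleton_iff, Set.mem_range, a, b]
  constructor
  · rintro (h | h)
    · exact ⟨false, h.symm⟩
    · exact ⟨true, h.symm⟩
  · rintro ⟨y, hy⟩
    cases y
    · exact Or.inl hy.symm
    · exact Or.inr hy.symm

section Fin
variable {G : Type} [Group G] (X : Set G)

/-- values of reversed relators -/
def P : Subgroup G where
  carrier := {g | ∃ w : List G, (∀ x ∈ w, x ∈ X ∨ x⁻¹ ∈ X) ∧ w.prod = 1 ∧ w.reverse.prod = g}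
  one_mem' := ⟨[], by simp, by simp, by simp⟩
  mul_mem' := by
    rintro g k ⟨w, hw, h1, h2⟩ ⟨v, hv, h3, h4⟩
    refine ⟨v ++ w, ?_, by simp [h1, h3], by simp [h2, h4]⟩
    intro x hx
    rcases List.mem_append.mp hx with hx | hx
    · exact hv x hx
    · exact hw x hx
  inv_mem' := by
    rintro g ⟨w, hw, h1, h2⟩
    refine ⟨(w.map fun x => x⁻¹).reverse, ?_, ?_, ?_⟩
    · intro x hx
      simp only [List.mem_reverse, List.mem_map] at hx
      obtain ⟨y, hy, rfl⟩ := hx
      rcases hw y hy with h | h
      · right; simpa using h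
      · left; exact h
    · rw [← List.prod_inv_reverse, h1, inv_one]
    · rw [← h2, List.prod_inv_reverse]
      simp [List.map_reverse]

theorem P_conj (x : G) (hx : x ∈ X ∨ x⁻¹ ∈ X) (n : G) (hn : n ∈ P X) : x * n * x⁻¹ ∈ P X := by
  obtain ⟨w, hw, h1, h2⟩ := hn
  refine ⟨x⁻¹ :: w ++ [x], ?_, by simp [h1], by simp [h2, mul_assoc]⟩
  intro y hy
  simp only [List.cons_append, List.mem_cons, List.mem_append, List.not_mem_nil, or_false] at hy
  rcases hy with rfl | hy | rfl
  · simpa [or_comm] using hx
  · exact hw y hy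
  · exact hx

theorem P_normal (hX : Subgroup.closure X = ⊤) : (P X).Normal := by
  constructor
  intro n hn g
  have hg : g ∈ Subgroup.closure X := by rw [hX]; trivial
  induction hg using Subgroup.closure_induction_left generalizing n with
  | one => simpa using hn
  | mul_left x hx y _ ih =>
    have := P_conj X x (Or.inl hx) _ (ih n hn)
    simpa [mul_assoc] using this
  | inv_mul_cancel x hx y _ ih =>
    have := P_conj X x⁻¹ (Or.inr (by simpa using hx)) _ (ih n hn)
    simpa [mul_assoc] using this

theorem P_pal (n : G) (hn : n ∈ P X) :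
    ∃ w : List G, (∀ x ∈ w, x ∈ X ∨ x⁻¹ ∈ X) ∧ w.reverse = w ∧ w.prod = n := by
  obtain ⟨w, hw, h1, h2⟩ := hn
  refine ⟨w ++ w.reverse, ?_, by simp, by simp [h1, h2]⟩
  intro x hx
  simp only [List.mem_append, List.mem_reverse, or_self] at hx
  exact hw x hx

theorem zpow_pal (x : G) (hx : x ∈ X) (i : ℤ) :
    ∃ w : List G, (∀ y ∈ w, y ∈ X ∨ y⁻¹ ∈ X) ∧ w.reverse = w ∧ w.prod = x ^ i := by
  cases i with
  | ofNat n =>
    refine ⟨List.replicate n x, ?_, by simp, by simp⟩
    intro y hy
    rw [List.eq_of_mem_replicate hy]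
    exact Or.inl hx
  | negSucc n =>
    refine ⟨List.replicate (n + 1) x⁻¹, ?_, by simp, ?_⟩
    · intro y hy
      rw [List.eq_of_mem_replicate hy]
      right; simpa using hx
    · rw [List.prod_replicate, zpow_negSucc, inv_pow]

theorem width_three (c d : G) (hcd : Subgroup.closure ({c, d} : Set G) = ⊤)
    (hc : c ∈ X) (hd : d ∈ X) (hp : c * d ∈ X) (g : G) :
    ∃ ps : List G, ps.length ≤ 3 ∧ ps.prod = g ∧
      ∀ p ∈ ps, ∃ w : List G, (∀ x ∈ w, x ∈ X ∨ x⁻¹ ∈ X) ∧ w.reverse = w ∧ w.prod = p := by
  have hX : Subgroup.closure X = ⊤ := by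
    rw [eq_top_iff, ← hcd]
    apply Subgroup.closure_mono
    intro x hx
    rcases hx with rfl | rfl
    · exact hc
    · exact hd
  haveI := P_normal X hX
  have hcomm : (c * d)⁻¹ * (d * c) ∈ P X := by
    refine ⟨[c, d, (c * d)⁻¹], ?_, by simp [mul_assoc], by simp [mul_assoc]⟩
    intro x hx
    simp only [List.mem_cons, List.not_mem_nil, or_false] at hx
    rcases hx with rfl | rfl | rfl
    · exact Or.inl hc
    · exact Or.inl hd
    · right; simpa using hp
  let q : G →* G ⧸ P X := QuotientGroup.mk' (P X)
  have hq : Commute (q c) (q d) := by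
    show q c * q d = q d * q c
    rw [← _root_.map_mul, ← _root_.map_mul]
    exact QuotientGroup.eq.mpr hcomm
  have key : ∀ g : G, ∃ i j : ℤ, q g = q c ^ i * q d ^ j := by
    intro g
    have hg : g ∈ Subgroup.closure ({c, d} : Set G) := by rw [hcd]; trivial
    induction hg using Subgroup.closure_induction with
    | mem x hx =>
      rcases hx with rfl | rfl
      · exact ⟨1, 0, by simp⟩
      · exact ⟨0, 1, by simp⟩
    | one => exact ⟨0, 0, by simp⟩
    | mul x y _ _ hx hy =>
      obtain ⟨i, j, h1⟩ := hx
      obtain ⟨k, l, h2⟩ := hy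
      refine ⟨i + k, j + l, ?_⟩
      rw [_root_.map_mul, h1, h2, zpow_add, zpow_add]
      have := (hq.zpow_zpow k j).eq
      calc q c ^ i * q d ^ j * (q c ^ k * q d ^ l)
          = q c ^ i * (q d ^ j * q c ^ k) * q d ^ l := by simp [mul_assoc]
        _ = q c ^ i * (q c ^ k * q d ^ j) * q d ^ l := by rw [this]
        _ = _ := by simp [mul_assoc]
    | inv x _ hx =>
      obtain ⟨i, j, h1⟩ := hx
      refine ⟨-i, -j, ?_⟩
      rw [_root_.map_inv, h1, mul_inv_rev, ← zpow_neg, ← zpow_neg]
      exact ((hq.zpow_zpow (-i) (-j)).eq).symm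
  obtain ⟨i, j, hij⟩ := key g
  have hn : (c ^ i * d ^ j)⁻¹ * g ∈ P X := by
    apply QuotientGroup.eq.mp
    show q (c ^ i * d ^ j) = q g
    rw [hij, _root_.map_mul, map_zpow, map_zpow]
  refine ⟨[c ^ i, d ^ j, (c ^ i * d ^ j)⁻¹ * g], by simp, by simp [mul_assoc], ?_⟩
  intro p hp
  simp only [List.mem_cons, List.not_mem_nil, or_false] at hp
  rcases hp with rfl | rfl | rfl
  · exact zpow_pal X c hc i
  · exact zpow_pal X d hd j
  · exact P_pal X _ hn

end Fin

end Pool.Agent.H26.PalWidth
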