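import Mathlib

set_option autoImplicit false

namespace Pool.Agent.H26.Rect

open Set Filter Topology

universe u

variable {X : Type u} [TopologicalSpace X]

/-- A decreasing sequence of symmetric open entourages with a compactness property. -/
structure Good (G : ℕ → X → X → Prop) : Prop where
  refl : ∀ n x, G n x x
  symm : ∀ n x y, G n x y → G n y x
  anti : ∀ m n x y, m ≤ n → G n x y → G m x y
  op : ∀ n x, IsOpen {y | G n x y}
  key : ∀ (F : Ultrafilter (X × ℕ)) (y z : X × ℕ → X) (y0 : X), Tendsto y F (𝓝 y0) →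
    (∀ n, ∀ᶠ i in F, G n (y i) (z i)) → ∃ z0, Tendsto z F (𝓝 z0) ∧ ∀ n, G n y0 z0

theorem exists_good [T35Space X] (e : X) (φ : X × X ≃ₜ X × X) (h1 : ∀ p : X × X, (φ p).1 = p.1)
    (h2 : ∀ x : X, φ (x, x) = (x, e)) (γ : ℕ → Set (Set (StoneCech X)))
    (h3 : ∀ n, ∀ U ∈ γ n, IsOpen U) (h4 : ∀ n, ∀ x : X, ∃ U ∈ γ n, stoneCechUnit x ∈ U)
    (h5 : ∀ x : X, (⋂ n, ⋃₀ {U | U ∈ γ n ∧ stoneCechUnit x ∈ U}) ⊆
      Set.range (stoneCechUnit : X → StoneCech X)) : ∃ G : ℕ → X → X → Prop, Good G := by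
  choose O hO hO' using fun n => h4 n e
  have : ∀ n (V : {V : Set (StoneCech X) // IsOpen V ∧ stoneCechUnit e ∈ V}),
      ∃ W : {V : Set (StoneCech X) // IsOpen V ∧ stoneCechUnit e ∈ V},
        closure W.1 ⊆ V.1 ∩ O n := fun n V => by
    obtain ⟨t, ht, hc, hs⟩ := exists_mem_nhds_isClosed_subset
      ((V.2.1.inter (h3 n _ (hO n))).mem_nhds ⟨V.2.2, hO' n⟩)
    exact ⟨⟨interior t, isOpen_interior, mem_interior_iff_mem_nhds.2 ht⟩,
      (closure_minimal interior_subset hc).trans hs⟩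
  choose S hS using this
  let V : ℕ → {V : Set (StoneCech X) // IsOpen V ∧ stoneCechUnit e ∈ V} := fun n =>
    Nat.rec ⟨univ, isOpen_univ, trivial⟩ S n
  have hV : ∀ n, closure (V (n + 1)).1 ⊆ (V n).1 ∩ O n := fun n => hS n _
  have hm : Antitone fun n => (V n).1 := antitone_nat_of_succ_le fun n =>
    subset_closure.trans ((hV n).trans inter_subset_left)
  let q : X × X → StoneCech X := fun p => stoneCechUnit (φ p).2
  have hq : Continuous q := continuous_stoneCechUnit.comp (by fun_prop)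
  refine ⟨fun n x y => q (x, y) ∈ (V n).1 ∧ q (y, x) ∈ (V n).1, fun n x => ?_, fun n x y h => h.symm,
    fun m n x y h h' => ⟨hm h h'.1, hm h h'.2⟩, fun n x => ?_, fun F y z y0 hy hz => ?_⟩
  · simp only [q, h2, and_self]
    exact (V n).2.2
  · exact ((V n).2.1.preimage (f := fun y => q (x, y)) (by fun_prop)).inter
      ((V n).2.1.preimage (f := fun y => q (y, x)) (by fun_prop))
  have h6 : ∀ (f : X × ℕ → StoneCech X) b, Tendsto f F (𝓝 b) → (∀ n, ∀ᶠ i in F, f i ∈ (V n).1) →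
      ∀ n, b ∈ (V n).1 ∩ O n := fun f b h h' n => hV n (mem_closure_of_tendsto h (h' (n + 1)))
  obtain ⟨b, -, hb⟩ := isCompact_univ.ultrafilter_le_nhds (F.map fun i => q (y i, z i)) (by simp)
  obtain ⟨k, rfl⟩ := h5 e (mem_iInter.2 fun n => ⟨O n, ⟨hO n, hO' n⟩,
    (h6 _ b hb (fun n => (hz n).mono fun _ h => h.1) n).2⟩)
  have h7 : Tendsto (fun i => (φ (y i, z i)).2) F (𝓝 k) :=
    isEmbedding_stoneCechUnit.tendsto_nhds_iff.2 hb
  have h8 : Tendsto z F (𝓝 (φ.symm (y0, k)).2) := by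
    refine (((continuous_snd.comp φ.symm.continuous).tendsto _).comp
      (hy.prodMk_nhds h7)).congr fun i => ?_
    have : (y i, (φ (y i, z i)).2) = φ (y i, z i) := Prod.ext (h1 (y i, z i)).symm rfl
    simp [this]
  exact ⟨_, h8, fun n => ⟨(h6 _ _ ((hq.tendsto _).comp (hy.prodMk_nhds h8))
    (fun n => (hz n).mono fun _ h => h.1) n).1, (h6 _ _ ((hq.tendsto _).comp (h8.prodMk_nhds hy))
    (fun n => (hz n).mono fun _ h => h.2) n).1⟩⟩

variable {G : ℕ → X → X → Prop} (hG : Good G)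
include hG

theorem key2 (F : Ultrafilter (X × ℕ)) (y m z : X × ℕ → X) (y0 : X) (hy : Tendsto y F (𝓝 y0))
    (h : ∀ n, ∀ᶠ i in F, G n (y i) (m i) ∧ G n (m i) (z i)) :
    ∃ z0, Tendsto z F (𝓝 z0) ∧ ∃ m0, ∀ n, G n y0 m0 ∧ G n m0 z0 := by
  obtain ⟨m0, h1, h2⟩ := hG.key F y m y0 hy fun n => (h n).mono fun _ h => h.1
  obtain ⟨z0, h3, h4⟩ := hG.key F m z m0 h1 fun n => (h n).mono fun _ h => h.2
  exact ⟨z0, h3, m0, fun n => ⟨h2 n, h4 n⟩⟩

theorem key3 (F : Ultrafilter X) (y z : X → X) (y0 : X) (hy : Tendsto y F (𝓝 y0))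
    (h : ∀ᶠ i in F, ∃ m, ∀ n, G n (y i) m ∧ G n m (z i)) :
    ∃ z0, Tendsto z F (𝓝 z0) ∧ ∃ m0, ∀ n, G n y0 m0 ∧ G n m0 z0 := by
  have : ∀ i, ∃ m, (∃ m, ∀ n, G n (y i) m ∧ G n m (z i)) → ∀ n, G n (y i) m ∧ G n m (z i) :=
    fun i => by
      by_cases h : ∃ m, ∀ n, G n (y i) m ∧ G n m (z i)
      exacts [h.imp fun _ h _ => h, ⟨y0, fun h' => (h h').elim⟩]
  choose m hm using this
  exact key2 hG (F.map fun i => (i, 0)) (y ∘ Prod.fst) (m ∘ Prod.fst) (z ∘ Prod.fst) y0 hy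
    fun n => h.mono fun i hi => hm i hi n

theorem cpt (x : X) : IsCompact {z | ∃ m, ∀ n, G n x m ∧ G n m z} :=
  isCompact_iff_ultrafilter_le_nhds.2 fun F hF => by
    obtain ⟨z, h1, h2⟩ := key3 hG F (fun _ => x) id x tendsto_const_nhds (le_principal_iff.1 hF)
    exact ⟨z, h2, h1⟩

theorem base (x : X) {O : Set X} (hO : IsOpen O) (h : {z | ∃ m, ∀ n, G n x m ∧ G n m z} ⊆ O) :
    ∃ k, ∀ z m, G k x m → G k m z → z ∈ O := by
  by_contra hc
  push Not at hc
  choose z m h1 h2 h3 using hc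
  obtain ⟨z0, h4, h5⟩ := key2 hG ((hyperfilter ℕ).map fun i => (x, i)) (fun _ => x) (m ∘ Prod.snd)
    (z ∘ Prod.snd) x tendsto_const_nhds fun n =>
      ((eventually_ge_atTop n).filter_mono Nat.hyperfilter_le_atTop).mono
        fun i hi => ⟨hG.anti _ _ _ _ hi (h1 i), hG.anti _ _ _ _ hi (h2 i)⟩
  obtain ⟨i, hi⟩ := (h4.eventually (hO.mem_nhds (h h5))).exists
  exact h3 _ hi

theorem step [T1Space X] (N : X → Set X) (n : ℕ) (W : Set X) : ∃ D : Set X, Disjoint D W ∧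
    (∀ (F : Ultrafilter X) z, (F : Filter X) ≤ 𝓝[≠] z → D ∉ F) ∧
    ((∀ A : Set X, A.PairwiseDisjoint (fun x => {y | G n x y}) → A.Countable) → D.Countable) ∧
    ∀ x (E : Set X), E.Finite → E ⊆ {z | ∃ m, ∀ n, G n x m ∧ G n m z} \ W →
      (∀ z m, G n x m → G n m z → z ∈ W ∪ ⋃ d ∈ E, N d) → x ∈ W ∪ ⋃ d ∈ D, N d := by
  let P := {x // ∃ E : Set X, E.Finite ∧ E ⊆ {z | ∃ m, ∀ n, G n x m ∧ G n m z} \ W ∧
      ∀ z m, G n x m → G n m z → z ∈ W ∪ ⋃ d ∈ E, N d}
  choose E hE hE' hE'' using fun x : P => x.2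
  let r : P → P → Prop := fun a b => ∀ m, G n a m → ¬ G n m b
  have hA := maxChain_spec (r := r)
  set A := maxChain r
  have hr : ∀ a ∈ A, ∀ b ∈ A, ∀ m, G n a m → G n b m → a = b := fun a ha b hb m h h' => by
    by_contra hc
    exact (hA.1 ha hb hc).elim (fun h1 => h1 m h (hG.symm _ _ _ h'))
      fun h1 => h1 m h' (hG.symm _ _ _ h)
  refine ⟨⋃ a ∈ A, E a, ?_, fun F z hF hD => ?_, fun h => ?_, fun x E' h1 h2 h3 => ?_⟩
  · exact disjoint_iUnion₂_left.2 fun a _ => disjoint_left.2 fun y hy => (hE' a hy).2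
  · obtain ⟨_, h0⟩ := F.nonempty_of_mem hD
    obtain ⟨a0, -⟩ := mem_iUnion.1 h0
    have : ∀ y, ∃ a, y ∈ ⋃ a ∈ A, E a → a ∈ A ∧ y ∈ E a := fun y => by
      by_cases h : y ∈ ⋃ a ∈ A, E a
      · obtain ⟨a, h1, h2⟩ := mem_iUnion₂.1 h
        exact ⟨a, fun _ => ⟨h1, h2⟩⟩
      · exact ⟨a0, fun h' => (h h').elim⟩
    choose a ha using this
    obtain ⟨b, hb, -⟩ := key3 hG F id (fun y => a y) z (hF.trans nhdsWithin_le_nhds)
      (mem_of_superset hD fun y hy => (hE' _ (ha y hy).2).1.imp fun m h k =>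
        ⟨hG.symm _ _ _ (h k).2, hG.symm _ _ _ (h k).1⟩)
    have h1 := (hb.eventually ((hG.op n b).mem_nhds (hG.refl n b))).and hD
    obtain ⟨y, h2, h3⟩ := h1.exists
    obtain ⟨w, h4, h5⟩ := ((h1.mono fun w hw => (hr _ (ha w hw.2).1 _ (ha y h3).1 b
      (hG.symm _ _ _ hw.1) (hG.symm _ _ _ h2)) ▸ (ha w hw.2).2).and
      ((hF.trans (nhdsNE_le_cofinite z)) (hE (a y)).compl_mem_cofinite)).exists
    exact h5 h4
  · refine Countable.biUnion (((h (Subtype.val '' A) ?_).preimage Subtype.val_injective).mono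
      (subset_preimage_image _ _)) fun a _ => (hE a).countable
    rintro _ ⟨a, ha, rfl⟩ _ ⟨b, hb, rfl⟩ hab
    exact disjoint_left.2 fun m h h' => hab (congrArg _ (hr a ha b hb m h h'))
  · have : ∃ a ∈ A, ∃ m, G n a m ∧ G n m x := by
      by_contra hc
      push Not at hc
      have h4 := hA.2 (hA.1.insert (a := ⟨x, E', h1, h2, h3⟩) fun b hb _ => Or.inr (hc b hb))
        (subset_insert _ _)
      exact hc ⟨x, E', h1, h2, h3⟩ (h4 ▸ mem_insert _ _) x (hG.refl _ _) (hG.refl _ _)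
    obtain ⟨a, ha, m, h4, h5⟩ := this
    exact union_subset_union_right _ (biUnion_subset_biUnion_left (subset_biUnion_of_mem ha))
      (hE'' a x m h4 h5)

theorem main [T1Space X] (N : X → Set X) (hN : ∀ x, N x ∈ 𝓝 x) : ∃ D : Set X, IsClosed D ∧
    DiscreteTopology D ∧ (⋃ x ∈ D, N x) = univ ∧
    ((∀ n (A : Set X), A.PairwiseDisjoint (fun x => {y | G n x y}) → A.Countable) →
      D.Countable) := by
  choose D h1 h2 h3 h4 using step hG fun x => interior (N x)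
  let W : ℕ → Set X := fun n => Nat.rec ∅ (fun n W => W ∪ ⋃ d ∈ D n W, interior (N d)) n
  have hW : ∀ n, W (n + 1) = W n ∪ ⋃ d ∈ D n (W n), interior (N d) := fun _ => rfl
  have hm : Monotone W := monotone_nat_of_le_succ fun n => subset_union_left
  have ho : ∀ n, IsOpen (W n) := fun n => by
    induction n with
    | zero => exact isOpen_empty
    | succ n ih => exact ih.union (isOpen_biUnion fun _ _ => isOpen_interior)
  have hc : ∀ x, ∃ n, x ∈ W n := fun x => by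
    obtain ⟨E, hE, hE'⟩ := ((cpt hG x).diff (isOpen_iUnion ho)).elim_nhds_subcover
      (fun x => interior (N x)) fun x _ => interior_mem_nhds.2 (hN x)
    have hO : ∀ n, IsOpen (W n ∪ ⋃ d ∈ E, interior (N d)) := fun n =>
      (ho n).union (isOpen_biUnion fun _ _ => isOpen_interior)
    obtain ⟨n, hn⟩ := (cpt hG x).elim_directed_cover _ hO (fun y hy => by
      by_cases h : y ∈ ⋃ i, W i
      · obtain ⟨i, hi⟩ := mem_iUnion.1 h
        exact mem_iUnion.2 ⟨i, Or.inl hi⟩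
      · exact mem_iUnion.2 ⟨0, Or.inr (hE' ⟨hy, h⟩)⟩)
      (Monotone.directed_le fun i j h => union_subset_union_left _ (hm h))
    obtain ⟨k, hk⟩ := base hG x (hO n) hn
    exact ⟨max n k + 1, h4 _ _ x E E.finite_toSet
      (fun y hy => ⟨(hE y hy).1, fun h => (hE y hy).2 (mem_iUnion.2 ⟨_, h⟩)⟩) fun z m h h' =>
      union_subset_union_left _ (hm (le_max_left _ _))
        (hk z m (hG.anti _ _ _ _ (le_max_right _ _) h) (hG.anti _ _ _ _ (le_max_right _ _) h'))⟩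
  have hs : ∀ n, W n ⊆ ⋃ x ∈ ⋃ n, D n (W n), N x := fun n => by
    induction n with
    | zero => exact empty_subset _
    | succ n ih =>
      exact union_subset ih (iUnion₂_subset fun d hd => interior_subset.trans
        (subset_biUnion_of_mem (u := N) (mem_iUnion.2 ⟨n, hd⟩)))
  have : IsClosed (⋃ n, D n (W n)) ∧ IsDiscrete (⋃ n, D n (W n)) := by
    refine isClosed_and_discrete_iff.2 fun z => ?_
    by_contra h
    obtain ⟨F, hF⟩ := Ultrafilter.exists_le _ (h := ⟨fun h' => h (disjoint_iff.2 h')⟩)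
    obtain ⟨n, hn⟩ := hc z
    have : (⋃ k ∈ Iio n, D k (W k)) ∈ F := by
      filter_upwards [(hF.trans inf_le_left).trans nhdsWithin_le_nhds ((ho n).mem_nhds hn),
        le_principal_iff.1 (hF.trans inf_le_right)] with y hy hy'
      obtain ⟨k, hk⟩ := mem_iUnion.1 hy'
      exact mem_biUnion (not_le.1 fun h => disjoint_left.1 (h1 k _) hk (hm h hy)) hk
    obtain ⟨k, -, hk⟩ := (Ultrafilter.finite_biUnion_mem_iff (finite_Iio n)).1 this
    exact h2 k _ F z (hF.trans inf_le_left) hk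
  exact ⟨_, this.1, this.2.to_subtype, eq_univ_of_forall fun x => (hc x).elim fun n h => hs n h,
    fun h => countable_iUnion fun n => h3 n _ (h n)⟩

end Pool.Agent.H26.Rect
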