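import Mathlib

set_option autoImplicit false

namespace Pool.Agent.H26.Ritt1

open scoped ENNReal

noncomputable def r {ι : Type} (ζ : ι → ℂ) (C : ℝ) (z : ℂ) : ι → ℂ := fun i => (z - 1) / (z - ζ i) / C

def Syn (ι : Type) : Type := ι → ℂ

noncomputable instance (ι : Type) : AddCommGroup (Syn ι) := inferInstanceAs (AddCommGroup (ι → ℂ))
noncomputable instance (ι : Type) : Module ℂ (Syn ι) := inferInstanceAs (Module ℂ (ι → ℂ))
instance (ι : Type) [Fintype ι] : FiniteDimensional ℂ (Syn ι) :=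
  inferInstanceAs (FiniteDimensional ℂ (ι → ℂ))

theorem model {ι : Type} [Fintype ι] (ζ : ι → ℂ) (L : (ι → ℂ) →ₗ[ℂ] ℂ) (C : ℝ) (hC : 0 < C)
    (hζ : ∀ i, ‖ζ i‖ ≤ 1) (h1 : ∀ z, 1 < ‖z‖ → ∀ i, ‖r ζ C z i‖ ≤ 1)
    (h2 : ∀ l : List ℂ, (∀ z ∈ l, 1 < ‖z‖) → ‖L (l.map (r ζ C)).prod‖ ≤ 1) :
    ∃ (X : Type) (_ : NormedAddCommGroup X) (_ : NormedSpace ℂ X) (_ : FiniteDimensional ℂ X)
      (T : X →L[ℂ] X), spectrum ℂ T ⊆ Metric.closedBall 0 1 ∧
      (∀ z : ℂ, 1 < ‖z‖ → ‖(z - 1) • resolvent T z‖ ≤ C) ∧ ∀ n : ℕ, ‖L (ζ ^ n)‖ ≤ ‖T ^ n‖ := by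
  let I := ι ⊕ {l : List ℂ // ∀ z ∈ l, 1 < ‖z‖}
  let F : I → (ι → ℂ) →ₗ[ℂ] ℂ := Sum.elim (fun i => LinearMap.proj i)
    fun l => L ∘ₗ LinearMap.mulLeft ℂ (l.1.map (r ζ C)).prod
  have hp : ∀ l : List ℂ, (∀ z ∈ l, 1 < ‖z‖) → ‖(l.map (r ζ C)).prod‖ ≤ 1 := by
    intro l hl
    induction l with
    | nil => simpa using (pi_norm_le_iff_of_nonneg zero_le_one).mpr fun i : ι => by simp
    | cons z l ih =>
      rw [List.map_cons, List.prod_cons]
      refine (norm_mul_le _ _).trans (mul_le_one₀ ?_ (norm_nonneg _)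
        (ih fun w hw => hl w (List.mem_cons_of_mem _ hw)))
      exact (pi_norm_le_iff_of_nonneg zero_le_one).mpr (h1 z (hl z List.mem_cons_self))
  have hF : ∀ x : ι → ℂ, ∀ i, ‖F i x‖ ≤ (‖LinearMap.toContinuousLinearMap L‖ + 1) * ‖x‖ := by
    intro x i
    have h0 := norm_nonneg (LinearMap.toContinuousLinearMap L)
    have h3 := norm_nonneg x
    rcases i with i | l
    · have := norm_le_pi_norm x i
      change ‖x i‖ ≤ _
      nlinarith
    · have h4 := (LinearMap.toContinuousLinearMap L).le_opNorm ((l.1.map (r ζ C)).prod * x)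
      have h5 := (norm_mul_le _ x).trans (mul_le_of_le_one_left h3 (hp l.1 l.2))
      change ‖LinearMap.toContinuousLinearMap L (_ * x)‖ ≤ _
      nlinarith
  let J : Syn ι →ₗ[ℂ] lp (fun _ : I => ℂ) ∞ :=
    { toFun := fun x => ⟨fun i => F i x, memℓp_infty ⟨_, by rintro _ ⟨i, rfl⟩; exact hF x i⟩⟩
      map_add' := fun x y => lp.ext (funext fun i => map_add (F i) x y)
      map_smul' := fun c x => lp.ext (funext fun i => map_smul (F i) c x) }
  have hJ : Function.Injective J := fun x y h => funext fun i =>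
    congrArg (fun v : lp (fun _ : I => ℂ) ∞ => v (Sum.inl i)) h
  letI : NormedAddCommGroup (Syn ι) := NormedAddCommGroup.induced _ _ J hJ
  letI : NormedSpace ℂ (Syn ι) := NormedSpace.induced ℂ _ _ J
  have n1 : ∀ (x : Syn ι) i, ‖F i x‖ ≤ ‖x‖ := fun x i =>
    lp.norm_apply_le_norm ENNReal.top_ne_zero (J x) i
  have n2 : ∀ (x : Syn ι) c, 0 ≤ c → (∀ i, ‖F i x‖ ≤ c) → ‖x‖ ≤ c := fun x c hc h =>
    lp.norm_le_of_forall_le (f := J x) hc h
  let D : (ι → ℂ) → Syn ι →L[ℂ] Syn ι := fun d =>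
    LinearMap.toContinuousLinearMap (E := Syn ι) (F' := Syn ι) (LinearMap.mulLeft ℂ d)
  have hD : ∀ d (x : Syn ι) i, D d x i = d i * x i := fun _ _ _ => rfl
  have hne : ∀ z, 1 < ‖z‖ → ∀ i, z - ζ i ≠ 0 := fun z hz i e => by
    have := hζ i
    rw [← sub_eq_zero.mp e] at this
    linarith
  have hu : ∀ z, 1 < ‖z‖ → ∃ u : (Syn ι →L[ℂ] Syn ι)ˣ, (u : Syn ι →L[ℂ] Syn ι) =
      algebraMap ℂ _ z - D ζ ∧ (↑u⁻¹ : Syn ι →L[ℂ] Syn ι) = D fun i => (z - ζ i)⁻¹ := by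
    intro z hz
    refine ⟨⟨algebraMap ℂ _ z - D ζ, D fun i => (z - ζ i)⁻¹, ?_, ?_⟩, rfl, rfl⟩ <;>
      refine ContinuousLinearMap.ext fun x => funext fun i => ?_
    · change z * ((z - ζ i)⁻¹ * x i) - ζ i * ((z - ζ i)⁻¹ * x i) = x i
      have := hne z hz i
      field_simp
    · change (z - ζ i)⁻¹ * (z * x i - ζ i * x i) = x i
      have := hne z hz i
      field_simp
  refine ⟨Syn ι, inferInstance, inferInstance, inferInstance, D ζ, fun z hz => ?_, fun z hz => ?_,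
    fun n => ?_⟩
  · rw [mem_closedBall_zero_iff]
    by_contra h
    obtain ⟨u, e, -⟩ := hu z (not_le.mp h)
    exact hz ⟨u, e⟩
  · obtain ⟨u, e, e'⟩ := hu z hz
    rw [resolvent, ← e, Ring.inverse_unit, e']
    refine ContinuousLinearMap.opNorm_le_bound _ hC.le fun x => n2 _ _ (by positivity) fun i => ?_
    have ex : ((z - 1) • D fun i => (z - ζ i)⁻¹) x = (C : ℂ) • (r ζ C z * (show ι → ℂ from x) : ι → ℂ) := by
      funext i
      change (z - 1) * ((z - ζ i)⁻¹ * x i) = C * ((z - 1) / (z - ζ i) / C * x i)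
      have : (C : ℂ) ≠ 0 := by exact_mod_cast hC.ne'
      field_simp
    rw [ex]
    refine (congrArg norm (map_smul (F i) (C : ℂ) _)).trans_le ?_
    rw [norm_smul, Complex.norm_real, Real.norm_of_nonneg hC.le]
    refine mul_le_mul_of_nonneg_left ?_ hC.le
    rcases i with i | l
    · change ‖r ζ C z i * x i‖ ≤ _
      rw [norm_mul]
      exact (mul_le_of_le_one_left (norm_nonneg _) (h1 z hz i)).trans (n1 x (Sum.inl i))
    · have := n1 x (Sum.inr ⟨z :: l.1, by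
        intro w hw
        rcases List.mem_cons.mp hw with rfl | hw
        exacts [hz, l.2 w hw]⟩)
      change ‖L ((List.map _ (z :: l.1)).prod * (show ι → ℂ from x))‖ ≤ _ at this
      change ‖L (_ * (_ * _))‖ ≤ _
      rwa [List.map_cons, List.prod_cons, mul_comm (r ζ C z), mul_assoc] at this
  · have e : ∀ n : ℕ, ((D ζ ^ n) (1 : ι → ℂ) : ι → ℂ) = ζ ^ n := by
      intro n
      induction n with
      | zero => rfl
      | succ n ih =>
        rw [pow_succ', pow_succ', ← ih]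
        rfl
    have h3 : ‖(show Syn ι from (1 : ι → ℂ))‖ ≤ 1 := n2 _ _ zero_le_one (by
      rintro (i | l)
      · change ‖(1 : ℂ)‖ ≤ 1
        simp
      · change ‖L (_ * 1)‖ ≤ 1
        rw [mul_one]; exact h2 l.1 l.2)
    have h4 := n1 ((D ζ ^ n) (1 : ι → ℂ)) (Sum.inr ⟨[], by simp⟩)
    change ‖L (1 * _)‖ ≤ _ at h4
    rw [one_mul, e] at h4
    rw [← e] at h4 ⊢
    exact h4.trans (((D ζ ^ n).le_opNorm _).trans (mul_le_of_le_one_right (norm_nonneg _) h3))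

end Pool.Agent.H26.Ritt1
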