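import Mathlib

open Set Cardinal

namespace Pool.Agent.H26.Stat

/-- A well-order of type `𝔠⁺`, abstractly. -/
class Big (K : Type) [LinearOrder K] : Prop where
  wf : WellFoundedLT K
  bdd : ∀ s : Set K, #s ≤ 𝔠 → ∃ b, ∀ x ∈ s, x < b
  small : ∀ x : K, #(Iic x) ≤ 𝔠

theorem exists_big : ∃ (K : Type) (_ : LinearOrder K), Big K := by
  let κ : Cardinal.{0} := Order.succ 𝔠
  have hreg : κ.IsRegular := isRegular_succ aleph0_le_continuum
  have hcof : Order.cof κ.ord.ToType = κ := by rw [Ordinal.cof_toType, hreg.cof_ord]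
  refine ⟨κ.ord.ToType, inferInstance, inferInstance, fun s hs => ?_, fun x => ?_⟩
  · have : ¬ IsCofinal s := fun h => by
      have h1 := Order.cof_le h
      rw [hcof] at h1
      exact (Order.lt_succ 𝔠).not_ge (h1.trans hs)
    simp only [IsCofinal, not_forall, not_exists, not_and, not_le] at this
    exact this
  · have := mk_Iic_lt x (by simp) (by simpa using hreg.aleph0_le)
    rw [mk_ord_toType] at this
    exact Order.lt_succ_iff.1 this

variable {K : Type} [LinearOrder K] [Big K]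

instance : WellFoundedLT K := Big.wf

theorem countable_le {α : Type} {s : Set α} (h : s.Countable) : #s ≤ 𝔠 :=
  (le_aleph0_iff_set_countable.2 h).trans aleph0_le_continuum

theorem exists_gt (x : K) : ∃ y, x < y := by
  obtain ⟨b, hb⟩ := Big.bdd ({x} : Set K) (countable_le (countable_singleton x))
  exact ⟨b, hb x rfl⟩

theorem exists_lub (x : ℕ → K) : ∃ δ, IsLUB (range x) δ := by
  obtain ⟨b, hb⟩ := Big.bdd (range x) (countable_le (countable_range x))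
  have hne : (upperBounds (range x)).Nonempty := ⟨b, fun y hy => (hb y hy).le⟩
  exact ⟨wellFounded_lt.min _ hne, wellFounded_lt.min_mem _ hne,
    fun y hy => not_lt.1 (wellFounded_lt.not_lt_min _ hy)⟩

/-- `δ` has countable cofinality. -/
def Cof (δ : K) : Prop := ∃ x : ℕ → K, StrictMono x ∧ IsLUB (range x) δ

/-- stationary in the points of countable cofinality -/
def Pos (S : Set K) : Prop := ∀ g : K → K, ∃ δ ∈ S, Cof δ ∧ ∀ ξ < δ, g ξ < δ

omit [Big K] in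
theorem lt_of_lub {x : ℕ → K} {δ : K} (hx : StrictMono x) (h : IsLUB (range x) δ) (n : ℕ) :
    x n < δ := (hx (Nat.lt_succ_self n)).trans_le (h.1 (mem_range_self _))

omit [Big K] in
theorem exists_of_lt_lub {x : ℕ → K} {δ ξ : K} (h : IsLUB (range x) δ) (hξ : ξ < δ) :
    ∃ n, ξ < x n := by
  obtain ⟨_, ⟨n, rfl⟩, h'⟩ := (lt_isLUB_iff h).1 hξ
  exact ⟨n, h'⟩

theorem bound {J : Type} (r h : J → K) (hr : ∀ ξ, #{j | r j ≤ ξ} ≤ 𝔠) :
    ∃ g : K → K, ∀ j ξ, r j ≤ ξ → h j < g ξ := by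
  have : ∀ ξ, ∃ b, ∀ j, r j ≤ ξ → h j < b := fun ξ => by
    obtain ⟨b, hb⟩ := Big.bdd (h '' {j | r j ≤ ξ}) (mk_image_le.trans (hr ξ))
    exact ⟨b, fun j hj => hb _ (mem_image_of_mem h hj)⟩
  choose g hg using this
  exact ⟨g, fun j ξ hj => hg ξ j hj⟩

theorem pos_Ioi (α : K) : Pos (Ioi α) := by
  intro g
  obtain ⟨G, hG⟩ := bound (fun ξ : K => ξ) (fun ξ => max ξ (g ξ)) Big.small
  let x : ℕ → K := fun n => G^[n] α
  have hx : ∀ n, x (n + 1) = G (x n) := fun n => Function.iterate_succ_apply' G n α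
  have hm : StrictMono x := strictMono_nat_of_lt_succ fun n => by
    rw [hx]; exact (le_max_left _ _).trans_lt (hG (x n) (x n) le_rfl)
  obtain ⟨δ, hδ⟩ := exists_lub x
  refine ⟨δ, lt_of_lub hm hδ 0, ⟨x, hm, hδ⟩, fun ξ hξ => ?_⟩
  obtain ⟨n, hn⟩ := exists_of_lt_lub hδ hξ
  have := (le_max_right _ _).trans_lt (hG ξ (x n) hn.le)
  rw [← hx] at this
  exact this.trans (lt_of_lub hm hδ _)

theorem rank_prod {J : Type} (r : J → K) (hr : ∀ ξ, #{j | r j ≤ ξ} ≤ 𝔠) (ξ : K) :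
    #{j : J × K | max (r j.1) j.2 ≤ ξ} ≤ 𝔠 := by
  have : {j : J × K | max (r j.1) j.2 ≤ ξ} = {j | r j ≤ ξ} ×ˢ Iic ξ := by
    ext j; simp
  rw [this, mk_setProd]
  exact (mul_le_mul' (hr ξ) (Big.small ξ)).trans continuum_mul_self.le

/-- pressing down -/
theorem fodor {J : Type} (r : J → K) (hr : ∀ ξ, #{j | r j ≤ ξ} ≤ 𝔠) (T : J → Set K) {S : Set K}
    (hS : Pos S) (h : ∀ δ ∈ S, Cof δ → ∃ j, r j < δ ∧ δ ∈ T j) : ∃ j, Pos (T j) := by
  by_contra hc
  simp only [Pos, not_exists, not_forall, not_and] at hc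
  choose g hg using hc
  obtain ⟨G, hG⟩ := bound (fun j : J × K => max (r j.1) j.2) (fun j => g j.1 j.2) (rank_prod r hr)
  obtain ⟨δ, hδ, hcof, hcl⟩ := hS G
  obtain ⟨j, hj, hT⟩ := h δ hδ hcof
  obtain ⟨ξ, hξ, h'⟩ := hg j δ hT hcof
  exact h' ((hG (j, ξ) _ le_rfl).trans (hcl _ (max_lt hj hξ)))

theorem pos_iUnion {J : Type} (hJ : #J ≤ 𝔠) (T : J → Set K) {S : Set K}
    (hS : Pos S) (h : ∀ δ ∈ S, Cof δ → ∃ j, δ ∈ T j) : ∃ j, Pos (T j) := by
  obtain ⟨δ0, -⟩ := hS id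
  let b : K := wellFounded_lt.min univ ⟨δ0, trivial⟩
  refine fodor (fun _ => b) (fun ξ => (mk_set_le _).trans hJ) T hS fun δ hδ hc => ?_
  obtain ⟨j, hj⟩ := h δ hδ hc
  obtain ⟨x, hx, hl⟩ := hc
  exact ⟨j, (not_lt.1 (wellFounded_lt.not_lt_min univ (mem_univ (x 0)))).trans_lt
    (lt_of_lub hx hl 0), hj⟩

/-- splitting into continuum many stationary sets (Ulam matrix) -/
theorem split (Λ : Type) [Nonempty Λ] (hΛ : #Λ ≤ 𝔠) :
    ∃ a : K → Λ, ∀ l, Pos {δ | a δ = l} := by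
  classical
  have : ∀ β : K, ∃ f : K → ℝ, InjOn f (Iic β) := fun β => by
    have : #(Iic β) ≤ #ℝ := by rw [mk_real]; exact Big.small β
    obtain ⟨e⟩ := this
    refine ⟨fun ξ => if h : ξ ∈ Iic β then e ⟨ξ, h⟩ else 0, fun ξ h η h' he => ?_⟩
    simp only [h, h', dif_pos] at he
    exact congrArg Subtype.val (e.injective he)
  choose f hf using this
  have : ∀ α : K, ∃ x : ℝ, Pos {β | α < β ∧ f β α = x} := fun α =>
    pos_iUnion mk_real.le _ (pos_Ioi α) fun δ hδ _ => ⟨f δ α, hδ, rfl⟩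
  choose x hx using this
  have : ∃ y, ¬ #(x ⁻¹' {y}) ≤ 𝔠 := by
    by_contra hc
    push Not at hc
    have : #(univ : Set K) ≤ 𝔠 := by
      have h1 : (univ : Set K) = ⋃ y, x ⁻¹' {y} := by ext; simp
      rw [h1]
      refine (mk_iUnion_le _).trans ?_
      rw [mk_real]
      exact (mul_le_mul' le_rfl (ciSup_le' hc)).trans continuum_mul_self.le
    obtain ⟨b, hb⟩ := Big.bdd _ this
    exact lt_irrefl _ (hb b trivial)
  obtain ⟨y, hy⟩ := this
  obtain ⟨e⟩ : #Λ ≤ #(x ⁻¹' {y}) := hΛ.trans (not_le.1 hy).le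
  refine ⟨fun β => if h : ∃ l, (e l).1 < β ∧ f β (e l).1 = y then h.choose
    else Classical.arbitrary Λ, fun l g => ?_⟩
  obtain ⟨δ, hδ, h⟩ := hx (e l).1 g
  refine ⟨δ, ?_, h⟩
  have h1 : (e l).1 < δ ∧ f δ (e l).1 = y := ⟨hδ.1, hδ.2.trans (e l).2⟩
  have h2 : ∃ l, (e l).1 < δ ∧ f δ (e l).1 = y := ⟨l, h1⟩
  simp only [mem_setOf_eq, dif_pos h2]
  have h3 := h2.choose_spec
  exact e.injective (Subtype.ext (hf δ h3.1.le h1.1.le (h3.2.trans h1.2.symm)))

end Pool.Agent.H26.Stat
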