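import Mathlib

/-! The Stone space of an algebra of sets, Grothendieck spaces, and a criterion for failure. -/

namespace Pool.Agent.H26.StoneG

open Set Filter Topology MeasureTheory BoundedContinuousFunction

/-- The Stone space of an algebra of sets `𝓑`: the Boolean homomorphisms `𝓑 → Bool` (maps
preserving unions and complements), with the topology of pointwise convergence. -/
def Stone {X : Type} (𝓑 : Set (Set X)) : Set (𝓑 → Bool) :=
  {p | (∀ a b c : 𝓑, c.1 = a.1 ∪ b.1 → p c = (p a || p b)) ∧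
    ∀ a c : 𝓑, c.1 = a.1ᶜ → p c = !p a}

/-- A Grothendieck space: weak* convergent sequences in the dual converge weakly. -/
def IsGrothendieck (E : Type) [NormedAddCommGroup E] [NormedSpace ℝ E] : Prop :=
  ∀ (u : ℕ → StrongDual ℝ E) (v : StrongDual ℝ E),
    (∀ f : E, Tendsto (fun n => u n f) atTop (𝓝 (v f))) →
    ∀ Φ : StrongDual ℝ (StrongDual ℝ E), Tendsto (fun n => Φ (u n)) atTop (𝓝 (Φ v))

variable {X : Type} {𝓑 : Set (Set X)}

lemma compact_stone : CompactSpace (Stone 𝓑) := by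
  refine isCompact_iff_compactSpace.1 (IsClosed.isCompact ?_)
  simp only [Stone, setOf_and, setOf_forall]
  refine IsClosed.inter ?_ ?_
  · refine isClosed_iInter fun a => isClosed_iInter fun b => isClosed_iInter fun c =>
      isClosed_iInter fun _ => isClosed_eq (continuous_apply _) ?_
    exact (continuous_of_discreteTopology (f := fun q : Bool × Bool => (q.1 || q.2))).comp
      (f := fun p : 𝓑 → Bool => (p a, p b)) ((continuous_apply a).prodMk (continuous_apply b))
  · refine isClosed_iInter fun a => isClosed_iInter fun c =>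
      isClosed_iInter fun _ => isClosed_eq (continuous_apply _) ?_
    exact (continuous_of_discreteTopology (f := fun q : Bool => !q)).comp (continuous_apply a)

noncomputable def ind (a : 𝓑) : C(Stone 𝓑, ℝ) :=
  ⟨fun p => if p.1 a = true then 1 else 0,
    (continuous_of_discreteTopology (f := fun q : Bool => if q = true then (1 : ℝ) else 0)).comp
      ((continuous_apply a).comp continuous_subtype_val)⟩

lemma dense_ind [CompactSpace (Stone 𝓑)] (h : IsSetAlgebra 𝓑) (P : (Stone 𝓑 →ᵇ ℝ) → Prop)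
    (h0 : P 0) (hadd : ∀ f g, P f → P g → P (f + g)) (hsmul : ∀ (c : ℝ) f, P f → P (c • f))
    (hind : ∀ a, P (mkOfCompact (ind a))) (f : Stone 𝓑 →ᵇ ℝ) {ε : ℝ} (hε : 0 < ε) :
    ∃ g, P g ∧ ‖f - g‖ ≤ ε := by
  have hsep : (Algebra.adjoin ℝ (range (ind (𝓑 := 𝓑)))).SeparatesPoints := by
    intro p q hpq
    obtain ⟨a, ha⟩ : ∃ a, p.1 a ≠ q.1 a := by
      by_contra hc
      simp only [not_exists, not_not] at hc
      exact hpq (Subtype.ext (funext hc))
    refine ⟨ind a, ⟨ind a, Algebra.subset_adjoin ⟨a, rfl⟩, rfl⟩, ?_⟩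
    simp only [ind, ContinuousMap.coe_mk]
    revert ha
    cases p.1 a <;> cases q.1 a <;> simp
  obtain ⟨⟨g, hg⟩, hfg⟩ := ContinuousMap.exists_mem_subalgebra_near_continuous_of_separatesPoints
    _ hsep f f.continuous ε hε
  refine ⟨mkOfCompact g, ?_, (norm_le hε.le).2 (fun p => ?_)⟩
  swap
  · simpa [abs_sub_comm] using (hfg p).le
  have hg' : g ∈ Submodule.span ℝ
      (Submonoid.closure (range (ind (𝓑 := 𝓑))) : Set C(Stone 𝓑, ℝ)) := by
    rw [← Algebra.adjoin_eq_span]; exact hg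
  clear hfg hg
  induction hg' using Submodule.span_induction with
  | zero => exact h0
  | add x y _ _ hx hy => exact hadd _ _ hx hy
  | smul c x _ hx => exact hsmul c _ hx
  | mem x hx =>
    suffices ∃ a, x = ind a by
      obtain ⟨a, rfl⟩ := this
      exact hind a
    induction hx using Submonoid.closure_induction with
    | mem x hx => obtain ⟨a, rfl⟩ := hx; exact ⟨a, rfl⟩
    | one =>
      refine ⟨⟨univ, h.univ_mem⟩, ContinuousMap.ext fun p => ?_⟩
      have h1 := p.2.1 ⟨∅, h.empty_mem⟩ ⟨∅ᶜ, h.compl_mem h.empty_mem⟩ ⟨univ, h.univ_mem⟩ (by simp)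
      rw [p.2.2 ⟨∅, h.empty_mem⟩ ⟨∅ᶜ, h.compl_mem h.empty_mem⟩ rfl] at h1
      simp [ind, h1]
    | mul x y _ _ hx hy =>
      obtain ⟨a, rfl⟩ := hx
      obtain ⟨b, rfl⟩ := hy
      refine ⟨⟨a.1 ∩ b.1, h.inter_mem a.2 b.2⟩, ContinuousMap.ext fun p => ?_⟩
      have h1 := p.2.2 ⟨a.1ᶜ ∪ b.1ᶜ, h.union_mem (h.compl_mem a.2) (h.compl_mem b.2)⟩
        ⟨a.1 ∩ b.1, h.inter_mem a.2 b.2⟩ (by simp)
      rw [p.2.1 ⟨_, h.compl_mem a.2⟩ ⟨_, h.compl_mem b.2⟩
        ⟨a.1ᶜ ∪ b.1ᶜ, h.union_mem (h.compl_mem a.2) (h.compl_mem b.2)⟩ rfl,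
        p.2.2 a ⟨_, h.compl_mem a.2⟩ rfl, p.2.2 b ⟨_, h.compl_mem b.2⟩ rfl] at h1
      simp only [ind, ContinuousMap.mul_apply, ContinuousMap.coe_mk, h1]
      cases p.1 a <;> cases p.1 b <;> simp

theorem not_groth [MeasurableSpace X] (μ : Measure X) [IsProbabilityMeasure μ]
    (h : IsSetAlgebra 𝓑) (hm : ∀ A ∈ 𝓑, MeasurableSet A) (E E' : ℕ → Set X) (c : ℕ → ℝ)
    (hE : ∀ m, E m ∈ 𝓑) (hc : ∀ m, 0 ≤ c m)
    (h1 : ∀ m, c m * μ.real (E m) = 1 / 2) (h2 : ∀ m, c m * μ.real (E' m) = 1 / 2)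
    (hd : ∀ j m, Disjoint (E j) (E' m))
    (ht : ∀ A ∈ 𝓑, Tendsto (fun m => c m * (μ.real (A ∩ E m) - μ.real (A ∩ E' m))) atTop (𝓝 0)) :
    ¬ IsGrothendieck (Stone 𝓑 →ᵇ ℝ) := by
  classical
  haveI := compact_stone (𝓑 := 𝓑)
  let e : X → Stone 𝓑 := fun x => ⟨fun a => decide (x ∈ a.1), fun a b c hc => by simp [hc],
    fun a c hc => by simp [hc]⟩
  have hie : ∀ a : 𝓑, (fun x => mkOfCompact (ind a) (e x)) = Set.indicator a.1 1 := by
    intro a
    funext x
    simp [ind, e, Set.indicator]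
  have hmeas : ∀ f : Stone 𝓑 →ᵇ ℝ, Measurable (fun x => f (e x)) := by
    intro f
    choose g hg1 hg2 using fun n : ℕ => dense_ind h (fun g => Measurable (fun x => g (e x)))
      measurable_const (fun f g hf hg => hf.add hg) (fun c f hf => hf.const_smul c)
      (fun a => by rw [hie]; exact measurable_one.indicator (hm _ a.2)) f
      (show (0 : ℝ) < 1 / ((n : ℝ) + 1) by positivity)
    refine measurable_of_tendsto_metrizable hg1 (tendsto_pi_nhds.2 fun x => ?_)
    rw [tendsto_iff_norm_sub_tendsto_zero]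
    refine squeeze_zero (fun _ => norm_nonneg _) (fun n => ?_) tendsto_one_div_add_atTop_nhds_zero_nat
    rw [norm_sub_rev]
    exact (norm_coe_le_norm (f - g n) (e x)).trans (hg2 n)
  have hint : ∀ (f : Stone 𝓑 →ᵇ ℝ) (B : Set X), IntegrableOn (fun x => f (e x)) B μ := fun f B =>
    Integrable.of_bound (hmeas f).aestronglyMeasurable ‖f‖
      (Eventually.of_forall fun x => norm_coe_le_norm f _)
  have hbd : ∀ (f : Stone 𝓑 →ᵇ ℝ) (B : Set X), ‖∫ x in B, f (e x) ∂μ‖ ≤ μ.real B * ‖f‖ := by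
    intro f B
    rw [mul_comm]
    exact norm_setIntegral_le_of_norm_le_const (measure_lt_top _ _)
      (fun x _ => norm_coe_le_norm f _)
  let L : Set X → StrongDual ℝ (Stone 𝓑 →ᵇ ℝ) := fun B => LinearMap.mkContinuous
    { toFun := fun f => ∫ x in B, f (e x) ∂μ
      map_add' := fun f g => integral_add (hint f B) (hint g B)
      map_smul' := fun r f => integral_smul r _ } (μ.real B) (fun f => hbd f B)
  have hL : ∀ (B : Set X) (a : 𝓑), L B (mkOfCompact (ind a)) = μ.real (a.1 ∩ B) := by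
    intro B a
    show ∫ x in B, mkOfCompact (ind a) (e x) ∂μ = _
    rw [hie, integral_indicator_one (hm _ a.2), measureReal_restrict_apply (hm _ a.2)]
  let u : ℕ → StrongDual ℝ (Stone 𝓑 →ᵇ ℝ) := fun m => c m • (L (E m) - L (E' m))
  have hu : ∀ m f, |u m f| ≤ ‖f‖ := by
    intro m f
    have h3 : |L (E m) f| ≤ μ.real (E m) * ‖f‖ := hbd f _
    have h4 : |L (E' m) f| ≤ μ.real (E' m) * ‖f‖ := hbd f _
    show |c m * (L (E m) f - L (E' m) f)| ≤ _
    rw [abs_mul, abs_of_nonneg (hc m)]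
    calc _ ≤ c m * (μ.real (E m) * ‖f‖ + μ.real (E' m) * ‖f‖) :=
          mul_le_mul_of_nonneg_left ((abs_sub _ _).trans (add_le_add h3 h4)) (hc m)
      _ = _ := by rw [mul_add, ← mul_assoc, ← mul_assoc, h1, h2]; ring
  have hui : ∀ m (a : 𝓑), u m (mkOfCompact (ind a)) =
      c m * (μ.real (a.1 ∩ E m) - μ.real (a.1 ∩ E' m)) := by
    intro m a
    rw [← hL, ← hL]; rfl
  have hw : ∀ f, Tendsto (fun n => u n f) atTop (𝓝 ((0 : StrongDual ℝ (Stone 𝓑 →ᵇ ℝ)) f)) := by
    intro f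
    rw [ContinuousLinearMap.zero_apply, Metric.tendsto_atTop]
    intro ε hε
    obtain ⟨g, hg, hfg⟩ := dense_ind h (fun g => Tendsto (fun n => u n g) atTop (𝓝 0))
      (by simp) (fun f g hf hg => by simpa using hf.add hg)
      (fun c f hf => by simpa using hf.const_mul c)
      (fun a => by simpa only [hui] using ht _ a.2) f (half_pos hε)
    obtain ⟨N, hN⟩ := Metric.tendsto_atTop.1 hg _ (half_pos hε)
    refine ⟨N, fun n hn => ?_⟩
    have h3 := hN n hn
    have h4 := hu n (f - g)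
    rw [map_sub] at h4
    rw [Real.dist_eq, sub_zero] at h3 ⊢
    linarith [abs_add_le (u n f - u n g) (u n g), sub_add_cancel (u n f) (u n g) ▸
      abs_add_le (u n f - u n g) (u n g)]
  let G : ℕ → Stone 𝓑 →ᵇ ℝ := fun N => mkOfCompact (ind ⟨⋃ j ∈ Finset.range N, E j,
    h.biUnion_mem _ (fun j _ => hE j)⟩)
  have hG : ∀ N, ‖G N‖ ≤ 1 := fun N => (norm_le zero_le_one).2 (fun p => by
    simp only [G, ind, mkOfCompact_apply, ContinuousMap.coe_mk]
    split_ifs <;> simp)
  have hGb : ∀ (v : StrongDual ℝ (Stone 𝓑 →ᵇ ℝ)) N, |v (G N)| ≤ ‖v‖ := fun v N =>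
    (v.le_opNorm _).trans (mul_le_of_le_one_right (norm_nonneg _) (hG N))
  have hex : ∀ v : StrongDual ℝ (Stone 𝓑 →ᵇ ℝ), ∃ r : ℝ,
      Tendsto (fun N => v (G N)) (hyperfilter ℕ) (𝓝 r) := by
    intro v
    obtain ⟨r, -, hr⟩ := (isCompact_Icc (a := -‖v‖) (b := ‖v‖)).ultrafilter_le_nhds
      ((hyperfilter ℕ).map (fun N => v (G N)))
      (le_principal_iff.2 (mem_map.2 (Eventually.of_forall fun N => abs_le.1 (hGb v N))))
    exact ⟨r, hr⟩
  choose r hr using hex
  let Φ : StrongDual ℝ (StrongDual ℝ (Stone 𝓑 →ᵇ ℝ)) := LinearMap.mkContinuous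
    { toFun := r
      map_add' := fun v w => tendsto_nhds_unique (hr _) ((hr v).add (hr w))
      map_smul' := fun a v => tendsto_nhds_unique (hr _) ((hr v).const_mul a) } 1
    (fun v => by
      rw [one_mul]
      exact le_of_tendsto' (hr v).norm (fun N => hGb v N))
  intro hgr
  have h3 := hgr u 0 hw Φ
  have h4 : ∀ m, Φ (u m) = 1 / 2 := by
    intro m
    refine tendsto_nhds_unique (hr _) (tendsto_const_nhds.congr' ?_)
    refine Filter.Eventually.filter_mono Nat.hyperfilter_le_atTop ?_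
    filter_upwards [eventually_gt_atTop m] with N hN
    simp only [G, hui]
    rw [inter_eq_self_of_subset_right (Finset.subset_set_biUnion_of_mem (f := E)
      (Finset.mem_range.2 hN)),
      Set.disjoint_iff_inter_eq_empty.1 (by simp [hd]), measureReal_empty, sub_zero, h1]
  simp only [h4, map_zero] at h3
  have := tendsto_nhds_unique h3 tendsto_const_nhds
  norm_num at this

end Pool.Agent.H26.StoneG
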