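import Mathlib

set_option autoImplicit false

open Set Topology Filter

namespace Pool.Agent.H26.Ultra

abbrev U := Ultrafilter ℕ

lemma mem_bind {u : U} {f : ℕ → U} {S : Set ℕ} : S ∈ u.bind f ↔ {n | S ∈ f n} ∈ u := Iff.rfl

lemma sup {u : U} {S T : Set ℕ} (h : S ∈ u) (hs : S ⊆ T) : T ∈ u :=
  mem_of_superset (f := (u : Filter ℕ)) h hs

lemma inter {u : U} {S T : Set ℕ} (h : S ∈ u) (h' : T ∈ u) : S ∩ T ∈ u :=
  inter_mem (f := (u : Filter ℕ)) h h'

lemma compl {u : U} {S : Set ℕ} (h : S ∉ u) : Sᶜ ∈ u := Ultrafilter.compl_mem_iff_notMem.2 h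

lemma eq_pure {u : U} {n : ℕ} : u = pure n ↔ {n} ∈ u :=
  ⟨fun h => by simp [h], fun h => Ultrafilter.eq_of_le (le_pure_iff.2 h)⟩

lemma map_bind (u : U) (f : ℕ → U) (g : ℕ → ℕ) :
    (u.bind f).map g = u.bind fun n => (f n).map g := rfl

lemma bind_congr {u : U} {f g : ℕ → U} (h : {n | f n = g n} ∈ u) : u.bind f = u.bind g :=
  Ultrafilter.eq_of_le fun S hS => mem_bind.2 (sup (inter h (mem_bind.1 hS)) fun n hn => by
    have : S ∈ g n := hn.2
    rwa [← (hn.1 : f n = g n)] at this)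

lemma map_pure_iff {w : U} {P : ℕ → ℕ} {n : ℕ} : w.map P = pure n ↔ {k | P k = n} ∈ w := eq_pure

lemma map_congr {u : U} {f g : ℕ → ℕ} (h : {n | f n = g n} ∈ u) : u.map f = u.map g :=
  bind_congr (f := fun n => pure (f n)) (g := fun n => pure (g n)) (sup h fun _ hn => congrArg pure hn)

lemma bind_pure' {u : U} {f : ℕ → U} {c : ℕ → ℕ} (h : {n | f n = pure (c n)} ∈ u) :
    u.bind f = u.map c := bind_congr h

lemma tendsto_bind (u : U) (f : ℕ → U) : Tendsto f u (𝓝 (u.bind f)) := by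
  refine (ultrafilterBasis_is_basis.nhds_hasBasis.tendsto_right_iff).2 ?_
  rintro _ ⟨⟨S, rfl⟩, hS⟩
  exact hS

lemma bind_mem_closure {u : U} {f : ℕ → U} {A : Set ℕ} (hA : A ∈ u) : u.bind f ∈ closure (f '' A) :=
  mem_closure_of_tendsto (tendsto_bind u f) (sup hA fun _ hn => mem_image_of_mem f hn)

lemma mem_closure {w : U} {D : Set U} : w ∈ closure D ↔ ∀ S ∈ w, ∃ d ∈ D, S ∈ d := by
  rw [ultrafilterBasis_is_basis.mem_closure_iff]
  constructor
  · intro h S hS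
    obtain ⟨d, h1, h2⟩ := h _ ⟨S, rfl⟩ hS
    exact ⟨d, h2, h1⟩
  · rintro h _ ⟨S, rfl⟩ hS
    obtain ⟨d, h1, h2⟩ := h S hS
    exact ⟨d, h2, h1⟩

lemma map_of_closure {w t : U} {D : Set U} (hw : w ∈ closure D) {g : ℕ → ℕ}
    (h : ∀ d ∈ D, d.map g = t) : w.map g = t :=
  (Ultrafilter.eq_of_le fun S hS => by
    obtain ⟨d, h1, h2⟩ := mem_closure.1 hw _ hS
    rw [← h d h1]; exact h2).symm

lemma no_color {u : U} {f : ℕ → ℕ} (h : u.map f = u) (c : ℕ → Bool) (S : Set ℕ)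
    (hc : ∀ n ∈ S, c (f n) ≠ c n) : S ∉ u := fun hS => by
  obtain ⟨b, hb⟩ := (u.map c).eq_pure_of_finite
  have h1 : c ⁻¹' {b} ∈ u := by rw [← Ultrafilter.mem_map, hb]; simp
  have h2 : f ⁻¹' (c ⁻¹' {b}) ∈ u := by rw [← Ultrafilter.mem_map, h]; exact h1
  obtain ⟨n, ⟨hn1, hn2⟩, hn3⟩ := u.nonempty_of_mem (inter (inter hS h1) h2)
  exact hc n hn1 ((hn3 : c (f n) = b).trans (hn2 : c n = b).symm)

/-- The three-set lemma. -/
lemma fix_of_map {u : U} {f : ℕ → ℕ} (h : u.map f = u) : {n | f n = n} ∈ u := by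
  classical
  have h1 : {n | f n < n} ∉ u := by
    obtain ⟨c, hc⟩ : ∃ c : ℕ → Bool, ∀ n, c n = if f n < n then !c (f n) else false :=
      ⟨(wellFounded_lt (α := ℕ)).fix fun n ih => if h : f n < n then !ih (f n) h else false,
        fun n => by rw [WellFounded.fix_eq]; split_ifs <;> rfl⟩
    refine no_color h c _ fun n hn => ?_
    rw [hc n, if_pos (show f n < n from hn)]; cases c (f n) <;> simp
  have h2 : {n | n < f n} ∉ u := by
    have : ∀ N : ℕ, ∃ c : ℕ → Bool, ∀ n < N, n < f n → c (f n) ≠ c n := fun N => by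
      obtain ⟨c, hc⟩ : ∃ c : ℕ → Bool, ∀ n, c n = if N - f n < N - n then !c (f n) else false :=
        ⟨(InvImage.wf (fun n => N - n) (wellFounded_lt (α := ℕ))).fix
          fun n ih => if h : N - f n < N - n then !ih (f n) h else false,
          fun n => by rw [WellFounded.fix_eq]; split_ifs <;> rfl⟩
      refine ⟨c, fun n hn hf => ?_⟩
      rw [hc n, if_pos (by omega)]; cases c (f n) <;> simp
    choose c hc using this
    choose d hd using fun n => ((hyperfilter ℕ).map fun N => c N n).eq_pure_of_finite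
    have hd' : ∀ n, {N | c N n = d n} ∈ hyperfilter ℕ := fun n => by
      change (fun N => c N n) ⁻¹' {d n} ∈ _
      rw [← Ultrafilter.mem_map, hd]; simp
    refine no_color h d _ fun n hn => ?_
    have h3 : Ioi n ∈ hyperfilter ℕ := Nat.hyperfilter_le_atTop (Ioi_mem_atTop n)
    obtain ⟨N, ⟨a, b⟩, e⟩ := (hyperfilter ℕ).nonempty_of_mem
      (inter (inter (hd' n) (hd' (f n))) h3)
    rw [← (a : c N n = d n), ← (b : c N (f n) = d (f n))]
    exact hc N n e hn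
  by_contra h3
  obtain ⟨n, ⟨a, b⟩, e⟩ := u.nonempty_of_mem (inter (inter (compl h1) (compl h2)) (compl h3))
  exact e (le_antisymm (not_lt.1 b) (not_lt.1 a))

/-- Frolík's lemma. -/
lemma frolik {x y : ℕ → U} {A B : Set ℕ} {w : U} (h1 : w ∈ closure (x '' A))
    (h2 : w ∈ closure (y '' B)) :
    (∃ n ∈ A, x n ∈ closure (y '' B)) ∨ ∃ m ∈ B, y m ∈ closure (x '' A) := by
  by_contra hn
  push Not at hn
  have key : ∀ (x y : ℕ → U) (A B : Set ℕ), (∀ n ∈ A, x n ∉ closure (y '' B)) →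
      ∃ S : ℕ → Set ℕ, ∀ n ∈ A, S n ∈ x n ∧ ∀ m ∈ B, (S n)ᶜ ∈ y m := fun x y A B h => by
    have : ∀ n, ∃ S : Set ℕ, n ∈ A → S ∈ x n ∧ ∀ m ∈ B, Sᶜ ∈ y m := fun n => by
      by_cases hn : n ∈ A
      · have := h n hn
        rw [mem_closure] at this
        push Not at this
        obtain ⟨S, hS, hS'⟩ := this
        exact ⟨S, fun _ => ⟨hS, fun m hm => compl (hS' _ ⟨m, hm, rfl⟩)⟩⟩
      · exact ⟨∅, fun h => absurd h hn⟩
    choose S hS using this
    exact ⟨S, hS⟩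
  obtain ⟨S, hS⟩ := key x y A B hn.1
  obtain ⟨T, hT⟩ := key y x B A hn.2
  have fin : ∀ (t : U) (P : Set ℕ) (R : ℕ → Set ℕ) (n : ℕ), (∀ m ∈ P, (R m)ᶜ ∈ t) →
      {k | ∀ m ∈ P ∩ Iic n, k ∉ R m} ∈ t := fun t P R n h =>
    (eventually_all_finite (l := (t : Filter ℕ)) ((finite_Iic n).inter_of_right P)).2
      fun m hm => h m hm.1
  by_cases hw : {k | ∃ n ∈ A, k ∈ S n ∧ ∀ m ∈ B ∩ Iic n, k ∉ T m} ∈ w
  · obtain ⟨_, ⟨m, hm, rfl⟩, h⟩ := mem_closure.1 h2 _ hw
    obtain ⟨k, ⟨⟨n, hn, k1, k2⟩, k3⟩, k4⟩ := (y m).nonempty_of_mem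
      (inter (inter h (hT m hm).1) (fin (y m) A S m fun n hn => (hS n hn).2 m hm))
    rcases le_total m n with h | h
    · exact k2 m ⟨hm, h⟩ k3
    · exact k4 n ⟨hn, h⟩ k1
  · obtain ⟨_, ⟨n, hn, rfl⟩, h⟩ := mem_closure.1 h1 _ (compl hw)
    obtain ⟨k, ⟨k1, k2⟩, k3⟩ := (x n).nonempty_of_mem
      (inter (inter h (hS n hn).1) (fin (x n) B T n fun m hm => (hT m hm).2 n hn))
    exact k1 ⟨n, hn, k2, k3⟩

/-- A weak P-point that is a limit is so trivially. -/
lemma wp_cases {u t : U}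
    (hu : ∀ F : Set U, F.Countable → (∀ w ∈ F, (∀ n, w ≠ pure n) ∧ w ≠ u) → u ∉ closure F)
    {x : ℕ → U} (h : t.bind x = u) :
    (∃ c : ℕ → ℕ, {n | x n = pure (c n)} ∈ t) ∨ {n | x n = u} ∈ t := by
  by_contra hn
  push Not at hn
  have : ∀ n, ∃ k, (∃ k, x n = pure k) → x n = pure k := fun n => by
    by_cases h : ∃ k, x n = pure k
    · obtain ⟨k, hk⟩ := h; exact ⟨k, fun _ => hk⟩
    · exact ⟨0, fun h' => absurd h' h⟩
  choose c hc using this
  refine hu _ ((to_countable _).image x) ?_ (h ▸ bind_mem_closure (inter (compl (hn.1 c)) (compl hn.2)))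
  rintro _ ⟨n, hn, rfl⟩
  exact ⟨fun k hk => hn.1 (hc n ⟨k, hk⟩), hn.2⟩

lemma rows {a : U} {x y : ℕ → U} {P : ℕ → ℕ} (h : a.bind x = a.bind y)
    (hx : {n | (x n).map P = pure n} ∈ a) (hy : {n | (y n).map P = pure n} ∈ a) :
    {n | x n = y n} ∈ a := by
  by_contra hn
  have : ∀ n, ∃ T : Set ℕ, x n ≠ y n → T ∈ x n ∧ T ∉ y n := fun n => by
    by_contra h
    push Not at h
    exact (h ∅).1 (Ultrafilter.eq_of_le fun T hT => (h T).2 hT).symm
  choose T hT using this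
  have h1 : {k | k ∈ T (P k)} ∈ a.bind x := mem_bind.2 (sup (inter hx (compl hn)) fun n hn =>
    sup (inter (map_pure_iff.1 hn.1) (hT n hn.2).1) fun k hk => by
      have : P k = n := hk.1
      rw [mem_setOf_eq, this]; exact hk.2)
  rw [h] at h1
  obtain ⟨n, ⟨a1, a2⟩, a3⟩ := a.nonempty_of_mem (inter (inter (mem_bind.1 h1) hy) (compl hn))
  refine (hT n a3).2 (sup (inter a1 (map_pure_iff.1 a2)) fun k hk => ?_)
  have : P k = n := hk.2
  exact this ▸ hk.1

/-- The tensor product, moved to `ℕ` by `Nat.pair`. -/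
def tens (u v : U) : U := u.bind fun n => v.map (Nat.pair n)

lemma row_fst (v : U) (n : ℕ) : (v.map (Nat.pair n)).map (fun k => k.unpair.1) = pure n :=
  eq_pure.2 (univ_mem' (f := (v : Filter ℕ)) fun m => by simp)

lemma row_snd (v : U) (n : ℕ) : (v.map (Nat.pair n)).map (fun k => k.unpair.2) = v := by
  rw [Ultrafilter.map_map]; simp [Function.comp_def]

lemma tens_fst (u v : U) : (tens u v).map (fun k => k.unpair.1) = u := by
  simp only [tens, map_bind, row_fst]; rfl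

lemma tens_snd (u v : U) : (tens u v).map (fun k => k.unpair.2) = v := by
  simp only [tens, map_bind, row_snd]
  exact Ultrafilter.eq_of_le fun S hS => univ_mem' (f := (u : Filter ℕ)) fun _ => hS

end Pool.Agent.H26.Ultra
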