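import Mathlib

set_option autoImplicit false

namespace Pool.Agent.H26.Whitley

open Filter Topology
open scoped ENNReal

noncomputable abbrev A := lp (fun _ : List Bool => ℂ) ∞

noncomputable def c0 : Submodule ℂ A where
  carrier := {f | Tendsto f cofinite (𝓝 0)}
  add_mem' {f g} hf hg := by
    have := Tendsto.add hf hg
    rw [add_zero] at this
    exact this
  zero_mem' := by
    change Tendsto (fun _ => (0 : ℂ)) cofinite (𝓝 0)
    exact tendsto_const_nhds
  smul_mem' c f hf := by
    have := Tendsto.const_smul hf c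
    rw [smul_zero] at this
    exact this

instance c0_closed : IsClosed (c0 : Set A) := by
  refine isClosed_of_closure_subset fun f hf => ?_
  change Tendsto f cofinite (𝓝 0)
  rw [Metric.tendsto_nhds]
  intro ε hε
  obtain ⟨g, hg, hd⟩ := Metric.mem_closure_iff.mp hf (ε / 2) (by positivity)
  filter_upwards [Metric.tendsto_nhds.mp hg (ε / 2) (by positivity)] with l hl
  have := lp.norm_apply_le_norm ENNReal.top_ne_zero (f - g) l
  rw [← dist_eq_norm, lp.coeFn_sub, Pi.sub_apply, ← dist_eq_norm] at this
  linarith [dist_triangle (f l) (g l) 0]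

noncomputable abbrev Q := A ⧸ c0

noncomputable def q : A →L[ℂ] Q := c0.mkQL

theorem q_le (a : A) : ‖q a‖ ≤ ‖a‖ := Submodule.Quotient.norm_mk_le c0 a

theorem lift (b : Q) : ∃ a, q a = b ∧ ‖a‖ ≤ 2 * ‖b‖ := by
  by_cases h : b = 0
  · exact ⟨0, by simp [h], by simp [h]⟩
  · obtain ⟨a, h1, h2⟩ := Submodule.Quotient.norm_mk_lt b (norm_pos_iff.mpr h)
    exact ⟨a, h1, by linarith⟩

def Pre (f : ℕ → Bool) (l : List Bool) : Prop := l = List.ofFn fun i : Fin l.length => f i

open Classical in
noncomputable def u (f : ℕ → Bool) : A :=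
  ⟨fun l => if Pre f l then 1 else 0, memℓp_infty ⟨1, by
    rintro _ ⟨l, rfl⟩; simp only; split_ifs <;> simp⟩⟩

open Classical in
theorem u_apply (f : ℕ → Bool) (l : List Bool) : u f l = if Pre f l then 1 else 0 := rfl

theorem u_not (f : ℕ → Bool) : q (u f) ≠ 0 := by
  intro h
  have h1 : Tendsto (u f) cofinite (𝓝 0) := (Submodule.Quotient.mk_eq_zero c0).mp h
  have inj : Function.Injective fun n : ℕ => List.ofFn fun i : Fin n => f i := by
    intro n m e
    simpa using congrArg List.length e
  have h2 := h1.comp inj.tendsto_cofinite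
  have h3 : (u f ∘ fun n : ℕ => List.ofFn fun i : Fin n => f i) = fun _ => 1 := by
    ext n
    rw [Function.comp, u_apply, if_pos]
    exact List.ext_getElem (by simp) (by simp)
  rw [h3] at h2
  exact one_ne_zero (tendsto_nhds_unique tendsto_const_nhds h2)

theorem comb (F : Finset (ℕ → Bool)) (c : (ℕ → Bool) → ℂ) (hc : ∀ f, ‖c f‖ ≤ 1) :
    ‖q (∑ f ∈ F, c f • u f)‖ ≤ 1 := by
  classical
  have : ∀ f g : ℕ → Bool, ∃ n, f ≠ g → f n ≠ g n := fun f g => by
    by_cases h : f = g
    · exact ⟨0, fun h' => absurd h h'⟩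
    · obtain ⟨n, hn⟩ := Function.ne_iff.mp h
      exact ⟨n, fun _ => hn⟩
  choose d hd using this
  let N := (F ×ˢ F).sup fun p => d p.1 p.2
  set w := ∑ f ∈ F, c f • u f with hw
  have key : ∀ l : List Bool, N < l.length → ‖w l‖ ≤ 1 := by
    intro l hl
    have e : w l = ∑ f ∈ F, c f * u f l := by
      rw [hw, lp.coeFn_sum, Finset.sum_apply]; rfl
    rw [e]
    by_cases h : ∃ f ∈ F, Pre f l
    · obtain ⟨f, hf, hp⟩ := h
      rw [Finset.sum_eq_single f, u_apply, if_pos hp, mul_one]
      · exact hc f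
      · intro g hg hne
        rw [u_apply, if_neg, mul_zero]
        intro hg'
        have h1 : d g f ≤ N := Finset.le_sup (f := fun p : _ × _ => d p.1 p.2)
          (Finset.mk_mem_product hg hf)
        have := List.ofFn_injective (hg'.symm.trans hp)
        exact hd g f hne (congrFun this ⟨d g f, by omega⟩)
      · exact fun h => absurd hf h
    · rw [Finset.sum_eq_zero fun f hf => by rw [u_apply, if_neg fun g => h ⟨f, hf, g⟩, mul_zero]]
      simp
  have hb : ∀ l : List Bool, ‖if N < l.length then w l else 0‖ ≤ 1 := by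
    intro l
    split_ifs with h
    exacts [key l h, by simp]
  let v : A := ⟨fun l => if N < l.length then w l else 0, memℓp_infty ⟨1, by
    rintro _ ⟨l, rfl⟩; exact hb l⟩⟩
  have e : q w = q v := by
    refine (Submodule.Quotient.eq c0).mpr ?_
    change Tendsto (w - v : A) cofinite (𝓝 0)
    refine tendsto_const_nhds.congr' ?_
    filter_upwards [(List.finite_length_le Bool N).compl_mem_cofinite] with l hl
    have : N < l.length := by simpa using hl
    rw [lp.coeFn_sub, Pi.sub_apply]
    change 0 = w l - if N < l.length then w l else 0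
    rw [if_pos this, sub_self]
  rw [e]
  exact (q_le v).trans (lp.norm_le_of_forall_le zero_le_one hb)

theorem count (ψ : Q →L[ℂ] ℂ) : (Function.support fun f => ‖ψ (q (u f))‖).Countable := by
  refine Summable.countable_support (summable_of_sum_le (c := ‖ψ‖) (fun _ => norm_nonneg _) ?_)
  intro F
  have : ∀ z : ℂ, ∃ c : ℂ, ‖c‖ ≤ 1 ∧ c * z = ‖z‖ := fun z => by
    obtain ⟨c, h1, h2⟩ := Complex.exists_norm_eq_mul_self z
    exact ⟨c, h1.le, h2.symm⟩
  choose c h1 h2 using this
  have h3 := (ψ.le_opNorm _).trans (mul_le_mul_of_nonneg_left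
    (comb F (fun f => c (ψ (q (u f)))) fun f => h1 _) (norm_nonneg _))
  simp only [map_sum, map_smul, smul_eq_mul, h2, mul_one] at h3
  rw [← Complex.ofReal_sum, Complex.norm_real] at h3
  exact (le_abs_self _).trans h3

/-- Phillips' lemma: the quotient map `ℓ∞ → ℓ∞ / c₀` has no bounded linear right inverse. -/
theorem noright (r : Q →L[ℂ] A) : ¬ ∀ b, q (r b) = b := by
  intro h
  have hc := Set.countable_iUnion fun l : List Bool =>
    count ((lp.evalCLM ℂ (fun _ : List Bool => ℂ) ∞ l).comp r)
  obtain ⟨f, hf⟩ : ∃ f, f ∉ ⋃ l : List Bool, Function.support fun f =>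
      ‖((lp.evalCLM ℂ (fun _ : List Bool => ℂ) ∞ l).comp r) (q (u f))‖ := by
    by_contra hh
    push Not at hh
    haveI : Countable (ℕ → Bool) := Set.countable_univ_iff.mp (hc.mono fun f _ => hh f)
    obtain ⟨g, hg⟩ := exists_surjective_nat (ℕ → Bool)
    obtain ⟨n, hn⟩ := hg fun n => !g n n
    simpa using congrFun hn n
  apply u_not f
  rw [← h (q (u f))]
  have : r (q (u f)) = 0 := by
    ext l
    simp only [Set.mem_iUnion, Function.mem_support, not_exists, not_not, norm_eq_zero] at hf
    exact hf l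
  rw [this, map_zero]

end Pool.Agent.H26.Whitley
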